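import Pool.Agent.Lib_MP_33fb9b_half.ADefs
import Pool.Agent.Lib_MP_33fb9b_ks.Block

set_option autoImplicit false

/-!
# Part A at scale `S`: dense blocks carry energy at their own scale (A.2)
-/

namespace Pool.Agent.Thin.RP

open Finset

variable {n : ℕ} (X : RP n)

/-- the constant of (A.2) -/
noncomputable def c10s (η c : ℝ) : ℝ := (η / 32) * (η / 8) / (1 + (1 + 1 / c) * (64 / η))

theorem c10s_pos {η c : ℝ} (hη : 0 < η) (hc : 0 < c) : 0 < c10s η c := by
  unfold c10s
  positivity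

/-- a sum of energies over items at distance in `[a, s]` from `i` is at most `eRS i a s` -/
theorem block_sum_le_eRS {S : ℝ} (hS : 0 ≤ S) (i : ℕ) (a s : ℝ) (T : Finset ℕ)
    (hT : ∀ j ∈ T, j < n ∧ a ≤ |(j : ℝ) - i| ∧ |(j : ℝ) - i| ≤ s) :
    ∑ j ∈ T, X.eS S i j ≤ X.eRS S i a s := by
  unfold eRS
  apply Finset.sum_le_sum_of_subset_of_nonneg
  · intro j hj
    rw [mem_filter, mem_range]
    exact hT j hj
  · intro j _ _
    exact X.eS_nonneg hS i j

/-- inside a block of mean length `≤ s`, `p ≤ 2 s e` -/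
theorem blockS_p_le {c C S : ℝ} (hX : X.GoodS c C S) (hS : 0 < S) {k s b t : ℕ} (hk : k + s < n)
    (hSs : S ≤ s) (hg : X.m (k + s) - X.m k ≤ s) (h1 : k ≤ b) (h2 : b < t) (h3 : t ≤ k + s) :
    X.p b t ≤ 2 * s * X.eS S b t := by
  have ht : t < n := lt_of_le_of_lt h3 hk
  rw [X.p_eqS hX hS h2 ht]
  apply mul_le_mul_of_nonneg_right _ (X.eS_nonneg hS.le b t)
  have h4 := X.mleS hX h3 hk
  have h5 := X.mleS hX h1 (h2.trans ht)
  linarith

/-- sum of `p b k` over the block -/
theorem blockS_right {c C S : ℝ} (hX : X.GoodS c C S) (hS : 0 < S) {k s b t : ℕ} {a : ℝ}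
    (ha : 0 ≤ a) (hk : k + s < n) (hSs : S ≤ s) (hg : X.m (k + s) - X.m k ≤ s) (h1 : k ≤ b)
    (h3 : t ≤ k + s) :
    ∑ j ∈ Ioo b t, X.p b j ≤ a + 2 * s * X.eRS S b a s := by
  rw [← Finset.sum_filter_add_sum_filter_not (Ioo b t) (fun j : ℕ => ((j : ℝ) - b) < a)]
  apply add_le_add
  · calc ∑ j ∈ (Ioo b t).filter (fun j : ℕ => ((j : ℝ) - b) < a), X.p b j
        ≤ ∑ _j ∈ (Ioo b t).filter (fun j : ℕ => ((j : ℝ) - b) < a), (1 : ℝ) :=
          Finset.sum_le_sum fun j _ => X.p_le_one b j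
      _ = (((Ioo b t).filter (fun j : ℕ => ((j : ℝ) - b) < a)).card : ℝ) := by
          rw [Finset.sum_const, nsmul_eq_mul, mul_one]
      _ ≤ a := block_near_right b t ha
  · calc ∑ j ∈ (Ioo b t).filter (fun j : ℕ => ¬ ((j : ℝ) - b) < a), X.p b j
        ≤ ∑ j ∈ (Ioo b t).filter (fun j : ℕ => ¬ ((j : ℝ) - b) < a), 2 * (s : ℝ) * X.eS S b j := by
          apply Finset.sum_le_sum
          intro j hj
          have hj' := mem_Ioo.mp (mem_filter.mp hj).1
          exact X.blockS_p_le hX hS hk hSs hg h1 hj'.1 (by omega)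
      _ = 2 * s * ∑ j ∈ (Ioo b t).filter (fun j : ℕ => ¬ ((j : ℝ) - b) < a), X.eS S b j := by
          rw [Finset.mul_sum]
      _ ≤ 2 * s * X.eRS S b a s := by
          apply mul_le_mul_of_nonneg_left _ (by positivity)
          apply X.block_sum_le_eRS hS.le
          intro j hj
          have hj1 := mem_filter.mp hj
          have hj' := mem_Ioo.mp hj1.1
          have hc1 : (b : ℝ) < j := by exact_mod_cast hj'.1
          have hc2 : (j : ℝ) ≤ k + s := by
            have : j ≤ k + s := by omega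
            exact_mod_cast this
          have hc3 : (k : ℝ) ≤ b := by exact_mod_cast h1
          refine ⟨by omega, ?_, ?_⟩
          · rw [abs_of_pos (by linarith)]
            exact not_lt.mp hj1.2
          · rw [abs_of_pos (by linarith)]
            linarith

/-- sum of `p k t` over the block -/
theorem blockS_left {c C S : ℝ} (hX : X.GoodS c C S) (hS : 0 < S) {k s b t : ℕ} {a : ℝ}
    (ha : 0 ≤ a) (hk : k + s < n) (hSs : S ≤ s) (hg : X.m (k + s) - X.m k ≤ s) (h1 : k ≤ b)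
    (h3 : t ≤ k + s) :
    ∑ j ∈ Ioo b t, X.p j t ≤ a + 2 * s * X.eRS S t a s := by
  rw [← Finset.sum_filter_add_sum_filter_not (Ioo b t) (fun j : ℕ => ((t : ℝ) - j) < a)]
  apply add_le_add
  · calc ∑ j ∈ (Ioo b t).filter (fun j : ℕ => ((t : ℝ) - j) < a), X.p j t
        ≤ ∑ _j ∈ (Ioo b t).filter (fun j : ℕ => ((t : ℝ) - j) < a), (1 : ℝ) :=
          Finset.sum_le_sum fun j _ => X.p_le_one j t
      _ = (((Ioo b t).filter (fun j : ℕ => ((t : ℝ) - j) < a)).card : ℝ) := by
          rw [Finset.sum_const, nsmul_eq_mul, mul_one]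
      _ ≤ a := block_near_left b t ha
  · calc ∑ j ∈ (Ioo b t).filter (fun j : ℕ => ¬ ((t : ℝ) - j) < a), X.p j t
        ≤ ∑ j ∈ (Ioo b t).filter (fun j : ℕ => ¬ ((t : ℝ) - j) < a), 2 * (s : ℝ) * X.eS S t j := by
          apply Finset.sum_le_sum
          intro j hj
          have hj' := mem_Ioo.mp (mem_filter.mp hj).1
          rw [X.eS_comm S t j]
          exact X.blockS_p_le hX hS hk hSs hg (by omega) hj'.2 h3
      _ = 2 * s * ∑ j ∈ (Ioo b t).filter (fun j : ℕ => ¬ ((t : ℝ) - j) < a), X.eS S t j := by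
          rw [Finset.mul_sum]
      _ ≤ 2 * s * X.eRS S t a s := by
          apply mul_le_mul_of_nonneg_left _ (by positivity)
          apply X.block_sum_le_eRS hS.le
          intro j hj
          have hj1 := mem_filter.mp hj
          have hj' := mem_Ioo.mp hj1.1
          have hc1 : (j : ℝ) < t := by exact_mod_cast hj'.2
          have hc2 : (t : ℝ) ≤ k + s := by exact_mod_cast h3
          have hc3 : (k : ℝ) ≤ j := by
            have : k ≤ j := by omega
            exact_mod_cast this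
          refine ⟨by omega, ?_, ?_⟩
          · rw [abs_sub_comm, abs_of_pos (by linarith)]
            exact not_lt.mp hj1.2
          · rw [abs_sub_comm, abs_of_pos (by linarith)]
            linarith

/-- the inequality for one pair `(b, t)` -/
theorem blockS_pair {c C S : ℝ} (hX : X.GoodS c C S) (hS : 0 < S) (hc : 0 < c) {η : ℝ} (hη : 0 < η)
    (hη1 : η < 1) {k s b t t0 : ℕ} (hs : 16 / η ≤ (s : ℝ)) (hSs : S ≤ s) (hk : k + s < n)
    (hg : X.m (k + s) - X.m k ≤ (1 - η / 2) * s) (ht0 : (t0 : ℝ) ≤ η * s / 16)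
    (hb1 : k ≤ b) (hb2 : b < k + t0) (ht1 : k + s - t0 ≤ t) (ht2 : t < k + s) :
    η / 8 ≤ X.eRS S b (η / 32 * s) s + X.eRS S t (η / 32 * s) s + (1 + 1 / c) * X.p b t := by
  have hs16 : (16 : ℝ) < 16 / η := by
    rw [lt_div_iff₀ hη]
    nlinarith
  have hs0 : (0 : ℝ) < s := by linarith
  have hgs : X.m (k + s) - X.m k ≤ s := by
    have : η * (s : ℝ) ≥ 0 := by positivity
    nlinarith
  have ht0s : (2 * t0 : ℝ) ≤ s := by nlinarith
  have ht0s' : 2 * t0 ≤ s := by exact_mod_cast ht0s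
  have hbt : b < t := by omega
  have htn : t < n := by omega
  have ha : 0 ≤ η / 32 * (s : ℝ) := by positivity
  have h1 := X.cross hbt htn
  rw [Finset.sum_add_distrib] at h1
  have h2 := X.blockS_right hX hS ha hk hSs hgs hb1 (t := t) ht2.le
  have h3 := X.blockS_left hX hS ha hk hSs hgs hb1 (t := t) ht2.le
  have h4 : X.m t - X.m b ≤ (1 - η / 2) * s := by
    have h5 := X.mleS hX ht2.le hk
    have h6 := X.mleS hX hb1 (hbt.trans htn)
    linarith
  have h7 : (s : ℝ) - 2 * t0 ≤ (t : ℝ) - b := by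
    have h8 : s + b ≤ t + 2 * t0 := by omega
    have h9 : (s : ℝ) + b ≤ t + 2 * t0 := by exact_mod_cast h8
    linarith
  have hp := X.p_nonneg b t
  have h10 : X.neg b t ≤ 2 * (s : ℝ) * (1 / c * X.p b t) := by
    have h11 := hX.a3 b t hbt htn
    have h12 : X.m t - X.m b + S ≤ 2 * s := by
      have h5 := X.mleS hX ht2.le hk
      have h6 := X.mleS hX hb1 (hbt.trans htn)
      linarith
    have h13 : c * X.neg b t ≤ X.p b t * (2 * s) := h11.trans (mul_le_mul_of_nonneg_left h12 hp)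
    have h14 : X.neg b t ≤ X.p b t * (2 * s) / c := by
      rw [le_div_iff₀ hc]
      linarith
    calc X.neg b t ≤ X.p b t * (2 * s) / c := h14
      _ = 2 * (s : ℝ) * (1 / c * X.p b t) := by ring
  have h15 : X.p b t ≤ (s : ℝ) * X.p b t := by
    have : (1 : ℝ) ≤ s := by linarith
    nlinarith
  have h16 : 2 * (s : ℝ) * (η / 8) ≤ 2 * s * (X.eRS S b (η / 32 * s) s + X.eRS S t (η / 32 * s) s
      + (1 + 1 / c) * X.p b t) := by
    have h17 : 3 * (η * s) / 8 ≤ (t : ℝ) - b - (X.m t - X.m b) := by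
      have : (1 - η / 2) * (s : ℝ) = s - η * s / 2 := by ring
      rw [this] at h4
      linarith
    have h18 : 2 * (s : ℝ) * (X.eRS S b (η / 32 * s) s + X.eRS S t (η / 32 * s) s
      + (1 + 1 / c) * X.p b t) = 2 * s * X.eRS S b (η / 32 * s) s + 2 * s * X.eRS S t (η / 32 * s) s
        + 2 * (s * X.p b t) + 2 * s * (1 / c * X.p b t) := by ring
    rw [h18]
    have h19 : η / 32 * (s : ℝ) = η * s / 32 := by ring
    have h20 : 2 * (s : ℝ) * (η / 8) = η * s / 4 := by ring
    have h21 : 0 ≤ η * (s : ℝ) := by positivity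
    have h22 : 0 ≤ (s : ℝ) * X.p b t := by positivity
    rw [h20]
    linarith
  exact le_of_mul_le_mul_left h16 (by positivity)

/-- (A.2) DENSE BLOCK. -/
theorem blockS {c C S : ℝ} (hX : X.GoodS c C S) (hS : 0 < S) (hc : 0 < c) {η : ℝ} (hη : 0 < η)
    (hη1 : η < 1) {k s : ℕ} (hs : 16 / η ≤ (s : ℝ)) (hSs : S ≤ s) (hk : k + s < n)
    (hg : X.m (k + s) - X.m k ≤ (1 - η / 2) * s) :
    c10s η c * s ≤ ∑ i ∈ Ico k (k + s), X.eRS S i (η / 32 * s) s := by
  have hs16 : (16 : ℝ) < 16 / η := by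
    rw [lt_div_iff₀ hη]
    nlinarith
  have hs0 : (0 : ℝ) < s := by linarith
  have hηs : 16 ≤ η * (s : ℝ) := by
    rw [div_le_iff₀ hη] at hs
    linarith
  have hgs : X.m (k + s) - X.m k ≤ s := by nlinarith
  set t0 : ℕ := ⌊η * (s : ℝ) / 16⌋₊ with ht0def
  have ht0 : (t0 : ℝ) ≤ η * s / 16 := Nat.floor_le (by positivity)
  have ht0' : η * s / 32 ≤ (t0 : ℝ) := by
    have h1 : 1 ≤ t0 := Nat.le_floor (by push_cast; linarith)
    have h2 : η * (s : ℝ) / 16 < t0 + 1 := Nat.lt_floor_add_one _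
    have h3 : (1 : ℝ) ≤ t0 := by exact_mod_cast h1
    linarith
  have ht0pos : (0 : ℝ) < t0 := by
    have : 0 < η * (s : ℝ) / 32 := by positivity
    linarith
  have ht0s : (2 * t0 : ℝ) ≤ s := by nlinarith
  have ht0s' : 2 * t0 ≤ s := by exact_mod_cast ht0s
  set F : ℕ → ℝ := fun i => X.eRS S i (η / 32 * s) s with hF
  have hF0 : ∀ i, 0 ≤ F i := fun i => X.eRS_nonneg hS.le i _ _
  set SB : ℝ := ∑ b ∈ Ico k (k + t0), F b with hSB
  set ST : ℝ := ∑ t ∈ Ico (k + s - t0) (k + s), F t with hST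
  have hSB0 : 0 ≤ SB := Finset.sum_nonneg fun i _ => hF0 i
  have hST0 : 0 ≤ ST := Finset.sum_nonneg fun i _ => hF0 i
  have cB : ((Ico k (k + t0)).card : ℝ) = t0 := by
    rw [Nat.card_Ico]; congr 1; omega
  have cT : ((Ico (k + s - t0) (k + s)).card : ℝ) = t0 := by
    rw [Nat.card_Ico]; congr 1; omega
  -- sum over all pairs
  have h1 : ∑ b ∈ Ico k (k + t0), ∑ t ∈ Ico (k + s - t0) (k + s), (η / 8)
      ≤ ∑ b ∈ Ico k (k + t0), ∑ t ∈ Ico (k + s - t0) (k + s),
        (F b + F t + (1 + 1 / c) * X.p b t) := by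
    apply Finset.sum_le_sum
    intro b hb
    apply Finset.sum_le_sum
    intro t ht
    have hb' := mem_Ico.mp hb
    have ht' := mem_Ico.mp ht
    exact X.blockS_pair hX hS hc hη hη1 hs hSs hk hg ht0 hb'.1 hb'.2 ht'.1 ht'.2
  have h2 : ∑ b ∈ Ico k (k + t0), ∑ t ∈ Ico (k + s - t0) (k + s), (η / 8)
      = t0 * (t0 * (η / 8)) := by
    rw [Finset.sum_const, Finset.sum_const, nsmul_eq_mul, nsmul_eq_mul, cB, cT]
  have h3 : ∀ b ∈ Ico k (k + t0), ∑ t ∈ Ico (k + s - t0) (k + s),
        (F b + F t + (1 + 1 / c) * X.p b t)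
        ≤ t0 * F b + ST + (1 + 1 / c) * (2 * s * F b) := by
    intro b hb
    have hb' := mem_Ico.mp hb
    rw [Finset.sum_add_distrib, Finset.sum_add_distrib, Finset.sum_const, nsmul_eq_mul, cT,
      ← Finset.mul_sum]
    have h4 : ∑ t ∈ Ico (k + s - t0) (k + s), X.p b t ≤ 2 * s * F b := by
      calc ∑ t ∈ Ico (k + s - t0) (k + s), X.p b t
          ≤ ∑ t ∈ Ico (k + s - t0) (k + s), 2 * (s : ℝ) * X.eS S b t := by
            apply Finset.sum_le_sum
            intro t ht
            have ht' := mem_Ico.mp ht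
            exact X.blockS_p_le hX hS hk hSs hgs hb'.1 (by omega) ht'.2.le
        _ = 2 * s * ∑ t ∈ Ico (k + s - t0) (k + s), X.eS S b t := by rw [Finset.mul_sum]
        _ ≤ 2 * s * F b := by
            apply mul_le_mul_of_nonneg_left _ (by positivity)
            apply X.block_sum_le_eRS hS.le
            intro t ht
            have ht' := mem_Ico.mp ht
            have e1 : s + b ≤ t + 2 * t0 := by omega
            have e2 : (s : ℝ) + b ≤ t + 2 * t0 := by exact_mod_cast e1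
            have e3 : t ≤ k + s := ht'.2.le
            have e4 : (t : ℝ) ≤ k + s := by exact_mod_cast e3
            have e5 : (k : ℝ) ≤ b := by exact_mod_cast hb'.1
            have e6 : b ≤ t := by omega
            have e7 : (b : ℝ) ≤ t := by exact_mod_cast e6
            refine ⟨by omega, ?_, ?_⟩
            · rw [abs_of_nonneg (by linarith)]
              nlinarith
            · rw [abs_of_nonneg (by linarith)]
              linarith
    have h5 : 0 ≤ 1 + 1 / c := by positivity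
    have h6 := mul_le_mul_of_nonneg_left h4 h5
    have h7 : ∑ x ∈ Ico (k + s - t0) (k + s), F x = ST := rfl
    linarith
  have h4 := Finset.sum_le_sum h3
  have h5 : ∑ b ∈ Ico k (k + t0), ((t0 : ℝ) * F b + ST + (1 + 1 / c) * (2 * s * F b))
      = t0 * SB + t0 * ST + (1 + 1 / c) * (2 * s * SB) := by
    rw [Finset.sum_add_distrib, Finset.sum_add_distrib, Finset.sum_const, nsmul_eq_mul, cB,
      ← Finset.mul_sum, ← Finset.mul_sum, ← Finset.mul_sum]
  have h6 : 2 * (s : ℝ) ≤ 64 / η * t0 := by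
    rw [div_mul_eq_mul_div, le_div_iff₀ hη]
    linarith
  have h7 : (1 + 1 / c) * (2 * s * SB) ≤ (1 + 1 / c) * ((64 / η * t0) * SB) := by
    apply mul_le_mul_of_nonneg_left _ (by positivity)
    exact mul_le_mul_of_nonneg_right h6 hSB0
  have h8 : (t0 : ℝ) * (t0 * (η / 8)) ≤ t0 * ((1 + (1 + 1 / c) * (64 / η)) * (SB + ST)) := by
    have h9 : (t0 : ℝ) * ((1 + (1 + 1 / c) * (64 / η)) * (SB + ST))
        = t0 * SB + t0 * ST + (1 + 1 / c) * ((64 / η * t0) * SB)
          + (1 + 1 / c) * ((64 / η * t0) * ST) := by ring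
    have h10 : 0 ≤ (1 + 1 / c) * ((64 / η * t0) * ST) := by positivity
    rw [h9]
    rw [h2] at h1
    linarith
  have h9 := le_of_mul_le_mul_left h8 ht0pos
  have h10 : SB + ST ≤ ∑ i ∈ Ico k (k + s), F i := by
    have hd : Disjoint (Ico k (k + t0)) (Ico (k + s - t0) (k + s)) := by
      rw [Finset.disjoint_left]
      intro x hx hx'
      have a1 := mem_Ico.mp hx
      have a2 := mem_Ico.mp hx'
      omega
    rw [hSB, hST, ← Finset.sum_union hd]
    apply Finset.sum_le_sum_of_subset_of_nonneg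
    · intro x hx
      rcases mem_union.mp hx with h | h
      · have a1 := mem_Ico.mp h
        exact mem_Ico.mpr ⟨a1.1, by omega⟩
      · have a1 := mem_Ico.mp h
        exact mem_Ico.mpr ⟨by omega, a1.2⟩
    · intro i _ _
      exact hF0 i
  have hK : 0 < 1 + (1 + 1 / c) * (64 / η) := by positivity
  have h11 : (η * s / 32) * (η / 8) ≤ (1 + (1 + 1 / c) * (64 / η)) * ∑ i ∈ Ico k (k + s), F i := by
    calc (η * s / 32) * (η / 8) ≤ t0 * (η / 8) :=
          mul_le_mul_of_nonneg_right ht0' (by positivity)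
      _ ≤ (1 + (1 + 1 / c) * (64 / η)) * (SB + ST) := h9
      _ ≤ _ := mul_le_mul_of_nonneg_left h10 hK.le
  unfold c10s
  rw [div_mul_eq_mul_div, div_le_iff₀ hK]
  calc η / 32 * (η / 8) * s = (η * s / 32) * (η / 8) := by ring
    _ ≤ _ := h11
    _ = (∑ i ∈ Ico k (k + s), F i) * (1 + (1 + 1 / c) * (64 / η)) := by ring

end Pool.Agent.Thin.RP
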