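import Pool.Agent.Lib_MP_33fb9b_ks.Basic
import Pool.Agent.Lib_MP_33fb9b_ks.Cross
import Pool.Agent.Lib_MP_33fb9b_ks.Dual
import Pool.Agent.Lib_MP_33fb9b_ks.Persist

set_option autoImplicit false

/-!
# Part A at scale `S`: definitions
(scaled version of part A of `Lib_MP_33fb9b_ks`; `|g|` is replaced by `|g| + S`)
-/

namespace Pool.Agent.Thin.RP

open Finset

variable {n : ℕ} (X : RP n)

/-- energy of a pair at scale `S` (symmetric; `0` on the diagonal) -/
noncomputable def eS (S : ℝ) (i j : ℕ) : ℝ := X.p (min i j) (max i j) / (|X.m i - X.m j| + S)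

/-- energy of `i` with the items at index distance in `[a, b]` -/
noncomputable def eRS (S : ℝ) (i : ℕ) (a b : ℝ) : ℝ :=
  ∑ j ∈ (range n).filter (fun j : ℕ => a ≤ |(j : ℝ) - i| ∧ |(j : ℝ) - i| ≤ b), X.eS S i j

/-- the four hypotheses of part A, at scale `S` -/
structure GoodS (c C S : ℝ) : Prop where
  mono : ∀ i j, i < j → j < n → X.m i ≤ X.m j
  a3 : ∀ i j, i < j → j < n → c * X.neg i j ≤ X.p i j * (X.m j - X.m i + S)
  a4 : ∀ i, i < n → ∑ j ∈ range n, X.eS S i j ≤ 1 / c
  a5 : ∀ (Q : ℝ) (i j : ℕ), 1 ≤ Q → i < j → j < n →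
    X.E (fun ω => |(X.h ω i : ℝ) - i|) ≤ Q → X.E (fun ω => |(X.h ω j : ℝ) - j|) ≤ Q →
    X.p i j * ((j : ℝ) - i) ^ 4 ≤ C * Q ^ 4

theorem eS_nonneg {S : ℝ} (hS : 0 ≤ S) (i j : ℕ) : 0 ≤ X.eS S i j :=
  div_nonneg (X.p_nonneg _ _) (add_nonneg (abs_nonneg _) hS)

theorem eS_comm (S : ℝ) (i j : ℕ) : X.eS S i j = X.eS S j i := by
  unfold eS
  rw [min_comm, max_comm, abs_sub_comm]

theorem eS_self (S : ℝ) (i : ℕ) : X.eS S i i = 0 := by
  unfold eS
  rw [min_self, max_self, X.p_self, zero_div]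

theorem eRS_nonneg {S : ℝ} (hS : 0 ≤ S) (i : ℕ) (a b : ℝ) : 0 ≤ X.eRS S i a b :=
  Finset.sum_nonneg fun _ _ => X.eS_nonneg hS _ _

theorem eS_of_lt {c C S : ℝ} (hX : X.GoodS c C S) {i j : ℕ} (hij : i < j) (hj : j < n) :
    X.eS S i j = X.p i j / (X.m j - X.m i + S) := by
  have h := hX.mono i j hij hj
  unfold eS
  rw [min_eq_left hij.le, max_eq_right hij.le, abs_sub_comm, abs_of_nonneg (by linarith)]

/-- `p = (g + S) * e` -/
theorem p_eqS {c C S : ℝ} (hX : X.GoodS c C S) (hS : 0 < S) {i j : ℕ} (hij : i < j) (hj : j < n) :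
    X.p i j = (X.m j - X.m i + S) * X.eS S i j := by
  have h := hX.mono i j hij hj
  rw [X.eS_of_lt hX hij hj]
  field_simp [show X.m j - X.m i + S ≠ 0 by linarith]

theorem mleS {c C S : ℝ} (hX : X.GoodS c C S) {i j : ℕ} (hij : i ≤ j) (hj : j < n) :
    X.m i ≤ X.m j := by
  rcases hij.lt_or_eq with h | h
  · exact hX.mono i j h hj
  · rw [h]

theorem dual_eS (S : ℝ) {i j : ℕ} (hi : i < n) (hj : j < n) :
    X.dual.eS S i j = X.eS S (n - 1 - i) (n - 1 - j) := by
  unfold eS
  rw [X.dual_p (by omega) (by omega), X.dual_m hi, X.dual_m hj]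
  rw [show n - 1 - max i j = min (n - 1 - i) (n - 1 - j) by omega,
    show n - 1 - min i j = max (n - 1 - i) (n - 1 - j) by omega]
  congr 2
  rw [← abs_neg]
  congr 1
  ring

/-- the hypotheses are self-dual -/
theorem GoodS.dual {X : RP n} {c C S : ℝ} (hX : X.GoodS c C S) : X.dual.GoodS c C S := by
  refine ⟨?_, ?_, ?_, ?_⟩
  · intro i j hij hj
    rw [X.dual_m (show i < n by omega), X.dual_m hj]
    have := hX.mono (n - 1 - j) (n - 1 - i) (by omega) (by omega)
    linarith
  · intro i j hij hj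
    rw [X.dual_m (show i < n by omega), X.dual_m hj, X.dual_neg (by omega) hj,
      X.dual_p (by omega) hj]
    have := hX.a3 (n - 1 - j) (n - 1 - i) (by omega) (by omega)
    convert this using 2
    ring
  · intro i hi
    have h1 : ∑ j ∈ range n, X.dual.eS S i j = ∑ j ∈ range n, X.eS S (n - 1 - i) j := by
      apply Finset.sum_bij' (fun j _ => n - 1 - j) (fun j _ => n - 1 - j)
      · intro j hj
        rw [Finset.mem_range] at hj ⊢
        omega
      · intro j hj
        rw [Finset.mem_range] at hj ⊢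
        omega
      · intro j hj
        rw [Finset.mem_range] at hj
        omega
      · intro j hj
        rw [Finset.mem_range] at hj
        omega
      · intro j hj
        rw [Finset.mem_range] at hj
        exact X.dual_eS S hi hj
    rw [h1]
    exact hX.a4 _ (by omega)
  · intro Q i j hQ hij hj h1 h2
    rw [X.dual_abs (by omega)] at h1
    rw [X.dual_abs hj] at h2
    have h3 := hX.a5 Q (n - 1 - j) (n - 1 - i) hQ (by omega) (by omega) h2 h1
    rw [X.dual_p (by omega) hj]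
    have h4 : (((n - 1 - i : ℕ) : ℝ) - ((n - 1 - j : ℕ) : ℝ)) = (j : ℝ) - i := by
      rw [Nat.cast_sub (show i ≤ n - 1 by omega), Nat.cast_sub (show j ≤ n - 1 by omega)]
      ring
    rw [h4] at h3
    exact h3

end Pool.Agent.Thin.RP
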