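import Pool.Agent.Lib_MP_33fb9b_half.Defs
import Pool.Agent.Lib_MP_33fb9b_half.ADefs
import Pool.Agent.Lib_MP_33fb9b_ks.Inst

set_option autoImplicit false

/-!
# Part A at scale `S`: a poset whose entangled pairs are at distance at most `S` gives a good random
permutation
-/

namespace Pool.Agent.Half

open Pool.Agent.BFT Pool.Agent.Thin

section

variable {P : Type} [Fintype P] [PartialOrder P]

theorem dd_le_ds (u v : P) : dd u v ≤ ds u v := by
  unfold dd ds
  apply Ex_mono
  intro σ
  exact max_le (le_abs_self _) (abs_nonneg _)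

theorem dd_le_ds' (u v : P) : dd v u ≤ ds u v := by
  unfold dd ds
  apply Ex_mono
  intro σ
  apply max_le _ (abs_nonneg _)
  rw [abs_sub_comm]
  exact le_abs_self _

/-- the function `al (log (1/al) - 1 + al)` on `[1/4, 1/2]` -/
theorem instS_fun {al : ℝ} (h1 : 1 / 4 ≤ al) (h2 : al ≤ 1 / 2) :
    1 / 25 ≤ al * (Real.log (1 / al) - 1 + al) := by
  have h0 : 0 < al := by linarith
  have h3 : Real.log 2 + (1 - 2 * al) ≤ Real.log (1 / al) := by
    have h4 : (1 : ℝ) / al = 2 * (1 / (2 * al)) := by field_simp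
    rw [h4, Real.log_mul (by norm_num) (by positivity)]
    have h5 := Real.one_sub_inv_le_log_of_pos (show (0 : ℝ) < 1 / (2 * al) by positivity)
    rw [one_div, inv_inv] at h5
    rw [one_div]
    linarith
  have h6 := Real.log_two_gt_d9
  have h7 : (0.19 : ℝ) ≤ Real.log (1 / al) - 1 + al := by linarith
  nlinarith

/-- the facts about a pair in the order of the mean positions -/
theorem instS_pair {S : ℝ} (hS : 1 ≤ S) (hE : Ent P S) (u v : P) (huv : u ≠ v)
    (h : ht u ≤ ht v) :
    1 / 25 * dd u v ≤ BFT.lt v u * (ht v - ht u + S) ∧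
      1 / 25 * BFT.lt v u ≤ nxt v u 1 * (ht v - ht u + S) ∧
      1 / 25 * BFT.lt v u ≤ nxt u v 1 * (ht v - ht u + S) := by
  have hg : 0 ≤ ht v - ht u := by linarith
  have hgS : 0 ≤ ht v - ht u + S := by linarith
  have hn1 : (0 : ℝ) ≤ nxt v u 1 := Pr_nonneg _
  have hn2 : (0 : ℝ) ≤ nxt u v 1 := Pr_nonneg _
  by_cases h1 : u ≤ v
  · have h2 : u < v := lt_of_le_of_ne h1 huv
    rw [inst_dd_zero h2, lt_of_gt h2]
    refine ⟨by simp, by simpa using mul_nonneg hn1 hgS, by simpa using mul_nonneg hn2 hgS⟩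
  by_cases h2 : v ≤ u
  · have h3 : v < u := lt_of_le_of_ne h2 (Ne.symm huv)
    have := inst_ht_lt h3
    exact absurd h (not_le.mpr this)
  have hlog : (1 : ℝ) / 25 ≤ Real.log (1 / (1 / 4)) - 1 := by
    have h4 : (1 : ℝ) / (1 / 4) = 2 ^ 2 := by norm_num
    rw [h4, Real.log_pow]
    have := Real.log_two_gt_d9
    push_cast
    linarith
  rcases lt_or_ge (BFT.lt v u) (1 / 4) with ha | ha
  · obtain ⟨g1, g2, g3, g4⟩ := inst_core (by norm_num) hlog u v h1 h2 ha.le
    have g5 : 1 / 25 * BFT.lt v u ≤ nxt v u 1 * (ht v - ht u + S) := by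
      have : nxt v u 1 * (ht v - ht u) ≤ nxt v u 1 * (ht v - ht u + S) :=
        mul_le_mul_of_nonneg_left (by linarith) hn1
      linarith
    refine ⟨?_, g5, ?_⟩
    · have g7 : nxt v u 1 * (1 / 25 * dd u v) ≤ nxt v u 1 * (BFT.lt v u * (ht v - ht u)) := by
        nlinarith [mul_le_mul_of_nonneg_left g1 g3.le]
      have g8 := le_of_mul_le_mul_left g7 g2
      have : BFT.lt v u * (ht v - ht u) ≤ BFT.lt v u * (ht v - ht u + S) :=
        mul_le_mul_of_nonneg_left (by linarith) g3.le
      linarith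
    · rw [adj_swap u v h1 h2]
      exact g5
  rcases lt_or_ge (BFT.lt u v) (1 / 4) with hb | hb
  · obtain ⟨g1, g2, g3, g4⟩ := inst_core (by norm_num) hlog v u h2 h1 hb.le
    exfalso
    have g5 : nxt u v 1 * (ht u - ht v) ≤ 0 := mul_nonpos_of_nonneg_of_nonpos hn2 (by linarith)
    linarith
  have hds := hE u v huv hb ha
  have hsum := lt_add huv
  have hswap := adj_swap u v h1 h2
  have hkey : 1 / 25 ≤ nxt v u 1 * S := by
    rcases le_total (BFT.lt v u) (1 / 2) with hc | hc
    · have g1 := ineq_ii u v huv (by linarith)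
      have g2 := instS_fun ha hc
      rw [hswap] at g1
      have g3 : nxt v u 1 * dd v u ≤ nxt v u 1 * S :=
        mul_le_mul_of_nonneg_left ((dd_le_ds' u v).trans hds) hn1
      linarith
    · have g1 := ineq_ii v u (Ne.symm huv) (by linarith)
      have g2 := instS_fun hb (by linarith)
      have g3 : nxt v u 1 * dd u v ≤ nxt v u 1 * S :=
        mul_le_mul_of_nonneg_left ((dd_le_ds u v).trans hds) hn1
      linarith
  have hl1 := lt_le_one v u
  have g5 : 1 / 25 * BFT.lt v u ≤ nxt v u 1 * (ht v - ht u + S) := by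
    have : nxt v u 1 * S ≤ nxt v u 1 * (ht v - ht u + S) :=
      mul_le_mul_of_nonneg_left (by linarith) hn1
    linarith
  refine ⟨?_, g5, ?_⟩
  · have g1 : dd u v ≤ S := (dd_le_ds u v).trans hds
    have g2 : 1 / 4 * S ≤ BFT.lt v u * (ht v - ht u + S) := by
      have : 1 / 4 * (ht v - ht u + S) ≤ BFT.lt v u * (ht v - ht u + S) :=
        mul_le_mul_of_nonneg_right ha hgS
      linarith
    linarith
  · rw [hswap]
    exact g5

/-- sorting by the mean position, ties arbitrary -/
theorem instS_sort (f : P → ℝ) : ∃ w : Fin (Fintype.card P) ≃ P, Monotone (fun i => f (w i)) := by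
  classical
  let e := Fintype.equivFin P
  refine ⟨(Tuple.sort (fun i => f (e.symm i))).trans e.symm, ?_⟩
  exact Tuple.monotone_sort (fun i => f (e.symm i))

end

/-- the good random permutation of a poset -/
theorem exists_goodS : ∃ C : ℝ, 0 ≤ C ∧ ∀ (P : Type) [Fintype P] [PartialOrder P] (S : ℝ), 1 ≤ S →
    Ent P S → ∃ w : Fin (Fintype.card P) ≃ P, Monotone (fun i => ht (w i)) ∧
      (rpOf P w).GoodS (1 / 25) C S := by
  obtain ⟨C1, hC1, htail⟩ := tail_poset
  refine ⟨C1, hC1.le, ?_⟩
  intro P _ _ S hS hE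
  obtain ⟨w, hw⟩ := instS_sort (ht : P → ℝ)
  refine ⟨w, hw, ?_⟩
  have hpair : ∀ i j : ℕ, ∀ hij : i < j, ∀ hj : j < Fintype.card P,
      ht (w ⟨i, hij.trans hj⟩) ≤ ht (w ⟨j, hj⟩) := by
    intro i j hij hj
    exact hw (show (⟨i, hij.trans hj⟩ : Fin _) ≤ ⟨j, hj⟩ from hij.le)
  have hne : ∀ i j : ℕ, ∀ hij : i < j, ∀ hj : j < Fintype.card P,
      w ⟨i, hij.trans hj⟩ ≠ w ⟨j, hj⟩ := by
    intro i j hij hj h
    have := w.injective h
    simp only [Fin.mk.injEq] at this
    omega
  refine ⟨?_, ?_, ?_, ?_⟩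
  · intro i j hij hj
    rw [inst_m w (hij.trans hj), inst_m w hj]
    exact hpair i j hij hj
  · intro i j hij hj
    have hi := hij.trans hj
    rw [inst_neg w hi hj, inst_p w hi hj, inst_m w hi, inst_m w hj]
    exact (instS_pair hS hE _ _ (hne i j hij hj) (hpair i j hij hj)).1
  · intro i hi
    have hbound : ∀ j ∈ Finset.range (Fintype.card P), (rpOf P w).eS S i j ≤
        25 * (if hj : j < Fintype.card P then nxt (w ⟨j, hj⟩) (w ⟨i, hi⟩) 1 else 0) := by
      intro j hj
      have hj' : j < Fintype.card P := Finset.mem_range.mp hj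
      rw [dif_pos hj']
      rcases lt_trichotomy i j with hij | hij | hij
      · unfold RP.eS
        rw [min_eq_left hij.le, max_eq_right hij.le, inst_p w hi hj', inst_m w hi, inst_m w hj']
        have h1 := hpair i j hij hj'
        have h2 := (instS_pair hS hE _ _ (hne i j hij hj') h1).2.1
        rw [abs_sub_comm, abs_of_nonneg (by linarith), div_le_iff₀ (by linarith)]
        linarith
      · subst hij
        rw [RP.eS_self]
        have : (0 : ℝ) ≤ nxt (w ⟨i, hj'⟩) (w ⟨i, hi⟩) 1 := Pr_nonneg _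
        positivity
      · unfold RP.eS
        rw [min_eq_right hij.le, max_eq_left hij.le, inst_p w hj' hi, inst_m w hi, inst_m w hj']
        have h1 := hpair j i hij hi
        have h2 := (instS_pair hS hE _ _ (hne j i hij hi) h1).2.2
        rw [abs_of_nonneg (by linarith), div_le_iff₀ (by linarith)]
        linarith
    refine (Finset.sum_le_sum hbound).trans ?_
    rw [← Finset.mul_sum]
    have h5 : ∑ j ∈ Finset.range (Fintype.card P),
        (if hj : j < Fintype.card P then nxt (w ⟨j, hj⟩) (w ⟨i, hi⟩) 1 else 0) =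
        ∑ j : Fin (Fintype.card P), nxt (w j) (w ⟨i, hi⟩) 1 := by
      rw [Finset.sum_range]
      apply Finset.sum_congr rfl
      intro j _
      rw [dif_pos j.2]
    rw [h5]
    have h6 := inst_pred_sum (Finset.univ : Finset (Fin (Fintype.card P))) (fun j => w j)
      (fun a _ b _ h => w.injective h) (w ⟨i, hi⟩)
    linarith
  · intro Q i j hQ hij hj h1 h2
    have hi := hij.trans hj
    rw [inst_p w hi hj]
    refine htail P (w ⟨i, hi⟩) (w ⟨j, hj⟩) i j Q hQ hij ?_ ?_
    · refine le_trans (le_of_eq ?_) h1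
      rw [inst_E]
      apply Ex_congr
      intro σ
      rw [inst_h w σ hi]
    · refine le_trans (le_of_eq ?_) h2
      rw [inst_E]
      apply Ex_congr
      intro σ
      rw [inst_h w σ hj]

end Pool.Agent.Half
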