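import Pool.Agent.Lib_MP_33fb9b_half.ABlock
import Pool.Agent.Lib_MP_33fb9b_ks.LD

set_option autoImplicit false

/-!
# Part A at scale `S`: lower deviations (A.3)
-/

namespace Pool.Agent.Thin.RP

open Finset

/-- one scale -/
theorem LDS_scale {n : ℕ} (X : RP n) {c C S : ℝ} (hX : X.GoodS c C S) (hS : 0 < S) (hc : 0 < c)
    {η : ℝ} (hη : 0 < η) (hη1 : η < 1) {i j s : ℕ} (hij : i < j) (hj : j < n)
    (hs : 16 / η ≤ (s : ℝ)) (hSs : S ≤ s) (hs2 : (s : ℝ) ≤ η * ((j : ℝ) - i) / 4)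
    (hg : X.m j - X.m i < (1 - η) * ((j : ℝ) - i)) :
    η * c10s η c / 12 * ((j : ℝ) - i) ≤ ∑ k ∈ Ico i j, X.eRS S k (η / 32 * s) s := by
  have hs0' : (0 : ℝ) < s := lt_of_lt_of_le (by positivity) hs
  have hs0 : 0 < s := by exact_mod_cast hs0'
  have hL : (0 : ℝ) < (j : ℝ) - i := by
    have : (i : ℝ) < j := by exact_mod_cast hij
    linarith
  set N := (j - i) / s with hN
  have hN1 : N * s ≤ j - i := Nat.div_mul_le_self _ _
  have hN2 : j - i < N * s + s := by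
    have := Nat.lt_div_mul_add (a := j - i) hs0
    rw [← hN] at this
    exact this
  have hji : ((j - i : ℕ) : ℝ) = (j : ℝ) - i := by
    rw [Nat.cast_sub hij.le]
  have hN1' : (N : ℝ) * s ≤ (j : ℝ) - i := by
    rw [← hji]; exact_mod_cast hN1
  have hN2' : (j : ℝ) - i < (N : ℝ) * s + s := by
    rw [← hji]; exact_mod_cast hN2
  set a : ℕ → ℕ := fun r => i + r * s with ha
  have haN : ∀ r, r ≤ N → a r ≤ j := by
    intro r hr
    have : r * s ≤ N * s := Nat.mul_le_mul_right _ hr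
    simp only [ha]
    omega
  have hstep : ∀ r, a (r + 1) = a r + s := by
    intro r
    simp only [ha]
    ring
  set B := (range N).filter (fun r => X.m (a r + s) - X.m (a r) ≤ (1 - η / 2) * s) with hB
  -- the number of dense blocks
  have hsum : ∑ r ∈ range N, (X.m (a (r + 1)) - X.m (a r)) = X.m (a N) - X.m (a 0) :=
    Finset.sum_range_sub (fun r => X.m (a r)) N
  have hle : X.m (a N) - X.m (a 0) ≤ X.m j - X.m i := by
    have h1 : X.m (a N) ≤ X.m j := X.mleS hX (haN N le_rfl) hj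
    have h2 : a 0 = i := by simp [ha]
    rw [h2]
    linarith
  have hpos : ∀ r ∈ range N, 0 ≤ X.m (a (r + 1)) - X.m (a r) := by
    intro r hr
    have hr' : r + 1 ≤ N := Finset.mem_range.1 hr
    have h1 : a (r + 1) ≤ j := haN _ hr'
    have := X.mleS hX (i := a r) (j := a (r + 1)) (by rw [hstep]; omega) (by omega)
    linarith
  set D := (range N).filter (fun r => ¬ (X.m (a r + s) - X.m (a r) ≤ (1 - η / 2) * s)) with hD
  have hcard : (B.card : ℝ) + D.card = N := by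
    have := Finset.card_filter_add_card_filter_not (s := range N)
      (fun r => X.m (a r + s) - X.m (a r) ≤ (1 - η / 2) * s)
    rw [Finset.card_range] at this
    exact_mod_cast this
  have hDsum : (D.card : ℝ) * ((1 - η / 2) * s) ≤ ∑ r ∈ range N, (X.m (a (r + 1)) - X.m (a r)) := by
    calc (D.card : ℝ) * ((1 - η / 2) * s) = ∑ r ∈ D, ((1 - η / 2) * s) := by
          rw [Finset.sum_const, nsmul_eq_mul]
      _ ≤ ∑ r ∈ D, (X.m (a (r + 1)) - X.m (a r)) := by
          apply Finset.sum_le_sum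
          intro r hr
          have := (Finset.mem_filter.1 hr).2
          rw [hstep]
          linarith [not_le.1 this]
      _ ≤ ∑ r ∈ range N, (X.m (a (r + 1)) - X.m (a r)) :=
          Finset.sum_le_sum_of_subset_of_nonneg (Finset.filter_subset _ _)
            (fun r hr _ => hpos r hr)
  have hDlt : (D.card : ℝ) * ((1 - η / 2) * s) < (1 - η) * ((N : ℝ) * s + s) := by
    have h1 : (1 - η) * ((j : ℝ) - i) ≤ (1 - η) * ((N : ℝ) * s + s) :=
      mul_le_mul_of_nonneg_left hN2'.le (by linarith)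
    linarith
  have hDlt2 : (D.card : ℝ) < (1 - η / 2) * ((N : ℝ) + 1) := by
    have h1 : (D.card : ℝ) * (1 - η / 2) < (1 - η) * ((N : ℝ) + 1) := by
      have : ((D.card : ℝ) * (1 - η / 2)) * s < ((1 - η) * ((N : ℝ) + 1)) * s := by
        nlinarith [hDlt]
      exact lt_of_mul_lt_mul_right this hs0'.le
    have h2 : (1 - η) * ((N : ℝ) + 1) ≤ (1 - η / 2) * ((N : ℝ) + 1) * (1 - η / 2) := by
      have : (0 : ℝ) ≤ (N : ℝ) + 1 := by positivity
      nlinarith [mul_nonneg this (sq_nonneg η)]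
    have h3 : (D.card : ℝ) * (1 - η / 2) < (1 - η / 2) * ((N : ℝ) + 1) * (1 - η / 2) :=
      lt_of_lt_of_le h1 h2
    exact lt_of_mul_lt_mul_right h3 (by linarith)
  have hNbig : 4 ≤ η * ((N : ℝ) + 1) := by
    -- L / s ≥ 4 / η
    have h1 : 4 * (s : ℝ) ≤ η * ((N : ℝ) * s + s) := by
      have : η * ((j : ℝ) - i) ≤ η * ((N : ℝ) * s + s) := mul_le_mul_of_nonneg_left hN2'.le hη.le
      linarith
    have h2 : 4 * (s : ℝ) ≤ (η * ((N : ℝ) + 1)) * s := by nlinarith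
    exact le_of_mul_le_mul_right h2 hs0'
  have hBbig : η * N / 6 ≤ (B.card : ℝ) := by
    have : (B.card : ℝ) = N - D.card := by linarith
    rw [this]
    nlinarith
  have hc10 : 0 < c10s η c := c10s_pos hη hc
  have hF : ∀ k, 0 ≤ X.eRS S k (η / 32 * s) s := fun k => X.eRS_nonneg hS.le k _ _
  calc η * c10s η c / 12 * ((j : ℝ) - i)
      ≤ (η * N / 6) * (c10s η c * s) := by
        have h1 : (3 / 4 : ℝ) * ((j : ℝ) - i) ≤ (N : ℝ) * s := by nlinarith
        have h2 : (η * N / 6) * (c10s η c * s) = (η * c10s η c / 6) * ((N : ℝ) * s) := by ring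
        rw [h2]
        have h3 : 0 < η * c10s η c := mul_pos hη hc10
        nlinarith [mul_le_mul_of_nonneg_left h1 h3.le, mul_pos h3 hL]
    _ ≤ (B.card : ℝ) * (c10s η c * s) := mul_le_mul_of_nonneg_right hBbig (by positivity)
    _ = ∑ r ∈ B, (c10s η c * s) := by rw [Finset.sum_const, nsmul_eq_mul]
    _ ≤ ∑ r ∈ B, ∑ k ∈ Ico (i + r * s) (i + r * s + s), X.eRS S k (η / 32 * s) s := by
        apply Finset.sum_le_sum
        intro r hr
        have hr1 := (Finset.mem_filter.1 hr).1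
        have hr2 := (Finset.mem_filter.1 hr).2
        have hr' : r + 1 ≤ N := Finset.mem_range.1 hr1
        have h1 : a (r + 1) ≤ j := haN _ hr'
        rw [hstep] at h1
        exact X.blockS hX hS hc hη hη1 hs hSs (k := a r) (by omega) hr2
    _ ≤ ∑ r ∈ range N, ∑ k ∈ Ico (i + r * s) (i + r * s + s), X.eRS S k (η / 32 * s) s :=
        Finset.sum_le_sum_of_subset_of_nonneg (Finset.filter_subset _ _)
          (fun r _ _ => Finset.sum_nonneg fun k _ => hF k)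
    _ = ∑ k ∈ Ico i (i + N * s), X.eRS S k (η / 32 * s) s := (LD_sum_blocks _ i s N).symm
    _ ≤ ∑ k ∈ Ico i j, X.eRS S k (η / 32 * s) s := by
        apply Finset.sum_le_sum_of_subset_of_nonneg
        · apply Finset.Ico_subset_Ico_right
          have := haN N le_rfl
          simpa [ha] using this
        · intro k _ _
          exact hF k

/-- disjoint scales -/
theorem LDS_scales_le {n : ℕ} (X : RP n) {c C S : ℝ} (hX : X.GoodS c C S) (hS : 0 < S) {η : ℝ}
    (hη : 0 < η)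
    {s0 Bb : ℕ} (hs0 : 0 < s0) (hB : 32 / η < (Bb : ℝ)) (T : ℕ) {k : ℕ} (hk : k < n) :
    ∑ m ∈ range T, X.eRS S k (η / 32 * ((s0 * Bb ^ m : ℕ) : ℝ)) ((s0 * Bb ^ m : ℕ) : ℝ) ≤ 1 / c := by
  classical
  have hB0 : (0 : ℝ) < Bb := lt_trans (by positivity) hB
  have hB1 : 1 ≤ Bb := by exact_mod_cast Nat.one_le_iff_ne_zero.2 (by
    rintro rfl
    simp at hB0)
  refine le_trans ?_ (hX.a4 k hk)
  unfold eRS
  have h1 : ∀ m, ∑ j ∈ (range n).filter (fun j : ℕ =>
        η / 32 * ((s0 * Bb ^ m : ℕ) : ℝ) ≤ |(j : ℝ) - k| ∧ |(j : ℝ) - k| ≤ ((s0 * Bb ^ m : ℕ) : ℝ)),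
        X.eS S k j = ∑ j ∈ range n, if (η / 32 * ((s0 * Bb ^ m : ℕ) : ℝ) ≤ |(j : ℝ) - k| ∧
          |(j : ℝ) - k| ≤ ((s0 * Bb ^ m : ℕ) : ℝ)) then X.eS S k j else 0 := by
    intro m
    rw [Finset.sum_filter]
  simp_rw [h1]
  rw [Finset.sum_comm]
  apply Finset.sum_le_sum
  intro j _
  rw [← Finset.sum_filter, Finset.sum_const, nsmul_eq_mul]
  have hcard : ((range T).filter (fun m => η / 32 * ((s0 * Bb ^ m : ℕ) : ℝ) ≤ |(j : ℝ) - k| ∧
      |(j : ℝ) - k| ≤ ((s0 * Bb ^ m : ℕ) : ℝ))).card ≤ 1 := by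
    rw [Finset.card_le_one]
    have key : ∀ m m' : ℕ, m < m' → |(j : ℝ) - k| ≤ ((s0 * Bb ^ m : ℕ) : ℝ) →
        η / 32 * ((s0 * Bb ^ m' : ℕ) : ℝ) ≤ |(j : ℝ) - k| → False := by
      intro m m' hmm h2 h3
      have h4 : s0 * Bb ^ (m + 1) ≤ s0 * Bb ^ m' :=
        Nat.mul_le_mul_left _ (Nat.pow_le_pow_right hB1 hmm)
      have h5 : ((s0 * Bb ^ (m + 1) : ℕ) : ℝ) ≤ ((s0 * Bb ^ m' : ℕ) : ℝ) := by exact_mod_cast h4
      have h6 : ((s0 * Bb ^ (m + 1) : ℕ) : ℝ) = ((s0 * Bb ^ m : ℕ) : ℝ) * Bb := by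
        push_cast
        ring
      have h7 : (0 : ℝ) < ((s0 * Bb ^ m : ℕ) : ℝ) := by
        have : 0 < s0 * Bb ^ m := by positivity
        exact_mod_cast this
      have h8 : 1 < η / 32 * Bb := by
        rw [div_lt_iff₀ hη] at hB
        linarith
      have h9 : ((s0 * Bb ^ m : ℕ) : ℝ) < η / 32 * ((s0 * Bb ^ (m + 1) : ℕ) : ℝ) := by
        rw [h6]
        nlinarith
      have h10 : η / 32 * ((s0 * Bb ^ (m + 1) : ℕ) : ℝ) ≤ η / 32 * ((s0 * Bb ^ m' : ℕ) : ℝ) :=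
        mul_le_mul_of_nonneg_left h5 (by positivity)
      linarith
    intro m hm m' hm'
    have hm2 := (Finset.mem_filter.1 hm).2
    have hm2' := (Finset.mem_filter.1 hm').2
    rcases lt_trichotomy m m' with h | h | h
    · exact (key m m' h hm2.2 hm2'.1).elim
    · exact h
    · exact (key m' m h hm2'.2 hm2.1).elim
  have hcard' : (((range T).filter (fun m => η / 32 * ((s0 * Bb ^ m : ℕ) : ℝ) ≤ |(j : ℝ) - k| ∧
      |(j : ℝ) - k| ≤ ((s0 * Bb ^ m : ℕ) : ℝ))).card : ℝ) ≤ 1 := by exact_mod_cast hcard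
  have := X.eS_nonneg hS.le k j
  nlinarith

/-- (A.3): for every slope `η` there is a constant `K` (depending on `η` and `c` only) -/
theorem exists_LD_S (c η : ℝ) (hc : 0 < c) (hη : 0 < η) (hη1 : η < 1) :
    ∃ K : ℝ, 0 ≤ K ∧ ∀ (C S : ℝ) (n : ℕ) (X : RP n), 1 ≤ S → X.GoodS c C S →
      X.LDp η (K * S) := by
  set Bb : ℕ := ⌊32 / η⌋₊ + 1 with hBd
  have hBb : 32 / η < (Bb : ℝ) := by
    rw [hBd]
    push_cast
    exact Nat.lt_floor_add_one _
  have hBb1 : 1 ≤ Bb := by omega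
  have hc10 : 0 < c10s η c := c10s_pos hη hc
  set T : ℕ := ⌊12 / (c * (η * c10s η c))⌋₊ + 1 with hTd
  have hT : 12 / (c * (η * c10s η c)) < (T : ℝ) := by
    rw [hTd]
    push_cast
    exact Nat.lt_floor_add_one _
  set K : ℝ := 4 * ((16 / η + 1) * (Bb : ℝ) ^ T) / η with hKd
  have hK0 : 0 ≤ K := by
    rw [hKd]
    positivity
  refine ⟨K, hK0, ?_⟩
  intro C S n X hS1 hX i j hij hj
  have hS : 0 < S := by linarith
  set s0 : ℕ := ⌈16 * S / η⌉₊ with hs0d
  have hs0a : 16 * S / η ≤ (s0 : ℝ) := Nat.le_ceil _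
  have hs0 : 16 / η ≤ (s0 : ℝ) := by
    refine le_trans ?_ hs0a
    apply div_le_div_of_nonneg_right _ hη.le
    linarith
  have hs0S : S ≤ (s0 : ℝ) := by
    refine le_trans ?_ hs0a
    rw [le_div_iff₀ hη]
    nlinarith
  have hs0b : (s0 : ℝ) ≤ (16 / η + 1) * S := by
    have h1 : (s0 : ℝ) < 16 * S / η + 1 := Nat.ceil_lt_add_one (by positivity)
    have h2 : 16 * S / η = 16 / η * S := by ring
    rw [h2] at h1
    linarith
  have hs0pos : 0 < s0 := Nat.ceil_pos.2 (by positivity)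
  have hKS : 4 * ((s0 * Bb ^ T : ℕ) : ℝ) / η ≤ K * S := by
    rw [hKd]
    push_cast
    rw [div_mul_eq_mul_div]
    apply div_le_div_of_nonneg_right _ hη.le
    have h1 : (s0 : ℝ) * (Bb : ℝ) ^ T ≤ (16 / η + 1) * S * (Bb : ℝ) ^ T :=
      mul_le_mul_of_nonneg_right hs0b (by positivity)
    linarith
  have hL : (0 : ℝ) < (j : ℝ) - i := by
    have : (i : ℝ) < j := by exact_mod_cast hij
    linarith
  have hmono := hX.mono i j hij hj
  by_contra hcon
  push Not at hcon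
  unfold u at hcon
  have hKS0 : 0 ≤ K * S := by positivity
  have hg : X.m j - X.m i < (1 - η) * ((j : ℝ) - i) := by nlinarith
  have hLK : K * S < (j : ℝ) - i := by nlinarith
  -- all scales are available
  have hscale : ∀ m ∈ range T, η * c10s η c / 12 * ((j : ℝ) - i)
      ≤ ∑ k ∈ Ico i j, X.eRS S k (η / 32 * ((s0 * Bb ^ m : ℕ) : ℝ)) ((s0 * Bb ^ m : ℕ) : ℝ) := by
    intro m hm
    have hm' : m ≤ T := (Finset.mem_range.1 hm).le
    have hsm : (s0 : ℝ) ≤ ((s0 * Bb ^ m : ℕ) : ℝ) := by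
      have : s0 ≤ s0 * Bb ^ m := Nat.le_mul_of_pos_right _ (Nat.pow_pos (by omega))
      exact_mod_cast this
    apply LDS_scale X hX hS hc hη hη1 hij hj
    · exact le_trans hs0 hsm
    · exact le_trans hs0S hsm
    · have h1 : s0 * Bb ^ m ≤ s0 * Bb ^ T := Nat.mul_le_mul_left _ (Nat.pow_le_pow_right hBb1 hm')
      have h2 : ((s0 * Bb ^ m : ℕ) : ℝ) ≤ ((s0 * Bb ^ T : ℕ) : ℝ) := by exact_mod_cast h1
      have h3 : 4 * ((s0 * Bb ^ T : ℕ) : ℝ) ≤ η * ((j : ℝ) - i) := by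
        have h4 : 4 * ((s0 * Bb ^ T : ℕ) : ℝ) / η < (j : ℝ) - i := lt_of_le_of_lt hKS hLK
        rw [div_lt_iff₀ hη] at h4
        linarith
      linarith
    · exact hg
  have htot : (T : ℝ) * (η * c10s η c / 12 * ((j : ℝ) - i)) ≤ ((j : ℝ) - i) * (1 / c) := by
    calc (T : ℝ) * (η * c10s η c / 12 * ((j : ℝ) - i))
        = ∑ m ∈ range T, (η * c10s η c / 12 * ((j : ℝ) - i)) := by
          rw [Finset.sum_const, Finset.card_range, nsmul_eq_mul]
      _ ≤ ∑ m ∈ range T, ∑ k ∈ Ico i j,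
            X.eRS S k (η / 32 * ((s0 * Bb ^ m : ℕ) : ℝ)) ((s0 * Bb ^ m : ℕ) : ℝ) :=
          Finset.sum_le_sum hscale
      _ = ∑ k ∈ Ico i j, ∑ m ∈ range T,
            X.eRS S k (η / 32 * ((s0 * Bb ^ m : ℕ) : ℝ)) ((s0 * Bb ^ m : ℕ) : ℝ) := Finset.sum_comm
      _ ≤ ∑ k ∈ Ico i j, (1 / c) := by
          apply Finset.sum_le_sum
          intro k hk
          exact LDS_scales_le X hX hS hη hs0pos hBb T (by
            have := (Finset.mem_Ico.1 hk).2
            omega)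
      _ = ((j : ℝ) - i) * (1 / c) := by
          rw [Finset.sum_const, Nat.card_Ico, nsmul_eq_mul, Nat.cast_sub hij.le]
  have h1 : (T : ℝ) * (η * c10s η c / 12) ≤ 1 / c := by
    have : ((T : ℝ) * (η * c10s η c / 12)) * ((j : ℝ) - i) ≤ (1 / c) * ((j : ℝ) - i) := by
      linarith
    exact le_of_mul_le_mul_right this hL
  have h2 : 12 < (T : ℝ) * (c * (η * c10s η c)) := by
    rw [div_lt_iff₀ (by positivity)] at hT
    exact hT
  have h3 : (T : ℝ) * (c * (η * c10s η c)) ≤ 12 := by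
    have : c * ((T : ℝ) * (η * c10s η c / 12)) ≤ c * (1 / c) := mul_le_mul_of_nonneg_left h1 hc.le
    rw [mul_one_div, div_self hc.ne'] at this
    nlinarith
  linarith

end Pool.Agent.Thin.RP
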