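import Pool.Agent.Lib_MP_33fb9b_ks.OneScaleG

set_option autoImplicit false

/-!
# Part A at scale `S`: one scale (A.5) and all scales together (A.6), arrays
(scaled version of `OneScaleG` and `MultiG` of `Lib_MP_33fb9b_ks`)
-/

namespace KSE

open Finset

theorem one_scaleS_xy {n : ℕ} {m : ℕ → ℝ} {p neg : ℕ → ℕ → ℝ} {c e ε η A K Q S : ℝ}
    (hp0 : ∀ a b, 0 ≤ p a b) (hp1 : ∀ a b, p a b ≤ 1)
    (hm : ∀ a b, a < b → b < n → m a ≤ m b)
    (hneg : ∀ a b, a < b → b < n → c * neg a b ≤ p a b * (m b - m a + S))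
    (htri : ∀ a b d, a < b → b < d → d < n → neg a d ≤ neg a b + neg b d)
    (hLD : ∀ a b, a < b → b < n → -(η * ((b:ℝ) - a)) - K ≤ (m b - b) - (m a - a))
    (hc : 0 ≤ c) (hη : 0 ≤ η) (hK : 0 ≤ K) (hS : 0 < S)
    {i j s N : ℕ} (hij : i < j) (hjn : j < n) (hs : 1 ≤ s) (hSs : S ≤ s)
    (hA : (j:ℝ) - i ≤ A * Q) (he : e * Q ≤ neg i j) (hε : (m j - j) - (m i - i) ≤ ε * Q)
    (hpar : 30 * ε + 3 * η * A ≤ c * e / 2)
    (hKs : K ≤ η * s) (hsQ : (s:ℝ) ≤ ε * Q) (hKQ : K ≤ ε * Q) (hQ : 0 ≤ Q)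
    (hN : i + 2 * N * s ≤ j) (hN' : j < i + 2 * (N + 1) * s)
    {x y : ℕ} (hx : x < s) (hy : y < s) :
    c * e * Q / 338 ≤ (s:ℝ) ^ 2 * ∑ r ∈ Ico 1 N,
      p (kap i j s N x y r) (kap i j s N x y (r + 1)) /
        (m (kap i j s N x y (r + 1)) - m (kap i j s N x y r) + S) := by
  set κ : ℕ → ℕ := kap i j s N x y with hκdef
  have hst : ∀ r, r ≤ N → κ r < κ (r + 1) ∧ κ (r + 1) < κ r + 3 * s :=
    fun r hr => kap_step hs hij hN hN' hx hy hr
  have h0 : κ 0 = i := kap_zero _ _ _ _ _ _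
  have hl : κ (N + 1) = j := kap_last _ _ _ _ _ _
  have hch := chain_neg (n := n) (neg := neg) (κ := κ) (N := N) htri (fun r hr => (hst r hr).1)
    (by rw [hl]; exact hjn)
  rw [h0, hl] at hch
  have hmono : ∀ r, r ≤ N → κ (r + 1) < n := by
    intro r hr
    have : ∀ d, r + d ≤ N → κ (r + 1) ≤ κ (r + d + 1) := by
      intro d
      induction d with
      | zero => intro _; exact le_refl _
      | succ d ih =>
        intro h
        exact le_trans (ih (by omega)) (le_of_lt (hst (r + d + 1) (by omega)).1)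
    have h := this (N - r) (by omega)
    rw [show r + (N - r) + 1 = N + 1 by omega, hl] at h
    omega
  have hs0 : (0:ℝ) < s := by exact_mod_cast hs
  -- per step
  set E : ℕ → ℝ := fun r => if 1 ≤ r ∧ r < N then
      169 * (s:ℝ) ^ 2 * (p (κ r) (κ (r + 1)) / (m (κ (r + 1)) - m (κ r) + S)) else 13 * s with hE
  have hstep : ∀ r ∈ range (N + 1), c * neg (κ r) (κ (r + 1)) ≤
      5 / 3 * (((m (κ (r + 1)) - κ (r + 1)) - (m (κ r) - κ r)) +
        η * ((κ (r + 1) : ℝ) - κ r) + K) + E r := by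
    intro r hr
    have hr' : r ≤ N := Nat.lt_succ_iff.mp (mem_range.mp hr)
    obtain ⟨h1, h2⟩ := hst r hr'
    have hn := hmono r hr'
    have hg : 0 ≤ m (κ (r + 1)) - m (κ r) := sub_nonneg.mpr (hm _ _ h1 hn)
    have hL := hLD _ _ h1 hn
    have hN1 := hneg _ _ h1 hn
    have hD : (κ (r + 1) : ℝ) - κ r ≤ 3 * s := by
      have : (κ (r + 1) : ℝ) < κ r + 3 * s := by exact_mod_cast h2
      linarith
    set g := m (κ (r + 1)) - m (κ r) with hgdef
    set D := (κ (r + 1) : ℝ) - κ r with hDdef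
    have hq0 := hp0 (κ r) (κ (r + 1))
    have hq1 := hp1 (κ r) (κ (r + 1))
    set q := p (κ r) (κ (r + 1)) with hq
    have hrew : (m (κ (r + 1)) - κ (r + 1)) - (m (κ r) - κ r) = g - D := by
      rw [hgdef, hDdef]; ring
    rw [hrew] at hL ⊢
    have hw : 0 < g + S := by linarith
    have hqg : 0 ≤ q / (g + S) := div_nonneg hq0 hw.le
    have hE0 : 0 ≤ E r := by
      simp only [hE]
      split_ifs
      · positivity
      · positivity
    refine le_trans hN1 ?_
    have hD0 : 0 ≤ D := by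
      have : (κ r : ℝ) ≤ κ (r + 1) := by exact_mod_cast h1.le
      rw [hDdef]; linarith
    have hηD : 0 ≤ η * D := mul_nonneg hη hD0
    by_cases hbad : 12 * s < g
    · -- bad
      have : q * (g + S) ≤ g + S := by nlinarith
      linarith
    · push Not at hbad
      have h3 : 0 ≤ g - D + η * D + K := by linarith
      have h4 : q * (g + S) ≤ E r := by
        simp only [hE]
        have hg12 : g + S ≤ 13 * s := by linarith
        split_ifs
        · have : q * (g + S) = q / (g + S) * (g + S) ^ 2 := by field_simp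
          rw [this, mul_comm]
          have : (g + S) ^ 2 ≤ 169 * (s:ℝ) ^ 2 := by nlinarith
          exact mul_le_mul_of_nonneg_right this hqg
        · nlinarith
      linarith
  have hsum := sum_le_sum hstep
  rw [← mul_sum, sum_add_distrib, ← mul_sum, sum_add_distrib, sum_add_distrib, ← mul_sum] at hsum
  have ht1 : ∑ r ∈ range (N + 1), ((m (κ (r + 1)) - κ (r + 1)) - (m (κ r) - κ r)) =
      (m j - j) - (m i - i) := by
    have := sum_range_sub (fun r => m (κ r) - (κ r : ℝ)) (N + 1)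
    simp only [hl, h0] at this
    exact this
  have ht2 : ∑ r ∈ range (N + 1), ((κ (r + 1) : ℝ) - κ r) = (j:ℝ) - i := by
    have := sum_range_sub (fun r => (κ r : ℝ)) (N + 1)
    simp only [hl, h0] at this
    exact this
  have hE2 : ∑ r ∈ range (N + 1), E r ≤ 26 * s + 169 * (s:ℝ) ^ 2 * ∑ r ∈ Ico 1 N,
      p (κ r) (κ (r + 1)) / (m (κ (r + 1)) - m (κ r) + S) := by
    have hEr : ∀ r ∈ range (N + 1), E r ≤ (if r ∈ Ico 1 N then
      169 * (s:ℝ) ^ 2 * (p (κ r) (κ (r + 1)) / (m (κ (r + 1)) - m (κ r) + S)) else 0) +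
        ((if r = 0 then 13 * (s:ℝ) else 0) + (if r = N then 13 * (s:ℝ) else 0)) := by
      intro r hr
      have hr' : r ≤ N := Nat.lt_succ_iff.mp (mem_range.mp hr)
      simp only [hE, mem_Ico]
      by_cases h : 1 ≤ r ∧ r < N
      · rw [if_pos h, if_pos h]
        have h1 : r ≠ 0 := by omega
        have h2 : r ≠ N := by omega
        simp [h1, h2]
      · rw [if_neg h, if_neg h]
        rcases Nat.eq_zero_or_pos r with h1 | h1
        · rw [if_pos h1]
          split_ifs <;> linarith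
        · have h2 : r = N := by omega
          rw [if_pos h2]
          split_ifs <;> linarith
    refine le_trans (sum_le_sum hEr) ?_
    rw [sum_add_distrib, sum_add_distrib, sum_ite_mem, sum_ite_eq', sum_ite_eq', ← mul_sum]
    have : range (N + 1) ∩ Ico 1 N = Ico 1 N := by
      ext r; simp only [mem_inter, mem_range, mem_Ico]; omega
    rw [this]
    simp
    linarith
  have hchain : c * neg i j ≤ c * ∑ r ∈ range (N + 1), neg (κ r) (κ (r + 1)) :=
    mul_le_mul_of_nonneg_left hch hc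
  rw [ht1, ht2, sum_const, card_range, nsmul_eq_mul] at hsum
  have hKN : ((N + 1 : ℕ) : ℝ) * K ≤ η * ((j:ℝ) - i) / 2 + K := by
    have h1 : (i:ℝ) + 2 * N * s ≤ j := by exact_mod_cast hN
    push_cast
    have h2 : (N:ℝ) * K ≤ N * (η * s) := mul_le_mul_of_nonneg_left hKs (Nat.cast_nonneg _)
    nlinarith
  have hce : c * (e * Q) ≤ c * neg i j := mul_le_mul_of_nonneg_left he hc
  have hηA : η * ((j:ℝ) - i) ≤ η * (A * Q) := mul_le_mul_of_nonneg_left hA hη
  have hparQ : (30 * ε + 3 * η * A) * Q ≤ c * e / 2 * Q := mul_le_mul_of_nonneg_right hpar hQ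
  have hεQ : 0 ≤ ε * Q := le_trans hs0.le hsQ
  set W := ∑ r ∈ Ico 1 N, p (κ r) (κ (r + 1)) / (m (κ (r + 1)) - m (κ r) + S) with hW
  have hji : (0:ℝ) ≤ (j:ℝ) - i := by
    have : (i:ℝ) < j := by exact_mod_cast hij
    linarith
  have hηA0 : 0 ≤ η * (A * Q) := le_trans (mul_nonneg hη hji) hηA
  have hparQ' : 30 * (ε * Q) + 3 * (η * (A * Q)) ≤ c * e * Q / 2 := by linarith
  have hceQ : c * (e * Q) = c * e * Q := by ring
  linarith

theorem one_scaleS {n : ℕ} {m : ℕ → ℝ} {p neg : ℕ → ℕ → ℝ} {c e ε η A K Q S : ℝ}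
    (hp0 : ∀ a b, 0 ≤ p a b) (hp1 : ∀ a b, p a b ≤ 1)
    (hm : ∀ a b, a < b → b < n → m a ≤ m b)
    (hneg : ∀ a b, a < b → b < n → c * neg a b ≤ p a b * (m b - m a + S))
    (htri : ∀ a b d, a < b → b < d → d < n → neg a d ≤ neg a b + neg b d)
    (hLD : ∀ a b, a < b → b < n → -(η * ((b:ℝ) - a)) - K ≤ (m b - b) - (m a - a))
    (hc : 0 ≤ c) (hη : 0 ≤ η) (hK : 0 ≤ K) (hS : 0 < S)
    {i j s : ℕ} (hij : i < j) (hjn : j < n) (hs : 1 ≤ s) (hSs : S ≤ s)
    (hA : (j:ℝ) - i ≤ A * Q) (he : e * Q ≤ neg i j) (hε : (m j - j) - (m i - i) ≤ ε * Q)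
    (hpar : 30 * ε + 3 * η * A ≤ c * e / 2)
    (hKs : K ≤ η * s) (hsQ : (s:ℝ) ≤ ε * Q) (hKQ : K ≤ ε * Q) (hQ : 0 ≤ Q) :
    c * e * Q / 338 ≤ ∑ q ∈ (Icc i j ×ˢ Icc i j).filter
      (fun q => q.1 + s < q.2 ∧ q.2 < q.1 + 3 * s), p q.1 q.2 / (m q.2 - m q.1 + S) := by
  set N := (j - i) / (2 * s) with hNdef
  have hN : i + 2 * N * s ≤ j := by
    have := Nat.div_mul_le_self (j - i) (2 * s)
    have h2 : (j - i) / (2 * s) * (2 * s) = 2 * N * s := by rw [← hNdef]; ring
    omega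
  have hN' : j < i + 2 * (N + 1) * s := by
    have := Nat.lt_div_mul_add (a := j - i) (b := 2 * s) (by omega)
    have h2 : (j - i) / (2 * s) * (2 * s) + 2 * s = 2 * (N + 1) * s := by rw [← hNdef]; ring
    omega
  have hs0 : (0:ℝ) < s := by exact_mod_cast hs
  set F : ℕ → ℕ → ℝ := fun k l => p k l / (m l - m k + S) with hF
  have hxy : ∀ x ∈ range s, ∀ y ∈ range s, c * e * Q / 338 ≤ (s:ℝ) ^ 2 * ∑ r ∈ Ico 1 N,
      F (kap i j s N x y r) (kap i j s N x y (r + 1)) := by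
    intro x hx y hy
    exact one_scaleS_xy hp0 hp1 hm hneg htri hLD hc hη hK hS hij hjn hs hSs hA he hε hpar hKs hsQ hKQ hQ
      hN hN' (mem_range.mp hx) (mem_range.mp hy)
  have h1 : ∑ x ∈ range s, ∑ y ∈ range s, (c * e * Q / 338) ≤ ∑ x ∈ range s, ∑ y ∈ range s,
      (s:ℝ) ^ 2 * ∑ r ∈ Ico 1 N, F (kap i j s N x y r) (kap i j s N x y (r + 1)) :=
    sum_le_sum fun x hx => sum_le_sum fun y hy => hxy x hx y hy
  simp only [sum_const, card_range, nsmul_eq_mul, ← mul_sum] at h1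
  have h2 : c * e * Q / 338 ≤ ∑ x ∈ range s, ∑ y ∈ range s, ∑ r ∈ Ico 1 N,
      F (kap i j s N x y r) (kap i j s N x y (r + 1)) := by
    have h3 : (s:ℝ) ^ 2 * (c * e * Q / 338) ≤ (s:ℝ) ^ 2 * ∑ x ∈ range s, ∑ y ∈ range s,
      ∑ r ∈ Ico 1 N, F (kap i j s N x y r) (kap i j s N x y (r + 1)) := by
      calc (s:ℝ) ^ 2 * (c * e * Q / 338) = s * (s * (c * e * Q / 338)) := by ring
        _ ≤ _ := h1
    exact le_of_mul_le_mul_left h3 (by positivity)
  refine le_trans h2 ?_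
  -- reorganise
  have h4 : ∑ x ∈ range s, ∑ y ∈ range s, ∑ r ∈ Ico 1 N,
      F (kap i j s N x y r) (kap i j s N x y (r + 1)) =
      ∑ r ∈ Ico 1 N, ∑ x ∈ range s, ∑ y ∈ range s,
        F (i + (2 * r - 1) * s + x) (i + (2 * r + 1) * s + y) := by
    have h5 : ∑ x ∈ range s, ∑ y ∈ range s, ∑ r ∈ Ico 1 N,
      F (kap i j s N x y r) (kap i j s N x y (r + 1)) = ∑ r ∈ Ico 1 N, ∑ x ∈ range s,
        ∑ y ∈ range s, F (kap i j s N x y r) (kap i j s N x y (r + 1)) := by
      rw [sum_comm' (s := range s) (t := fun _ => range s) (t' := range s) (s' := fun _ => range s)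
        (by intro x y; tauto)]
      rw [sum_comm]
      simp_rw [sum_comm (s := range s) (t := Ico 1 N)]
    rw [h5]
    refine sum_congr rfl fun r hr => ?_
    rw [mem_Ico] at hr
    have e1 : ∀ x y, kap i j s N x y r = i + (2 * r - 1) * s + (if Odd r then x else y) :=
      fun x y => kap_mid hr.1 hr.2.le
    have e2 : ∀ x y, kap i j s N x y (r + 1) = i + (2 * r + 1) * s + (if Odd r then y else x) := by
      intro x y
      rw [kap_mid (by omega) (by omega)]
      have : 2 * (r + 1) - 1 = 2 * r + 1 := by omega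
      rw [this]
      by_cases h : Odd r
      · have : ¬ Odd (r + 1) := by
          rw [Nat.odd_add_one]; exact not_not.mpr h
        simp [h, this]
      · have : Odd (r + 1) := by
          rw [Nat.odd_add_one]; exact h
        simp [h, this]
    simp_rw [e1, e2]
    by_cases h : Odd r
    · simp [h]
    · simp only [h, if_false]
      exact sum_comm
  rw [h4]
  have h6 : ∑ r ∈ Ico 1 N, ∑ x ∈ range s, ∑ y ∈ range s,
        F (i + (2 * r - 1) * s + x) (i + (2 * r + 1) * s + y) =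
      ∑ t ∈ Ico 1 N ×ˢ (range s ×ˢ range s),
        F (i + (2 * t.1 - 1) * s + t.2.1) (i + (2 * t.1 + 1) * s + t.2.2) := by
    rw [sum_product]
    refine sum_congr rfl fun r _ => ?_
    rw [sum_product]
  rw [h6]
  have hinj : Set.InjOn (fun t : ℕ × ℕ × ℕ =>
      (i + (2 * t.1 - 1) * s + t.2.1, i + (2 * t.1 + 1) * s + t.2.2))
      (Ico 1 N ×ˢ (range s ×ˢ range s) : Finset (ℕ × ℕ × ℕ)) := by
    rintro ⟨r, x, y⟩ h ⟨r', x', y'⟩ h' heq
    simp only [coe_product, Set.mem_prod, mem_coe, mem_Ico, mem_range] at h h'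
    simp only [Prod.mk.injEq] at heq
    have hr : r = r' := by
      rcases lt_trichotomy r r' with hlt | heq' | hgt
      · exfalso
        have : (2 * r + 1) * s + 2 * s ≤ (2 * r' + 1) * s := by
          have : (2 * r + 1) * s + 2 * s = (2 * (r + 1) + 1) * s := by ring
          rw [this]
          exact Nat.mul_le_mul_right s (by omega)
        omega
      · exact heq'
      · exfalso
        have : (2 * r' + 1) * s + 2 * s ≤ (2 * r + 1) * s := by
          have : (2 * r' + 1) * s + 2 * s = (2 * (r' + 1) + 1) * s := by ring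
          rw [this]
          exact Nat.mul_le_mul_right s (by omega)
        omega
    subst hr
    have hx : x = x' := by omega
    have hy : y = y' := by omega
    rw [hx, hy]
  have h7 := sum_image (f := fun q : ℕ × ℕ => F q.1 q.2) (s := Ico 1 N ×ˢ (range s ×ˢ range s))
    (g := fun t : ℕ × ℕ × ℕ =>
      (i + (2 * t.1 - 1) * s + t.2.1, i + (2 * t.1 + 1) * s + t.2.2)) hinj
  simp only at h7
  rw [← h7]
  refine sum_le_sum_of_subset_of_nonneg ?_ ?_
  · intro q hq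
    rw [mem_image] at hq
    obtain ⟨⟨r, x, y⟩, ht, rfl⟩ := hq
    simp only [mem_product, mem_Ico, mem_range] at ht
    simp only [mem_filter, mem_product, mem_Icc]
    obtain ⟨⟨hr1, hrN⟩, hx, hy⟩ := ht
    have h8 : (2 * r + 1) * s + s ≤ 2 * N * s := by
      have : (2 * r + 1) * s + s = (2 * r + 2) * s := by ring
      rw [this]
      exact Nat.mul_le_mul_right s (by omega)
    have h9 : (2 * r - 1) * s + 2 * s = (2 * r + 1) * s := by
      obtain ⟨q, rfl⟩ : ∃ q, r = q + 1 := ⟨r - 1, by omega⟩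
      have : 2 * (q + 1) - 1 = 2 * q + 1 := by omega
      rw [this]; ring
    refine ⟨⟨⟨?_, ?_⟩, ?_, ?_⟩, ?_, ?_⟩ <;> omega
  · intro q hq _
    simp only [mem_filter, mem_product, mem_Icc] at hq
    have h10 := hm q.1 q.2 (by omega) (by omega)
    exact div_nonneg (hp0 _ _) (by linarith)

/-- the energy of all pairs inside `[i, j]` -/
theorem energy_IccS {n : ℕ} {m : ℕ → ℝ} {p : ℕ → ℕ → ℝ} {c S : ℝ} (hS : 0 < S)
    (hp0 : ∀ a b, 0 ≤ p a b) (hm : ∀ a b, a < b → b < n → m a ≤ m b)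
    (hen : ∀ a, a < n → ∑ b ∈ Ioo a n, p a b / (m b - m a + S) ≤ 1 / c)
    {i j : ℕ} (hij : i < j) (hjn : j < n) :
    ∑ q ∈ (Icc i j ×ˢ Icc i j).filter (fun q => q.1 < q.2), p q.1 q.2 / (m q.2 - m q.1 + S) ≤
      ((j:ℝ) - i + 1) / c := by
  have h1 : ∑ q ∈ (Icc i j ×ˢ Icc i j).filter (fun q => q.1 < q.2),
      p q.1 q.2 / (m q.2 - m q.1 + S) =
      ∑ a ∈ Icc i j, ∑ b ∈ (Icc i j).filter (fun b => a < b), p a b / (m b - m a + S) := by
    rw [sum_filter, sum_product]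
    refine sum_congr rfl fun a _ => ?_
    rw [sum_filter]
  rw [h1]
  have h2 : ∀ a ∈ Icc i j, ∑ b ∈ (Icc i j).filter (fun b => a < b), p a b / (m b - m a + S) ≤
      1 / c := by
    intro a ha
    rw [mem_Icc] at ha
    refine le_trans ?_ (hen a (by omega))
    refine sum_le_sum_of_subset_of_nonneg ?_ ?_
    · intro b hb
      simp only [mem_filter, mem_Icc] at hb
      rw [mem_Ioo]; omega
    · intro b hb _
      rw [mem_Ioo] at hb
      have h10 := hm a b hb.1 hb.2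
      exact div_nonneg (hp0 _ _) (by linarith)
  refine le_trans (sum_le_sum h2) ?_
  rw [sum_const, Nat.card_Icc, nsmul_eq_mul]
  have : ((j + 1 - i : ℕ) : ℝ) = (j:ℝ) - i + 1 := by
    rw [Nat.cast_sub (by omega)]; push_cast; ring
  rw [this, mul_one_div]

theorem multi_scaleS {c A e ε η K : ℝ} (hc : 0 < c) (hA : 0 < A) (he : 0 < e) (hε : 0 < ε)
    (hη : 0 < η) (hK : 0 ≤ K) (hpar : 30 * ε + 3 * η * A ≤ c * e / 2) :
    ∃ Qs : ℝ, ∀ (S : ℝ) (n : ℕ) (m : ℕ → ℝ) (p neg : ℕ → ℕ → ℝ), 1 ≤ S →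
      (∀ a b, 0 ≤ p a b) → (∀ a b, p a b ≤ 1) →
      (∀ a b, a < b → b < n → m a ≤ m b) →
      (∀ a b, a < b → b < n → c * neg a b ≤ p a b * (m b - m a + S)) →
      (∀ a b d, a < b → b < d → d < n → neg a d ≤ neg a b + neg b d) →
      (∀ a b, a < b → b < n → -(η * ((b:ℝ) - a)) - K * S ≤ (m b - b) - (m a - a)) →
      (∀ a, a < n → ∑ b ∈ Ioo a n, p a b / (m b - m a + S) ≤ 1 / c) →
      ∀ (Q : ℝ) (i j : ℕ), i < j → j < n → (j:ℝ) - i ≤ A * Q → e * Q ≤ neg i j →
        (m j - j) - (m i - i) ≤ ε * Q → Q ≤ Qs * S := by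
  obtain ⟨M, hM⟩ := exists_nat_gt (676 * A / (c ^ 2 * e))
  have hKη : 0 ≤ K / η := div_nonneg hK hη.le
  refine ⟨1 / A + (K / η + 2) * 3 ^ M / ε + K / ε, ?_⟩
  intro S n m p neg hS1 hp0 hp1 hm hneg htri hLD hen Q i j hij hjn hAQ heQ hεQ
  have hS : 0 < S := by linarith
  obtain ⟨s0, hs0a, hs0b⟩ : ∃ s0 : ℕ, (K / η + 1) * S ≤ s0 ∧ (s0 : ℝ) ≤ (K / η + 2) * S := by
    refine ⟨⌈(K / η + 1) * S⌉₊, Nat.le_ceil _, ?_⟩
    have h1 : (⌈(K / η + 1) * S⌉₊ : ℝ) < (K / η + 1) * S + 1 := Nat.ceil_lt_add_one (by positivity)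
    nlinarith
  have hs0S : S ≤ s0 := by nlinarith
  have hs0' : 0 < s0 := by
    have : (0 : ℝ) < s0 := by linarith
    exact_mod_cast this
  by_contra hQ
  push Not at hQ
  have t1 : 0 < 1 / A := by positivity
  have t2 : 0 ≤ (K / η + 2) * 3 ^ M / ε := by positivity
  have t3 : 0 ≤ K / ε := by positivity
  have hexp : (1 / A + (K / η + 2) * 3 ^ M / ε + K / ε) * S =
      1 / A * S + (K / η + 2) * 3 ^ M / ε * S + K / ε * S := by ring
  rw [hexp] at hQ
  have t1S : 1 / A ≤ 1 / A * S := by nlinarith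
  have t2S : 0 ≤ (K / η + 2) * 3 ^ M / ε * S := by positivity
  have t3S : 0 ≤ K / ε * S := by positivity
  have hQ0 : 0 < Q := by linarith
  have hAQ1 : 1 ≤ A * Q := by
    have : 1 / A < Q := by linarith
    rw [div_lt_iff₀ hA] at this; linarith
  have hsQ : (s0:ℝ) * 3 ^ M ≤ ε * Q := by
    have h1 : (K / η + 2) * 3 ^ M / ε * S < Q := by linarith
    have h2 : (K / η + 2) * 3 ^ M / ε * S = ((K / η + 2) * S * 3 ^ M) / ε := by ring
    rw [h2, div_lt_iff₀ hε] at h1
    have h3 : (s0:ℝ) * 3 ^ M ≤ (K / η + 2) * S * 3 ^ M :=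
      mul_le_mul_of_nonneg_right hs0b (by positivity)
    linarith
  have hKQ : K * S ≤ ε * Q := by
    have h1 : K / ε * S < Q := by linarith
    have h2 : K / ε * S = (K * S) / ε := by ring
    rw [h2, div_lt_iff₀ hε] at h1; linarith
  have hKs0 : K * S ≤ η * s0 := by
    have h1 : K / η * S ≤ s0 := by nlinarith
    have h2 : K / η * S = (K * S) / η := by ring
    rw [h2, div_le_iff₀ hη] at h1; linarith
  have hscale : ∀ t ∈ range M, c * e * Q / 338 ≤ ∑ q ∈ (Icc i j ×ˢ Icc i j).filter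
      (fun q => q.1 + s0 * 3 ^ t < q.2 ∧ q.2 < q.1 + 3 * (s0 * 3 ^ t)),
        p q.1 q.2 / (m q.2 - m q.1 + S) := by
    intro t ht
    rw [mem_range] at ht
    have h1 : 1 ≤ s0 * 3 ^ t := Nat.mul_pos hs0' (by positivity)
    have h2 : (s0 : ℝ) ≤ s0 * 3 ^ t := by
      have : (1:ℝ) ≤ 3 ^ t := one_le_pow₀ (by norm_num)
      nlinarith [Nat.cast_nonneg (α := ℝ) s0]
    have h3 : (s0 : ℝ) * 3 ^ t ≤ s0 * 3 ^ M := by
      have : (3:ℝ) ^ t ≤ 3 ^ M := pow_le_pow_right₀ (by norm_num) ht.le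
      exact mul_le_mul_of_nonneg_left this (Nat.cast_nonneg _)
    refine one_scaleS (A := A) (ε := ε) (η := η) (K := K * S) hp0 hp1 hm hneg htri hLD hc.le hη.le
      (by positivity) hS hij hjn h1 ?_ hAQ heQ hεQ hpar ?_ ?_ hKQ hQ0.le
    · push_cast
      linarith
    · push_cast
      refine le_trans hKs0 (mul_le_mul_of_nonneg_left h2 hη.le)
    · push_cast
      linarith
  have htot : ∑ t ∈ range M, ∑ q ∈ (Icc i j ×ˢ Icc i j).filter
      (fun q => q.1 + s0 * 3 ^ t < q.2 ∧ q.2 < q.1 + 3 * (s0 * 3 ^ t)),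
        p q.1 q.2 / (m q.2 - m q.1 + S) ≤ ((j:ℝ) - i + 1) / c := by
    rw [← sum_biUnion]
    · refine le_trans ?_ (energy_IccS hS hp0 hm hen hij hjn)
      refine sum_le_sum_of_subset_of_nonneg ?_ ?_
      · intro q hq
        simp only [mem_biUnion, mem_filter, mem_product, mem_Icc] at hq ⊢
        obtain ⟨t, _, h, h2, _⟩ := hq
        exact ⟨h, by omega⟩
      · intro q hq _
        simp only [mem_filter, mem_product, mem_Icc] at hq
        have h10 := hm q.1 q.2 hq.2 (by omega)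
        exact div_nonneg (hp0 _ _) (by linarith)
    · intro t ht t' ht' hne
      rw [Function.onFun, Finset.disjoint_left]
      intro q hq hq'
      simp only [mem_filter, mem_product, mem_Icc] at hq hq'
      rcases lt_or_gt_of_ne hne with h | h
      · have : s0 * (3 * 3 ^ t) ≤ s0 * 3 ^ t' := by
          refine Nat.mul_le_mul_left s0 ?_
          rw [← pow_succ']
          exact Nat.pow_le_pow_right (by norm_num) h
        have h5 : 3 * (s0 * 3 ^ t) = s0 * (3 * 3 ^ t) := by ring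
        omega
      · have : s0 * (3 * 3 ^ t') ≤ s0 * 3 ^ t := by
          refine Nat.mul_le_mul_left s0 ?_
          rw [← pow_succ']
          exact Nat.pow_le_pow_right (by norm_num) h
        have h5 : 3 * (s0 * 3 ^ t') = s0 * (3 * 3 ^ t') := by ring
        omega
  have h6 := sum_le_sum hscale
  rw [sum_const, card_range, nsmul_eq_mul] at h6
  have h7 : ((j:ℝ) - i + 1) / c ≤ 2 * A * Q / c := by
    apply div_le_div_of_nonneg_right _ hc.le
    linarith
  have h8 : (M:ℝ) * (c * e * Q / 338) ≤ 2 * A * Q / c := by linarith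
  rw [le_div_iff₀ hc] at h8
  have h9 : (M:ℝ) * (c ^ 2 * e) ≤ 676 * A := by
    have h10 : ((M:ℝ) * (c ^ 2 * e)) * Q ≤ (676 * A) * Q := by nlinarith
    exact le_of_mul_le_mul_right h10 hQ0
  rw [div_lt_iff₀ (by positivity)] at hM
  linarith

end KSE
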