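import Pool.Agent.Lib_MP_33fb9b_half.ADefs

set_option autoImplicit false

/-!
# Part A at scale `S`: persistence (A.4)
-/

namespace Pool.Agent.Thin.RP

open Finset

variable {n : ℕ} (X : RP n)

/-- (A.4) -/
theorem persistS {c C S : ℝ} (hX : X.GoodS c C S) {Q τ A : ℝ} (hQ : 1 ≤ Q) (hτ : 0 < τ) (hA : 1 ≤ A)
    (hAC : 4 * C ≤ τ * A ^ 3) (hC : 0 ≤ C) (hq : ∀ k, k < n → X.q k ≤ Q) {i : ℕ} (hi : i < n)
    (hqi : τ * Q ≤ X.qp i) :
    ∃ j, i < j ∧ j < n ∧ (j : ℝ) - i ≤ A * Q ∧ τ ^ 2 / (8 * A) * Q ≤ X.neg i j := by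
  classical
  have hQ0 : 0 < Q := by linarith
  have hA0 : 0 < A := by linarith
  have hAQ1 : 1 ≤ A * Q := by nlinarith
  have hAQ : 0 < A * Q := by linarith
  set U := (Ico (i + 1) n).filter (fun j : ℕ => (j : ℝ) - i ≤ A * Q) with hUdef
  have hUm : ∀ j ∈ U, i < j ∧ j < n := by
    intro j hj
    have := mem_Ico.mp (mem_filter.mp hj).1
    omega
  -- the far part
  set F := (Ico (i + 1) n).filter (fun j : ℕ => ¬ ((j : ℝ) - i ≤ A * Q)) with hFdef
  have hsplit : X.qp i = ∑ j ∈ U, X.p i j + ∑ j ∈ F, X.p i j := by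
    unfold qp
    rw [hUdef, hFdef, sum_filter_add_sum_filter_not]
  have hfar : ∑ j ∈ F, X.p i j ≤ τ * Q / 2 := by
    set a := ⌊A * Q⌋₊ + 1 with ha
    have ha1 : A * Q < a := by
      rw [ha]; push_cast; exact Nat.lt_floor_add_one _
    have h1 : ∀ j ∈ F, X.p i j ≤ C * Q ^ 4 * (1 / (((j - i : ℕ) : ℝ)) ^ 4) := by
      intro j hj
      have hj1 := mem_Ico.mp (mem_filter.mp hj).1
      have hij : i < j := by omega
      have h5 := hX.a5 Q i j hQ hij hj1.2 ((X.E_abs_le hi).trans (hq i hi))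
        ((X.E_abs_le hj1.2).trans (hq j hj1.2))
      have h6 : (0 : ℝ) < (j : ℝ) - i := by
        have : (i : ℝ) < j := by exact_mod_cast hij
        linarith
      rw [Nat.cast_sub hij.le, mul_one_div, le_div_iff₀ (by positivity)]
      exact h5
    have h2 : ∑ j ∈ F, X.p i j ≤ ∑ j ∈ F, C * Q ^ 4 * (1 / (((j - i : ℕ) : ℝ)) ^ 4) :=
      sum_le_sum h1
    have h3 : ∑ j ∈ F, (1 / (((j - i : ℕ) : ℝ)) ^ 4) ≤ ∑ R ∈ Ico a (max a n), 1 / (R : ℝ) ^ 4 := by
      have hinj : Set.InjOn (fun j : ℕ => j - i) (F : Set ℕ) := by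
        intro x hx y hy hxy
        have hx' := mem_Ico.mp (mem_filter.mp (mem_coe.mp hx)).1
        have hy' := mem_Ico.mp (mem_filter.mp (mem_coe.mp hy)).1
        simp only at hxy
        omega
      have : ∑ j ∈ F, (1 / (((j - i : ℕ) : ℝ)) ^ 4)
          = ∑ R ∈ F.image (fun j : ℕ => j - i), 1 / (R : ℝ) ^ 4 := by
        rw [sum_image hinj]
      rw [this]
      apply sum_le_sum_of_subset_of_nonneg
      · intro R hR
        rw [mem_image] at hR
        obtain ⟨j, hj, rfl⟩ := hR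
        have hj1 := mem_filter.mp hj
        have hj2 := mem_Ico.mp hj1.1
        have hij : i < j := by omega
        have h7 : A * Q < ((j - i : ℕ) : ℝ) := by
          rw [Nat.cast_sub hij.le]
          exact not_le.mp hj1.2
        have h8 : ⌊A * Q⌋₊ < j - i := (Nat.floor_lt hAQ.le).mpr h7
        rw [mem_Ico, lt_max_iff]
        constructor
        · omega
        · right; omega
      · intro R _ _
        positivity
    have h4 := tail_sum a (by omega) (max a n) (le_max_left _ _)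
    have h5 : 2 / (a : ℝ) ^ 3 ≤ 2 / (A * Q) ^ 3 := by
      apply div_le_div_of_nonneg_left (by norm_num) (by positivity)
      exact pow_le_pow_left₀ hAQ.le ha1.le 3
    have h6 : (0 : ℝ) ≤ 2 / ((max a n : ℕ) : ℝ) ^ 3 := by positivity
    have h7 : ∑ j ∈ F, (1 / (((j - i : ℕ) : ℝ)) ^ 4) ≤ 2 / (A * Q) ^ 3 := by linarith
    have h8 : C * Q ^ 4 * (2 / (A * Q) ^ 3) ≤ τ * Q / 2 := by
      have h9 : C * Q ^ 4 * (2 / (A * Q) ^ 3) = (2 * C * Q) / A ^ 3 := by
        field_simp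
      rw [h9, div_le_iff₀ (by positivity)]
      nlinarith
    calc ∑ j ∈ F, X.p i j ≤ ∑ j ∈ F, C * Q ^ 4 * (1 / (((j - i : ℕ) : ℝ)) ^ 4) := h2
      _ = C * Q ^ 4 * ∑ j ∈ F, (1 / (((j - i : ℕ) : ℝ)) ^ 4) := by rw [mul_sum]
      _ ≤ C * Q ^ 4 * (2 / (A * Q) ^ 3) := mul_le_mul_of_nonneg_left h7 (by positivity)
      _ ≤ τ * Q / 2 := h8
  have hnear : τ * Q / 2 ≤ ∑ j ∈ U, X.p i j := by linarith
  -- the expectation of the square
  have h1 : X.E (fun ω => ((U.filter (fun j => X.h ω j < X.h ω i)).card : ℝ))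
      = ∑ j ∈ U, X.p i j := by
    rw [X.E_card U (fun ω j => X.h ω j < X.h ω i)]
    rfl
  have h2 := X.E_sq (fun ω => ((U.filter (fun j => X.h ω j < X.h ω i)).card : ℝ))
  have h3 : X.E (fun ω => ((U.filter (fun j => X.h ω j < X.h ω i)).card : ℝ) ^ 2)
      ≤ 2 * ∑ j ∈ U, X.neg i j := by
    unfold neg
    rw [← X.E_sum, ← X.E_mul]
    apply X.E_mono
    intro ω
    have := X.card_sq_le ω U hUm
    linarith
  have h4 : (τ * Q / 2) ^ 2 ≤ 2 * ∑ j ∈ U, X.neg i j := by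
    have h5 : (τ * Q / 2) ^ 2 ≤ (∑ j ∈ U, X.p i j) ^ 2 :=
      pow_le_pow_left₀ (by positivity) hnear 2
    rw [h1] at h2
    linarith
  -- the number of near items
  have h5 : (U.card : ℝ) ≤ A * Q := by
    have h6 : U ⊆ Ioc i (i + ⌊A * Q⌋₊) := by
      intro j hj
      have hj1 := hUm j hj
      have hj2 := (mem_filter.mp hj).2
      have h7 : j - i ≤ ⌊A * Q⌋₊ := by
        apply Nat.le_floor
        rw [Nat.cast_sub hj1.1.le]
        exact hj2
      rw [mem_Ioc]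
      omega
    have h7 := card_le_card h6
    rw [Nat.card_Ioc, Nat.add_sub_cancel_left] at h7
    exact (by exact_mod_cast h7 : (U.card : ℝ) ≤ (⌊A * Q⌋₊ : ℝ)).trans (Nat.floor_le hAQ.le)
  by_contra hcon
  push Not at hcon
  have h6 : ∀ j ∈ U, X.neg i j < τ ^ 2 / (8 * A) * Q := by
    intro j hj
    exact hcon j (hUm j hj).1 (hUm j hj).2 (mem_filter.mp hj).2
  have hne : U.Nonempty := by
    by_contra hne
    rw [not_nonempty_iff_eq_empty] at hne
    rw [hne, sum_empty] at h4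
    have : 0 < (τ * Q / 2) ^ 2 := by positivity
    linarith
  have h7 : ∑ j ∈ U, X.neg i j < ∑ _j ∈ U, τ ^ 2 / (8 * A) * Q := sum_lt_sum_of_nonempty hne h6
  rw [sum_const, nsmul_eq_mul] at h7
  have h8 : (U.card : ℝ) * (τ ^ 2 / (8 * A) * Q) ≤ (A * Q) * (τ ^ 2 / (8 * A) * Q) :=
    mul_le_mul_of_nonneg_right h5 (by positivity)
  have h9 : (A * Q) * (τ ^ 2 / (8 * A) * Q) = τ ^ 2 * Q ^ 2 / 8 := by
    field_simp
  have h10 : (τ * Q / 2) ^ 2 = τ ^ 2 * Q ^ 2 / 4 := by ring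
  linarith

end Pool.Agent.Thin.RP
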