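import Mathlib

set_option autoImplicit false

/-!
# Homogeneity lemma: definitions (blueprint C5)

`L` is a linear functional on the functions `F : ℝ × (Fin T → ℝ) → ℂ` with `|F| ≤ A * om`,
`om (y, k) = (1+|y|)^(-3/2) exp (c |k|_1)`.
-/

namespace Pool.Agent.Half

open MeasureTheory

/-- the weight `(1+|y|)^(-3/2)` -/
noncomputable def wt (y : ℝ) : ℝ := ((1 + |y|) * Real.sqrt (1 + |y|))⁻¹

/-- `∑ |k t|` -/
def l1 {T : ℕ} (k : Fin T → ℝ) : ℝ := ∑ t, |k t|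

/-- `θ · k` -/
def dt {T : ℕ} (θ k : Fin T → ℝ) : ℝ := ∑ t, θ t * k t

/-- the weight function -/
noncomputable def om {T : ℕ} (c : ℝ) (z : ℝ × (Fin T → ℝ)) : ℝ := wt z.1 * Real.exp (c * l1 z.2)

/-- admissible functions -/
def Adm {T : ℕ} (c : ℝ) (F : ℝ × (Fin T → ℝ) → ℂ) : Prop := ∃ A : ℝ, ∀ z, ‖F z‖ ≤ A * om c z

/-- test functions -/
def Test (φ : ℝ → ℝ) : Prop := ContDiff ℝ (⊤ : ℕ∞) φ ∧ HasCompactSupport φ

/-- the functionals of the proof of the homogeneity lemma -/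
structure HomFun {T : ℕ} (c C : ℝ) (L : (ℝ × (Fin T → ℝ) → ℂ) → ℂ) : Prop where
  add : ∀ F G, Adm c F → Adm c G → L (fun z => F z + G z) = L F + L G
  smul : ∀ (a : ℂ) (F), Adm c F → L (fun z => a * F z) = a * L F
  bd : ∀ (A : ℝ) (F), 0 ≤ A → (∀ z, ‖F z‖ ≤ A * om c z) → ‖L F‖ ≤ C * A
  id : ∀ (φ : ℝ → ℝ) (lam : Fin T → ℝ), Test φ → (∀ t, 0 ≤ lam t) → (∑ t, lam t ≤ 1) →
    L (fun z => ((φ (z.1 + dt lam z.2) : ℝ) : ℂ)) = ((∫ y, φ y : ℝ) : ℂ)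

end Pool.Agent.Half
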