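import Mathlib

set_option autoImplicit false

/-!
# The numerical parameters of part C (blueprint C7)
-/

namespace Pool.Agent.Half

/-- the parameters; `gam = 1/2 - d`, `K` the displacement constant, `R` the doubling constant -/
structure Par (gam K : ℝ) (R : ℕ) where
  tau : ℝ
  c : ℝ
  ell : ℝ
  xi : ℝ
  eps : ℝ
  N : ℕ
  k0 : ℕ
  k1 : ℕ
  tau_pos : 0 < tau
  tau_le : tau ≤ 1
  c_pos : 0 < c
  c_le : c ≤ 1 / 40
  ell_ge : 2 ≤ ell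
  xi_pos : 0 < xi
  eps_pos : 0 < eps
  foll : 1063 * tau + 4 * Real.exp (-(tau / (32 * c))) < gam
  hdel : eps + xi / 2 ≤ tau / 16
  hk0 : 1 + 2 * K ≤ 2 ^ k0 * eps
  hk1 : ell * (2 * ell + 2 * K) ≤ 2 ^ k1 * c
  hN : 3 * ell * Real.exp (-(N * (c / (800 * ell)) ^ 2)) ≤ (1 / (R : ℝ) ^ k0) / 16
  hxi : (N : ℝ) * (2 * (R : ℝ) ^ k1) * (Real.pi / ell * xi) ^ 2 ≤ 2
  hb1 : 32 * (2 * (R : ℝ) ^ k1 + 1) ^ 2 * Real.exp (-(xi / (32 * eps))) ≤ 1 / 20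
  hb3 : 256 * (2 * (R : ℝ) ^ k1 + 1) ^ 2 * (R : ℝ) ^ k0 * (12 * ell * Real.exp (-(ell / 25600))) ≤ 1 / 20
  hb4 : 256 * (2 * (R : ℝ) ^ k1 + 1) ^ 2 * (R : ℝ) ^ k0 *
    (12 * ell * Real.exp (-(tau / (256 * c)))) ≤ 1 / 20
  hb5 : 256 * (2 * (R : ℝ) ^ k1 + 1) ^ 2 * (R : ℝ) ^ k0 *
    (800 * K * Real.exp (-(ell / (48 * K)))) ≤ 1 / 20
  hb6 : 256 * (2 * (R : ℝ) ^ k1 + 1) ^ 2 * (R : ℝ) ^ k0 *
    (12 * ell * Real.exp (-(ell / (96 * K)))) ≤ 1 / 20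

namespace Par

variable {gam K : ℝ} {R : ℕ} (p : Par gam K R)

/-- number of targets -/
def T : ℕ := 2 * R ^ p.k1

/-- density of the ball -/
noncomputable def pp : ℝ := 1 / (R : ℝ) ^ p.k0

/-- threshold of the bad counts -/
noncomputable def th : ℝ := p.pp / (64 * (2 * (R : ℝ) ^ p.k1 + 1))

end Par

open Filter in
private theorem par_sup_exp (f : ℕ → ℝ) (hf : Tendsto (fun n : ℕ => f n / n) atTop atTop)
    (B C ε : ℝ) (hε : 0 < ε) :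
    ∀ᶠ n : ℕ in atTop, C * Real.exp (B * n) * Real.exp (-(f n)) ≤ ε := by
  have h1 : ∀ᶠ n : ℕ in atTop, B + 1 ≤ f n / n := hf.eventually_ge_atTop _
  have h2 : Tendsto (fun n : ℕ => |C| * Real.exp (-(n : ℝ))) atTop (nhds (|C| * 0)) :=
    (Real.tendsto_exp_neg_atTop_nhds_zero.comp tendsto_natCast_atTop_atTop).const_mul _
  rw [mul_zero] at h2
  have h3 : ∀ᶠ n : ℕ in atTop, |C| * Real.exp (-(n : ℝ)) < ε := h2.eventually_lt_const hε
  filter_upwards [h1, h3, eventually_gt_atTop 0] with n a b c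
  have hn : (0 : ℝ) < n := by exact_mod_cast c
  have h4 : (B + 1) * n ≤ f n := by rwa [le_div_iff₀ hn] at a
  calc C * Real.exp (B * n) * Real.exp (-(f n))
      ≤ |C| * Real.exp (B * n) * Real.exp (-(f n)) := by
        gcongr; exact le_abs_self C
    _ = |C| * Real.exp (B * n + -(f n)) := by rw [mul_assoc, ← Real.exp_add]
    _ ≤ |C| * Real.exp (-(n : ℝ)) := by
        gcongr; linarith
    _ ≤ ε := b.le

open Filter in
private theorem par_sq (a : ℝ) (ha : 0 < a) :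
    Tendsto (fun n : ℕ => (a * (n : ℝ) ^ 2) / n) atTop atTop := by
  refine Tendsto.congr' ?_ (tendsto_natCast_atTop_atTop.const_mul_atTop ha)
  filter_upwards [eventually_gt_atTop 0] with n hn
  have hn' : (n : ℝ) ≠ 0 := by exact_mod_cast hn.ne'
  field_simp

open Filter in
private theorem par_pow (a r : ℝ) (ha : 0 < a) (hr : 1 < r) (k : ℕ) :
    Tendsto (fun n : ℕ => (a * (r ^ n / (n : ℝ) ^ k)) / n) atTop atTop := by
  have h1 : Tendsto (fun n : ℕ => (n : ℝ) ^ (k + 1) / r ^ n) atTop (nhds 0) :=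
    tendsto_pow_const_div_const_pow_of_one_lt (k + 1) hr
  have h2 : Tendsto (fun n : ℕ => (n : ℝ) ^ (k + 1) / r ^ n) atTop (nhdsWithin 0 (Set.Ioi 0)) := by
    refine tendsto_nhdsWithin_iff.2 ⟨h1, ?_⟩
    filter_upwards [eventually_gt_atTop 0] with n hn
    have hn' : (0 : ℝ) < n := by exact_mod_cast hn
    exact Set.mem_Ioi.2 (by positivity)
  have h3 := (h2.inv_tendsto_nhdsGT_zero).const_mul_atTop ha
  refine Tendsto.congr' ?_ h3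
  filter_upwards [eventually_gt_atTop 0] with n hn
  have hn' : (n : ℝ) ≠ 0 := by exact_mod_cast hn.ne'
  have hr' : r ≠ 0 := by linarith
  simp only [Pi.inv_apply]
  field_simp
  rw [pow_succ]

/-- EXISTENCE of parameters. Proof: `tau = min 1 (gam/4000)`; for large `n` take `c = 2^(-n)`, `ell = n^2`,
`k1 = 3n`, `N = 2^(4n)`, `xi = 2^(-(3+2ρ)n)`, `eps = 2^(-(4+2ρ)n)`, `k0 = (5+2ρ)n`; everything follows from
`2^(b n) exp(-a n^2) → 0`, `2^(b n) exp(-a 2^n) → 0`, `2^(b n) exp (- a 4^n/n^4) → 0`, `n^4/4^n → 0`. -/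
theorem exists_par (gam K : ℝ) (hgam : 0 < gam) (hK : 1 ≤ K) (ρ : ℕ) :
    Nonempty (Par gam K (2 ^ ρ)) := by
  classical
  obtain ⟨tau, htau, htau1, htau2⟩ : ∃ tau : ℝ, 0 < tau ∧ tau ≤ 1 ∧ tau ≤ gam / 4000 :=
    ⟨min 1 (gam / 4000), lt_min one_pos (by positivity), min_le_left _ _, min_le_right _ _⟩
  have hK0 : 0 < K := by linarith
  -- the eventualities
  have A1 := par_sup_exp _ (par_pow (tau / 32) 2 (by positivity) (by norm_num) 0) 0 4 (gam / 4)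
    (by positivity)
  have A2 : ∀ᶠ n : ℕ in Filter.atTop, (2 : ℝ) ^ n ≥ max 40 (max (32 / tau) (1 + 2 * K)) :=
    (tendsto_pow_atTop_atTop_of_one_lt (by norm_num : (1 : ℝ) < 2)).eventually_ge_atTop _
  have A3 : ∀ᶠ n : ℕ in Filter.atTop, (n : ℝ) ^ 4 / 4 ^ n < 1 / (2 + 2 * K) :=
    (tendsto_pow_const_div_const_pow_of_one_lt 4 (by norm_num : (1 : ℝ) < 4)).eventually_lt_const
      (by positivity)
  have A4 := par_sup_exp _ (par_pow (1 / 640000) 4 (by norm_num) (by norm_num) 4)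
    (2 + ρ * (5 + 2 * ρ)) 48 1 one_pos
  have A5 := par_sup_exp _ (par_pow (1 / 32) 2 (by norm_num) (by norm_num) 0)
    (6 * ρ) (32 * 9) (1 / 20) (by norm_num)
  have A6 := par_sup_exp _ (par_sq (1 / 25600) (by norm_num))
    (6 * ρ + ρ * (5 + 2 * ρ) + 2) (256 * 9 * 12) (1 / 20) (by norm_num)
  have A7 := par_sup_exp _ (par_pow (tau / 256) 2 (by positivity) (by norm_num) 0)
    (6 * ρ + ρ * (5 + 2 * ρ) + 2) (256 * 9 * 12) (1 / 20) (by norm_num)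
  have A8 := par_sup_exp _ (par_sq (1 / (48 * K)) (by positivity))
    (6 * ρ + ρ * (5 + 2 * ρ)) (256 * 9 * (800 * K)) (1 / 20) (by norm_num)
  have A9 := par_sup_exp _ (par_sq (1 / (96 * K)) (by positivity))
    (6 * ρ + ρ * (5 + 2 * ρ) + 2) (256 * 9 * 12) (1 / 20) (by norm_num)
  obtain ⟨n, a1, a2, a3, a4, a5, a6, a7, a8, a9, hn2⟩ :=
    (A1.and (A2.and (A3.and (A4.and (A5.and (A6.and (A7.and (A8.and (A9.and
      (Filter.eventually_ge_atTop 2)))))))))).exists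
  have hn : (2 : ℝ) ≤ n := by exact_mod_cast hn2
  have hn0 : (0 : ℝ) < n := by linarith
  obtain ⟨b1, b2⟩ := max_le_iff.1 a2
  obtain ⟨b2, b3⟩ := max_le_iff.1 b2
  -- elementary bounds
  have e2 : ∀ m : ℕ, (2 : ℝ) ^ m ≤ Real.exp m := by
    intro m
    have h1 : (2 : ℝ) ≤ Real.exp 1 := by
      have := Real.add_one_le_exp (1 : ℝ); linarith
    calc (2 : ℝ) ^ m ≤ (Real.exp 1) ^ m := by gcongr
      _ = Real.exp m := by rw [← Real.exp_nat_mul, mul_one]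
  have en : (n : ℝ) ^ 2 ≤ Real.exp (2 * n) := by
    have h1 : (n : ℝ) ≤ Real.exp n := by
      have := Real.add_one_le_exp (n : ℝ); linarith
    calc (n : ℝ) ^ 2 ≤ (Real.exp n) ^ 2 := by gcongr
      _ = Real.exp (2 * n) := by rw [← Real.exp_nat_mul]; norm_num
  have hR1 : (((2 : ℕ) ^ ρ : ℕ) : ℝ) ^ (3 * n) = 2 ^ (3 * ρ * n) := by
    push_cast
    rw [← pow_mul]; ring_nf
  have hR0 : (((2 : ℕ) ^ ρ : ℕ) : ℝ) ^ ((5 + 2 * ρ) * n) = 2 ^ (ρ * (5 + 2 * ρ) * n) := by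
    push_cast
    rw [← pow_mul]; ring_nf
  have hR1' : (2 : ℝ) ^ (3 * ρ * n) ≤ Real.exp (3 * ρ * n) := by
    have := e2 (3 * ρ * n); push_cast at this; exact this
  have hR0' : (2 : ℝ) ^ (ρ * (5 + 2 * ρ) * n) ≤ Real.exp (ρ * (5 + 2 * ρ) * n) := by
    have := e2 (ρ * (5 + 2 * ρ) * n); push_cast at this; exact this
  have hsq : (2 * (2 : ℝ) ^ (3 * ρ * n) + 1) ^ 2 ≤ 9 * Real.exp (6 * ρ * n) := by
    have h1 : (1 : ℝ) ≤ 2 ^ (3 * ρ * n) := one_le_pow₀ (by norm_num)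
    calc (2 * (2 : ℝ) ^ (3 * ρ * n) + 1) ^ 2 ≤ (3 * Real.exp (3 * ρ * n)) ^ 2 := by
          gcongr; linarith
      _ = 9 * Real.exp (6 * ρ * n) := by
          rw [mul_pow, ← Real.exp_nat_mul]; norm_num; ring_nf
  -- the common estimate
  have key : ∀ (x E : ℝ), 0 ≤ x → 0 ≤ E →
      256 * (2 * (2 : ℝ) ^ (3 * ρ * n) + 1) ^ 2 * 2 ^ (ρ * (5 + 2 * ρ) * n) * (x * E) ≤
        256 * 9 * x * Real.exp ((6 * ρ + ρ * (5 + 2 * ρ)) * n) * E := by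
    intro x E hx hE
    calc 256 * (2 * (2 : ℝ) ^ (3 * ρ * n) + 1) ^ 2 * 2 ^ (ρ * (5 + 2 * ρ) * n) * (x * E)
        ≤ 256 * (9 * Real.exp (6 * ρ * n)) * Real.exp (ρ * (5 + 2 * ρ) * n) * (x * E) := by
          gcongr
      _ = 256 * 9 * x * (Real.exp (6 * ρ * n) * Real.exp (ρ * (5 + 2 * ρ) * n)) * E := by ring
      _ = 256 * 9 * x * Real.exp ((6 * ρ + ρ * (5 + 2 * ρ)) * n) * E := by
          rw [← Real.exp_add]; ring_nf
  have key2 : ∀ (E : ℝ), 0 ≤ E →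
      256 * (2 * (2 : ℝ) ^ (3 * ρ * n) + 1) ^ 2 * 2 ^ (ρ * (5 + 2 * ρ) * n) *
        (12 * (n : ℝ) ^ 2 * E) ≤
        256 * 9 * 12 * Real.exp ((6 * ρ + ρ * (5 + 2 * ρ) + 2) * n) * E := by
    intro E hE
    refine (key (12 * (n : ℝ) ^ 2) E (by positivity) hE).trans ?_
    calc 256 * 9 * (12 * (n : ℝ) ^ 2) * Real.exp ((6 * ρ + ρ * (5 + 2 * ρ)) * n) * E
        ≤ 256 * 9 * (12 * Real.exp (2 * n)) * Real.exp ((6 * ρ + ρ * (5 + 2 * ρ)) * n) * E := by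
          gcongr
      _ = 256 * 9 * 12 * (Real.exp ((6 * ρ + ρ * (5 + 2 * ρ)) * n) * Real.exp (2 * n)) * E := by
          ring
      _ = 256 * 9 * 12 * Real.exp ((6 * ρ + ρ * (5 + 2 * ρ) + 2) * n) * E := by
          rw [← Real.exp_add]; ring_nf
  have h2n : (0 : ℝ) < 2 ^ n := by positivity
  refine ⟨{
    tau := tau
    c := ((2 : ℝ) ^ n)⁻¹
    ell := (n : ℝ) ^ 2
    xi := ((2 : ℝ) ^ ((3 + 2 * ρ) * n))⁻¹
    eps := ((2 : ℝ) ^ ((4 + 2 * ρ) * n))⁻¹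
    N := 2 ^ (4 * n)
    k0 := (5 + 2 * ρ) * n
    k1 := 3 * n
    tau_pos := htau
    tau_le := htau1
    c_pos := by positivity
    c_le := ?_
    ell_ge := by nlinarith
    xi_pos := by positivity
    eps_pos := by positivity
    foll := ?_
    hdel := ?_
    hk0 := ?_
    hk1 := ?_
    hN := ?_
    hxi := ?_
    hb1 := ?_
    hb3 := ?_
    hb4 := ?_
    hb5 := ?_
    hb6 := ?_ }⟩
  · -- c_le
    rw [inv_le_comm₀ h2n (by norm_num)]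
    norm_num
    exact b1
  · -- foll
    have h1 : tau / (32 * ((2 : ℝ) ^ n)⁻¹) = tau / 32 * (2 ^ n / (n : ℝ) ^ 0) := by
      rw [pow_zero, div_one]; field_simp
    rw [h1]
    simp only [zero_mul, Real.exp_zero, mul_one] at a1
    linarith
  · -- hdel
    have h1 : ((2 : ℝ) ^ ((4 + 2 * ρ) * n))⁻¹ ≤ ((2 : ℝ) ^ n)⁻¹ := by
      gcongr
      · norm_num
      · nlinarith
    have h2 : ((2 : ℝ) ^ ((3 + 2 * ρ) * n))⁻¹ ≤ ((2 : ℝ) ^ n)⁻¹ := by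
      gcongr
      · norm_num
      · nlinarith
    have h3 : ((2 : ℝ) ^ n)⁻¹ ≤ tau / 32 := by
      rw [inv_le_comm₀ h2n (by positivity), inv_div]
      exact b2
    linarith
  · -- hk0
    have h1 : (2 : ℝ) ^ ((5 + 2 * ρ) * n) = 2 ^ n * 2 ^ ((4 + 2 * ρ) * n) := by
      rw [← pow_add]; congr 1; ring
    rw [h1, mul_assoc, mul_inv_cancel₀ (by positivity), mul_one]
    exact b3
  · -- hk1
    have h1 : (2 : ℝ) ^ (3 * n) * ((2 : ℝ) ^ n)⁻¹ = 4 ^ n := by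
      have : (2 : ℝ) ^ (3 * n) = 4 ^ n * 2 ^ n := by
        rw [show (4 : ℝ) = 2 ^ 2 by norm_num, ← pow_mul, ← pow_add]; congr 1; ring
      rw [this, mul_assoc, mul_inv_cancel₀ (by positivity), mul_one]
    rw [h1]
    have h4 : (0 : ℝ) < 4 ^ n := by positivity
    rw [div_lt_div_iff₀ h4 (by positivity)] at a3
    have h5 : K * (n : ℝ) ^ 2 ≤ K * (n : ℝ) ^ 4 := by
      have : (n : ℝ) ^ 2 ≤ (n : ℝ) ^ 4 := pow_le_pow_right₀ (by linarith) (by norm_num)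
      gcongr
    nlinarith
  · -- hN
    have h1 : (((2 ^ (4 * n) : ℕ) : ℝ)) * (((2 : ℝ) ^ n)⁻¹ / (800 * (n : ℝ) ^ 2)) ^ 2 =
        1 / 640000 * (4 ^ n / (n : ℝ) ^ 4) := by
      push_cast
      have : (2 : ℝ) ^ (4 * n) = 4 ^ n * (2 ^ n) ^ 2 := by
        rw [show (4 : ℝ) = 2 ^ 2 by norm_num, ← pow_mul, ← pow_mul, ← pow_add]; congr 1; ring
      rw [this]
      field_simp
      norm_num
    rw [h1, hR0, le_div_iff₀ (by norm_num), le_div_iff₀ (by positivity)]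
    refine le_trans ?_ a4
    calc 3 * (n : ℝ) ^ 2 * Real.exp (-(1 / 640000 * (4 ^ n / (n : ℝ) ^ 4))) * 16 *
          2 ^ (ρ * (5 + 2 * ρ) * n)
        ≤ 3 * Real.exp (2 * n) * Real.exp (-(1 / 640000 * (4 ^ n / (n : ℝ) ^ 4))) * 16 *
          Real.exp (ρ * (5 + 2 * ρ) * n) := by gcongr
      _ = 48 * (Real.exp (2 * n) * Real.exp (ρ * (5 + 2 * ρ) * n)) *
          Real.exp (-(1 / 640000 * (4 ^ n / (n : ℝ) ^ 4))) := by ring
      _ = 48 * Real.exp ((2 + ρ * (5 + 2 * ρ)) * n) *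
          Real.exp (-(1 / 640000 * (4 ^ n / (n : ℝ) ^ 4))) := by
          rw [← Real.exp_add]; ring_nf
  · -- hxi
    rw [hR1]
    push_cast
    have hpi : Real.pi / (n : ℝ) ^ 2 ≤ 1 := by
      rw [div_le_one (by positivity)]
      nlinarith [Real.pi_le_four]
    have hpi0 : 0 ≤ Real.pi / (n : ℝ) ^ 2 := by positivity
    have h1 : (Real.pi / (n : ℝ) ^ 2 * ((2 : ℝ) ^ ((3 + 2 * ρ) * n))⁻¹) ^ 2 ≤
        (((2 : ℝ) ^ ((3 + 2 * ρ) * n))⁻¹) ^ 2 := by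
      have h3 : (0 : ℝ) ≤ ((2 : ℝ) ^ ((3 + 2 * ρ) * n))⁻¹ := by positivity
      gcongr
      calc Real.pi / (n : ℝ) ^ 2 * ((2 : ℝ) ^ ((3 + 2 * ρ) * n))⁻¹
          ≤ 1 * ((2 : ℝ) ^ ((3 + 2 * ρ) * n))⁻¹ := by gcongr
        _ = _ := one_mul _
    calc (2 : ℝ) ^ (4 * n) * (2 * 2 ^ (3 * ρ * n)) *
          (Real.pi / (n : ℝ) ^ 2 * ((2 : ℝ) ^ ((3 + 2 * ρ) * n))⁻¹) ^ 2
        ≤ (2 : ℝ) ^ (4 * n) * (2 * 2 ^ (3 * ρ * n)) * (((2 : ℝ) ^ ((3 + 2 * ρ) * n))⁻¹) ^ 2 := by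
          gcongr
      _ = 2 * ((2 : ℝ) ^ (4 * n + 3 * ρ * n) / (2 : ℝ) ^ ((3 + 2 * ρ) * n * 2)) := by
          rw [inv_pow, ← pow_mul, pow_add]; field_simp
      _ ≤ 2 * 1 := by
          gcongr
          rw [div_le_one (by positivity)]
          refine pow_le_pow_right₀ (by norm_num) ?_
          nlinarith [Nat.zero_le (ρ * n), Nat.zero_le n]
      _ = 2 := by norm_num
  · -- hb1
    rw [hR1]
    have h1 : ((2 : ℝ) ^ ((3 + 2 * ρ) * n))⁻¹ / (32 * ((2 : ℝ) ^ ((4 + 2 * ρ) * n))⁻¹) =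
        1 / 32 * (2 ^ n / (n : ℝ) ^ 0) := by
      have : (2 : ℝ) ^ ((4 + 2 * ρ) * n) = 2 ^ n * 2 ^ ((3 + 2 * ρ) * n) := by
        rw [← pow_add]; congr 1; ring
      rw [this, pow_zero, div_one]
      field_simp
    rw [h1]
    refine le_trans ?_ a5
    calc 32 * (2 * (2 : ℝ) ^ (3 * ρ * n) + 1) ^ 2 * Real.exp (-(1 / 32 * (2 ^ n / (n : ℝ) ^ 0)))
        ≤ 32 * (9 * Real.exp (6 * ρ * n)) * Real.exp (-(1 / 32 * (2 ^ n / (n : ℝ) ^ 0))) := by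
          gcongr
      _ = _ := by ring
  · -- hb3
    rw [hR1, hR0, show (n : ℝ) ^ 2 / 25600 = 1 / 25600 * (n : ℝ) ^ 2 by ring]
    exact (key2 _ (Real.exp_nonneg _)).trans a6
  · -- hb4
    have h1 : tau / (256 * ((2 : ℝ) ^ n)⁻¹) = tau / 256 * (2 ^ n / (n : ℝ) ^ 0) := by
      rw [pow_zero, div_one]; field_simp
    rw [hR1, hR0, h1]
    exact (key2 _ (Real.exp_nonneg _)).trans a7
  · -- hb5
    rw [hR1, hR0, show (n : ℝ) ^ 2 / (48 * K) = 1 / (48 * K) * (n : ℝ) ^ 2 by ring]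
    exact (key (800 * K) _ (by positivity) (Real.exp_nonneg _)).trans a8
  · -- hb6
    rw [hR1, hR0, show (n : ℝ) ^ 2 / (96 * K) = 1 / (96 * K) * (n : ℝ) ^ 2 by ring]
    exact (key2 _ (Real.exp_nonneg _)).trans a9

end Pool.Agent.Half
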