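import Pool.Agent.Lib_MP_33fb9b_half.Loc
import Pool.Agent.Lib_MP_33fb9b_half.Par
import Pool.Agent.Lib_MP_33fb9b_half.HomDefs

set_option autoImplicit false

/-!
# The configuration of part C (blueprint C8) and the bad counts (blueprint C9)
-/

namespace Pool.Agent.Half

open Pool.Agent.BFT MeasureTheory Finset

/-- CONFIGURATION (blueprint C8): `w` indexing, `a` base element, `y0` the place of the followers (in
units of `S`), `cc` the centres, `e` an enumeration of the targets. -/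
structure Cfg {gam K : ℝ} {R : ℕ} (p : Par gam K R) (y0 : ℝ) (P : Type) [Fintype P] [PartialOrder P]
    (S : ℝ) where
  w : Fin (Fintype.card P) ≃ P
  a : P
  cc : P → P
  e : Fin p.T → P × Bool
  hK : 1 ≤ K
  hR : 1 ≤ R
  hS : 2 * K + 2 ≤ S
  disp : Disp w K S
  hbal : S ≤ (R : ℝ) ^ p.k0 * (((univ : Finset P).filter (fun v => ds a v ≤ p.eps * S)).card : ℝ)
  hcc : ∀ v, |ix w v - ix w a| ≤ p.ell * S → ds (cc v) v ≤ p.c / p.ell * S
  he : ∀ v, |ix w v - ix w a| ≤ p.ell * S → ∀ s : Bool, ∃ t, e t = (cc v, s)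
  hy0 : |y0| ≤ 10 * (1 + K) + 1
  foll : ∀ v, sp a v ≤ 2 * p.c * S → 3 * p.tau / 16 * S < |ht v - ht a - y0 * S|

namespace Cfg

variable {gam K : ℝ} {R : ℕ} {p : Par gam K R} {y0 : ℝ} {P : Type} [Fintype P] [PartialOrder P]
  {S : ℝ} (C : Cfg p y0 P S)

/-- deviation of `X_v - X_u` from its mean -/
noncomputable def dv (u v : P) (x : P → ℝ) : ℝ := |x v - x u - (ht v - ht u)|

/-- the dense ball -/
noncomputable def Bal : Finset P := univ.filter (fun v => ds C.a v ≤ p.eps * S)

/-- the near window -/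
noncomputable def Wn : Finset P := univ.filter (fun v => |ix C.w v - ix C.w C.a| ≤ p.ell * S)

/-- the wide window -/
noncomputable def Wd : Finset P := univ.filter (fun v => |ix C.w v - ix C.w C.a| ≤ S ^ 2)

/-- bad elements of the ball -/
noncomputable def N1 (x : P → ℝ) : ℝ := ∑ v ∈ C.Bal, BFT.ind (p.xi / 2 * S ≤ dv C.a v x)

/-- elements far from their centre -/
noncomputable def N3 (x : P → ℝ) : ℝ := ∑ v ∈ C.Wn, BFT.ind (p.c / 1600 * S ≤ dv (C.cc v) v x)

open Classical in
/-- rigid elements (with respect to the base) which are displaced -/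
noncomputable def N4 (x : P → ℝ) : ℝ :=
  ∑ v ∈ C.Wn.filter (fun v => sp C.a v ≤ 2 * p.c * S), BFT.ind (p.tau / 16 * S ≤ dv C.a v x)

open Classical in
/-- far elements which come close to `y0` -/
noncomputable def N5 (x : P → ℝ) : ℝ :=
  ∑ v ∈ C.Wd.filter (fun v => v ∉ C.Wn), BFT.ind (|x v - x C.a| ≤ (|y0| + p.tau / 8) * S)

/-- elements with a huge displacement -/
noncomputable def N6 (x : P → ℝ) : ℝ := ∑ v ∈ C.Wn, BFT.ind (p.ell / 2 * S ≤ dv C.a v x)

/-- exponential moments with weights -/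
noncomputable def B2 (x : P → ℝ) : ℝ :=
  S⁻¹ * ∑ v ∈ C.Wd, wt ((ix C.w v - ix C.w C.a) / S) * Real.exp (dv C.a v x / (96 * K * S))

/-- the total badness -/
noncomputable def bad (x : P → ℝ) : ℝ :=
  2 * ((p.T : ℝ) + 1) * (C.N1 x / C.Bal.card) +
    (C.N3 x + C.N4 x + C.N5 x + C.N6 x) / (p.th * S) + C.B2 x / (400 * ((p.T : ℝ) + 1))

open Classical in
/-- the targets: `t = 0` everything; `t + 1 ↦ (j, s)`: `X_j - X_a` is far above (`s = true`) or far below its
median, if its spread is at least `c S` -/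
noncomputable def tgt (m0 : P → ℝ) (t : Fin (p.T + 1)) : Set (P → ℝ) :=
  Fin.cases Set.univ (fun t : Fin p.T =>
    if p.c * S ≤ sp C.a (C.e t).1 then
      (if (C.e t).2 then {x | m0 (C.e t).1 + p.c / 400 * S ≤ x (C.e t).1 - x C.a}
        else {x | x (C.e t).1 - x C.a ≤ m0 (C.e t).1 - p.c / 400 * S})
    else Set.univ) t

end Cfg

end Pool.Agent.Half
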