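import Pool.Agent.Lib_MP_33fb9b_half.Marg

set_option autoImplicit false

/-!
# K22: the follower claim (blueprint C8)
-/

namespace Pool.Agent.Half

open Pool.Agent.BFT MeasureTheory

/-- the set of `A` is covered by the events `B`, `C`, `D` -/
private theorem Follow_cover {P : Type} [Fintype P] [PartialOrder P] {A B C D : Set (P → ℝ)}
    (h : A ⊆ B ∪ (C ∪ D)) :
    (XL P).real A ≤ (XL P).real B + ((XL P).real C + (XL P).real D) := by
  have h1 : (XL P).real A ≤ (XL P).real (B ∪ (C ∪ D)) := measureReal_mono h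
  have h2 : (XL P).real (B ∪ (C ∪ D)) ≤ (XL P).real B + (XL P).real (C ∪ D) :=
    measureReal_union_le _ _
  have h3 : (XL P).real (C ∪ D) ≤ (XL P).real C + (XL P).real D := measureReal_union_le _ _
  linarith

/-- FOLLOWER CLAIM. Proof: `sp a v ≤ 2cS < S/10 ≤ sp a b`, so `v ≠ b`. `P(v<b) = XL {x v < x b}`
`≥ XL {x b - x a ≥ (y0+τ)S} - XL {x v - x a ≥ (y0+τ)S}`; the first is `≥ 1/2 - 100 (τ+τ/16) S/(S/10)` by
`sp_small` (from the median `m0`), the second `≤ 4 exp (-(13τ/16) S/(16 c S)) ≤ 4 exp(-τ/(32c))` by `sp_tail`.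
The same for `P(b<v)` with `(y0-τ)S`. So `min (lt v b) (lt b v) > d`. -/
theorem follower {P : Type} [Fintype P] [PartialOrder P] {d : ℝ} (hu : Unb P d) (a b v : P)
    {S c τ y0 m0 : ℝ} (hS : 0 < S) (hc : 0 < c) (hc1 : c ≤ 1 / 40) (hτ : 0 < τ) (hab : S / 10 ≤ sp a b)
    (hm1 : 1 / 2 ≤ (XL P).real {x : P → ℝ | m0 ≤ x b - x a})
    (hm2 : 1 / 2 ≤ (XL P).real {x : P → ℝ | x b - x a ≤ m0}) (hy : |m0 - y0 * S| ≤ τ / 16 * S)
    (hnum : 1063 * τ + 4 * Real.exp (-(τ / (32 * c))) < 1 / 2 - d)
    (hav : sp a v ≤ 2 * c * S) : 3 * τ / 16 * S < |ht v - ht a - y0 * S| := by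
  by_contra hcon
  rw [not_lt] at hcon
  have hsp0 : 0 < sp a b := by linarith
  have hvb : v ≠ b := by
    rintro rfl
    have h1 : 2 * c * S ≤ 2 * (1 / 40) * S := by
      apply mul_le_mul_of_nonneg_right _ hS.le
      linarith
    linarith
  have hτS : 0 < τ * S := mul_pos hτ hS
  -- tails of `x v - x a`
  have hs : 0 < 2 * c * S := by positivity
  have htail := sp_tail a v hs hav (13 * τ / 16 * S)
  have hexp : 4 * Real.exp (-(13 * τ / 16 * S / (8 * (2 * c * S)))) ≤
      4 * Real.exp (-(τ / (32 * c))) := by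
    have h1 : 13 * τ / 16 * S / (8 * (2 * c * S)) = 13 / 8 * (τ / (32 * c)) := by
      field_simp
      ring
    rw [h1]
    have h2 : 0 < τ / (32 * c) := by positivity
    have h3 : Real.exp (-(13 / 8 * (τ / (32 * c)))) ≤ Real.exp (-(τ / (32 * c))) := by
      apply Real.exp_le_exp.mpr
      linarith
    linarith
  -- small balls of `x b - x a`
  have hball : ∀ z : ℝ, (XL P).real {x : P → ℝ | z ≤ x b - x a ∧ x b - x a < z + 1063 / 1000 * τ * S}
      ≤ 1063 * τ := by
    intro z
    have h1 := sp_small a b hsp0 z (1063 / 1000 * τ * S) (by positivity)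
    refine h1.trans ?_
    rw [div_le_iff₀ hsp0]
    have h2 : 1063 * τ * (S / 10) ≤ 1063 * τ * sp a b :=
      mul_le_mul_of_nonneg_left hab (by positivity)
    linarith
  obtain ⟨hy1, hy2⟩ := abs_le.mp hy
  obtain ⟨hc1', hc2'⟩ := abs_le.mp hcon
  -- `v` before `b`
  have hA : 1 / 2 ≤ lt v b + (1063 * τ + 4 * Real.exp (-(τ / (32 * c)))) := by
    rw [← XL_lt b v]
    refine hm1.trans ((Follow_cover (B := {x : P → ℝ | x v < x b})
      (C := {x : P → ℝ | m0 ≤ x b - x a ∧ x b - x a < m0 + 1063 / 1000 * τ * S})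
      (D := {x : P → ℝ | 13 * τ / 16 * S ≤ |x v - x a - (ht v - ht a)|}) ?_).trans ?_)
    · intro x hx
      simp only [Set.mem_setOf_eq] at hx
      simp only [Set.mem_union, Set.mem_setOf_eq]
      by_cases h1 : x v < x b
      · exact Or.inl h1
      · right
        by_cases h2 : x b - x a < m0 + 1063 / 1000 * τ * S
        · exact Or.inl ⟨hx, h2⟩
        · right
          rw [not_lt] at h1 h2
          refine le_trans ?_ (le_abs_self _)
          linarith
    · have := hball m0
      linarith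
  -- `b` before `v`
  have hB : 1 / 2 ≤ lt b v + (1063 * τ + 4 * Real.exp (-(τ / (32 * c)))) := by
    rw [← XL_lt v b]
    refine hm2.trans ((Follow_cover (B := {x : P → ℝ | x b < x v})
      (C := {x : P → ℝ | (y0 - τ) * S ≤ x b - x a ∧ x b - x a < (y0 - τ) * S + 1063 / 1000 * τ * S})
      (D := {x : P → ℝ | 13 * τ / 16 * S ≤ |x v - x a - (ht v - ht a)|}) ?_).trans ?_)
    · intro x hx
      simp only [Set.mem_setOf_eq] at hx
      simp only [Set.mem_union, Set.mem_setOf_eq]
      by_cases h1 : x b < x v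
      · exact Or.inl h1
      · right
        by_cases h2 : (y0 - τ) * S ≤ x b - x a
        · refine Or.inl ⟨h2, ?_⟩
          linarith
        · right
          rw [not_lt] at h1
          rw [not_le] at h2
          refine le_trans ?_ (neg_le_abs _)
          linarith
    · have := hball ((y0 - τ) * S)
      linarith
  have hmin := hu v b hvb
  rcases min_le_iff.mp hmin with h | h <;> linarith

end Pool.Agent.Half
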