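import Mathlib

set_option autoImplicit false

/-!
# K06: transitive subsets of tournaments; coverings in doubling pseudometrics (blueprint C3)
-/

namespace Pool.Agent.Half

open Finset

/-- a transitive chain of length `k+1` in a tournament on at least `2^k` vertices -/
theorem tournament {V : Type} [DecidableEq V] (r : V → V → Prop) (k : ℕ) (A : Finset V)
    (hA : 2 ^ k ≤ A.card) (hr : ∀ u ∈ A, ∀ v ∈ A, u ≠ v → r u v ∨ r v u) :
    ∃ f : ℕ → V, (∀ i, i ≤ k → f i ∈ A) ∧ (∀ i j, i < j → j ≤ k → f i ≠ f j ∧ r (f i) (f j)) := by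
  classical
  induction k generalizing A with
  | zero =>
    have h1 : A.Nonempty := by
      rw [← Finset.card_pos]
      simpa using hA
    obtain ⟨v, hv⟩ := h1
    exact ⟨fun _ => v, fun _ _ => hv, fun i j hij hj => by omega⟩
  | succ k ih =>
    have h1 : A.Nonempty := by
      rw [← Finset.card_pos]
      exact lt_of_lt_of_le (by positivity) hA
    obtain ⟨v, hv⟩ := h1
    set O := (A.erase v).filter (fun u => r v u) with hO
    set I := (A.erase v).filter (fun u => r u v) with hI
    have hcov : A.erase v ⊆ O ∪ I := by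
      intro u hu
      rw [Finset.mem_union, hO, hI, Finset.mem_filter, Finset.mem_filter]
      obtain ⟨h2, h3⟩ := Finset.mem_erase.mp hu
      rcases hr u h3 v hv h2 with h | h
      · exact Or.inr ⟨hu, h⟩
      · exact Or.inl ⟨hu, h⟩
    have hcard : 2 ^ (k + 1) ≤ O.card + I.card + 1 := by
      have h2 := Finset.card_le_card hcov
      have h3 := Finset.card_union_le O I
      have h4 := Finset.card_erase_of_mem hv
      omega
    have hcases : 2 ^ k ≤ O.card ∨ 2 ^ k ≤ I.card := by
      by_contra hcon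
      push Not at hcon
      rw [pow_succ] at hcard
      omega
    rcases hcases with h | h
    · obtain ⟨f, hf1, hf2⟩ := ih O h (fun u hu w hw huw =>
        hr u (Finset.mem_of_mem_erase (Finset.mem_filter.mp hu).1) w
          (Finset.mem_of_mem_erase (Finset.mem_filter.mp hw).1) huw)
      refine ⟨fun i => if i = 0 then v else f (i - 1), ?_, ?_⟩
      · intro i hi
        by_cases h0 : i = 0
        · simp only [h0, if_true]; exact hv
        · simp only [h0, if_false]
          exact Finset.mem_of_mem_erase (Finset.mem_filter.mp (hf1 (i - 1) (by omega))).1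
      · intro i j hij hj
        have hj0 : j ≠ 0 := by omega
        simp only [hj0, if_false]
        by_cases h0 : i = 0
        · simp only [h0, if_true]
          have h2 := Finset.mem_filter.mp (hf1 (j - 1) (by omega))
          exact ⟨(Finset.ne_of_mem_erase h2.1).symm, h2.2⟩
        · simp only [h0, if_false]
          exact hf2 (i - 1) (j - 1) (by omega) (by omega)
    · obtain ⟨f, hf1, hf2⟩ := ih I h (fun u hu w hw huw =>
        hr u (Finset.mem_of_mem_erase (Finset.mem_filter.mp hu).1) w
          (Finset.mem_of_mem_erase (Finset.mem_filter.mp hw).1) huw)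
      refine ⟨fun i => if i ≤ k then f i else v, ?_, ?_⟩
      · intro i hi
        by_cases h0 : i ≤ k
        · simp only [h0, if_true]
          exact Finset.mem_of_mem_erase (Finset.mem_filter.mp (hf1 i h0)).1
        · simp only [h0, if_false]; exact hv
      · intro i j hij hj
        have hik : i ≤ k := by omega
        simp only [hik, if_true]
        by_cases h0 : j ≤ k
        · simp only [h0, if_true]
          exact hf2 i j hij h0
        · simp only [h0, if_false]
          have h2 := Finset.mem_filter.mp (hf1 i hik)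
          exact ⟨Finset.ne_of_mem_erase h2.1, h2.2⟩

/-- a maximal separated subset -/
private theorem Tourn_maxsep {V : Type} [DecidableEq V] (dd : V → V → ℝ) (h0 : ∀ u, dd u u = 0)
    (hs : ∀ u v, dd u v = dd v u) (ρ : ℝ) (hρ : 0 < ρ) (A : Finset V) :
    ∃ N : Finset V, N ⊆ A ∧ (∀ u ∈ N, ∀ v ∈ N, u ≠ v → ρ ≤ dd u v) ∧
      ∀ w ∈ A, ∃ c ∈ N, dd c w < ρ := by
  classical
  obtain ⟨Sep, hSep⟩ : ∃ Sep : Finset V → Prop, ∀ N, Sep N ↔
      ∀ u ∈ N, ∀ v ∈ N, u ≠ v → ρ ≤ dd u v := ⟨_, fun _ => Iff.rfl⟩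
  have hne : (A.powerset.filter Sep).Nonempty := ⟨∅, by
    rw [Finset.mem_filter, hSep]
    exact ⟨Finset.empty_mem_powerset A, fun u hu => absurd hu (Finset.notMem_empty u)⟩⟩
  obtain ⟨N, hN, hmax⟩ := (A.powerset.filter Sep).exists_max_image (fun N => N.card) hne
  rw [Finset.mem_filter, Finset.mem_powerset, hSep] at hN
  refine ⟨N, hN.1, hN.2, ?_⟩
  intro w hw
  by_contra hcon
  push Not at hcon
  have hwN : w ∉ N := by
    intro h
    have := hcon w h
    rw [h0] at this
    linarith
  have hins : insert w N ∈ A.powerset.filter Sep := by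
    rw [Finset.mem_filter, Finset.mem_powerset, hSep]
    refine ⟨Finset.insert_subset hw hN.1, ?_⟩
    intro u hu v hv huv
    rw [Finset.mem_insert] at hu hv
    rcases hu with hu1 | hu1
    · rcases hv with hv1 | hv1
      · exact absurd (hu1.trans hv1.symm) huv
      · rw [hs, hu1]
        exact hcon v hv1
    · rcases hv with hv1 | hv1
      · rw [hv1]
        exact hcon u hu1
      · exact hN.2 u hu1 v hv1 huv
  have h1 := hmax _ hins
  rw [Finset.card_insert_of_notMem hwN] at h1
  omega

/-- COVERING in a pseudometric in which `ρ`-separated sets of diameter `≤ 4 ρ` have at most `R` points.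
Proof by induction on `k`: maximal `ρ`-separated subset of `A`, `4 ρ = 2^(k+1) r` (`Finset.exists_maximal`
or induction on the cardinality), pieces of diameter `≤ 2 ρ = 2^k r`. -/
theorem covering {V : Type} (dd : V → V → ℝ) (h0 : ∀ u, dd u u = 0) (hs : ∀ u v, dd u v = dd v u)
    (ht : ∀ u v w, dd u w ≤ dd u v + dd v w) (R : ℕ) (hR : 1 ≤ R)
    (hdb : ∀ (ρ : ℝ) (A : Finset V), 0 < ρ →
      (∀ u ∈ A, ∀ v ∈ A, u ≠ v → ρ ≤ dd u v ∧ dd u v ≤ 4 * ρ) → A.card ≤ R)
    (k : ℕ) (r : ℝ) (hr : 0 < r) (A : Finset V) (hA : ∀ u ∈ A, ∀ v ∈ A, dd u v ≤ 2 ^ k * r) :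
    ∃ N : Finset V, N ⊆ A ∧ N.card ≤ R ^ k ∧ ∀ w ∈ A, ∃ c ∈ N, dd c w ≤ r := by
  classical
  induction k generalizing A with
  | zero =>
    rcases A.eq_empty_or_nonempty with rfl | ⟨c, hc⟩
    · exact ⟨∅, Finset.Subset.refl _, by simp, fun w hw => absurd hw (Finset.notMem_empty w)⟩
    · refine ⟨{c}, Finset.singleton_subset_iff.mpr hc, by simp, ?_⟩
      intro w hw
      refine ⟨c, Finset.mem_singleton_self c, ?_⟩
      have := hA c hc w hw
      simpa using this
  | succ k ih =>
    set ρ : ℝ := 2 ^ (k + 1) * r / 4 with hρ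
    have hρ0 : 0 < ρ := by positivity
    obtain ⟨N0, hN0A, hsep, hcov⟩ := Tourn_maxsep dd h0 hs ρ hρ0 A
    have hcard : N0.card ≤ R := by
      apply hdb ρ N0 hρ0
      intro u hu v hv huv
      refine ⟨hsep u hu v hv huv, ?_⟩
      have := hA u (hN0A hu) v (hN0A hv)
      rw [hρ]
      linarith
    have hpiece : ∀ c : V, ∃ N : Finset V, N ⊆ A.filter (fun w => dd c w < ρ) ∧
        N.card ≤ R ^ k ∧ ∀ w ∈ A.filter (fun w => dd c w < ρ), ∃ c' ∈ N, dd c' w ≤ r := by
      intro c
      apply ih (A.filter (fun w => dd c w < ρ))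
      intro u hu v hv
      have h1 := (Finset.mem_filter.mp hu).2
      have h2 := (Finset.mem_filter.mp hv).2
      have h3 := ht u c v
      rw [hs u c] at h3
      have h4 : 2 * ρ = 2 ^ k * r := by
        rw [hρ, pow_succ]
        ring
      linarith
    choose Nc hNc1 hNc2 hNc3 using hpiece
    refine ⟨N0.biUnion Nc, ?_, ?_, ?_⟩
    · intro w hw
      obtain ⟨c, _, hc2⟩ := Finset.mem_biUnion.mp hw
      exact (Finset.mem_filter.mp (hNc1 c hc2)).1
    · calc (N0.biUnion Nc).card ≤ N0.card * R ^ k :=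
            Finset.card_biUnion_le_card_mul _ _ _ (fun c _ => hNc2 c)
        _ ≤ R * R ^ k := Nat.mul_le_mul_right _ hcard
        _ = R ^ (k + 1) := by rw [pow_succ, mul_comm]
    · intro w hw
      obtain ⟨c, hc, hcw⟩ := hcov w hw
      obtain ⟨c', hc', hcw'⟩ := hNc3 c w (Finset.mem_filter.mpr ⟨hw, hcw⟩)
      exact ⟨c', Finset.mem_biUnion.mpr ⟨c, hc, hc'⟩, hcw'⟩

end Pool.Agent.Half
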