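import Pool.Agent.Lib_MP_33fb9b_half.Cfg
import Pool.Agent.Lib_MP_33fb9b_half.Follow
import Pool.Agent.Lib_MP_33fb9b_half.Tourn

set_option autoImplicit false

/-!
# K23: existence of the configuration (blueprint C8)
-/

namespace Pool.Agent.Half

open Pool.Agent.BFT MeasureTheory Finset

/-- enumeration of a small finite set by `Fin n` -/
private theorem Choose_enum {α : Type} (M : Finset α) (n : ℕ) (hM : M.card ≤ n) (x0 : α) :
    ∃ f : Fin n → α, ∀ x ∈ M, ∃ t, f t = x := by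
  classical
  refine ⟨fun t => if h : (t : ℕ) < M.card then ((M.equivFin.symm ⟨t, h⟩ : M) : α) else x0, ?_⟩
  intro x hx
  have h1 : ((M.equivFin ⟨x, hx⟩ : Fin M.card) : ℕ) < M.card := (M.equivFin ⟨x, hx⟩).2
  refine ⟨⟨((M.equivFin ⟨x, hx⟩ : Fin M.card) : ℕ), lt_of_lt_of_le h1 hM⟩, ?_⟩
  simp only
  rw [dif_pos h1]
  simp

/-- pigeonhole for a covering -/
private theorem Choose_pigeon {α : Type} [DecidableEq α] (A N : Finset α) (B : α → Finset α) (m : ℕ)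
    (hA : A.Nonempty) (hN : N.card ≤ m) (hcov : ∀ x ∈ A, ∃ c ∈ N, x ∈ B c) :
    ∃ c ∈ N, A.card ≤ m * (B c).card := by
  have hNne : N.Nonempty := by
    obtain ⟨x, hx⟩ := hA
    obtain ⟨c, hc, _⟩ := hcov x hx
    exact ⟨c, hc⟩
  obtain ⟨c, hc, hmax⟩ := N.exists_max_image (fun c => (B c).card) hNne
  refine ⟨c, hc, ?_⟩
  have h1 : A ⊆ N.biUnion B := by
    intro x hx
    obtain ⟨c', hc', hx'⟩ := hcov x hx
    exact Finset.mem_biUnion.mpr ⟨c', hc', hx'⟩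
  calc A.card ≤ (N.biUnion B).card := Finset.card_le_card h1
    _ ≤ N.card * (B c).card := Finset.card_biUnion_le_card_mul _ _ _ (fun c' hc' => hmax c' hc')
    _ ≤ m * (B c).card := Nat.mul_le_mul_right _ hN

/-- a dense ball near `u0`: cover `{v | ix u0 ≤ ix v ≤ ix u0 + S}` (pairwise `ds ≤ (1+2K)S ≤ 2^k0 eps S`)
by `R^k0` balls (`covering`), pigeonhole -/
theorem dense_ball {P : Type} [Fintype P] [PartialOrder P] {K S : ℝ} {R : ℕ} (hR : 1 ≤ R)
    (w : Fin (Fintype.card P) ≃ P) (hw : Disp w K S) (hK : 1 ≤ K) (hS : 1 ≤ S)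
    (hdb : ∀ (r : ℝ) (A : Finset P), 0 < r →
      (∀ u ∈ A, ∀ v ∈ A, u ≠ v → r ≤ ds u v ∧ ds u v ≤ 4 * r) → A.card ≤ R)
    (u0 : P) (hroom : ix w u0 + S + 1 ≤ Fintype.card P) (ε : ℝ) (hε : 0 < ε) (k : ℕ)
    (hk : 1 + 2 * K ≤ 2 ^ k * ε) :
    ∃ a : P, ix w u0 ≤ ix w a ∧ ix w a ≤ ix w u0 + S ∧
      S ≤ (R : ℝ) ^ k * (((univ : Finset P).filter (fun v => ds a v ≤ ε * S)).card : ℝ) := by
  classical
  have hS0 : (0 : ℝ) < S := by linarith
  set A : Finset P := (univ : Finset P).filter (fun v => ix w u0 ≤ ix w v ∧ ix w v ≤ ix w u0 + S)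
    with hAdef
  have hA : S ≤ (A.card : ℝ) := loc_card_ge w u0 S hS0.le hroom
  have hmem : ∀ v ∈ A, ix w u0 ≤ ix w v ∧ ix w v ≤ ix w u0 + S := fun v hv =>
    (Finset.mem_filter.mp hv).2
  have hdiam : ∀ u ∈ A, ∀ v ∈ A, ds u v ≤ 2 ^ k * (ε * S) := by
    intro u hu v hv
    have h1 := loc_ds hw u v
    obtain ⟨h2, h3⟩ := hmem u hu
    obtain ⟨h4, h5⟩ := hmem v hv
    have h6 : |ix w v - ix w u| ≤ S := by
      rw [abs_le]
      constructor <;> linarith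
    have h7 : (1 + 2 * K) * S ≤ (2 ^ k * ε) * S := mul_le_mul_of_nonneg_right hk hS0.le
    calc ds u v ≤ S + 2 * (K * S) := by linarith
      _ = (1 + 2 * K) * S := by ring
      _ ≤ (2 ^ k * ε) * S := h7
      _ = 2 ^ k * (ε * S) := by ring
  obtain ⟨N, hNA, hNc, hcov⟩ := covering (fun u v : P => ds u v) ds_self ds_comm ds_triangle R hR
    hdb k (ε * S) (mul_pos hε hS0) A hdiam
  have hAne : A.Nonempty := by
    rw [← Finset.card_pos]
    have : (0 : ℝ) < (A.card : ℝ) := lt_of_lt_of_le hS0 hA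
    exact_mod_cast this
  obtain ⟨c, hc, hcard⟩ := Choose_pigeon A N
    (fun c => (univ : Finset P).filter (fun v => ds c v ≤ ε * S)) (R ^ k) hAne hNc (by
      intro x hx
      obtain ⟨c, hc, hcx⟩ := hcov x hx
      exact ⟨c, hc, Finset.mem_filter.mpr ⟨Finset.mem_univ x, hcx⟩⟩)
  obtain ⟨h1, h2⟩ := hmem c (hNA hc)
  refine ⟨c, h1, h2, ?_⟩
  have h3 : (A.card : ℝ) ≤ (((R ^ k * ((univ : Finset P).filter
      (fun v => ds c v ≤ ε * S)).card : ℕ)) : ℝ) := by exact_mod_cast hcard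
  rw [Nat.cast_mul, Nat.cast_pow] at h3
  exact hA.trans h3

/-- centres and targets for the near window: `covering` of `{v | |ix v - ix a| ≤ ell S}` (pairwise
`ds ≤ (2 ell + 2K) S ≤ 2^k1 (c/ell) S`) by at most `R^k1` balls of radius `c/ell S` -/
theorem net {P : Type} [Fintype P] [PartialOrder P] {K S : ℝ} {R : ℕ} (hR : 1 ≤ R)
    (w : Fin (Fintype.card P) ≃ P) (hw : Disp w K S) (hK : 1 ≤ K) (hS : 1 ≤ S)
    (hdb : ∀ (r : ℝ) (A : Finset P), 0 < r →
      (∀ u ∈ A, ∀ v ∈ A, u ≠ v → r ≤ ds u v ∧ ds u v ≤ 4 * r) → A.card ≤ R)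
    (a : P) (ell c : ℝ) (hl : 2 ≤ ell) (hc : 0 < c) (k : ℕ)
    (hk : ell * (2 * ell + 2 * K) ≤ 2 ^ k * c) :
    ∃ (cc : P → P) (e : Fin (2 * R ^ k) → P × Bool),
      (∀ v, |ix w v - ix w a| ≤ ell * S → ds (cc v) v ≤ c / ell * S) ∧
      (∀ v, |ix w v - ix w a| ≤ ell * S → ∀ s : Bool, ∃ t, e t = (cc v, s)) := by
  classical
  have hS0 : (0 : ℝ) < S := by linarith
  have hl0 : (0 : ℝ) < ell := by linarith
  set A : Finset P := (univ : Finset P).filter (fun v => |ix w v - ix w a| ≤ ell * S) with hAdef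
  have hmemA : ∀ v, |ix w v - ix w a| ≤ ell * S → v ∈ A := fun v hv =>
    Finset.mem_filter.mpr ⟨Finset.mem_univ v, hv⟩
  have hmem : ∀ v ∈ A, |ix w v - ix w a| ≤ ell * S := fun v hv => (Finset.mem_filter.mp hv).2
  have hk' : 2 * ell + 2 * K ≤ 2 ^ k * (c / ell) := by
    have h1 : 2 ^ k * (c / ell) = (2 ^ k * c) / ell := by ring
    rw [h1, le_div_iff₀ hl0]
    linarith
  have hdiam : ∀ u ∈ A, ∀ v ∈ A, ds u v ≤ 2 ^ k * (c / ell * S) := by
    intro u hu v hv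
    have h1 := loc_ds hw u v
    have h2 := abs_le.mp (hmem u hu)
    have h3 := abs_le.mp (hmem v hv)
    have h6 : |ix w v - ix w u| ≤ 2 * (ell * S) := by
      rw [abs_le]
      constructor <;> linarith [h2.1, h2.2, h3.1, h3.2]
    have h7 : (2 * ell + 2 * K) * S ≤ (2 ^ k * (c / ell)) * S :=
      mul_le_mul_of_nonneg_right hk' hS0.le
    calc ds u v ≤ 2 * (ell * S) + 2 * (K * S) := by linarith
      _ = (2 * ell + 2 * K) * S := by ring
      _ ≤ (2 ^ k * (c / ell)) * S := h7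
      _ = 2 ^ k * (c / ell * S) := by ring
  obtain ⟨N, hNA, hNc, hcov⟩ := covering (fun u v : P => ds u v) ds_self ds_comm ds_triangle R hR
    hdb k (c / ell * S) (mul_pos (div_pos hc hl0) hS0) A hdiam
  have hcov' : ∀ v : P, ∃ c' : P, v ∈ A → c' ∈ N ∧ ds c' v ≤ c / ell * S := by
    intro v
    by_cases hv : v ∈ A
    · obtain ⟨c', hc', hd⟩ := hcov v hv
      exact ⟨c', fun _ => ⟨hc', hd⟩⟩
    · exact ⟨v, fun h => absurd h hv⟩
  choose cc hcc using hcov'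
  obtain ⟨e, he⟩ := Choose_enum (N ×ˢ (Finset.univ : Finset Bool)) (2 * R ^ k) (by
    rw [Finset.card_product, Finset.card_univ, Fintype.card_bool, mul_comm]
    exact Nat.mul_le_mul_left 2 hNc) (a, true)
  refine ⟨cc, e, fun v hv => (hcc v (hmemA v hv)).2, fun v hv s => ?_⟩
  exact he (cc v, s) (Finset.mem_product.mpr ⟨(hcc v (hmemA v hv)).1, Finset.mem_univ s⟩)

/-- EXISTENCE OF THE CONFIGURATION. `b` is one of `u0, v0` with `sp a b ≥ S/10` (`sp_triangle`),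
`m0` its median (`sp_median`; `|m0| ≤ 10(1+K)S` because `ds a b ≤ (2+2K)S`), `y0 = j tau/16` with
`|m0 - y0 S| ≤ tau/16 S`, `follower`. -/
theorem cfg_exists {d K : ℝ} {R : ℕ} (hR : 1 ≤ R) (hK : 1 ≤ K) (p : Par (1 / 2 - d) K R)
    {P : Type} [Fintype P] [PartialOrder P] {S : ℝ} (hu : Unb P d) (hS : 2 * K + 2 ≤ S)
    (w : Fin (Fintype.card P) ≃ P) (hw : Disp w K S)
    (hdb : ∀ (r : ℝ) (A : Finset P), 0 < r →
      (∀ u ∈ A, ∀ v ∈ A, u ≠ v → r ≤ ds u v ∧ ds u v ≤ 4 * r) → A.card ≤ R)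
    (u0 v0 : P) (hsp : S / 5 ≤ sp u0 v0) (hds : ds u0 v0 ≤ S)
    (hroom : ix w u0 + S + 1 ≤ Fintype.card P) :
    ∃ (j : ℤ) (C : Cfg p (j * (p.tau / 16)) P S), |(j : ℝ)| ≤ 16 * (10 * (1 + K) + 1) / p.tau ∧
      C.w = w ∧ ix w u0 ≤ ix w C.a ∧ ix w C.a ≤ ix w u0 + S := by
  have hS1 : (1 : ℝ) ≤ S := by linarith
  have hS0 : (0 : ℝ) < S := by linarith
  obtain ⟨a, ha1, ha2, hbal⟩ := dense_ball hR w hw hK hS1 hdb u0 hroom p.eps p.eps_pos p.k0 p.hk0
  obtain ⟨cc, e, hcc, he⟩ := net hR w hw hK hS1 hdb a p.ell p.c p.ell_ge p.c_pos p.k1 p.hk1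
  -- the element `b`
  have hau : ds a u0 ≤ (1 + 2 * K) * S := by
    have h1 := loc_ds hw a u0
    have h2 : |ix w u0 - ix w a| ≤ S := by
      rw [abs_le]
      constructor <;> linarith
    calc ds a u0 ≤ S + 2 * (K * S) := by linarith
      _ = (1 + 2 * K) * S := by ring
  have hb : ∃ b : P, S / 10 ≤ sp a b ∧ ds a b ≤ (2 + 2 * K) * S := by
    by_cases h1 : S / 10 ≤ sp a u0
    · refine ⟨u0, h1, hau.trans ?_⟩
      have : (0 : ℝ) ≤ S := hS0.le
      nlinarith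
    · push Not at h1
      refine ⟨v0, ?_, ?_⟩
      · have h2 := sp_triangle u0 a v0
        rw [sp_comm u0 a] at h2
        linarith
      · have h2 := ds_triangle a u0 v0
        calc ds a v0 ≤ (1 + 2 * K) * S + S := by linarith
          _ = (2 + 2 * K) * S := by ring
  obtain ⟨b, hb1, hb2⟩ := hb
  have hspb : 0 < sp a b := lt_of_lt_of_le (by positivity) hb1
  obtain ⟨m0, hm1, hm2, -, -, hm5⟩ := sp_median a b hspb
  have hm0 : |m0| ≤ 10 * (1 + K) * S := by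
    have h1 := ht_le_ds a b
    have h2 := sp_le_ds a b
    have h3 : |m0| ≤ |m0 - (ht b - ht a)| + |ht b - ht a| := by
      have := abs_add_le (m0 - (ht b - ht a)) (ht b - ht a)
      simpa using this
    have h4 : |m0| ≤ 5 * ds a b := by linarith
    have h5 : 5 * ds a b ≤ 5 * ((2 + 2 * K) * S) := by linarith
    calc |m0| ≤ 5 * ((2 + 2 * K) * S) := h4.trans h5
      _ = 10 * (1 + K) * S := by ring
  -- the grid point
  have hτ := p.tau_pos
  have hτ1 := p.tau_le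
  have hτ16 : 0 < p.tau / 16 := by positivity
  set q : ℝ := m0 / S / (p.tau / 16) with hq
  have hqm : q * (p.tau / 16) * S = m0 := by
    rw [hq]
    field_simp
  have hj1 : (⌊q⌋ : ℝ) ≤ q := Int.floor_le q
  have hj2 : q < (⌊q⌋ : ℝ) + 1 := Int.lt_floor_add_one q
  have hy : |m0 - (⌊q⌋ : ℝ) * (p.tau / 16) * S| ≤ p.tau / 16 * S := by
    have h1 : m0 - (⌊q⌋ : ℝ) * (p.tau / 16) * S = (q - (⌊q⌋ : ℝ)) * (p.tau / 16 * S) := by
      rw [← hqm]
      ring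
    rw [h1, abs_mul, abs_of_nonneg (mul_pos hτ16 hS0).le, abs_of_nonneg (by linarith)]
    have h2 : (q - (⌊q⌋ : ℝ)) ≤ 1 := by linarith
    have h3 := mul_le_mul_of_nonneg_right h2 (mul_pos hτ16 hS0).le
    linarith
  have hqabs : |q| ≤ 160 * (1 + K) / p.tau := by
    have h1 : |q| * (p.tau / 16 * S) = |m0| := by
      rw [← hqm, mul_assoc, abs_mul, abs_of_nonneg (mul_pos hτ16 hS0).le]
    rw [le_div_iff₀ hτ]
    have h2 : |q| * (p.tau / 16 * S) ≤ 10 * (1 + K) * S := by rw [h1]; exact hm0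
    have h3 : (|q| * p.tau) * S ≤ (160 * (1 + K)) * S := by linarith
    exact le_of_mul_le_mul_right h3 hS0
  have hjabs : |(⌊q⌋ : ℝ)| ≤ |q| + 1 := by
    have h1 : |(⌊q⌋ : ℝ) - q| ≤ 1 := by
      rw [abs_le]
      constructor <;> linarith
    have h2 := abs_add_le ((⌊q⌋ : ℝ) - q) q
    have h3 : (⌊q⌋ : ℝ) - q + q = (⌊q⌋ : ℝ) := by ring
    rw [h3] at h2
    linarith
  have hy0 : |(⌊q⌋ : ℝ) * (p.tau / 16)| ≤ 10 * (1 + K) + 1 := by
    rw [abs_mul, abs_of_nonneg hτ16.le]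
    have h1 : |(⌊q⌋ : ℝ)| * (p.tau / 16) ≤ (160 * (1 + K) / p.tau + 1) * (p.tau / 16) :=
      mul_le_mul_of_nonneg_right (by linarith) hτ16.le
    have h2 : (160 * (1 + K) / p.tau + 1) * (p.tau / 16) = 10 * (1 + K) + p.tau / 16 := by
      field_simp
      ring
    rw [h2] at h1
    linarith
  refine ⟨⌊q⌋, {
    w := w
    a := a
    cc := cc
    e := e
    hK := hK
    hR := hR
    hS := hS
    disp := hw
    hbal := hbal
    hcc := hcc
    he := he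
    hy0 := hy0
    foll := fun v hv => follower hu a b v hS0 p.c_pos p.c_le hτ hb1 hm1 hm2 hy p.foll hv }, ?_, rfl,
    ha1, ha2⟩
  have h1 : (16 : ℝ) * (10 * (1 + K) + 1) / p.tau = 160 * (1 + K) / p.tau + 16 / p.tau := by
    rw [← add_div]
    ring
  rw [h1]
  have h2 : (1 : ℝ) ≤ 16 / p.tau := by
    rw [le_div_iff₀ hτ]
    linarith
  linarith

end Pool.Agent.Half
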