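import Pool.Agent.Lib_MP_33fb9b_half.Det

set_option autoImplicit false

/-!
# K27c: the deterministic part, moment bound (blueprint C10)
-/

namespace Pool.Agent.Half

open Pool.Agent.BFT MeasureTheory Finset

private theorem detmom_wt (h r : ℝ) : wt h ≤ wt r * (1 + |h - r|) ^ 2 := by
  unfold wt
  have h1 : 0 < 1 + |h| := by positivity
  have h2 : 0 < 1 + |r| := by positivity
  have h3 : 0 < Real.sqrt (1 + |h|) := Real.sqrt_pos.2 h1
  have h4 : 0 < Real.sqrt (1 + |r|) := Real.sqrt_pos.2 h2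
  have hy : 0 ≤ |h - r| := abs_nonneg _
  have hr : |r| ≤ |h| + |h - r| := by
    have := abs_sub h (h - r)
    have e : h - (h - r) = r := by ring
    rw [e] at this
    exact this
  have hh : 0 ≤ |h| := abs_nonneg h
  have key : 1 + |r| ≤ (1 + |h|) * (1 + |h - r|) := by nlinarith
  have key2 : Real.sqrt (1 + |r|) ≤ Real.sqrt (1 + |h|) * (1 + |h - r|) := by
    have e : Real.sqrt (1 + |h|) * (1 + |h - r|) = Real.sqrt ((1 + |h|) * (1 + |h - r|) ^ 2) := by
      rw [Real.sqrt_mul h1.le, Real.sqrt_sq (by linarith)]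
    rw [e]
    apply Real.sqrt_le_sqrt
    have : (1 + |h|) * (1 + |h - r|) ≤ (1 + |h|) * (1 + |h - r|) ^ 2 := by
      apply mul_le_mul_of_nonneg_left _ h1.le
      nlinarith
    linarith
  rw [← div_eq_inv_mul, inv_eq_one_div, div_le_div_iff₀ (mul_pos h1 h3) (mul_pos h2 h4), one_mul]
  calc (1 + |r|) * Real.sqrt (1 + |r|)
      ≤ ((1 + |h|) * (1 + |h - r|)) * (Real.sqrt (1 + |h|) * (1 + |h - r|)) :=
        mul_le_mul key key2 h4.le (by positivity)
    _ = (1 + |h - r|) ^ 2 * ((1 + |h|) * Real.sqrt (1 + |h|)) := by ring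

private theorem detmom_exp {n : ℕ} (D : Fin (n + 1) → ℝ) :
    Real.exp ((∑ t, D t) / ((n : ℝ) + 1)) ≤ (∑ t, Real.exp (D t)) / ((n : ℝ) + 1) := by
  have hn : (0 : ℝ) < (n : ℝ) + 1 := by positivity
  have h := convexOn_exp.map_sum_le (t := (Finset.univ : Finset (Fin (n + 1))))
    (w := fun _ => 1 / ((n : ℝ) + 1)) (p := D) (fun _ _ => by positivity) (by
      rw [Finset.sum_const, Finset.card_univ, Fintype.card_fin, nsmul_eq_mul]
      push_cast
      field_simp) (fun _ _ => Set.mem_univ _)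
  simp only [smul_eq_mul, ← Finset.mul_sum] at h
  rw [one_div, ← div_eq_inv_mul, ← div_eq_inv_mul] at h
  exact h

private theorem detmom_sq (κ y : ℝ) (hκ : 0 < κ) (hκ1 : κ ≤ 1) (hy : 0 ≤ y) :
    (1 + y) ^ 2 ≤ (κ⁻¹) ^ 2 * Real.exp (2 * κ * y) := by
  have h1 : 1 + y ≤ κ⁻¹ * Real.exp (κ * y) := by
    have h2 : 1 + κ * y ≤ Real.exp (κ * y) := by
      have := Real.add_one_le_exp (κ * y)
      linarith
    have h3 : 1 ≤ κ⁻¹ := (one_le_inv₀ hκ).2 hκ1
    calc 1 + y ≤ κ⁻¹ + y := by linarith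
      _ = κ⁻¹ * (1 + κ * y) := by field_simp
      _ ≤ κ⁻¹ * Real.exp (κ * y) := mul_le_mul_of_nonneg_left h2 (by positivity)
  have h4 : Real.exp (2 * κ * y) = Real.exp (κ * y) ^ 2 := by
    rw [← Real.exp_nat_mul]
    congr 1
    push_cast
    ring
  rw [h4, ← mul_pow]
  exact pow_le_pow_left₀ (by linarith) h1 2

namespace Cfg

variable {gam K : ℝ} {R : ℕ} {p : Par gam K R} {y0 : ℝ} {P : Type} [Fintype P] [PartialOrder P]
  {S : ℝ} (C : Cfg p y0 P S)

/-- the constants of the moment bound -/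
noncomputable def cH (K : ℝ) (T : ℕ) : ℝ := 1 / (96 * K) / (2 * T * (T + 1))
noncomputable def CH (K : ℝ) (T : ℕ) : ℝ := (1 + 2 * K) ^ 2 * (4 * (T + 1) * (96 * K)) ^ 2 * (400 * (T + 1))

/-- moment bound. `|H - r| ≤ dv_0/S + 2K` (`loc_ht`), `wt H ≤ wt r (1 + |H - r|)^2`,
`(1 + 2K + y)^2 ≤ (1+2K)^2 κ^(-2) exp (2 κ y)` with `κ = c5/(4(T+1))`, `c5 = 1/(96K)`,
`l1 V ≤ T ∑_t dv_t/S`, `exp (∑ a_t) ≤ mean of exp ((T+1) a_t)`. -/
theorem det_moment (x : Fin (p.T + 1) → P → ℝ) (hbad : ∀ t, C.bad (x t) < 1) :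
    S⁻¹ * ∑ v ∈ C.Wd, wt (C.H x v) * Real.exp (cH K p.T * l1 (C.V x v)) ≤ CH K p.T := by
  have hK := C.hK
  have hS : 0 < S := by
    have := C.hS
    linarith
  have hKp : 0 < K := by linarith
  have hT0 : (0 : ℝ) ≤ (p.T : ℝ) := Nat.cast_nonneg _
  have hT1 : (1 : ℝ) ≤ (p.T : ℝ) := by
    have h1 : 1 ≤ R ^ p.k1 := Nat.one_le_pow _ _ (by have := C.hR; omega)
    have h2 : 1 ≤ p.T := by
      unfold Par.T; omega
    exact_mod_cast h2
  have hTp : (0 : ℝ) < (p.T : ℝ) + 1 := by linarith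
  -- the deviations
  set D : P → Fin (p.T + 1) → ℝ := fun v t => dv C.a v (x t) / S with hD
  have hD0 : ∀ v t, 0 ≤ D v t := by
    intro v t
    simp only [hD]
    exact div_nonneg (abs_nonneg _) hS.le
  have hDsum : ∀ v t, D v t ≤ ∑ s, D v s := fun v t =>
    Finset.single_le_sum (f := fun s => D v s) (fun s _ => hD0 v s) (Finset.mem_univ t)
  -- pointwise bound
  have hpt : ∀ v, wt (C.H x v) * Real.exp (cH K p.T * l1 (C.V x v)) ≤
      (1 + 2 * K) ^ 2 * (4 * ((p.T : ℝ) + 1) * (96 * K)) ^ 2 / ((p.T : ℝ) + 1) *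
        ∑ t, wt ((ix C.w v - ix C.w C.a) / S) * Real.exp (dv C.a v (x t) / (96 * K * S)) := by
    intro v
    set r : ℝ := (ix C.w v - ix C.w C.a) / S with hr
    have hHr : |C.H x v - r| ≤ 2 * K + D v 0 := by
      have h1 := loc_ht C.disp C.a v
      have e : C.H x v - r = (x 0 v - x 0 C.a - (ht v - ht C.a)) / S +
          (ht v - ht C.a - (ix C.w v - ix C.w C.a)) / S := by
        rw [hr]; unfold Cfg.H
        ring
      rw [e]
      refine (abs_add_le _ _).trans ?_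
      rw [abs_div, abs_div, abs_of_pos hS]
      have h2 : |ht v - ht C.a - (ix C.w v - ix C.w C.a)| / S ≤ 2 * K := by
        rw [div_le_iff₀ hS]
        linarith
      have h3 : |x 0 v - x 0 C.a - (ht v - ht C.a)| / S = D v 0 := rfl
      rw [h3]
      linarith
    have hwt : wt (C.H x v) ≤ wt r * ((1 + 2 * K) ^ 2 * ((4 * ((p.T : ℝ) + 1) * (96 * K)) ^ 2 *
        Real.exp (2 * (1 / (4 * ((p.T : ℝ) + 1) * (96 * K))) * D v 0))) := by
      refine (detmom_wt (C.H x v) r).trans ?_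
      have hwr : 0 ≤ wt r := by unfold wt; positivity
      refine mul_le_mul_of_nonneg_left ?_ hwr
      have hD00 := hD0 v 0
      have h1 : (1 + |C.H x v - r|) ^ 2 ≤ ((1 + 2 * K) * (1 + D v 0)) ^ 2 := by
        apply pow_le_pow_left₀ (by positivity)
        nlinarith
      refine h1.trans ?_
      rw [mul_pow]
      refine mul_le_mul_of_nonneg_left ?_ (by positivity)
      have hq : 1 ≤ 4 * ((p.T : ℝ) + 1) * (96 * K) := by nlinarith
      have h2 := detmom_sq (1 / (4 * ((p.T : ℝ) + 1) * (96 * K))) (D v 0) (by positivity) (by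
        rw [div_le_one (by linarith)]; exact hq) hD00
      rw [one_div, inv_inv] at h2
      rw [one_div]
      exact h2
    have hl1 : l1 (C.V x v) ≤ (p.T : ℝ) * ∑ t, D v t := by
      unfold l1
      have h1 : ∀ t : Fin p.T, |C.V x v t| ≤ D v t.succ + D v 0 := by
        intro t
        have e : C.V x v t = (x t.succ v - x t.succ C.a - (ht v - ht C.a)) / S -
            (x 0 v - x 0 C.a - (ht v - ht C.a)) / S := by
          unfold Cfg.V; ring
        rw [e]
        refine (abs_sub _ _).trans ?_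
        rw [abs_div, abs_div, abs_of_pos hS]
        exact le_rfl
      refine (Finset.sum_le_sum fun t _ => h1 t).trans ?_
      rw [Finset.sum_add_distrib, Finset.sum_const, Finset.card_univ, Fintype.card_fin,
        nsmul_eq_mul, Fin.sum_univ_succ]
      have h2 : 0 ≤ ∑ t : Fin p.T, D v t.succ := Finset.sum_nonneg fun t _ => hD0 v _
      nlinarith
    have hcH : cH K p.T * l1 (C.V x v) ≤ 1 / (96 * K) / (2 * ((p.T : ℝ) + 1)) * ∑ t, D v t := by
      have h1 : 0 ≤ cH K p.T := by unfold cH; positivity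
      refine (mul_le_mul_of_nonneg_left hl1 h1).trans (le_of_eq ?_)
      unfold cH
      have : (p.T : ℝ) ≠ 0 := by linarith
      field_simp
    have hexp : Real.exp (2 * (1 / (4 * ((p.T : ℝ) + 1) * (96 * K))) * D v 0) *
        Real.exp (cH K p.T * l1 (C.V x v)) ≤
        (∑ t, Real.exp (dv C.a v (x t) / (96 * K * S))) / ((p.T : ℝ) + 1) := by
      rw [← Real.exp_add]
      have h1 : 2 * (1 / (4 * ((p.T : ℝ) + 1) * (96 * K))) * D v 0 + cH K p.T * l1 (C.V x v) ≤
          (∑ t, D v t / (96 * K)) / ((p.T : ℝ) + 1) := by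
        rw [← Finset.sum_div]
        have h2 := hDsum v 0
        have h3 : 2 * (1 / (4 * ((p.T : ℝ) + 1) * (96 * K))) * D v 0 ≤
            1 / (96 * K) / (2 * ((p.T : ℝ) + 1)) * ∑ t, D v t := by
          have e : 2 * (1 / (4 * ((p.T : ℝ) + 1) * (96 * K))) = 1 / (96 * K) / (2 * ((p.T : ℝ) + 1)) := by
            field_simp
            norm_num
          rw [e]
          exact mul_le_mul_of_nonneg_left h2 (by positivity)
        have e2 : (∑ t, D v t) / (96 * K) / ((p.T : ℝ) + 1) =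
            1 / (96 * K) / (2 * ((p.T : ℝ) + 1)) * (∑ t, D v t) +
              1 / (96 * K) / (2 * ((p.T : ℝ) + 1)) * (∑ t, D v t) := by
          field_simp
          ring
        rw [e2]
        exact add_le_add h3 hcH
      refine (Real.exp_le_exp.2 h1).trans ?_
      refine (detmom_exp (fun t => D v t / (96 * K))).trans (le_of_eq ?_)
      congr 1
      refine Finset.sum_congr rfl fun t _ => ?_
      congr 1
      simp only [hD]
      rw [div_div]
      congr 1
      ring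
    have hwr : 0 ≤ wt r := by unfold wt; positivity
    calc wt (C.H x v) * Real.exp (cH K p.T * l1 (C.V x v))
        ≤ wt r * ((1 + 2 * K) ^ 2 * ((4 * ((p.T : ℝ) + 1) * (96 * K)) ^ 2 *
          Real.exp (2 * (1 / (4 * ((p.T : ℝ) + 1) * (96 * K))) * D v 0))) *
            Real.exp (cH K p.T * l1 (C.V x v)) :=
          mul_le_mul_of_nonneg_right hwt (Real.exp_pos _).le
      _ = wt r * (1 + 2 * K) ^ 2 * (4 * ((p.T : ℝ) + 1) * (96 * K)) ^ 2 *
          (Real.exp (2 * (1 / (4 * ((p.T : ℝ) + 1) * (96 * K))) * D v 0) *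
            Real.exp (cH K p.T * l1 (C.V x v))) := by ring
      _ ≤ wt r * (1 + 2 * K) ^ 2 * (4 * ((p.T : ℝ) + 1) * (96 * K)) ^ 2 *
          ((∑ t, Real.exp (dv C.a v (x t) / (96 * K * S))) / ((p.T : ℝ) + 1)) :=
          mul_le_mul_of_nonneg_left hexp (by positivity)
      _ = (1 + 2 * K) ^ 2 * (4 * ((p.T : ℝ) + 1) * (96 * K)) ^ 2 / ((p.T : ℝ) + 1) *
          ∑ t, wt r * Real.exp (dv C.a v (x t) / (96 * K * S)) := by
          rw [← Finset.mul_sum]
          ring
  -- summation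
  have hB2 : ∀ t, C.B2 (x t) ≤ 400 * ((p.T : ℝ) + 1) := fun t =>
    (C.bad_parts (x t) (hbad t)).2.2.2.2.2
  have hconst : 0 ≤ (1 + 2 * K) ^ 2 * (4 * ((p.T : ℝ) + 1) * (96 * K)) ^ 2 / ((p.T : ℝ) + 1) := by
    positivity
  calc S⁻¹ * ∑ v ∈ C.Wd, wt (C.H x v) * Real.exp (cH K p.T * l1 (C.V x v))
      ≤ S⁻¹ * ∑ v ∈ C.Wd, ((1 + 2 * K) ^ 2 * (4 * ((p.T : ℝ) + 1) * (96 * K)) ^ 2 / ((p.T : ℝ) + 1) *
        ∑ t, wt ((ix C.w v - ix C.w C.a) / S) * Real.exp (dv C.a v (x t) / (96 * K * S))) :=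
        mul_le_mul_of_nonneg_left (Finset.sum_le_sum fun v _ => hpt v) (by positivity)
    _ = (1 + 2 * K) ^ 2 * (4 * ((p.T : ℝ) + 1) * (96 * K)) ^ 2 / ((p.T : ℝ) + 1) *
        ∑ t, C.B2 (x t) := by
        unfold Cfg.B2
        rw [← Finset.mul_sum, Finset.sum_comm, ← Finset.mul_sum]
        ring
    _ ≤ (1 + 2 * K) ^ 2 * (4 * ((p.T : ℝ) + 1) * (96 * K)) ^ 2 / ((p.T : ℝ) + 1) *
        ∑ _t : Fin (p.T + 1), (400 * ((p.T : ℝ) + 1)) :=
        mul_le_mul_of_nonneg_left (Finset.sum_le_sum fun t _ => hB2 t) hconst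
    _ = CH K p.T := by
        rw [Finset.sum_const, Finset.card_univ, Fintype.card_fin, nsmul_eq_mul]
        unfold CH
        push_cast
        field_simp

end Cfg

end Pool.Agent.Half
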