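import Pool.Agent.Lib_MP_33fb9b_half.Loc
import Pool.Agent.Lib_MP_33fb9b_half.HomDefs

set_option autoImplicit false

/-!
# K24: sums over the index (blueprint C9)
-/

namespace Pool.Agent.Half

open Pool.Agent.BFT MeasureTheory Finset

variable {P : Type} [Fintype P] [PartialOrder P]

/-! ### reduction to sums over the natural numbers -/

/-- distance of the indices as a natural number -/
private def Sums_d (w : Fin (Fintype.card P) ≃ P) (a v : P) : ℕ :=
  ((w.symm v : Fin _) : ℕ) - ((w.symm a : Fin _) : ℕ) +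
    (((w.symm a : Fin _) : ℕ) - ((w.symm v : Fin _) : ℕ))

omit [PartialOrder P] in
private theorem Sums_cast (w : Fin (Fintype.card P) ≃ P) (a v : P) :
    |ix w v - ix w a| = (Sums_d w a v : ℝ) := by
  unfold ix Sums_d
  rcases le_total ((w.symm v : Fin _) : ℕ) ((w.symm a : Fin _) : ℕ) with h | h
  · have hr : (((w.symm v : Fin _) : ℕ) : ℝ) ≤ (((w.symm a : Fin _) : ℕ) : ℝ) := by exact_mod_cast h
    rw [abs_sub_comm, abs_of_nonneg (by linarith), Nat.sub_eq_zero_of_le h, Nat.zero_add,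
      Nat.cast_sub h]
  · have hr : (((w.symm a : Fin _) : ℕ) : ℝ) ≤ (((w.symm v : Fin _) : ℕ) : ℝ) := by exact_mod_cast h
    rw [abs_of_nonneg (by linarith), Nat.sub_eq_zero_of_le h, Nat.add_zero, Nat.cast_sub h]

omit [PartialOrder P] in
private theorem Sums_lt (w : Fin (Fintype.card P) ≃ P) (a v : P) :
    Sums_d w a v < Fintype.card P := by
  unfold Sums_d
  have h1 := (w.symm v).2
  have h2 := (w.symm a).2
  omega

omit [PartialOrder P] in
private theorem Sums_symm (w : Fin (Fintype.card P) ≃ P) {u v : P}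
    (h : ((w.symm u : Fin _) : ℕ) = ((w.symm v : Fin _) : ℕ)) : u = v :=
  w.symm.injective (Fin.ext h)

/-- each distance is attained at most twice, and the distance `0` at most once -/
private theorem Sums_two (w : Fin (Fintype.card P) ≃ P) (a : P) (s : Finset P) (F : ℕ → ℝ)
    (hF : ∀ r, 0 ≤ F r) (T : Finset ℕ) (hT : ∀ v ∈ s, Sums_d w a v ∈ T) :
    ∑ v ∈ s, F (Sums_d w a v) ≤ ∑ r ∈ T, F r + ∑ r ∈ T.erase 0, F r := by
  classical
  rw [← Finset.sum_filter_add_sum_filter_not s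
    (fun v => ((w.symm a : Fin _) : ℕ) ≤ ((w.symm v : Fin _) : ℕ))]
  apply add_le_add
  · rw [← Finset.sum_image (f := F) (g := fun v => Sums_d w a v)]
    · apply Finset.sum_le_sum_of_subset_of_nonneg
      · intro r hr
        obtain ⟨v, hv, rfl⟩ := Finset.mem_image.mp hr
        exact hT v (Finset.mem_filter.mp hv).1
      · intro r _ _
        exact hF r
    · intro u hu v hv huv
      have h1 := (Finset.mem_filter.mp (Finset.mem_coe.mp hu)).2
      have h2 := (Finset.mem_filter.mp (Finset.mem_coe.mp hv)).2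
      simp only [Sums_d] at huv
      apply Sums_symm w
      omega
  · rw [← Finset.sum_image (f := F) (g := fun v => Sums_d w a v)]
    · apply Finset.sum_le_sum_of_subset_of_nonneg
      · intro r hr
        obtain ⟨v, hv, rfl⟩ := Finset.mem_image.mp hr
        have h2 := (Finset.mem_filter.mp hv).2
        refine Finset.mem_erase.mpr ⟨?_, hT v (Finset.mem_filter.mp hv).1⟩
        simp only [Sums_d]
        omega
      · intro r _ _
        exact hF r
    · intro u hu v hv huv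
      have h1 := (Finset.mem_filter.mp (Finset.mem_coe.mp hu)).2
      have h2 := (Finset.mem_filter.mp (Finset.mem_coe.mp hv)).2
      simp only [Sums_d] at huv
      apply Sums_symm w
      omega

/-- telescoping -/
private theorem Sums_tel (F g : ℕ → ℝ) (a b : ℕ) (hg : ∀ r, a ≤ r → 0 ≤ g r)
    (h : ∀ r, a ≤ r → F r ≤ g r - g (r + 1)) : ∑ r ∈ Finset.Ico a b, F r ≤ g a := by
  rcases le_total a b with hab | hab
  · have h1 : ∑ r ∈ Finset.Ico a b, F r ≤ ∑ r ∈ Finset.Ico a b, (g r - g (r + 1)) :=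
      Finset.sum_le_sum fun r hr => h r (Finset.mem_Ico.mp hr).1
    have h2 : ∑ r ∈ Finset.Ico a b, (g r - g (r + 1)) = g a - g b := by
      have h3 := Finset.sum_Ico_sub g hab
      have h4 : ∑ r ∈ Finset.Ico a b, (g r - g (r + 1)) =
          -∑ r ∈ Finset.Ico a b, (g (r + 1) - g r) := by
        rw [← Finset.sum_neg_distrib]
        apply Finset.sum_congr rfl
        intro r _
        ring
      rw [h4, h3]
      ring
    have h3 := hg b hab
    linarith
  · rw [Finset.Ico_eq_empty_of_le hab, Finset.sum_empty]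
    exact hg a le_rfl

/-- the elements at distance more than `A` -/
private theorem Sums_far (w : Fin (Fintype.card P) ≃ P) (a : P) (A : ℝ) (hA : 0 ≤ A) (s : Finset P)
    (hs : ∀ v ∈ s, A < |ix w v - ix w a|) (F g : ℕ → ℝ) (hF : ∀ r, 0 ≤ F r)
    (hg : ∀ r, ⌊A⌋₊ + 1 ≤ r → 0 ≤ g r)
    (h : ∀ r, ⌊A⌋₊ + 1 ≤ r → F r ≤ g r - g (r + 1)) :
    ∑ v ∈ s, F (Sums_d w a v) ≤ 2 * g (⌊A⌋₊ + 1) := by
  have h1 := Sums_two w a s F hF (Finset.Ico (⌊A⌋₊ + 1) (Fintype.card P)) (by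
    intro v hv
    rw [Finset.mem_Ico]
    refine ⟨?_, Sums_lt w a v⟩
    have h2 := hs v hv
    rw [Sums_cast] at h2
    exact (Nat.floor_lt hA).mpr h2)
  have h2 : ∑ r ∈ (Finset.Ico (⌊A⌋₊ + 1) (Fintype.card P)).erase 0, F r ≤
      ∑ r ∈ Finset.Ico (⌊A⌋₊ + 1) (Fintype.card P), F r :=
    Finset.sum_le_sum_of_subset_of_nonneg (Finset.erase_subset _ _) fun r _ _ => hF r
  have h3 := Sums_tel F g (⌊A⌋₊ + 1) (Fintype.card P) hg h
  linarith

/-! ### the weight -/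

private theorem Sums_wt_nonneg (y : ℝ) : 0 ≤ wt y := by
  unfold wt
  positivity

private theorem Sums_wt_abs (y : ℝ) : wt |y| = wt y := by
  unfold wt
  rw [abs_abs]

private theorem Sums_wt_step (S : ℝ) (hS : 0 < S) (r : ℕ) :
    wt (((r + 1 : ℕ) : ℝ) / S) ≤
      2 * S * (Real.sqrt (1 + (r : ℝ) / S))⁻¹ - 2 * S * (Real.sqrt (1 + ((r + 1 : ℕ) : ℝ) / S))⁻¹ := by
  have hr : (0 : ℝ) ≤ r := Nat.cast_nonneg r
  set x : ℝ := 1 + (r : ℝ) / S with hx
  set y : ℝ := 1 + ((r + 1 : ℕ) : ℝ) / S with hy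
  have hx1 : 1 ≤ x := by
    have : 0 ≤ (r : ℝ) / S := by positivity
    linarith
  have hyx : y - x = 1 / S := by
    rw [hx, hy]
    push_cast
    ring
  have hS1 : 0 < 1 / S := by positivity
  have hxy : x ≤ y := by linarith
  have hwt : wt (((r + 1 : ℕ) : ℝ) / S) = (y * Real.sqrt y)⁻¹ := by
    unfold wt
    rw [abs_of_nonneg (by positivity)]
  rw [hwt]
  have hsx : 0 < Real.sqrt x := Real.sqrt_pos.mpr (by linarith)
  have hsy : 0 < Real.sqrt y := Real.sqrt_pos.mpr (by linarith)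
  have hsxy : Real.sqrt x ≤ Real.sqrt y := Real.sqrt_le_sqrt hxy
  have hxx : Real.sqrt x * Real.sqrt x = x := Real.mul_self_sqrt (by linarith)
  have hyy : Real.sqrt y * Real.sqrt y = y := Real.mul_self_sqrt (by linarith)
  generalize Real.sqrt x = p at *
  generalize Real.sqrt y = q at *
  have hq : (y * q)⁻¹ = (q * q * q)⁻¹ := by rw [hyy]
  rw [hq]
  have hSq : S * (q * q - p * p) = 1 := by
    rw [hyy, hxx, hyx]
    field_simp
  have h1 : 2 * S * p⁻¹ - 2 * S * q⁻¹ - (q * q * q)⁻¹ =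
      S * (q - p) * (2 * (q * q) - p * (q + p)) * (p * (q * q * q))⁻¹ := by
    have h2 : (q * q * q)⁻¹ = S * (q * q - p * p) * (q * q * q)⁻¹ := by rw [hSq, one_mul]
    rw [h2]
    field_simp
    ring
  have h2 : 0 ≤ S * (q - p) * (2 * (q * q) - p * (q + p)) * (p * (q * q * q))⁻¹ := by
    have h3 : 0 ≤ q - p := by linarith
    have h4 : p * (q + p) ≤ q * (q + q) :=
      mul_le_mul hsxy (by linarith) (by positivity) hsy.le
    have h5 : 0 ≤ 2 * (q * q) - p * (q + p) := by linarith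
    positivity
  linarith

/-- `∑ (1+|r_v|)^(-3/2) ≤ 5 S`, `r_v = (ix v - ix a)/S`; compare with
`2 S ((1 + (r-1)/S)^(-1/2) - (1 + r/S)^(-1/2))`, telescoping -/
theorem sum_wt (w : Fin (Fintype.card P) ≃ P) (a : P) (S : ℝ) (hS : 1 ≤ S) (s : Finset P) :
    ∑ v ∈ s, wt ((ix w v - ix w a) / S) ≤ 5 * S := by
  have hS0 : 0 < S := by linarith
  have hcongr : ∀ v ∈ s, wt ((ix w v - ix w a) / S) = wt ((Sums_d w a v : ℝ) / S) := by
    intro v _
    rw [← Sums_cast, ← Sums_wt_abs, abs_div, abs_of_pos hS0]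
  rw [Finset.sum_congr rfl hcongr]
  have hn0 : 0 < Fintype.card P := Fintype.card_pos_iff.mpr ⟨a⟩
  have h1 := Sums_two w a s (fun r => wt ((r : ℝ) / S)) (fun r => Sums_wt_nonneg _)
    (Finset.range (Fintype.card P)) (fun v _ => Finset.mem_range.mpr (Sums_lt w a v))
  have h0 : wt (((0 : ℕ) : ℝ) / S) = 1 := by
    unfold wt
    simp
  have h2 : ∑ r ∈ (Finset.range (Fintype.card P)).erase 0, wt ((r : ℝ) / S) ≤ 2 * S := by
    have h3 : (Finset.range (Fintype.card P)).erase 0 = Finset.Ico 1 (Fintype.card P) := by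
      ext r
      simp only [Finset.mem_erase, Finset.mem_range, Finset.mem_Ico]
      omega
    rw [h3]
    have h4 := Sums_tel (fun r => wt ((r : ℝ) / S))
      (fun r => 2 * S * (Real.sqrt (1 + ((r - 1 : ℕ) : ℝ) / S))⁻¹) 1 (Fintype.card P)
      (fun r _ => by positivity) (by
        intro r hr
        obtain ⟨k, rfl⟩ : ∃ k, r = k + 1 := ⟨r - 1, by omega⟩
        exact Sums_wt_step S hS0 k)
    refine h4.trans (le_of_eq ?_)
    simp
  have h3 : ∑ r ∈ Finset.range (Fintype.card P), wt ((r : ℝ) / S) =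
      ∑ r ∈ (Finset.range (Fintype.card P)).erase 0, wt ((r : ℝ) / S) + 1 := by
    rw [← Finset.sum_erase_add _ _ (Finset.mem_range.mpr hn0), h0]
  linarith

/-- geometric tail: `∑_{|ix v - ix a| > A} exp (-|ix v - ix a|/D) ≤ 2 (D+1) exp (-A/D)` -/
theorem sum_geo (w : Fin (Fintype.card P) ≃ P) (a : P) (A D : ℝ) (hA : 0 ≤ A) (hD : 0 < D)
    (s : Finset P) (hs : ∀ v ∈ s, A < |ix w v - ix w a|) :
    ∑ v ∈ s, Real.exp (-(|ix w v - ix w a| / D)) ≤ 2 * (D + 1) * Real.exp (-(A / D)) := by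
  have hcongr : ∀ v ∈ s, Real.exp (-(|ix w v - ix w a| / D)) =
      Real.exp (-((Sums_d w a v : ℝ) / D)) := by
    intro v _
    rw [Sums_cast]
  rw [Finset.sum_congr rfl hcongr]
  have h1 := Sums_far w a A hA s hs (fun r => Real.exp (-((r : ℝ) / D)))
    (fun r => (D + 1) * Real.exp (-((r : ℝ) / D))) (fun r => (Real.exp_pos _).le)
    (fun r _ => by positivity) (by
      intro r _
      have h2 : Real.exp (-((r : ℝ) / D)) =
          Real.exp (-(((r + 1 : ℕ) : ℝ) / D)) * Real.exp (1 / D) := by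
        rw [← Real.exp_add]
        congr 1
        push_cast
        ring
      have h3 := Real.add_one_le_exp (1 / D)
      have h4 : 0 < Real.exp (-(((r + 1 : ℕ) : ℝ) / D)) := Real.exp_pos _
      have h5 : (D + 1) ≤ D * Real.exp (1 / D) := by
        have h6 : D * (1 / D + 1) ≤ D * Real.exp (1 / D) := mul_le_mul_of_nonneg_left h3 hD.le
        have h7 : D * (1 / D + 1) = D + 1 := by field_simp; ring
        linarith
      have h8 := mul_le_mul_of_nonneg_left h5 h4.le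
      show Real.exp (-((r : ℝ) / D)) ≤ (D + 1) * Real.exp (-((r : ℝ) / D)) -
        (D + 1) * Real.exp (-(((r + 1 : ℕ) : ℝ) / D))
      have h9 : D * Real.exp (-((r : ℝ) / D)) =
          Real.exp (-(((r + 1 : ℕ) : ℝ) / D)) * (D * Real.exp (1 / D)) := by
        rw [h2]
        ring
      linarith)
  refine h1.trans ?_
  have h2 : Real.exp (-(((⌊A⌋₊ + 1 : ℕ) : ℝ) / D)) ≤ Real.exp (-(A / D)) := by
    apply Real.exp_le_exp.mpr
    have h3 : A ≤ ((⌊A⌋₊ + 1 : ℕ) : ℝ) := by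
      push_cast
      exact (Nat.lt_floor_add_one A).le
    have h4 := div_le_div_of_nonneg_right h3 hD.le
    linarith
  have h3 := mul_le_mul_of_nonneg_left h2 (show 0 ≤ 2 * (D + 1) by linarith)
  linarith

private theorem Sums_exp (D : ℝ) (hD : 0 < D) (r : ℕ) (hr : 1 ≤ r) :
    Real.exp (-(Real.sqrt (r : ℝ) / D)) ≤ 24 * D ^ 4 / (r : ℝ) ^ 2 := by
  have hr0 : (0 : ℝ) < r := by exact_mod_cast hr
  have hs : 0 < Real.sqrt (r : ℝ) := Real.sqrt_pos.mpr hr0
  have h1 := Real.pow_div_factorial_le_exp (Real.sqrt (r : ℝ) / D) (by positivity) 4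
  have h2 : (Real.sqrt (r : ℝ) / D) ^ 4 = (r : ℝ) ^ 2 / D ^ 4 := by
    rw [div_pow]
    congr 1
    calc Real.sqrt (r : ℝ) ^ 4 = (Real.sqrt (r : ℝ) ^ 2) ^ 2 := by ring
      _ = (r : ℝ) ^ 2 := by rw [Real.sq_sqrt hr0.le]
  have h3 : ((Nat.factorial 4 : ℕ) : ℝ) = 24 := by norm_num [Nat.factorial]
  rw [h2, h3] at h1
  rw [Real.exp_neg]
  have h4 : 0 < (r : ℝ) ^ 2 / D ^ 4 / 24 := by positivity
  have h5 : (Real.exp (Real.sqrt (r : ℝ) / D))⁻¹ ≤ ((r : ℝ) ^ 2 / D ^ 4 / 24)⁻¹ :=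
    inv_anti₀ h4 h1
  refine h5.trans (le_of_eq ?_)
  field_simp

/-- stretched tail: for every `D` and `ε` the sum of `exp (-sqrt r/D)` over `r = |ix v - ix a| > S^2` is at
most `ε` for large `S` -/
theorem sum_sqrt (D ε : ℝ) (hD : 0 < D) (hε : 0 < ε) : ∃ S0 : ℝ, ∀ (P : Type) [Fintype P]
    [PartialOrder P] (w : Fin (Fintype.card P) ≃ P) (a : P) (S : ℝ) (s : Finset P), S0 ≤ S →
      (∀ v ∈ s, S ^ 2 < |ix w v - ix w a|) →
      ∑ v ∈ s, Real.exp (-(Real.sqrt |ix w v - ix w a| / D)) ≤ ε := by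
  refine ⟨3 + 48 * D ^ 4 / ε, ?_⟩
  intro P _ _ w a S s hS hs
  have hq : 0 < 48 * D ^ 4 / ε := by positivity
  have hS3 : 3 ≤ S := by linarith
  have hSS : S ≤ S ^ 2 := by nlinarith
  have hcongr : ∀ v ∈ s, Real.exp (-(Real.sqrt |ix w v - ix w a| / D)) =
      Real.exp (-(Real.sqrt (Sums_d w a v : ℝ) / D)) := by
    intro v _
    rw [Sums_cast]
  rw [Finset.sum_congr rfl hcongr]
  have hfl : S - 1 < (⌊S ^ 2⌋₊ : ℝ) := by
    have := Nat.lt_floor_add_one (S ^ 2)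
    linarith
  have hfl2 : 2 ≤ ⌊S ^ 2⌋₊ := by
    apply Nat.le_floor
    push_cast
    linarith
  have h1 := Sums_far w a (S ^ 2) (by positivity) s hs
    (fun r => Real.exp (-(Real.sqrt (r : ℝ) / D)))
    (fun r => 24 * D ^ 4 / ((r : ℝ) - 1)) (fun r => (Real.exp_pos _).le)
    (by
      intro r hr
      have h2 : (1 : ℝ) ≤ r := by exact_mod_cast (by omega : 1 ≤ r)
      have h3 : 0 ≤ (r : ℝ) - 1 := by linarith
      positivity)
    (by
      intro r hr
      have hr3 : (3 : ℝ) ≤ r := by exact_mod_cast (by omega : 3 ≤ r)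
      refine (Sums_exp D hD r (by omega)).trans ?_
      have h2 : (((r + 1 : ℕ) : ℝ) - 1) = r := by push_cast; ring
      show 24 * D ^ 4 / (r : ℝ) ^ 2 ≤ 24 * D ^ 4 / ((r : ℝ) - 1) - 24 * D ^ 4 / (((r + 1 : ℕ) : ℝ) - 1)
      rw [h2]
      have h3 : 0 < (r : ℝ) - 1 := by linarith
      have h4 : 0 < (r : ℝ) := by linarith
      have h5 : 24 * D ^ 4 / ((r : ℝ) - 1) - 24 * D ^ 4 / (r : ℝ) - 24 * D ^ 4 / (r : ℝ) ^ 2 =
          24 * D ^ 4 / (((r : ℝ) - 1) * (r : ℝ) ^ 2) := by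
        field_simp
        ring
      have h6 : 0 ≤ 24 * D ^ 4 / (((r : ℝ) - 1) * (r : ℝ) ^ 2) := by positivity
      linarith)
  refine h1.trans ?_
  have h2 : (((⌊S ^ 2⌋₊ + 1 : ℕ) : ℝ) - 1) = (⌊S ^ 2⌋₊ : ℝ) := by push_cast; ring
  show 2 * (24 * D ^ 4 / (((⌊S ^ 2⌋₊ + 1 : ℕ) : ℝ) - 1)) ≤ ε
  rw [h2]
  have h3 : 48 * D ^ 4 / ε < (⌊S ^ 2⌋₊ : ℝ) := by linarith
  have h4 : (0 : ℝ) < (⌊S ^ 2⌋₊ : ℝ) := by linarith
  rw [div_lt_iff₀ hε] at h3
  have h5 : 2 * (24 * D ^ 4 / (⌊S ^ 2⌋₊ : ℝ)) = 48 * D ^ 4 / (⌊S ^ 2⌋₊ : ℝ) := by ring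
  rw [h5, div_le_iff₀ h4]
  linarith

end Pool.Agent.Half
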