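import Pool.Agent.Lib_MP_33fb9b_half.Cfg
import Pool.Agent.Lib_MP_33fb9b_half.Sums

set_option autoImplicit false

/-!
# K25: the expected badness (blueprint C9)
-/

namespace Pool.Agent.Half

open Pool.Agent.BFT MeasureTheory Finset

section

variable {P : Type} [Fintype P] [PartialOrder P]

omit [Fintype P] [PartialOrder P] in
private theorem Exp_ind_eq (E : Set (P → ℝ)) :
    (fun x : P → ℝ => BFT.ind (x ∈ E)) = E.indicator (fun _ => (1 : ℝ)) := by
  funext x
  by_cases hx : x ∈ E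
  · rw [ind_true hx, Set.indicator_of_mem hx]
  · rw [ind_false hx, Set.indicator_of_notMem hx]

private theorem Exp_ind_int {E : Set (P → ℝ)} (hE : MeasurableSet E) :
    Integrable (fun x : P → ℝ => BFT.ind (x ∈ E)) (XL P) ∧
      ∫ x, BFT.ind (x ∈ E) ∂(XL P) = (XL P).real E := by
  rw [Exp_ind_eq E]
  refine ⟨(integrable_const (1 : ℝ)).indicator hE, ?_⟩
  rw [integral_indicator_const _ hE, smul_eq_mul, mul_one]

/-- expected counts -/
theorem cnt_int (s : Finset P) (E : P → Set (P → ℝ)) (hE : ∀ v ∈ s, MeasurableSet (E v)) :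
    Integrable (fun x => ∑ v ∈ s, BFT.ind (x ∈ E v)) (XL P) ∧
      ∫ x, ∑ v ∈ s, BFT.ind (x ∈ E v) ∂(XL P) = ∑ v ∈ s, (XL P).real (E v) := by
  refine ⟨integrable_finsetSum s fun v hv => (Exp_ind_int (hE v hv)).1, ?_⟩
  rw [integral_finsetSum s fun v hv => (Exp_ind_int (hE v hv)).1]
  exact Finset.sum_congr rfl fun v hv => (Exp_ind_int (hE v hv)).2

omit [Fintype P] [PartialOrder P] in
private theorem Exp_ind_meas {E : Set (P → ℝ)} (hE : MeasurableSet E) :
    Measurable (fun x : P → ℝ => BFT.ind (x ∈ E)) := by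
  rw [Exp_ind_eq E]
  exact measurable_const.indicator hE

private theorem Exp_half : Real.exp (1 / 2) ≤ 2 := by
  have h1 := Real.exp_one_lt_d9
  have h2 : Real.exp (1 / 2) * Real.exp (1 / 2) = Real.exp 1 := by
    rw [← Real.exp_add]; norm_num
  have h3 := Real.exp_pos (1 / 2)
  nlinarith

private theorem Exp_ell {gam K : ℝ} {R : ℕ} (p : Par gam K R) : 0 < p.ell := by
  have := p.ell_ge
  linarith

private theorem Exp_dv_meas (u v : P) : Measurable (fun x : P → ℝ => Cfg.dv u v x) := by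
  unfold Cfg.dv
  exact (((measurable_pi_apply v).sub (measurable_pi_apply u)).sub measurable_const).abs

private theorem Exp_dv_nonneg (u v : P) (x : P → ℝ) : 0 ≤ Cfg.dv u v x := abs_nonneg _

/-- exponential moment: from `sp_tail`, `E exp (dev/(16 s)) ≤ 1 + ∫_0^∞ (1/(16s)) e^(z/(16s)) 4 e^(-z/(8s)) dz = 5` -/
theorem exp_moment (u v : P) {s : ℝ} (hs0 : 0 < s) (hs : sp u v ≤ s) :
    Integrable (fun x : P → ℝ => Real.exp (Cfg.dv u v x / (16 * s))) (XL P) ∧
      ∫ x, Real.exp (Cfg.dv u v x / (16 * s)) ∂(XL P) ≤ 5 := by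
  have h16 : (0 : ℝ) < 16 * s := by positivity
  set g : ℝ → ℝ := fun t => (1 / (16 * s)) * Real.exp (t / (16 * s)) with hg
  have hgc : Continuous g := by
    rw [hg]; fun_prop
  have hgnn : ∀ t, 0 ≤ g t := fun t => by
    rw [hg]; positivity
  -- antiderivative
  have hG : ∀ t : ℝ, ∫ y in (0:ℝ)..t, g y = Real.exp (t / (16 * s)) - 1 := by
    intro t
    have hder : ∀ y ∈ Set.uIcc (0:ℝ) t, HasDerivAt (fun y => Real.exp (y / (16 * s))) (g y) y := by
      intro y _
      have h1 : HasDerivAt (fun y : ℝ => y / (16 * s)) (1 / (16 * s)) y :=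
        (hasDerivAt_id y).div_const _
      have h2 := h1.exp
      rw [hg]
      convert h2 using 1
      ring
    rw [intervalIntegral.integral_eq_sub_of_hasDerivAt hder (hgc.intervalIntegrable _ _)]
    simp
  have hDm := Exp_dv_meas u v
  have hlc := lintegral_comp_eq_lintegral_meas_le_mul (XL P) (f := fun x => Cfg.dv u v x) (g := g)
    (Filter.Eventually.of_forall fun x => Exp_dv_nonneg u v x) hDm.aemeasurable
    (fun t _ => hgc.intervalIntegrable _ _) (Filter.Eventually.of_forall fun t => hgnn t)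
  simp_rw [hG] at hlc
  -- the right side
  have hmeas : ∀ t : ℝ, (XL P) {x : P → ℝ | t ≤ Cfg.dv u v x} * ENNReal.ofReal (g t) ≤
      ENNReal.ofReal ((1 / (4 * s)) * Real.exp (-(1 / (16 * s)) * t)) := by
    intro t
    have h1 := sp_tail u v hs0 hs t
    have h2 : (XL P) {x : P → ℝ | t ≤ Cfg.dv u v x} =
        ENNReal.ofReal ((XL P).real {x : P → ℝ | t ≤ Cfg.dv u v x}) := by
      rw [ofReal_measureReal]
    rw [h2, ← ENNReal.ofReal_mul measureReal_nonneg]
    apply ENNReal.ofReal_le_ofReal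
    calc (XL P).real {x : P → ℝ | t ≤ Cfg.dv u v x} * g t
        ≤ (4 * Real.exp (-(t / (8 * s)))) * g t :=
          mul_le_mul_of_nonneg_right h1 (hgnn t)
      _ = (1 / (4 * s)) * Real.exp (-(1 / (16 * s)) * t) := by
          rw [hg]
          have h3 : Real.exp (-(1 / (16 * s)) * t) =
              Real.exp (-(t / (8 * s))) * Real.exp (t / (16 * s)) := by
            rw [← Real.exp_add]
            congr 1
            field_simp
            ring
          rw [h3]
          field_simp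
          ring
  have hneg : -(1 / (16 * s)) < 0 := by
    have : 0 < 1 / (16 * s) := by positivity
    linarith
  have hbd : ∫⁻ t in Set.Ioi (0:ℝ), (XL P) {x : P → ℝ | t ≤ Cfg.dv u v x} * ENNReal.ofReal (g t) ≤
      ENNReal.ofReal 4 := by
    calc _ ≤ ∫⁻ t in Set.Ioi (0:ℝ),
          ENNReal.ofReal ((1 / (4 * s)) * Real.exp (-(1 / (16 * s)) * t)) :=
          lintegral_mono fun t => hmeas t
      _ = ENNReal.ofReal (∫ t in Set.Ioi (0:ℝ), (1 / (4 * s)) * Real.exp (-(1 / (16 * s)) * t)) := by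
          rw [ofReal_integral_eq_lintegral_ofReal]
          · exact (integrableOn_exp_mul_Ioi hneg 0).const_mul _
          · exact Filter.Eventually.of_forall fun t => by positivity
      _ = ENNReal.ofReal 4 := by
          congr 1
          rw [integral_const_mul, integral_exp_mul_Ioi hneg 0]
          simp
          field_simp
          norm_num
  rw [← hlc] at hbd
  have hmem : Measurable fun x : P → ℝ => Real.exp (Cfg.dv u v x / (16 * s)) :=
    Real.measurable_exp.comp (hDm.div_const _)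
  have hnn : ∀ x : P → ℝ, 0 ≤ Real.exp (Cfg.dv u v x / (16 * s)) - 1 := by
    intro x
    have h1 : 0 ≤ Cfg.dv u v x / (16 * s) := div_nonneg (Exp_dv_nonneg u v x) h16.le
    have h2 := Real.one_le_exp h1
    linarith
  have hint : Integrable (fun x : P → ℝ => Real.exp (Cfg.dv u v x / (16 * s)) - 1) (XL P) := by
    refine ⟨(hmem.sub measurable_const).aestronglyMeasurable, ?_⟩
    rw [hasFiniteIntegral_iff_ofReal (Filter.Eventually.of_forall hnn)]
    exact lt_of_le_of_lt hbd ENNReal.ofReal_lt_top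
  have hint2 : Integrable (fun x : P → ℝ => Real.exp (Cfg.dv u v x / (16 * s))) (XL P) := by
    have := hint.add (integrable_const (1 : ℝ))
    refine this.congr (Filter.Eventually.of_forall fun x => ?_)
    simp
  refine ⟨hint2, ?_⟩
  have h4 : ∫ x, (Real.exp (Cfg.dv u v x / (16 * s)) - 1) ∂(XL P) ≤ 4 := by
    rw [integral_eq_lintegral_of_nonneg_ae (Filter.Eventually.of_forall hnn)
      (hmem.sub measurable_const).aestronglyMeasurable]
    exact ENNReal.toReal_le_of_le_ofReal (by norm_num) hbd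
  rw [integral_sub hint2 (integrable_const _)] at h4
  simp at h4
  linarith


private theorem Exp_cnt (s : Finset P) (u : P → P) {σ z : ℝ} (hσ : 0 < σ)
    (hsp : ∀ v ∈ s, sp (u v) v ≤ σ) :
    Integrable (fun x : P → ℝ => ∑ v ∈ s, BFT.ind (z ≤ Cfg.dv (u v) v x)) (XL P) ∧
      ∫ x, ∑ v ∈ s, BFT.ind (z ≤ Cfg.dv (u v) v x) ∂(XL P) ≤
        s.card * (4 * Real.exp (-(z / (8 * σ)))) := by
  have h := cnt_int s (fun v => {x : P → ℝ | z ≤ Cfg.dv (u v) v x})
    (fun v _ => measurableSet_le measurable_const (Exp_dv_meas (u v) v))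
  simp only [Set.mem_ofPred_eq] at h
  refine ⟨h.1, ?_⟩
  rw [h.2]
  calc ∑ v ∈ s, (XL P).real {x : P → ℝ | z ≤ Cfg.dv (u v) v x}
      ≤ ∑ _v ∈ s, 4 * Real.exp (-(z / (8 * σ))) :=
        Finset.sum_le_sum fun v hv => sp_tail (u v) v hσ (hsp v hv) z
    _ = _ := by rw [Finset.sum_const, nsmul_eq_mul]

end

namespace Cfg

variable {gam K : ℝ} {R : ℕ} {p : Par gam K R} {y0 : ℝ} {P : Type} [Fintype P] [PartialOrder P]
  {S : ℝ} (C : Cfg p y0 P S)

include C

private theorem Exp_S : 4 ≤ S := by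
  have h1 := C.hS
  have h2 := C.hK
  linarith

/-- `#Wn ≤ 3 ell S` -/
theorem card_Wn : (C.Wn.card : ℝ) ≤ 3 * p.ell * S := by
  have hS := C.Exp_S
  have hl := p.ell_ge
  have h := loc_card_le C.w C.a (p.ell * S) (by positivity)
  unfold Wn
  nlinarith

/-- `#Bal ≥ pp S > 0` -/
theorem card_Bal : p.pp * S ≤ (C.Bal.card : ℝ) := by
  have h := C.hbal
  have hR : (0 : ℝ) < (R : ℝ) ^ p.k0 := by
    have h1 : 1 ≤ R := C.hR
    have : (0 : ℝ) < (R : ℝ) := by exact_mod_cast h1
    positivity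
  unfold Bal Par.pp
  rw [one_div, inv_mul_le_iff₀ hR]
  exact h

private theorem Exp_th : 0 < p.th := by
  have h1 : 1 ≤ R := C.hR
  have h2 : (0 : ℝ) < (R : ℝ) := by exact_mod_cast h1
  unfold Par.th Par.pp
  positivity

theorem bad_nonneg (x : P → ℝ) : 0 ≤ C.bad x := by
  have hS : 0 < S := by have := C.Exp_S; linarith
  have hth := C.Exp_th
  have h1 : 0 ≤ C.N1 x := Finset.sum_nonneg fun v _ => ind_nonneg _
  have h3 : 0 ≤ C.N3 x := Finset.sum_nonneg fun v _ => ind_nonneg _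
  have h4 : 0 ≤ C.N4 x := Finset.sum_nonneg fun v _ => ind_nonneg _
  have h5 : 0 ≤ C.N5 x := Finset.sum_nonneg fun v _ => ind_nonneg _
  have h6 : 0 ≤ C.N6 x := Finset.sum_nonneg fun v _ => ind_nonneg _
  have hw : ∀ y : ℝ, 0 ≤ wt y := fun y => by unfold wt; positivity
  have h2 : 0 ≤ C.B2 x := by
    unfold B2
    exact mul_nonneg (by positivity) (Finset.sum_nonneg fun v _ => mul_nonneg (hw _) (by positivity))
  unfold bad
  positivity

theorem bad_meas : Measurable C.bad := by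
  have hm : ∀ (s : Finset P) (u : P → P) (z : ℝ),
      Measurable (fun x : P → ℝ => ∑ v ∈ s, BFT.ind (z ≤ dv (u v) v x)) := by
    intro s u z
    refine Finset.measurable_fun_sum _ fun v _ => ?_
    exact Exp_ind_meas (E := {x : P → ℝ | z ≤ dv (u v) v x})
      (measurableSet_le measurable_const (Exp_dv_meas (u v) v))
  have h1 : Measurable C.N1 := hm _ _ _
  have h3 : Measurable C.N3 := hm _ C.cc _
  have h4 : Measurable C.N4 := hm _ _ _
  have h6 : Measurable C.N6 := hm _ _ _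
  have h5 : Measurable C.N5 := by
    refine Finset.measurable_fun_sum _ fun v _ => ?_
    exact Exp_ind_meas (E := {x : P → ℝ | |x v - x C.a| ≤ (|y0| + p.tau / 8) * S})
      (measurableSet_le ((measurable_pi_apply v).sub (measurable_pi_apply C.a)).abs
        measurable_const)
  have h2 : Measurable C.B2 := by
    unfold B2
    refine (Finset.measurable_fun_sum _ fun v _ => ?_).const_mul _
    exact (Real.measurable_exp.comp ((Exp_dv_meas C.a v).div_const _)).const_mul _
  unfold bad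
  exact (((h1.div_const _).const_mul _).add ((((h3.add h4).add h5).add h6).div_const _)).add
    (h2.div_const _)

/-- `sp a v ≤ 2 eps S` on the ball (`sp_le_ds`), `sp_tail` with `z = xi S/2` -/
theorem N1_le : Integrable C.N1 (XL P) ∧
    ∫ x, C.N1 x ∂(XL P) ≤ C.Bal.card * (4 * Real.exp (-(p.xi / (32 * p.eps)))) := by
  have hS : 0 < S := by have := C.Exp_S; linarith
  have he := p.eps_pos
  have h := Exp_cnt C.Bal (fun _ => C.a) (σ := 2 * (p.eps * S)) (z := p.xi / 2 * S)
    (by positivity) (fun v hv => by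
      have h1 : ds C.a v ≤ p.eps * S := by
        unfold Bal at hv
        exact (Finset.mem_filter.mp hv).2
      have h2 := sp_le_ds C.a v
      linarith)
  have e : p.xi / 2 * S / (8 * (2 * (p.eps * S))) = p.xi / (32 * p.eps) := by
    field_simp
    ring
  rw [e] at h
  exact h

/-- `sp (cc v) v ≤ 2 (c/ell) S`, `z = c S/1600` -/
theorem N3_le : Integrable C.N3 (XL P) ∧
    ∫ x, C.N3 x ∂(XL P) ≤ 12 * p.ell * S * Real.exp (-(p.ell / 25600)) := by
  have hS : 0 < S := by have := C.Exp_S; linarith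
  have hl := (Exp_ell p)
  have hc := p.c_pos
  have h := Exp_cnt C.Wn C.cc (σ := 2 * (p.c / p.ell * S)) (z := p.c / 1600 * S)
    (by positivity) (fun v hv => by
      have h1 : |ix C.w v - ix C.w C.a| ≤ p.ell * S := by
        unfold Wn at hv
        exact (Finset.mem_filter.mp hv).2
      have h2 := sp_le_ds (C.cc v) v
      have h3 := C.hcc v h1
      linarith)
  have e : p.c / 1600 * S / (8 * (2 * (p.c / p.ell * S))) = p.ell / 25600 := by
    field_simp
    ring
  rw [e] at h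
  refine ⟨h.1, h.2.trans ?_⟩
  have hw := C.card_Wn
  have hx := Real.exp_pos (-(p.ell / 25600))
  nlinarith

/-- `sp a v ≤ 2 c S`, `z = tau S/16` -/
theorem N4_le : Integrable C.N4 (XL P) ∧
    ∫ x, C.N4 x ∂(XL P) ≤ 12 * p.ell * S * Real.exp (-(p.tau / (256 * p.c))) := by
  classical
  have hS : 0 < S := by have := C.Exp_S; linarith
  have hl := (Exp_ell p)
  have hc := p.c_pos
  have h := Exp_cnt (C.Wn.filter (fun v => sp C.a v ≤ 2 * p.c * S)) (fun _ => C.a)
    (σ := 2 * p.c * S) (z := p.tau / 16 * S)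
    (by positivity) (fun v hv => (Finset.mem_filter.mp hv).2)
  have e : p.tau / 16 * S / (8 * (2 * p.c * S)) = p.tau / (256 * p.c) := by
    field_simp
    ring
  rw [e] at h
  have h2 : ((C.Wn.filter (fun v => sp C.a v ≤ 2 * p.c * S)).card : ℝ) ≤ C.Wn.card := by
    exact_mod_cast Finset.card_filter_le _ _
  have hw := C.card_Wn
  have hx := Real.exp_pos (-(p.tau / (256 * p.c)))
  have h3 : ((C.Wn.filter (fun v => sp C.a v ≤ 2 * p.c * S)).card : ℝ) *
      (4 * Real.exp (-(p.tau / (256 * p.c)))) ≤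
      12 * p.ell * S * Real.exp (-(p.tau / (256 * p.c))) := by
    nlinarith
  have h4 : C.N4 = fun x : P → ℝ => ∑ v ∈ C.Wn.filter (fun v => sp C.a v ≤ 2 * p.c * S),
      BFT.ind (p.tau / 16 * S ≤ dv C.a v x) := by
    funext x
    unfold N4
    congr!
  rw [h4]
  exact ⟨h.1, h.2.trans h3⟩

private theorem Exp_sp {v : P} (hv : |ix C.w v - ix C.w C.a| ≤ S ^ 2) :
    sp C.a v ≤ 6 * K * S := by
  have hS := C.Exp_S
  exact loc_sp C.disp C.hK (by linarith) C.a v S le_rfl hv

/-- `sp a v ≤ 6 K S` on `Wd` (`loc_sp` with `ρ = S`), `|mu| ≥ |r| - 2KS`, `z = |r| - (2K + |y0| + tau/8) S`,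
`(2K + |y0| + tau/8)/(48K) ≤ 1/2`, `sum_geo` with `D = 48 K S`, `A = ell S` -/
theorem N5_le : Integrable C.N5 (XL P) ∧
    ∫ x, C.N5 x ∂(XL P) ≤ 800 * K * S * Real.exp (-(p.ell / (48 * K))) := by
  classical
  have hS4 := C.Exp_S
  have hS : 0 < S := by linarith
  have hK1 := C.hK
  have hK : 0 < K := by linarith
  have hl := (Exp_ell p)
  have hy := C.hy0
  have htau := p.tau_le
  set s : Finset P := C.Wd.filter (fun v => v ∉ C.Wn) with hs
  have h := cnt_int s (fun v => {x : P → ℝ | |x v - x C.a| ≤ (|y0| + p.tau / 8) * S})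
    (fun v _ => measurableSet_le ((measurable_pi_apply v).sub (measurable_pi_apply C.a)).abs
        measurable_const)
  simp only [Set.mem_ofPred_eq] at h
  have h4 : C.N5 = fun x : P → ℝ => ∑ v ∈ s, BFT.ind (|x v - x C.a| ≤ (|y0| + p.tau / 8) * S) := by
    funext x
    unfold N5
    rw [hs]
  rw [h4]
  refine ⟨h.1, ?_⟩
  rw [h.2]
  have hmem : ∀ v ∈ s, p.ell * S < |ix C.w v - ix C.w C.a| ∧
      |ix C.w v - ix C.w C.a| ≤ S ^ 2 := by
    intro v hv
    rw [hs, Finset.mem_filter] at hv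
    obtain ⟨hv1, hv2⟩ := hv
    unfold Wd at hv1
    unfold Wn at hv2
    rw [Finset.mem_filter] at hv1 hv2
    refine ⟨?_, hv1.2⟩
    by_contra hcon
    exact hv2 ⟨Finset.mem_univ _, not_lt.mp hcon⟩
  have hterm : ∀ v ∈ s, (XL P).real {x : P → ℝ | |x v - x C.a| ≤ (|y0| + p.tau / 8) * S} ≤
      8 * Real.exp (-(|ix C.w v - ix C.w C.a| / (48 * K * S))) := by
    intro v hv
    obtain ⟨hv1, hv2⟩ := hmem v hv
    have hsp := C.Exp_sp hv2
    have hht := loc_ht C.disp C.a v
    set r := ix C.w v - ix C.w C.a with hr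
    set z := |r| - (2 * K + |y0| + p.tau / 8) * S with hz
    have htl := sp_tail C.a v (s := 6 * K * S) (by positivity) hsp z
    have hsub : {x : P → ℝ | |x v - x C.a| ≤ (|y0| + p.tau / 8) * S} ⊆
        {x : P → ℝ | z ≤ |x v - x C.a - (ht v - ht C.a)|} := by
      intro x hx
      simp only [Set.mem_ofPred_eq] at hx ⊢
      have h1 : |r| ≤ |ht v - ht C.a| + 2 * (K * S) := by
        have h0 := abs_sub_abs_le_abs_sub r (ht v - ht C.a)
        rw [abs_sub_comm r (ht v - ht C.a)] at h0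
        linarith
      have h2 : |ht v - ht C.a| ≤ |x v - x C.a| + |x v - x C.a - (ht v - ht C.a)| := by
        have h0 := abs_sub_abs_le_abs_sub (ht v - ht C.a) (x v - x C.a)
        rw [abs_sub_comm (ht v - ht C.a) (x v - x C.a)] at h0
        linarith
      rw [hz]
      linarith
    have h1 : (XL P).real {x : P → ℝ | |x v - x C.a| ≤ (|y0| + p.tau / 8) * S} ≤
        4 * Real.exp (-(z / (8 * (6 * K * S)))) :=
      (measureReal_mono hsub).trans htl
    refine h1.trans ?_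
    have h2 : -(z / (8 * (6 * K * S))) ≤ 1 / 2 + -(|r| / (48 * K * S)) := by
      have e : z / (8 * (6 * K * S)) = |r| / (48 * K * S) -
          (2 * K + |y0| + p.tau / 8) / (48 * K) := by
        rw [hz]
        field_simp
        ring
      rw [e]
      have : (2 * K + |y0| + p.tau / 8) / (48 * K) ≤ 1 / 2 := by
        rw [div_le_iff₀ (by positivity)]
        linarith
      linarith
    have h3 : Real.exp (-(z / (8 * (6 * K * S)))) ≤
        Real.exp (1 / 2) * Real.exp (-(|r| / (48 * K * S))) := by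
      rw [← Real.exp_add]
      exact Real.exp_le_exp.mpr h2
    have h5 := Exp_half
    have h6 := Real.exp_pos (-(|r| / (48 * K * S)))
    nlinarith
  have hgeo := sum_geo C.w C.a (p.ell * S) (48 * K * S) (by positivity) (by positivity) s
    (fun v hv => (hmem v hv).1)
  calc ∑ v ∈ s, (XL P).real {x : P → ℝ | |x v - x C.a| ≤ (|y0| + p.tau / 8) * S}
      ≤ ∑ v ∈ s, 8 * Real.exp (-(|ix C.w v - ix C.w C.a| / (48 * K * S))) :=
        Finset.sum_le_sum hterm
    _ = 8 * ∑ v ∈ s, Real.exp (-(|ix C.w v - ix C.w C.a| / (48 * K * S))) := by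
        rw [Finset.mul_sum]
    _ ≤ 8 * (2 * (48 * K * S + 1) * Real.exp (-(p.ell * S / (48 * K * S)))) := by
        exact mul_le_mul_of_nonneg_left hgeo (by norm_num)
    _ ≤ 800 * K * S * Real.exp (-(p.ell / (48 * K))) := by
        have e : p.ell * S / (48 * K * S) = p.ell / (48 * K) := by
          field_simp
        rw [e]
        have h6 := Real.exp_pos (-(p.ell / (48 * K)))
        have h7 : 1 ≤ K * S := by nlinarith
        nlinarith

/-- `sp a v ≤ 6 K S` (`loc_sp` with `ρ = S`; `ell S ≤ S^2` is NOT needed: use `ρ = S` only on `Wd`; here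
`ds a v ≤ (ell + 2K) S`; see the hypothesis `hl`) -/
theorem N6_le (hl : p.ell ≤ S) : Integrable C.N6 (XL P) ∧
    ∫ x, C.N6 x ∂(XL P) ≤ 12 * p.ell * S * Real.exp (-(p.ell / (96 * K))) := by
  have hS : 0 < S := by have := C.Exp_S; linarith
  have hel := (Exp_ell p)
  have hK : 0 < K := by have := C.hK; linarith
  have h := Exp_cnt C.Wn (fun _ => C.a) (σ := 6 * K * S) (z := p.ell / 2 * S)
    (by positivity) (fun v hv => by
      have h1 : |ix C.w v - ix C.w C.a| ≤ p.ell * S := by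
        unfold Wn at hv
        exact (Finset.mem_filter.mp hv).2
      exact C.Exp_sp (h1.trans (by nlinarith)))
  have e : p.ell / 2 * S / (8 * (6 * K * S)) = p.ell / (96 * K) := by
    field_simp
    ring
  rw [e] at h
  refine ⟨h.1, h.2.trans ?_⟩
  have hw := C.card_Wn
  have hx := Real.exp_pos (-(p.ell / (96 * K)))
  nlinarith

/-- `exp_moment` with `s = 6 K S`, `sum_wt` -/
theorem B2_le : Integrable C.B2 (XL P) ∧ ∫ x, C.B2 x ∂(XL P) ≤ 25 := by
  have hS4 := C.Exp_S
  have hS : 0 < S := by linarith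
  have hK : 0 < K := by have := C.hK; linarith
  have hw : ∀ y : ℝ, 0 ≤ wt y := fun y => by unfold wt; positivity
  have hmem : ∀ v ∈ C.Wd, |ix C.w v - ix C.w C.a| ≤ S ^ 2 := by
    intro v hv
    unfold Wd at hv
    exact (Finset.mem_filter.mp hv).2
  have hm : ∀ v ∈ C.Wd, Integrable (fun x : P → ℝ => Real.exp (dv C.a v x / (96 * K * S))) (XL P) ∧
      ∫ x, Real.exp (dv C.a v x / (96 * K * S)) ∂(XL P) ≤ 5 := by
    intro v hv
    have h := exp_moment C.a v (s := 6 * K * S) (by positivity) (C.Exp_sp (hmem v hv))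
    have e : 16 * (6 * K * S) = 96 * K * S := by ring
    rw [e] at h
    exact h
  have hi : ∀ v ∈ C.Wd, Integrable (fun x : P → ℝ => wt ((ix C.w v - ix C.w C.a) / S) *
      Real.exp (dv C.a v x / (96 * K * S))) (XL P) := fun v hv => (hm v hv).1.const_mul _
  have hi2 := integrable_finsetSum C.Wd hi
  unfold B2
  refine ⟨hi2.const_mul _, ?_⟩
  rw [integral_const_mul, integral_finsetSum _ hi]
  have h1 : ∑ v ∈ C.Wd, ∫ x, wt ((ix C.w v - ix C.w C.a) / S) *
      Real.exp (dv C.a v x / (96 * K * S)) ∂(XL P) ≤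
      ∑ v ∈ C.Wd, wt ((ix C.w v - ix C.w C.a) / S) * 5 := by
    refine Finset.sum_le_sum fun v hv => ?_
    rw [integral_const_mul]
    exact mul_le_mul_of_nonneg_left (hm v hv).2 (hw _)
  rw [← Finset.sum_mul] at h1
  have h2 := sum_wt C.w C.a S (by linarith) C.Wd
  have h3 : S⁻¹ * (5 * S * 5) = 25 := by
    field_simp
    norm_num
  rw [← h3]
  refine mul_le_mul_of_nonneg_left ?_ (by positivity)
  linarith

/-- TOTAL: `4 (T+1) E bad ≤ 5/20 + 1/4 = 1/2` (from `hb1`, `hb3`, .., `hb6`) -/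
theorem bad_le (hl : p.ell ≤ S) : Integrable C.bad (XL P) ∧
    4 * (((p.T + 1 : ℕ) : ℝ) * ∫ x, C.bad x ∂(XL P)) ≤ 1 / 2 := by
  have hS : 0 < S := by have := C.Exp_S; linarith
  have hR : (0 : ℝ) < (R : ℝ) := by
    have h1 : 1 ≤ R := C.hR
    exact_mod_cast h1
  have hth := C.Exp_th
  obtain ⟨i1, b1⟩ := C.N1_le
  obtain ⟨i3, b3⟩ := C.N3_le
  obtain ⟨i4, b4⟩ := C.N4_le
  obtain ⟨i5, b5⟩ := C.N5_le
  obtain ⟨i6, b6⟩ := C.N6_le hl
  obtain ⟨i2, b2⟩ := C.B2_le
  have j1 := (i1.div_const (C.Bal.card : ℝ)).const_mul (2 * ((p.T : ℝ) + 1))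
  have j3 := (((i3.add i4).add i5).add i6).div_const (p.th * S)
  have j2 := i2.div_const (400 * ((p.T : ℝ) + 1))
  have hbad : C.bad = fun x => 2 * ((p.T : ℝ) + 1) * (C.N1 x / C.Bal.card) +
    (C.N3 x + C.N4 x + C.N5 x + C.N6 x) / (p.th * S) + C.B2 x / (400 * ((p.T : ℝ) + 1)) := rfl
  have hint : Integrable C.bad (XL P) := by
    rw [hbad]
    exact (j1.add j3).add j2
  refine ⟨hint, ?_⟩
  have hval : ∫ x, C.bad x ∂(XL P) = 2 * ((p.T : ℝ) + 1) * ((∫ x, C.N1 x ∂(XL P)) / C.Bal.card) +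
      ((∫ x, C.N3 x ∂(XL P)) + (∫ x, C.N4 x ∂(XL P)) + (∫ x, C.N5 x ∂(XL P)) +
        (∫ x, C.N6 x ∂(XL P))) / (p.th * S) +
      (∫ x, C.B2 x ∂(XL P)) / (400 * ((p.T : ℝ) + 1)) := by
    rw [hbad]
    have e1 : ∫ x, (2 * ((p.T : ℝ) + 1) * (C.N1 x / C.Bal.card) +
        (C.N3 x + C.N4 x + C.N5 x + C.N6 x) / (p.th * S) + C.B2 x / (400 * ((p.T : ℝ) + 1)))
        ∂(XL P) = ∫ x, (2 * ((p.T : ℝ) + 1) * (C.N1 x / C.Bal.card) +
        (C.N3 x + C.N4 x + C.N5 x + C.N6 x) / (p.th * S)) ∂(XL P) +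
        ∫ x, C.B2 x / (400 * ((p.T : ℝ) + 1)) ∂(XL P) := integral_add (j1.add j3) j2
    have e2 : ∫ x, (2 * ((p.T : ℝ) + 1) * (C.N1 x / C.Bal.card) +
        (C.N3 x + C.N4 x + C.N5 x + C.N6 x) / (p.th * S)) ∂(XL P) =
        ∫ x, 2 * ((p.T : ℝ) + 1) * (C.N1 x / C.Bal.card) ∂(XL P) +
        ∫ x, (C.N3 x + C.N4 x + C.N5 x + C.N6 x) / (p.th * S) ∂(XL P) := integral_add j1 j3
    have e3 : ∫ x, (C.N3 x + C.N4 x + C.N5 x + C.N6 x) ∂(XL P) =
        (∫ x, C.N3 x ∂(XL P)) + (∫ x, C.N4 x ∂(XL P)) + (∫ x, C.N5 x ∂(XL P)) +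
        (∫ x, C.N6 x ∂(XL P)) := by
      have f1 : ∫ x, (C.N3 x + C.N4 x + C.N5 x + C.N6 x) ∂(XL P) =
          ∫ x, (C.N3 x + C.N4 x + C.N5 x) ∂(XL P) + ∫ x, C.N6 x ∂(XL P) :=
        integral_add ((i3.add i4).add i5) i6
      have f2 : ∫ x, (C.N3 x + C.N4 x + C.N5 x) ∂(XL P) =
          ∫ x, (C.N3 x + C.N4 x) ∂(XL P) + ∫ x, C.N5 x ∂(XL P) :=
        integral_add (i3.add i4) i5
      have f3 : ∫ x, (C.N3 x + C.N4 x) ∂(XL P) =
          ∫ x, C.N3 x ∂(XL P) + ∫ x, C.N4 x ∂(XL P) :=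
        integral_add i3 i4
      rw [f1, f2, f3]
    rw [e1, e2, integral_const_mul, integral_div, integral_div, integral_div, e3]
  rw [hval]
  -- arithmetic
  have hTc : ((p.T + 1 : ℕ) : ℝ) = 2 * (R : ℝ) ^ p.k1 + 1 := by
    unfold Par.T
    push_cast
    ring
  have hTc2 : (p.T : ℝ) + 1 = 2 * (R : ℝ) ^ p.k1 + 1 := by
    unfold Par.T
    push_cast
    ring
  rw [hTc, hTc2]
  have hth2 : p.th = 1 / (R : ℝ) ^ p.k0 / (64 * (2 * (R : ℝ) ^ p.k1 + 1)) := rfl
  have q1 := p.hb1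
  have q3 := p.hb3
  have q4 := p.hb4
  have q5 := p.hb5
  have q6 := p.hb6
  set T' : ℝ := 2 * (R : ℝ) ^ p.k1 + 1 with hT'
  have hT'pos : 0 < T' := by positivity
  set Q : ℝ := (R : ℝ) ^ p.k0 with hQ
  have hQpos : 0 < Q := by positivity
  have hBal : (0 : ℝ) < C.Bal.card := by
    have h1 := C.card_Bal
    have h2 : 0 < p.pp * S := by
      unfold Par.pp
      positivity
    linarith
  have hthS : 1 / (p.th * S) = 64 * T' * Q / S := by
    rw [hth2]
    field_simp
  have t1 : (∫ x, C.N1 x ∂(XL P)) / C.Bal.card ≤ 4 * Real.exp (-(p.xi / (32 * p.eps))) := by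
    rw [div_le_iff₀ hBal]
    linarith
  have t2 : (∫ x, C.B2 x ∂(XL P)) / (400 * T') ≤ 25 / (400 * T') :=
    div_le_div_of_nonneg_right b2 (by positivity)
  have t3 : ((∫ x, C.N3 x ∂(XL P)) + (∫ x, C.N4 x ∂(XL P)) + (∫ x, C.N5 x ∂(XL P)) +
        (∫ x, C.N6 x ∂(XL P))) / (p.th * S) ≤ 64 * T' * Q *
        (12 * p.ell * Real.exp (-(p.ell / 25600)) + 12 * p.ell * Real.exp (-(p.tau / (256 * p.c))) +
        800 * K * Real.exp (-(p.ell / (48 * K))) + 12 * p.ell * Real.exp (-(p.ell / (96 * K)))) := by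
    rw [div_eq_mul_one_div, hthS]
    have hpos : 0 ≤ 64 * T' * Q / S := by positivity
    calc _ ≤ (12 * p.ell * S * Real.exp (-(p.ell / 25600)) +
          12 * p.ell * S * Real.exp (-(p.tau / (256 * p.c))) +
          800 * K * S * Real.exp (-(p.ell / (48 * K))) +
          12 * p.ell * S * Real.exp (-(p.ell / (96 * K)))) * (64 * T' * Q / S) :=
          mul_le_mul_of_nonneg_right (by linarith) hpos
      _ = _ := by
          field_simp
  have u1 : 2 * T' * ((∫ x, C.N1 x ∂(XL P)) / C.Bal.card) ≤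
      2 * T' * (4 * Real.exp (-(p.xi / (32 * p.eps)))) :=
    mul_le_mul_of_nonneg_left t1 (by positivity)
  have u2 : 4 * (T' * (25 / (400 * T'))) = 1 / 4 := by
    field_simp
    norm_num
  calc 4 * (T' * (2 * T' * ((∫ x, C.N1 x ∂(XL P)) / C.Bal.card) +
        ((∫ x, C.N3 x ∂(XL P)) + (∫ x, C.N4 x ∂(XL P)) + (∫ x, C.N5 x ∂(XL P)) +
        (∫ x, C.N6 x ∂(XL P))) / (p.th * S) + (∫ x, C.B2 x ∂(XL P)) / (400 * T')))
      ≤ 4 * (T' * (2 * T' * (4 * Real.exp (-(p.xi / (32 * p.eps)))) + 64 * T' * Q *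
        (12 * p.ell * Real.exp (-(p.ell / 25600)) + 12 * p.ell * Real.exp (-(p.tau / (256 * p.c))) +
        800 * K * Real.exp (-(p.ell / (48 * K))) + 12 * p.ell * Real.exp (-(p.ell / (96 * K)))) +
        25 / (400 * T'))) := by
        refine mul_le_mul_of_nonneg_left (mul_le_mul_of_nonneg_left ?_ hT'pos.le) (by norm_num)
        linarith
    _ = 32 * T' ^ 2 * Real.exp (-(p.xi / (32 * p.eps))) +
        256 * T' ^ 2 * Q * (12 * p.ell * Real.exp (-(p.ell / 25600))) +
        256 * T' ^ 2 * Q * (12 * p.ell * Real.exp (-(p.tau / (256 * p.c)))) +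
        256 * T' ^ 2 * Q * (800 * K * Real.exp (-(p.ell / (48 * K)))) +
        256 * T' ^ 2 * Q * (12 * p.ell * Real.exp (-(p.ell / (96 * K)))) +
        4 * (T' * (25 / (400 * T'))) := by ring
    _ ≤ 1 / 2 := by
        rw [u2]
        linarith

end Cfg

end Pool.Agent.Half
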