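import Pool.Agent.Lib_MP_33fb9b_half.HomD

set_option autoImplicit false

/-!
# K16: the homogeneity lemma (blueprint C5)
-/

namespace Pool.Agent.Half

open MeasureTheory

private theorem Homog_wt_pos (y : ℝ) : 0 < wt y := by
  unfold wt
  have : 0 < 1 + |y| := by positivity
  have : 0 < Real.sqrt (1 + |y|) := Real.sqrt_pos.2 this
  positivity

private theorem Homog_wt_le_om {T : ℕ} {c : ℝ} (hc : 0 < c) (z : ℝ × (Fin T → ℝ)) :
    wt z.1 ≤ om c z := by
  unfold om
  have h1 : 0 ≤ l1 z.2 := Finset.sum_nonneg fun t _ => abs_nonneg _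
  have h2 : 1 ≤ Real.exp (c * l1 z.2) := Real.one_le_exp (by positivity)
  exact le_mul_of_one_le_right (Homog_wt_pos _).le h2

/-- a continuous function with compact support is bounded by a multiple of the weight -/
private theorem Homog_bound (g : ℝ → ℝ) (hcont : Continuous g) (hc : HasCompactSupport g) :
    ∃ A : ℝ, 0 ≤ A ∧ ∀ y, |g y| ≤ A * wt y := by
  have hcont2 : Continuous fun y => g y * (wt y)⁻¹ := by
    unfold wt
    simp only [inv_inv]
    fun_prop
  have hsupp : HasCompactSupport fun y => g y * (wt y)⁻¹ := hc.mul_right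
  obtain ⟨A, hA⟩ := hcont2.bounded_above_of_compact_support hsupp
  refine ⟨max A 0, le_max_right _ _, fun y => ?_⟩
  have h1 := hA y
  rw [norm_mul, Real.norm_eq_abs, Real.norm_eq_abs, abs_inv, abs_of_pos (Homog_wt_pos y),
    ← div_eq_mul_inv, div_le_iff₀ (Homog_wt_pos y)] at h1
  exact h1.trans (mul_le_mul_of_nonneg_right (le_max_left _ _) (Homog_wt_pos y).le)

private theorem Homog_trig_le {T : ℕ} (η : ℝ) (N : ℕ) (k : Fin T → ℝ) : |trig η N k| ≤ 1 := by
  unfold trig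
  rw [Finset.abs_prod]
  refine Finset.prod_le_one (fun _ _ => abs_nonneg _) fun t _ => ?_
  rw [abs_pow]
  refine pow_le_one₀ (abs_nonneg _) ?_
  rw [abs_le]
  constructor <;> linarith [Real.neg_one_le_cos (η * k t), Real.cos_le_one (η * k t)]

/-- HOMOGENEITY LEMMA. Proof: if not, for every `i = (F, n)` (`F` a finite set of pairs, `δ = 1/(n+1)`) there is a
bad family; the index set is directed; take an ultrafilter `U ≤ atTop` (`Ultrafilter.of Filter.atTop`) and
`L F = lim_U w ∑ F(H_i, V_i)` (`limUnder`, bounded complex sequences converge along an ultrafilter: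
closed balls of `ℂ` are compact). `HomFun c C L` holds and `hom_d` contradicts
`|w ∑ (g(H_i) - g(H_i - y0)) trig (V_i)| > ε`. -/
theorem homog (T : ℕ) (c C ε : ℝ) (hc : 0 < c) (hε : 0 < ε) (g : ℝ → ℝ) (hg : Test g) (y0 η : ℝ)
    (N : ℕ) :
    ∃ (δ : ℝ) (F : Finset ((ℝ → ℝ) × (Fin T → ℝ))), 0 < δ ∧
      (∀ q ∈ F, Test q.1 ∧ (∀ t, 0 ≤ q.2 t) ∧ ∑ t, q.2 t ≤ 1) ∧
      ∀ (ι : Type) (s : Finset ι) (H : ι → ℝ) (V : ι → Fin T → ℝ) (w : ℝ), 0 ≤ w →
        (∀ q ∈ F, |w * ∑ i ∈ s, q.1 (H i + dt q.2 (V i)) - ∫ y, q.1 y| ≤ δ) →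
        w * ∑ i ∈ s, wt (H i) * Real.exp (c * l1 (V i)) ≤ C →
        |w * ∑ i ∈ s, g (H i) * trig η N (V i) - w * ∑ i ∈ s, g (H i - y0) * trig η N (V i)| ≤ ε := by
  classical
  by_contra hcon
  push Not at hcon
  have key : ∀ i : Finset ((ℝ → ℝ) × (Fin T → ℝ)) × ℕ, ∃ (ι : Type) (s : Finset ι) (H : ι → ℝ)
      (V : ι → Fin T → ℝ) (w : ℝ), 0 ≤ w ∧
      (∀ q ∈ i.1, (Test q.1 ∧ (∀ t, 0 ≤ q.2 t) ∧ ∑ t, q.2 t ≤ 1) →
        |w * ∑ i ∈ s, q.1 (H i + dt q.2 (V i)) - ∫ y, q.1 y| ≤ 1 / ((i.2 : ℝ) + 1)) ∧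
      w * ∑ i ∈ s, wt (H i) * Real.exp (c * l1 (V i)) ≤ C ∧
      ε < |w * ∑ i ∈ s, g (H i) * trig η N (V i) - w * ∑ i ∈ s, g (H i - y0) * trig η N (V i)| := by
    intro i
    obtain ⟨ι, s, H, V, w, h1, h2, h3, h4⟩ := hcon (1 / ((i.2 : ℝ) + 1))
      (i.1.filter fun q => Test q.1 ∧ (∀ t, 0 ≤ q.2 t) ∧ ∑ t, q.2 t ≤ 1) (by positivity)
      (fun q hq => (Finset.mem_filter.1 hq).2)
    exact ⟨ι, s, H, V, w, h1, fun q hq hq2 => h2 q (Finset.mem_filter.2 ⟨hq, hq2⟩), h3, h4⟩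
  choose ι s H V w hw h1 h2 h3 using key
  -- the functionals
  obtain ⟨S, hS⟩ : ∃ S : Finset ((ℝ → ℝ) × (Fin T → ℝ)) × ℕ → (ℝ × (Fin T → ℝ) → ℂ) → ℂ,
      ∀ i F, S i F = (w i : ℂ) * ∑ j ∈ s i, F (H i j, V i j) := ⟨_, fun _ _ => rfl⟩
  have hSb : ∀ (A : ℝ) (F : ℝ × (Fin T → ℝ) → ℂ), 0 ≤ A → (∀ z, ‖F z‖ ≤ A * om c z) →
      ∀ i, ‖S i F‖ ≤ C * A := by
    intro A F hA hF i
    rw [hS, norm_mul, Complex.norm_real, Real.norm_of_nonneg (hw i)]
    calc w i * ‖∑ j ∈ s i, F (H i j, V i j)‖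
        ≤ w i * ∑ j ∈ s i, A * (wt (H i j) * Real.exp (c * l1 (V i j))) := by
          refine mul_le_mul_of_nonneg_left ?_ (hw i)
          refine (norm_sum_le _ _).trans (Finset.sum_le_sum fun j _ => ?_)
          exact hF (H i j, V i j)
      _ = A * (w i * ∑ j ∈ s i, wt (H i j) * Real.exp (c * l1 (V i j))) := by
          rw [← Finset.mul_sum]; ring
      _ ≤ A * C := mul_le_mul_of_nonneg_left (h2 i) hA
      _ = C * A := mul_comm _ _
  obtain ⟨U, hU⟩ : ∃ U : Ultrafilter (Finset ((ℝ → ℝ) × (Fin T → ℝ)) × ℕ),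
      (U : Filter (Finset ((ℝ → ℝ) × (Fin T → ℝ)) × ℕ)) ≤ Filter.atTop :=
    ⟨Ultrafilter.of Filter.atTop, Ultrafilter.of_le _⟩
  obtain ⟨L, hLdef⟩ : ∃ L : (ℝ × (Fin T → ℝ) → ℂ) → ℂ,
      ∀ F x, Filter.Tendsto (fun i => S i F) U (nhds x) → L F = x := by
    refine ⟨fun F => if h : ∃ x, Filter.Tendsto (fun i => S i F) U (nhds x) then h.choose else 0,
      fun F x hx => ?_⟩
    have hex : ∃ x, Filter.Tendsto (fun i => S i F) U (nhds x) := ⟨x, hx⟩
    simp only [dif_pos hex]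
    exact tendsto_nhds_unique hex.choose_spec hx
  have hlim : ∀ F, Adm c F → Filter.Tendsto (fun i => S i F) U (nhds (L F)) := by
    rintro F ⟨A, hA⟩
    have hA' : ∀ z, ‖F z‖ ≤ max A 0 * om c z := fun z => (hA z).trans
      (mul_le_mul_of_nonneg_right (le_max_left _ _) ((Homog_wt_pos _).le.trans
        (Homog_wt_le_om hc z)))
    have hb := hSb (max A 0) F (le_max_right _ _) hA'
    have hK : IsCompact (Metric.closedBall (0 : ℂ) (C * max A 0)) := isCompact_closedBall _ _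
    obtain ⟨x, _, hx⟩ := hK.ultrafilter_le_nhds' (U.map fun i => S i F) (by
      rw [Ultrafilter.mem_map]
      refine Filter.mem_of_superset Filter.univ_mem fun i _ => ?_
      rw [Set.mem_preimage, mem_closedBall_zero_iff]
      exact hb i)
    have hx' : Filter.Tendsto (fun i => S i F) U (nhds x) := hx
    rw [hLdef F x hx']
    exact hx'
  have hadm_add : ∀ F G : ℝ × (Fin T → ℝ) → ℂ, Adm c F → Adm c G → Adm c (fun z => F z + G z) := by
    rintro F G ⟨A, hA⟩ ⟨B, hB⟩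
    exact ⟨A + B, fun z => (norm_add_le _ _).trans (by rw [add_mul]; exact add_le_add (hA z) (hB z))⟩
  have hadm_smul : ∀ (a : ℂ) (F : ℝ × (Fin T → ℝ) → ℂ), Adm c F → Adm c (fun z => a * F z) := by
    rintro a F ⟨A, hA⟩
    refine ⟨‖a‖ * A, fun z => ?_⟩
    rw [norm_mul, mul_assoc]
    exact mul_le_mul_of_nonneg_left (hA z) (norm_nonneg _)
  have hL : HomFun c C L := by
    refine ⟨?_, ?_, ?_, ?_⟩
    · intro F G hF hG
      refine tendsto_nhds_unique (hlim _ (hadm_add F G hF hG)) ?_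
      have := (hlim F hF).add (hlim G hG)
      refine this.congr fun i => ?_
      rw [hS, hS, hS, Finset.sum_add_distrib, mul_add]
    · intro a F hF
      refine tendsto_nhds_unique (hlim _ (hadm_smul a F hF)) ?_
      have := (hlim F hF).const_mul a
      refine this.congr fun i => ?_
      rw [hS, hS, ← Finset.mul_sum]
      ring
    · intro A F hA hF
      exact le_of_tendsto' (hlim F ⟨A, hF⟩).norm fun i => hSb A F hA hF i
    · intro φ lam hφ hl0 hl1
      refine hLdef _ _ (Filter.Tendsto.mono_left ?_ hU)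
      have hr : Filter.Tendsto (fun i : Finset ((ℝ → ℝ) × (Fin T → ℝ)) × ℕ =>
          w i * ∑ j ∈ s i, φ (H i j + dt lam (V i j))) Filter.atTop (nhds (∫ y, φ y)) := by
        rw [Metric.tendsto_nhds]
        intro e he
        obtain ⟨n0, hn0⟩ := exists_nat_one_div_lt he
        refine Filter.eventually_atTop.2 ⟨({(φ, lam)}, n0), fun i hi => ?_⟩
        have hmem : ((φ, lam) : (ℝ → ℝ) × (Fin T → ℝ)) ∈ i.1 :=
          hi.1 (Finset.mem_singleton_self _)
        have h4 := h1 i (φ, lam) hmem ⟨hφ, hl0, hl1⟩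
        rw [Real.dist_eq]
        refine h4.trans_lt (lt_of_le_of_lt ?_ hn0)
        have h5 : (n0 : ℝ) ≤ i.2 := by exact_mod_cast hi.2
        exact one_div_le_one_div_of_le (by positivity) (by linarith)
      have hr2 := (Complex.continuous_ofReal.tendsto (∫ y, φ y)).comp hr
      refine hr2.congr fun i => ?_
      rw [hS]
      simp only [Function.comp]
      push_cast
      rfl
  have h0 := hom_d hc hL g hg y0 η N
  -- admissibility of the last function
  have hcontg : Continuous g := hg.1.continuous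
  obtain ⟨A1, hA1, hA1'⟩ := Homog_bound (fun y => g y - g (y - y0)) (by fun_prop) (by
    obtain ⟨G, hG, hG'⟩ := test_shift g hg y0
    have : (fun y => g y - g (y - y0)) = deriv G := funext fun y => (hG' y).symm
    rw [this]
    exact hG.2.deriv)
  have hadm : Adm c (fun z : ℝ × (Fin T → ℝ) =>
      (((g z.1 - g (z.1 - y0)) * trig η N z.2 : ℝ) : ℂ)) := by
    refine ⟨A1, fun z => ?_⟩
    rw [Complex.norm_real, Real.norm_eq_abs, abs_mul]
    calc |g z.1 - g (z.1 - y0)| * |trig η N z.2| ≤ (A1 * wt z.1) * 1 :=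
          mul_le_mul (hA1' z.1) (Homog_trig_le _ _ _) (abs_nonneg _)
            (mul_nonneg hA1 (Homog_wt_pos _).le)
      _ = A1 * wt z.1 := mul_one _
      _ ≤ A1 * om c z := mul_le_mul_of_nonneg_left (Homog_wt_le_om hc z) hA1
  have h5 := (hlim _ hadm).norm
  rw [h0, norm_zero] at h5
  have h6 : ε ≤ 0 := by
    refine ge_of_tendsto' h5 fun i => ?_
    have h7 := (h3 i).le
    refine h7.trans (le_of_eq ?_)
    rw [hS, ← Complex.ofReal_sum, ← Complex.ofReal_mul, Complex.norm_real, Real.norm_eq_abs]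
    congr 1
    rw [← mul_sub, ← Finset.sum_sub_distrib]
    congr 1
    refine Finset.sum_congr rfl fun j _ => ?_
    ring
  linarith

end Pool.Agent.Half
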