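import Pool.Agent.Lib_MP_33fb9b_half.Lln
import Pool.Agent.Lib_MP_33fb9b_half.Sums
import Pool.Agent.Lib_MP_33fb9b_half.Cfg

set_option autoImplicit false

/-!
# K26: law of large numbers in the wide window (blueprint C9, b7)
-/

namespace Pool.Agent.Half

open Pool.Agent.BFT MeasureTheory Finset

private theorem LlnWd_test (φ : ℝ → ℝ) (hφ : Test φ) : ∃ L B M : ℝ, 0 < B ∧ 0 ≤ M ∧
    (∀ x y, |φ x - φ y| ≤ L * |x - y|) ∧ (∀ x, B ≤ |x| → φ x = 0) ∧ ∀ x, |φ x| ≤ M := by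
  obtain ⟨C, hC⟩ := hφ.1.lipschitzWith_of_hasCompactSupport hφ.2 (by simp)
  obtain ⟨M, hM⟩ := hφ.2.exists_bound_of_continuous hφ.1.continuous
  obtain ⟨R, hR⟩ := (IsCompact.isBounded hφ.2).subset_closedBall 0
  refine ⟨C, |R| + 1, |M|, by positivity, abs_nonneg _, ?_, ?_, ?_⟩
  · intro x y
    have := hC.dist_le_mul x y
    rwa [Real.dist_eq, Real.dist_eq] at this
  · intro x hx
    by_contra h
    have h1 : x ∈ tsupport φ := subset_tsupport φ h
    have h2 := hR h1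
    rw [Metric.mem_closedBall, Real.dist_eq, sub_zero] at h2
    have := le_abs_self R
    linarith
  · intro x
    exact (hM x).trans (le_abs_self M)

private theorem LlnWd_tail {P : Type} [Fintype P] [PartialOrder P]
    {w : Fin (Fintype.card P) ≃ P} {K S : ℝ} (h : Disp w K S) (hK : 1 ≤ K) (hS : 1 ≤ S) (B : ℝ)
    (hSB : 2 * (2 * K + B) ≤ S) (a v : P) (hv : S ^ 2 < |ix w v - ix w a|) :
    (XL P).real {x : P → ℝ | |x v - x a| ≤ B * S} ≤
      4 * Real.exp (-(Real.sqrt |ix w v - ix w a| / (96 * K))) := by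
  set r := |ix w v - ix w a| with hr
  have hr0 : 0 < r := lt_of_le_of_lt (sq_nonneg S) hv
  set ρ := Real.sqrt r with hρ
  have hρ2 : ρ ^ 2 = r := Real.sq_sqrt hr0.le
  have hρS : S ≤ ρ := Real.le_sqrt_of_sq_le hv.le
  have hρ0 : 0 < ρ := by linarith
  have hsp := loc_sp h hK hS a v ρ hρS (by rw [hρ2])
  have ht1 := loc_ht h a v
  have htail := sp_tail a v (s := 6 * K * ρ) (by positivity) hsp (r / 2)
  refine le_trans (measureReal_mono ?_ (measure_ne_top _ _)) (htail.trans (le_of_eq ?_))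
  · intro x hx
    have hx1 : |x v - x a| ≤ B * S := hx
    change r / 2 ≤ |x v - x a - (ht v - ht a)|
    have h1 : r ≤ |ht v - ht a - (ix w v - ix w a)| + |x v - x a - (ht v - ht a)| +
        |x v - x a| := by
      have e1 : ix w v - ix w a = -(ht v - ht a - (ix w v - ix w a)) +
          -(x v - x a - (ht v - ht a)) + (x v - x a) := by ring
      calc r = |-(ht v - ht a - (ix w v - ix w a)) +
          -(x v - x a - (ht v - ht a)) + (x v - x a)| := by rw [← e1]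
        _ ≤ |-(ht v - ht a - (ix w v - ix w a)) + -(x v - x a - (ht v - ht a))| +
            |x v - x a| := abs_add_le _ _
        _ ≤ |-(ht v - ht a - (ix w v - ix w a))| + |-(x v - x a - (ht v - ht a))| +
            |x v - x a| := by
            have := abs_add_le (-(ht v - ht a - (ix w v - ix w a)))
              (-(x v - x a - (ht v - ht a)))
            linarith
        _ = _ := by rw [abs_neg, abs_neg]
    have h2 : (2 * K + B) * S ≤ S ^ 2 / 2 := by nlinarith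
    nlinarith
  · congr 2
    rw [← hρ2]
    field_simp
    norm_num

/-- Proof: `lln` for the sum over all `v`; for `v` outside the wide window, `r = |ix v - ix a| > S^2`:
`sp a v ≤ 6 K sqrt r` (`loc_sp` with `ρ = sqrt r`), `|mu| ≥ r - 2KS`, so
`P(|X_v - X_a| ≤ B S) ≤ 4 exp (-(r/4)/(48 K sqrt r))` for large `S`; `sum_sqrt`. -/
theorem lln_wide (K : ℝ) (hK : 1 ≤ K) (φ : ℝ → ℝ) (hφ : Test φ) (ε : ℝ) (hε : 0 < ε) :
    ∃ S0 B : ℝ, ∀ (gam : ℝ) (R : ℕ) (p : Par gam K R) (y0 : ℝ) (P : Type) [Fintype P]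
      [PartialOrder P] (S : ℝ) (C : Cfg p y0 P S), S0 ≤ S →
      (∀ σ : BFT.LE P, B * S + 1 ≤ pos σ C.a ∧ (pos σ C.a : ℝ) + B * S + 2 ≤ Fintype.card P) →
      Integrable (fun x : P → ℝ => |S⁻¹ * ∑ v ∈ C.Wd, φ ((x v - x C.a) / S) - ∫ y, φ y|) (XL P) ∧
      ∫ x, |S⁻¹ * ∑ v ∈ C.Wd, φ ((x v - x C.a) / S) - ∫ y, φ y| ∂(XL P) ≤ ε := by
  classical
  obtain ⟨L, B, M, hB, hM0, hL, hs, hM⟩ := LlnWd_test φ hφ
  obtain ⟨C0, hC0⟩ := lln φ L B hL hB hs
  obtain ⟨S1, hS1⟩ := sum_sqrt (96 * K) (ε / (8 * (M + 1))) (by positivity) (by positivity)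
  refine ⟨max (max 1 (2 * (2 * K + B))) (max S1 ((2 * |C0| / ε) ^ 2)), 2 * B, ?_⟩
  intro gam R p y0 P _ _ S C hS hroom
  have hS1' : 1 ≤ S := le_trans (le_trans (le_max_left _ _) (le_max_left _ _)) hS
  have hS2' : 2 * (2 * K + B) ≤ S := le_trans (le_trans (le_max_right _ _) (le_max_left _ _)) hS
  have hS3' : S1 ≤ S := le_trans (le_trans (le_max_left _ _) (le_max_right _ _)) hS
  have hS4' : (2 * |C0| / ε) ^ 2 ≤ S := le_trans (le_trans (le_max_right _ _) (le_max_right _ _)) hS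
  have hS0 : 0 < S := by linarith
  have hcont : Continuous φ := hφ.1.continuous
  -- the single terms
  have hterm : ∀ v : P, Integrable (fun x : P → ℝ => φ ((x v - x C.a) / S)) (XL P) := by
    intro v
    refine Integrable.of_bound ?_ M (Filter.Eventually.of_forall fun x => ?_)
    · have h0 : Continuous (fun x : P → ℝ => (x v - x C.a) / S) := by fun_prop
      exact (hcont.comp h0).aestronglyMeasurable
    · rw [Real.norm_eq_abs]
      exact hM _
  have hsum : ∀ s : Finset P, Integrable (fun x : P → ℝ =>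
      |S⁻¹ * ∑ v ∈ s, φ ((x v - x C.a) / S) - ∫ y, φ y|) (XL P) := by
    intro s
    exact (((integrable_finsetSum _ fun v _ => hterm v).const_mul S⁻¹).sub
      (integrable_const _)).abs
  refine ⟨hsum C.Wd, ?_⟩
  -- the law of large numbers for the whole sum
  have h1 : ∫ x, |S⁻¹ * ∑ v, φ ((x v - x C.a) / S) - ∫ y, φ y| ∂(XL P) ≤ ε / 2 := by
    refine (hC0 P C.a S hS1' hroom).trans ?_
    have hsq : 0 < Real.sqrt S := Real.sqrt_pos.2 hS0
    rw [div_le_iff₀ hsq]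
    have h2 : 2 * |C0| / ε ≤ Real.sqrt S := Real.le_sqrt_of_sq_le hS4'
    rw [div_le_iff₀ hε] at h2
    have h3 := le_abs_self C0
    nlinarith
  -- the terms outside the wide window
  have h2 : ∀ v ∈ C.Wdᶜ, ∫ x, |φ ((x v - x C.a) / S)| ∂(XL P) ≤
      M * (4 * Real.exp (-(Real.sqrt |ix C.w v - ix C.w C.a| / (96 * K)))) := by
    intro v hv
    have hv1 : S ^ 2 < |ix C.w v - ix C.w C.a| := by
      rw [Finset.mem_compl] at hv
      unfold Cfg.Wd at hv
      rw [Finset.mem_filter] at hv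
      push Not at hv
      exact hv (Finset.mem_univ v)
    have hE : MeasurableSet {x : P → ℝ | |x v - x C.a| ≤ B * S} := by
      refine measurableSet_le ?_ measurable_const
      exact ((measurable_pi_apply v).sub (measurable_pi_apply C.a)).abs
    have h3 : ∀ x : P → ℝ, |φ ((x v - x C.a) / S)| ≤
        ({x : P → ℝ | |x v - x C.a| ≤ B * S}).indicator (fun _ => M) x := by
      intro x
      by_cases hx : x ∈ {x : P → ℝ | |x v - x C.a| ≤ B * S}
      · rw [Set.indicator_of_mem hx]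
        exact hM _
      · rw [Set.indicator_of_notMem hx]
        have hx1 : B * S < |x v - x C.a| := not_le.1 hx
        rw [hs, abs_zero]
        rw [abs_div, abs_of_pos hS0, le_div_iff₀ hS0]
        exact hx1.le
    calc ∫ x, |φ ((x v - x C.a) / S)| ∂(XL P)
        ≤ ∫ x, ({x : P → ℝ | |x v - x C.a| ≤ B * S}).indicator (fun _ => M) x ∂(XL P) :=
          integral_mono (hterm v).abs ((integrable_const M).indicator hE) h3
      _ = M * (XL P).real {x : P → ℝ | |x v - x C.a| ≤ B * S} := by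
          rw [integral_indicator_const _ hE, smul_eq_mul, mul_comm]
      _ ≤ _ := mul_le_mul_of_nonneg_left
          (LlnWd_tail C.disp hK hS1' B hS2' C.a v hv1) hM0
  have h3 : ∑ v ∈ C.Wdᶜ, ∫ x, |φ ((x v - x C.a) / S)| ∂(XL P) ≤ ε / 2 := by
    have h4 := hS1 P C.w C.a S C.Wdᶜ hS3' (by
      intro v hv
      rw [Finset.mem_compl] at hv
      unfold Cfg.Wd at hv
      rw [Finset.mem_filter] at hv
      push Not at hv
      exact hv (Finset.mem_univ v))
    calc ∑ v ∈ C.Wdᶜ, ∫ x, |φ ((x v - x C.a) / S)| ∂(XL P)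
        ≤ ∑ v ∈ C.Wdᶜ, M * (4 * Real.exp (-(Real.sqrt |ix C.w v - ix C.w C.a| / (96 * K)))) :=
          Finset.sum_le_sum h2
      _ = 4 * M * ∑ v ∈ C.Wdᶜ, Real.exp (-(Real.sqrt |ix C.w v - ix C.w C.a| / (96 * K))) := by
          rw [Finset.mul_sum]
          exact Finset.sum_congr rfl fun v _ => by ring
      _ ≤ 4 * M * (ε / (8 * (M + 1))) := mul_le_mul_of_nonneg_left h4 (by positivity)
      _ ≤ ε / 2 := by
          rw [mul_div_assoc', div_le_iff₀ (by positivity)]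
          nlinarith
  -- comparison
  have h4 : ∀ x : P → ℝ, |S⁻¹ * ∑ v ∈ C.Wd, φ ((x v - x C.a) / S) - ∫ y, φ y| ≤
      |S⁻¹ * ∑ v, φ ((x v - x C.a) / S) - ∫ y, φ y| +
        ∑ v ∈ C.Wdᶜ, |φ ((x v - x C.a) / S)| := by
    intro x
    have e1 : ∑ v, φ ((x v - x C.a) / S) = ∑ v ∈ C.Wd, φ ((x v - x C.a) / S) +
        ∑ v ∈ C.Wdᶜ, φ ((x v - x C.a) / S) := (Finset.sum_add_sum_compl C.Wd _).symm
    have e2 : S⁻¹ * ∑ v ∈ C.Wd, φ ((x v - x C.a) / S) - ∫ y, φ y =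
        (S⁻¹ * ∑ v, φ ((x v - x C.a) / S) - ∫ y, φ y) +
          -(S⁻¹ * ∑ v ∈ C.Wdᶜ, φ ((x v - x C.a) / S)) := by
      rw [e1]; ring
    rw [e2]
    refine (abs_add_le _ _).trans (add_le_add le_rfl ?_)
    rw [abs_neg, abs_mul, abs_of_pos (inv_pos.2 hS0)]
    have h5 : |∑ v ∈ C.Wdᶜ, φ ((x v - x C.a) / S)| ≤ ∑ v ∈ C.Wdᶜ, |φ ((x v - x C.a) / S)| :=
      Finset.abs_sum_le_sum_abs _ _
    have h6 : S⁻¹ ≤ 1 := inv_le_one_of_one_le₀ hS1'
    have h7 : 0 ≤ ∑ v ∈ C.Wdᶜ, |φ ((x v - x C.a) / S)| := Finset.sum_nonneg fun _ _ => abs_nonneg _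
    calc S⁻¹ * |∑ v ∈ C.Wdᶜ, φ ((x v - x C.a) / S)| ≤ 1 * ∑ v ∈ C.Wdᶜ, |φ ((x v - x C.a) / S)| :=
          mul_le_mul h6 h5 (abs_nonneg _) zero_le_one
      _ = _ := one_mul _
  have h5 : Integrable (fun x : P → ℝ => ∑ v ∈ C.Wdᶜ, |φ ((x v - x C.a) / S)|) (XL P) :=
    integrable_finsetSum _ fun v _ => (hterm v).abs
  calc ∫ x, |S⁻¹ * ∑ v ∈ C.Wd, φ ((x v - x C.a) / S) - ∫ y, φ y| ∂(XL P)
      ≤ ∫ x, (|S⁻¹ * ∑ v, φ ((x v - x C.a) / S) - ∫ y, φ y| +
        ∑ v ∈ C.Wdᶜ, |φ ((x v - x C.a) / S)|) ∂(XL P) :=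
        integral_mono (hsum C.Wd) ((hsum Finset.univ).add h5) h4
    _ = ∫ x, |S⁻¹ * ∑ v, φ ((x v - x C.a) / S) - ∫ y, φ y| ∂(XL P) +
        ∑ v ∈ C.Wdᶜ, ∫ x, |φ ((x v - x C.a) / S)| ∂(XL P) := by
        rw [integral_add (hsum Finset.univ) h5, integral_finsetSum _ fun v _ => (hterm v).abs]
    _ ≤ ε / 2 + ε / 2 := add_le_add h1 h3
    _ = ε := by ring

end Pool.Agent.Half
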