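import Pool.Agent.Lib_MP_33fb9b_half.TrPi
import Pool.Agent.Lib_MP_33fb9b_bft.Law
import Pool.Agent.Lib_MP_33fb9b_bft.WLat

set_option autoImplicit false

/-!
# K11: good simplices in the continuous model (blueprint C4, corollary)
-/

namespace Pool.Agent.Half

open Pool.Agent.BFT MeasureTheory

variable {P : Type} [Fintype P] [PartialOrder P]

omit [PartialOrder P] in
private theorem TrXL_mx_le [Nonempty P] {T : ℕ} (lam : Fin (T + 1) → ℝ) (hl0 : ∀ t, 0 ≤ lam t)
    (x : Fin (T + 1) → P → ℝ) :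
    mx (fun v => ∑ t, lam t * x t v) ≤ ∑ t, lam t * mx (x t) := by
  unfold mx
  apply ciSup_le
  intro v
  apply Finset.sum_le_sum
  intro t _
  exact mul_le_mul_of_nonneg_left (le_ciSup (Set.finite_range (x t)).bddAbove v) (hl0 t)

/-- log-concavity of the weight -/
theorem W_lc [Nonempty P] {T : ℕ} (lam : Fin (T + 1) → ℝ) (hl0 : ∀ t, 0 ≤ lam t)
    (hl1 : ∑ t, lam t = 1) (x : Fin (T + 1) → P → ℝ) :
    ∏ t, (W 0 (x t)) ^ (lam t) ≤ W 0 (fun v => ∑ t, lam t * x t v) := by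
  by_cases h : ∀ t, 0 < lam t → ((∀ v, 0 < x t v) ∧ Monotone (x t))
  · have h1 : ∀ t, (W 0 (x t)) ^ (lam t) = ENNReal.ofReal (Real.exp (-(lam t * mx (x t)))) := by
      intro t
      rcases (hl0 t).eq_or_lt with h0 | h0
      · rw [← h0]
        simp
      · unfold W
        rw [if_pos (h t h0), ENNReal.ofReal_rpow_of_pos (Real.exp_pos _), ← Real.exp_mul]
        congr 2
        ring
    have hpos : ∃ t, 0 < lam t := by
      by_contra hc
      push Not at hc
      have : ∑ t, lam t ≤ 0 := Finset.sum_nonpos fun t _ => hc t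
      linarith
    obtain ⟨t0, ht0⟩ := hpos
    have h2 : (∀ v, 0 < (fun v => ∑ t, lam t * x t v) v) ∧
        Monotone (fun v => ∑ t, lam t * x t v) := by
      constructor
      · intro v
        apply Finset.sum_pos'
        · intro t _
          rcases (hl0 t).eq_or_lt with h0 | h0
          · rw [← h0, zero_mul]
          · exact (mul_pos h0 ((h t h0).1 v)).le
        · exact ⟨t0, Finset.mem_univ _, mul_pos ht0 ((h t0 ht0).1 v)⟩
      · intro u v huv
        apply Finset.sum_le_sum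
        intro t _
        rcases (hl0 t).eq_or_lt with h0 | h0
        · rw [← h0, zero_mul, zero_mul]
        · exact mul_le_mul_of_nonneg_left ((h t h0).2 huv) h0.le
    have h3 : W 0 (fun v => ∑ t, lam t * x t v) =
        ENNReal.ofReal (Real.exp (0 - mx (fun v => ∑ t, lam t * x t v))) := by
      unfold W
      rw [if_pos h2]
    rw [h3, Finset.prod_congr rfl fun t _ => h1 t,
      ← ENNReal.ofReal_prod_of_nonneg fun t _ => (Real.exp_pos _).le, ← Real.exp_sum]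
    apply ENNReal.ofReal_le_ofReal
    apply Real.exp_le_exp.2
    rw [Finset.sum_neg_distrib, zero_sub]
    exact neg_le_neg (TrXL_mx_le lam hl0 x)
  · push Not at h
    obtain ⟨t, ht, hx⟩ := h
    have h1 : W 0 (x t) = 0 := by
      unfold W
      rw [if_neg]
      rintro ⟨h2, h3⟩
      exact hx h2 h3
    rw [Finset.prod_eq_zero (Finset.mem_univ t)]
    · exact zero_le
    · rw [h1, ENNReal.zero_rpow_of_pos ht]

/-- GOOD SIMPLEX. Proof (blueprint C4): otherwise apply `tr_pi` with `f t = W 0 * 1_{A t} / (e(P) XL(A t))`,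
`G l = psi l * 4 W 0 / e(P)`, `law`. -/
theorem good_simplex [Nonempty P] {T : ℕ} {Λ : Type} [Fintype Λ] (lam : Λ → Fin (T + 1) → ℝ)
    (hl0 : ∀ l t, 0 ≤ lam l t) (hl1 : ∀ l, ∑ t, lam l t = 1)
    (A : Fin (T + 1) → Set (P → ℝ)) (hA : ∀ t, MeasurableSet (A t))
    (hA4 : ∀ t, 1 / 4 ≤ (XL P).real (A t))
    (b : Fin (T + 1) → (P → ℝ) → ENNReal) (hb : ∀ t, Measurable (b t))
    (psi : Λ → (P → ℝ) → ENNReal) (hpsi : ∀ l, Measurable (psi l))
    (h : 4 * ∑ t, ∫⁻ x, b t x ∂(XL P) + 4 * ∑ l, ∫⁻ x, psi l x ∂(XL P) < 1) :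
    ∃ x : Fin (T + 1) → P → ℝ, (∀ t, x t ∈ A t) ∧
      ∑ t, b t (x t) + ∑ l, psi l (fun v => ∑ t, lam l t * x t v) < 1 := by
  classical
  by_contra hc
  push Not at hc
  set N : ENNReal := (Fintype.card (BFT.LE P) : ENNReal) with hN
  have hN0 : N ≠ 0 := by
    rw [hN]; exact_mod_cast (Fintype.card_pos (α := BFT.LE P)).ne'
  have hNt : N ≠ ⊤ := by rw [hN]; exact ENNReal.natCast_ne_top _
  have hWm : Measurable (fun x : P → ℝ => W 0 x) :=
    W_measurable.comp (measurable_const.prodMk measurable_id)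
  have hWg : ∀ g : (P → ℝ) → ENNReal, Measurable g → Measurable (fun x => W 0 x * g x) :=
    fun g hg => hWm.mul hg
  have hq : ∀ t, (1:ENNReal) / 4 ≤ (XL P) (A t) := by
    intro t
    have h1 := ENNReal.ofReal_le_ofReal (hA4 t)
    rw [Measure.real, ENNReal.ofReal_toReal (measure_ne_top _ _)] at h1
    refine le_trans ?_ h1
    rw [ENNReal.ofReal_div_of_pos (by norm_num)]
    simp
  have hq0 : ∀ t, (XL P) (A t) ≠ 0 := by
    intro t h0
    have := hq t
    rw [h0] at this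
    simp at this
  have hqt : ∀ t, (XL P) (A t) ≠ ⊤ := fun t => measure_ne_top _ _
  have hqi : ∀ t, ((XL P) (A t))⁻¹ ≤ 4 := by
    intro t
    rw [ENNReal.inv_le_iff_inv_le]
    have := hq t
    rwa [one_div] at this
  -- the density of `X` given `A t`
  let f : Fin (T + 1) → (P → ℝ) → ENNReal := fun t x =>
    (N * (XL P) (A t))⁻¹ * (W 0 x * (A t).indicator (fun _ => 1) x)
  let G : Λ → (P → ℝ) → ENNReal := fun l x => 4 * N⁻¹ * (W 0 x * psi l x)
  have hind : ∀ t, Measurable ((A t).indicator (fun _ : P → ℝ => (1:ENNReal))) := fun t =>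
    measurable_const.indicator (hA t)
  have hf : ∀ t, Measurable (f t) := fun t => (hWg _ (hind t)).const_mul _
  have hG : ∀ l, Measurable (G l) := fun l => (hWg _ (hpsi l)).const_mul _
  have hf1 : ∀ t, ∫⁻ x, f t x = 1 := by
    intro t
    show ∫⁻ x, (N * (XL P) (A t))⁻¹ * (W 0 x * (A t).indicator (fun _ => 1) x) = 1
    rw [lintegral_const_mul _ (hWg _ (hind t)), ← law _ (hind t), lintegral_indicator (hA t)]
    simp only [lintegral_const, one_mul, Measure.restrict_apply, MeasurableSet.univ,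
      Set.univ_inter]
    exact ENNReal.inv_mul_cancel (mul_ne_zero hN0 (hq0 t)) (ENNReal.mul_ne_top hNt (hqt t))
  have hf4 : ∀ t x, f t x ≤ 4 * N⁻¹ * W 0 x := by
    intro t x
    show (N * (XL P) (A t))⁻¹ * (W 0 x * (A t).indicator (fun _ => 1) x) ≤ 4 * N⁻¹ * W 0 x
    rw [ENNReal.mul_inv (Or.inl hN0) (Or.inl hNt)]
    have h1 : W 0 x * (A t).indicator (fun _ => 1) x ≤ W 0 x := by
      refine mul_le_of_le_one_right' ?_
      by_cases hx : x ∈ A t
      · rw [Set.indicator_of_mem hx]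
      · rw [Set.indicator_of_notMem hx]; exact zero_le
    calc N⁻¹ * ((XL P) (A t))⁻¹ * (W 0 x * (A t).indicator (fun _ => 1) x)
        ≤ N⁻¹ * 4 * W 0 x := mul_le_mul' (mul_le_mul' le_rfl (hqi t)) h1
      _ = 4 * N⁻¹ * W 0 x := by ring
  have key := tr_pi P lam hl0 hl1 f b hf hb hf1 G hG ?_
  · have h1 : ∀ t, ∫⁻ x, b t x * f t x ≤ 4 * ∫⁻ x, b t x ∂(XL P) := by
      intro t
      calc ∫⁻ x, b t x * f t x ≤ ∫⁻ x, 4 * N⁻¹ * (W 0 x * b t x) := by
            apply lintegral_mono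
            intro x
            calc b t x * f t x ≤ b t x * (4 * N⁻¹ * W 0 x) := mul_le_mul' le_rfl (hf4 t x)
              _ = 4 * N⁻¹ * (W 0 x * b t x) := by ring
        _ = 4 * N⁻¹ * (N * ∫⁻ x, b t x ∂(XL P)) := by
            rw [lintegral_const_mul _ (hWg _ (hb t)), ← law _ (hb t)]
        _ = 4 * (N⁻¹ * N) * ∫⁻ x, b t x ∂(XL P) := by ring
        _ = 4 * ∫⁻ x, b t x ∂(XL P) := by rw [ENNReal.inv_mul_cancel hN0 hNt, mul_one]
    have h2 : ∀ l, ∫⁻ x, G l x = 4 * ∫⁻ x, psi l x ∂(XL P) := by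
      intro l
      calc ∫⁻ x, G l x = 4 * N⁻¹ * (N * ∫⁻ x, psi l x ∂(XL P)) := by
            show ∫⁻ x, 4 * N⁻¹ * (W 0 x * psi l x) = _
            rw [lintegral_const_mul _ (hWg _ (hpsi l)), ← law _ (hpsi l)]
        _ = 4 * (N⁻¹ * N) * ∫⁻ x, psi l x ∂(XL P) := by ring
        _ = 4 * ∫⁻ x, psi l x ∂(XL P) := by rw [ENNReal.inv_mul_cancel hN0 hNt, mul_one]
    have h3 : (∑ t, ∫⁻ x, b t x * f t x) + ∑ l, ∫⁻ x, G l x ≤
        4 * ∑ t, ∫⁻ x, b t x ∂(XL P) + 4 * ∑ l, ∫⁻ x, psi l x ∂(XL P) := by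
      rw [Finset.mul_sum, Finset.mul_sum]
      exact add_le_add (Finset.sum_le_sum fun t _ => h1 t)
        (Finset.sum_le_sum fun l _ => (h2 l).le)
    exact absurd (key.trans h3) (not_le.mpr h)
  · intro x hx
    have hxA : ∀ t, x t ∈ A t := by
      intro t
      by_contra hn
      have h1 := (hx t).1
      change 0 < (N * (XL P) (A t))⁻¹ * (W 0 (x t) * (A t).indicator (fun _ => 1) (x t)) at h1
      rw [Set.indicator_of_notMem hn, mul_zero, mul_zero] at h1
      exact lt_irrefl _ h1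
    refine (hc x hxA).trans ?_
    refine add_le_add le_rfl (Finset.sum_le_sum fun l _ => ?_)
    set z : P → ℝ := fun v => ∑ t, lam l t * x t v with hz
    set a : ENNReal := ∏ t, (f t (x t)) ^ (lam l t) with ha
    have ha0 : a ≠ 0 := by
      rw [ha, Finset.prod_ne_zero_iff]
      intro t _
      rw [ne_eq, ENNReal.rpow_eq_zero_iff]
      rintro (⟨h1, -⟩ | ⟨h1, -⟩)
      · exact (hx t).1.ne' h1
      · exact (hx t).2.ne h1
    have hat : a ≠ ⊤ := by
      rw [ha]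
      apply ENNReal.prod_ne_top
      intro t _
      exact ENNReal.rpow_ne_top_of_nonneg (hl0 l t) (hx t).2.ne
    have ha4 : a ≤ 4 * N⁻¹ * W 0 z := by
      have hc0 : (4 * N⁻¹ : ENNReal) ≠ 0 :=
        mul_ne_zero (by norm_num) (ENNReal.inv_ne_zero.mpr hNt)
      have hct : (4 * N⁻¹ : ENNReal) ≠ ⊤ :=
        ENNReal.mul_ne_top (by norm_num) (ENNReal.inv_ne_top.mpr hN0)
      calc a ≤ ∏ t, (4 * N⁻¹ * W 0 (x t)) ^ (lam l t) := by
            rw [ha]
            exact Finset.prod_le_prod' fun t _ => ENNReal.rpow_le_rpow (hf4 t (x t)) (hl0 l t)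
        _ = ∏ t, ((4 * N⁻¹) ^ (lam l t) * (W 0 (x t)) ^ (lam l t)) := by
            refine Finset.prod_congr rfl fun t _ => ?_
            rw [ENNReal.mul_rpow_of_nonneg _ _ (hl0 l t)]
        _ = (∏ t, (4 * N⁻¹ : ENNReal) ^ (lam l t)) * ∏ t, (W 0 (x t)) ^ (lam l t) :=
            Finset.prod_mul_distrib
        _ ≤ (∏ t, (4 * N⁻¹ : ENNReal) ^ (lam l t)) * W 0 z :=
            mul_le_mul' le_rfl (W_lc (lam l) (hl0 l) (hl1 l) x)
        _ = 4 * N⁻¹ * W 0 z := by
            congr 1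
            have h5 : ∀ s : Finset (Fin (T + 1)), ∏ t ∈ s, (4 * N⁻¹ : ENNReal) ^ (lam l t) =
                (4 * N⁻¹ : ENNReal) ^ (∑ t ∈ s, lam l t) := by
              intro s
              induction s using Finset.induction_on with
              | empty => simp
              | insert i s his ih =>
                rw [Finset.prod_insert his, Finset.sum_insert his, ih, ENNReal.rpow_add _ _ hc0 hct]
            rw [h5, hl1 l, ENNReal.rpow_one]
    calc psi l z = psi l z * (a * a⁻¹) := by rw [ENNReal.mul_inv_cancel ha0 hat, mul_one]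
      _ ≤ psi l z * (4 * N⁻¹ * W 0 z * a⁻¹) :=
          mul_le_mul' le_rfl (mul_le_mul' ha4 le_rfl)
      _ = G l z * a⁻¹ := by
          show _ = 4 * N⁻¹ * (W 0 z * psi l z) * a⁻¹
          ring

/-- the same with real valued functions -/
theorem good_simplex_real [Nonempty P] {T : ℕ} {Λ : Type} [Fintype Λ] (lam : Λ → Fin (T + 1) → ℝ)
    (hl0 : ∀ l t, 0 ≤ lam l t) (hl1 : ∀ l, ∑ t, lam l t = 1)
    (A : Fin (T + 1) → Set (P → ℝ)) (hA : ∀ t, MeasurableSet (A t))
    (hA4 : ∀ t, 1 / 4 ≤ (XL P).real (A t))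
    (b : (P → ℝ) → ℝ) (hb : Measurable b) (hb0 : ∀ x, 0 ≤ b x) (hbi : Integrable b (XL P))
    (psi : Λ → (P → ℝ) → ℝ) (hpsi : ∀ l, Measurable (psi l)) (hpsi0 : ∀ l x, 0 ≤ psi l x)
    (hpsii : ∀ l, Integrable (psi l) (XL P))
    (h : 4 * ((T + 1 : ℕ) * ∫ x, b x ∂(XL P)) + 4 * ∑ l, ∫ x, psi l x ∂(XL P) < 1) :
    ∃ x : Fin (T + 1) → P → ℝ, (∀ t, x t ∈ A t) ∧
      ∑ t, b (x t) + ∑ l, psi l (fun v => ∑ t, lam l t * x t v) < 1 := by
  have e1 : ∫⁻ x, ENNReal.ofReal (b x) ∂(XL P) = ENNReal.ofReal (∫ x, b x ∂(XL P)) :=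
    (ofReal_integral_eq_lintegral_ofReal hbi (Filter.Eventually.of_forall hb0)).symm
  have e2 : ∀ l, ∫⁻ x, ENNReal.ofReal (psi l x) ∂(XL P) = ENNReal.ofReal (∫ x, psi l x ∂(XL P)) :=
    fun l => (ofReal_integral_eq_lintegral_ofReal (hpsii l)
      (Filter.Eventually.of_forall (hpsi0 l))).symm
  have i1 : 0 ≤ ∫ x, b x ∂(XL P) := integral_nonneg hb0
  have i2 : ∀ l, 0 ≤ ∫ x, psi l x ∂(XL P) := fun l => integral_nonneg (hpsi0 l)
  obtain ⟨x, hx, hlt⟩ := good_simplex lam hl0 hl1 A hA hA4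
    (fun _ x => ENNReal.ofReal (b x)) (fun _ => hb.ennreal_ofReal)
    (fun l x => ENNReal.ofReal (psi l x)) (fun l => (hpsi l).ennreal_ofReal) (by
      have e3 : 4 * ∑ _t : Fin (T + 1), ∫⁻ x, ENNReal.ofReal (b x) ∂(XL P) +
          4 * ∑ l, ∫⁻ x, ENNReal.ofReal (psi l x) ∂(XL P) =
          ENNReal.ofReal (4 * ((T + 1 : ℕ) * ∫ x, b x ∂(XL P)) +
            4 * ∑ l, ∫ x, psi l x ∂(XL P)) := by
        have hT : (0:ℝ) ≤ ((T + 1 : ℕ) : ℝ) := Nat.cast_nonneg _
        have h4 : (0:ℝ) ≤ 4 := by norm_num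
        rw [ENNReal.ofReal_add (mul_nonneg h4 (mul_nonneg hT i1))
          (mul_nonneg h4 (Finset.sum_nonneg fun l _ => i2 l)),
          ENNReal.ofReal_mul h4, ENNReal.ofReal_mul h4,
          ENNReal.ofReal_mul hT, ENNReal.ofReal_sum_of_nonneg fun l _ => i2 l,
          ENNReal.ofReal_natCast]
        simp only [e1, e2, Finset.sum_const, Finset.card_univ, Fintype.card_fin, nsmul_eq_mul]
        simp
      rw [e3, ← ENNReal.ofReal_one]
      exact (ENNReal.ofReal_lt_ofReal_iff one_pos).2 h)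
  refine ⟨x, hx, ?_⟩
  rw [← ENNReal.ofReal_sum_of_nonneg fun t _ => hb0 _,
    ← ENNReal.ofReal_sum_of_nonneg fun l _ => hpsi0 l _,
    ← ENNReal.ofReal_add (Finset.sum_nonneg fun t _ => hb0 _)
      (Finset.sum_nonneg fun l _ => hpsi0 l _), ← ENNReal.ofReal_one] at hlt
  exact (ENNReal.ofReal_lt_ofReal_iff one_pos).1 hlt

end Pool.Agent.Half
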