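import Pool.Agent.Lib_MP_33fb9b_half.DetFar
import Pool.Agent.Lib_MP_33fb9b_half.DetMom
import Pool.Agent.Lib_MP_33fb9b_half.Expect
import Pool.Agent.Lib_MP_33fb9b_half.LlnWd
import Pool.Agent.Lib_MP_33fb9b_half.TrXL
import Pool.Agent.Lib_MP_33fb9b_half.Homog

set_option autoImplicit false

/-!
# K28: no configuration at large scale (blueprint C9, C10)
-/

namespace Pool.Agent.Half

open Pool.Agent.BFT MeasureTheory Finset

/-- a bump function -/
theorem bump (τ : ℝ) (hτ : 0 < τ) : ∃ g : ℝ → ℝ, Test g ∧ (∀ y, 0 ≤ g y) ∧ (∀ y, g y ≤ 1) ∧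
    (∀ y, |y| ≤ τ / 16 → g y = 1) ∧ (∀ y, τ / 8 ≤ |y| → g y = 0) := by
  let f : ContDiffBump (0 : ℝ) := ⟨τ / 16, τ / 8, by linarith, by linarith⟩
  refine ⟨f, ⟨f.contDiff, f.hasCompactSupport⟩, fun y => f.nonneg, fun y => f.le_one, ?_, ?_⟩
  · intro y hy
    apply f.one_of_mem_closedBall
    rw [Metric.mem_closedBall, Real.dist_eq, sub_zero]
    exact hy
  · intro y hy
    apply f.zero_of_le_dist
    rw [Real.dist_eq, sub_zero]
    exact hy

/-- the targets have probability at least `1/4` for suitable medians (`sp_median`) -/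
theorem tgt_prob {gam K : ℝ} {R : ℕ} {p : Par gam K R} {y0 : ℝ} {P : Type} [Fintype P]
    [PartialOrder P] {S : ℝ} (C : Cfg p y0 P S) :
    ∃ m0 : P → ℝ, ∀ t, MeasurableSet (C.tgt m0 t) ∧ 1 / 4 ≤ (XL P).real (C.tgt m0 t) := by
  have hS : 0 < S := by have := C.hS; have := C.hK; linarith
  have hc := p.c_pos
  have key : ∀ j : P, ∃ m : ℝ, 0 < sp C.a j →
      (1 / 4 ≤ (XL P).real {x : P → ℝ | m + sp C.a j / 400 ≤ x j - x C.a} ∧
      1 / 4 ≤ (XL P).real {x : P → ℝ | x j - x C.a ≤ m - sp C.a j / 400}) := by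
    intro j
    by_cases h : 0 < sp C.a j
    · obtain ⟨m, _, _, h3, h4, _⟩ := sp_median C.a j h
      exact ⟨m, fun _ => ⟨h3, h4⟩⟩
    · exact ⟨0, fun h' => absurd h' h⟩
  choose m0 hm0 using key
  refine ⟨m0, ?_⟩
  have huniv : MeasurableSet (Set.univ : Set (P → ℝ)) ∧ 1 / 4 ≤ (XL P).real Set.univ := by
    refine ⟨MeasurableSet.univ, ?_⟩
    rw [probReal_univ]; norm_num
  intro t
  refine Fin.cases ?_ (fun t => ?_) t
  · exact huniv
  · unfold Cfg.tgt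
    simp only [Fin.cases_succ]
    split_ifs with h1 h2
    · have hsp : 0 < sp C.a (C.e t).1 := lt_of_lt_of_le (mul_pos hc hS) h1
      refine ⟨measurableSet_le measurable_const
        ((measurable_pi_apply (C.e t).1).sub (measurable_pi_apply C.a)), ?_⟩
      refine le_trans (hm0 _ hsp).1 (measureReal_mono ?_ (measure_ne_top _ _))
      intro x hx
      have hx' : m0 (C.e t).1 + sp C.a (C.e t).1 / 400 ≤ x (C.e t).1 - x C.a := hx
      show m0 (C.e t).1 + p.c / 400 * S ≤ x (C.e t).1 - x C.a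
      linarith
    · have hsp : 0 < sp C.a (C.e t).1 := lt_of_lt_of_le (mul_pos hc hS) h1
      refine ⟨measurableSet_le
        ((measurable_pi_apply (C.e t).1).sub (measurable_pi_apply C.a)) measurable_const, ?_⟩
      refine le_trans (hm0 _ hsp).2 (measureReal_mono ?_ (measure_ne_top _ _))
      intro x hx
      have hx' : x (C.e t).1 - x C.a ≤ m0 (C.e t).1 - sp C.a (C.e t).1 / 400 := hx
      show x (C.e t).1 - x C.a ≤ m0 (C.e t).1 - p.c / 400 * S
      linarith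
    · exact huniv

/-- CORE. `homog` with `T = p.T`, `c = cH`, `C = CH`, `ε = pp/16`, `g = bump`, `η = π/ell`, `N`; `lln_wide` for the
finitely many test functions with `ε' = δ/(16(|F|+1))`; `good_simplex_real` with `Λ = F`,
`lam q = Fin.cases (1 - ∑ q.2) q.2`, `b = bad`, `psi q = |..|/δ`; `det_near`, `det_far`, `det_moment`. -/
theorem core {gam K : ℝ} {R : ℕ} (p : Par gam K R) (hK : 1 ≤ K) (hR : 1 ≤ R) (y0 : ℝ) :
    ∃ S0 B : ℝ, ∀ (P : Type) [Fintype P] [PartialOrder P] (S : ℝ) (C : Cfg p y0 P S), S0 ≤ S →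
      (∀ σ : BFT.LE P, B * S + 1 ≤ pos σ C.a ∧ (pos σ C.a : ℝ) + B * S + 2 ≤ Fintype.card P) →
      False := by
  classical
  have hT : 1 ≤ p.T := by
    unfold Par.T
    have : 1 ≤ R ^ p.k1 := Nat.one_le_pow _ _ hR
    omega
  have hTr : (1 : ℝ) ≤ p.T := by exact_mod_cast hT
  have hRr : (0 : ℝ) < R := by exact_mod_cast hR
  have hpp : 0 < p.pp := by
    unfold Par.pp
    positivity
  have hcH : 0 < Cfg.cH K p.T := by
    unfold Cfg.cH
    have : 0 < K := by linarith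
    positivity
  obtain ⟨g, hgT, hg0, hg1, hga, hgs⟩ := bump p.tau p.tau_pos
  obtain ⟨δ, F, hδ, hF, hmain⟩ := homog p.T (Cfg.cH K p.T) (Cfg.CH K p.T) (p.pp / 16) hcH
    (by positivity) g hgT y0 (Real.pi / p.ell) p.N
  set ε' : ℝ := δ / (16 * ((F.card : ℝ) + 1)) with hε'
  have hε'0 : 0 < ε' := by positivity
  have hq : ∀ q : {q // q ∈ F}, ∃ S0 B : ℝ, ∀ (gam : ℝ) (R : ℕ) (p : Par gam K R) (y0 : ℝ) (P : Type)
      [Fintype P] [PartialOrder P] (S : ℝ) (C : Cfg p y0 P S), S0 ≤ S →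
      (∀ σ : BFT.LE P, B * S + 1 ≤ pos σ C.a ∧ (pos σ C.a : ℝ) + B * S + 2 ≤ Fintype.card P) →
      Integrable (fun x : P → ℝ => |S⁻¹ * ∑ v ∈ C.Wd, q.1.1 ((x v - x C.a) / S) - ∫ y, q.1.1 y|)
        (XL P) ∧
      ∫ x, |S⁻¹ * ∑ v ∈ C.Wd, q.1.1 ((x v - x C.a) / S) - ∫ y, q.1.1 y| ∂(XL P) ≤ ε' :=
    fun q => lln_wide K hK q.1.1 (hF q.1 q.2).1 ε' hε'0
  choose Sq Bq hSB using hq
  refine ⟨∑ q, |Sq q| + p.ell, ∑ q, |Bq q|, ?_⟩
  intro P _ _ S C hS hpad
  have hS0 : 0 < S := by have := C.hS; have := C.hK; linarith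
  have hell : p.ell ≤ S := by
    have : 0 ≤ ∑ q, |Sq q| := Finset.sum_nonneg fun _ _ => abs_nonneg _
    linarith
  have hSq : ∀ q, Sq q ≤ S := by
    intro q
    have h1 : |Sq q| ≤ ∑ q, |Sq q| :=
      Finset.single_le_sum (f := fun q => |Sq q|) (fun _ _ => abs_nonneg _) (Finset.mem_univ q)
    have h2 := le_abs_self (Sq q)
    have h3 := p.ell_ge
    linarith
  have hBq : ∀ q, Bq q ≤ ∑ q, |Bq q| := by
    intro q
    have h1 : |Bq q| ≤ ∑ q, |Bq q| :=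
      Finset.single_le_sum (f := fun q => |Bq q|) (fun _ _ => abs_nonneg _) (Finset.mem_univ q)
    exact (le_abs_self (Bq q)).trans h1
  have hlln := fun q => hSB q gam R p y0 P S C (hSq q) (by
    intro σ
    have h1 := hpad σ
    have h2 : Bq q * S ≤ (∑ q, |Bq q|) * S := mul_le_mul_of_nonneg_right (hBq q) hS0.le
    exact ⟨by linarith [h1.1], by linarith [h1.2]⟩)
  have : Nonempty P := ⟨C.a⟩
  obtain ⟨m0, hm0⟩ := tgt_prob C
  -- the simplex
  let lam : {q // q ∈ F} → Fin (p.T + 1) → ℝ := fun q t =>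
    Fin.cases (motive := fun _ => ℝ) (1 - ∑ s, q.1.2 s) (fun s => q.1.2 s) t
  have hl0 : ∀ l t, 0 ≤ lam l t := by
    intro l t
    refine Fin.cases ?_ (fun s => ?_) t
    · show 0 ≤ 1 - ∑ s, l.1.2 s
      have := (hF l.1 l.2).2.2
      linarith
    · exact (hF l.1 l.2).2.1 s
  have hl1 : ∀ l, ∑ t, lam l t = 1 := by
    intro l
    rw [Fin.sum_univ_succ]
    show (1 - ∑ s, l.1.2 s) + ∑ s : Fin p.T, l.1.2 s = 1
    ring
  let psi : {q // q ∈ F} → (P → ℝ) → ℝ := fun q x =>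
    |S⁻¹ * ∑ v ∈ C.Wd, q.1.1 ((x v - x C.a) / S) - ∫ y, q.1.1 y| / δ
  have hpsim : ∀ q, Measurable (psi q) := by
    intro q
    have hφ : Measurable q.1.1 := (hF q.1 q.2).1.1.continuous.measurable
    refine Measurable.div_const ?_ _
    refine Measurable.abs ?_
    refine Measurable.sub_const ?_ _
    refine Measurable.const_mul ?_ _
    refine Finset.measurable_sum _ fun v _ => ?_
    exact hφ.comp (((measurable_pi_apply v).sub (measurable_pi_apply C.a)).div_const _)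
  have hpsi0 : ∀ q x, 0 ≤ psi q x := fun q x => div_nonneg (abs_nonneg _) hδ.le
  have hpsii : ∀ q, Integrable (psi q) (XL P) := fun q => (hlln q).1.div_const _
  have hpsiE : ∀ q, ∫ x, psi q x ∂(XL P) ≤ ε' / δ := by
    intro q
    show ∫ x, |S⁻¹ * ∑ v ∈ C.Wd, q.1.1 ((x v - x C.a) / S) - ∫ y, q.1.1 y| / δ ∂(XL P) ≤ ε' / δ
    rw [integral_div]
    exact div_le_div_of_nonneg_right (hlln q).2 hδ.le
  have hbad := C.bad_le hell
  have hsumpsi : 4 * ∑ q, ∫ x, psi q x ∂(XL P) ≤ 1 / 4 := by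
    have h1 : ∑ q : {q // q ∈ F}, ∫ x, psi q x ∂(XL P) ≤ ∑ q : {q // q ∈ F}, ε' / δ :=
      Finset.sum_le_sum fun q _ => hpsiE q
    rw [Finset.sum_const, Finset.card_univ, Fintype.card_coe, nsmul_eq_mul] at h1
    have h2 : (F.card : ℝ) * (ε' / δ) ≤ 1 / 16 := by
      rw [hε']
      have h3 : δ / (16 * ((F.card : ℝ) + 1)) / δ = 1 / (16 * ((F.card : ℝ) + 1)) := by
        field_simp
      rw [h3, mul_one_div, div_le_div_iff₀ (by positivity) (by norm_num)]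
      have : (0 : ℝ) ≤ F.card := Nat.cast_nonneg _
      linarith
    linarith
  obtain ⟨x, hx, hxs⟩ := good_simplex_real lam hl0 hl1 (C.tgt m0) (fun t => (hm0 t).1)
    (fun t => (hm0 t).2) C.bad C.bad_meas C.bad_nonneg hbad.1 psi hpsim hpsi0 hpsii (by
      have := hbad.2
      linarith)
  have hx1 : ∀ t, C.bad (x t) < 1 := by
    intro t
    have h1 : C.bad (x t) ≤ ∑ t, C.bad (x t) :=
      Finset.single_le_sum (f := fun t => C.bad (x t)) (fun _ _ => C.bad_nonneg _)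
        (Finset.mem_univ t)
    have h2 : 0 ≤ ∑ l, psi l (fun v => ∑ t, lam l t * x t v) :=
      Finset.sum_nonneg fun _ _ => hpsi0 _ _
    linarith
  have hx2 : ∀ q, psi q (fun v => ∑ t, lam q t * x t v) < 1 := by
    intro q
    have h1 : psi q (fun v => ∑ t, lam q t * x t v) ≤
        ∑ l, psi l (fun v => ∑ t, lam l t * x t v) :=
      Finset.single_le_sum (f := fun l => psi l (fun v => ∑ t, lam l t * x t v))
        (fun _ _ => hpsi0 _ _) (Finset.mem_univ q)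
    have h2 : 0 ≤ ∑ t, C.bad (x t) := Finset.sum_nonneg fun _ _ => C.bad_nonneg _
    linarith
  have hcomb : ∀ (q : {q // q ∈ F}) (v : P),
      ((∑ t, lam q t * x t v) - ∑ t, lam q t * x t C.a) / S = C.H x v + dt q.1.2 (C.V x v) := by
    intro q v
    rw [Fin.sum_univ_succ, Fin.sum_univ_succ (fun t => lam q t * x t C.a)]
    show ((1 - ∑ s, q.1.2 s) * x 0 v + ∑ s : Fin p.T, q.1.2 s * x s.succ v -
      ((1 - ∑ s, q.1.2 s) * x 0 C.a + ∑ s : Fin p.T, q.1.2 s * x s.succ C.a)) / S = _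
    unfold Cfg.H dt Cfg.V
    have h1 : ∑ t, q.1.2 t * ((x t.succ v - x t.succ C.a - (x 0 v - x 0 C.a)) / S) =
        (∑ s : Fin p.T, q.1.2 s * x s.succ v - ∑ s : Fin p.T, q.1.2 s * x s.succ C.a -
          (∑ s, q.1.2 s) * (x 0 v - x 0 C.a)) / S := by
      rw [Finset.sum_mul, ← Finset.sum_sub_distrib, ← Finset.sum_sub_distrib, Finset.sum_div]
      refine Finset.sum_congr rfl fun s _ => ?_
      ring
    rw [h1]
    ring
  have hi : ∀ q ∈ F, |S⁻¹ * ∑ v ∈ C.Wd, q.1 (C.H x v + dt q.2 (C.V x v)) - ∫ y, q.1 y| ≤ δ := by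
    intro q hqF
    have h1 := hx2 ⟨q, hqF⟩
    have h2 : |S⁻¹ * ∑ v ∈ C.Wd, q.1 (C.H x v + dt q.2 (C.V x v)) - ∫ y, q.1 y| / δ < 1 := by
      have h3 : psi ⟨q, hqF⟩ (fun v => ∑ t, lam ⟨q, hqF⟩ t * x t v) =
          |S⁻¹ * ∑ v ∈ C.Wd, q.1 (C.H x v + dt q.2 (C.V x v)) - ∫ y, q.1 y| / δ := by
        show |S⁻¹ * ∑ v ∈ C.Wd, q.1 (((∑ t, lam ⟨q, hqF⟩ t * x t v) -
          ∑ t, lam ⟨q, hqF⟩ t * x t C.a) / S) - ∫ y, q.1 y| / δ = _
        have h4 : ∀ v ∈ C.Wd, q.1 (((∑ t, lam ⟨q, hqF⟩ t * x t v) -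
          ∑ t, lam ⟨q, hqF⟩ t * x t C.a) / S) = q.1 (C.H x v + dt q.2 (C.V x v)) := by
          intro v _
          rw [hcomb ⟨q, hqF⟩ v]
        rw [Finset.sum_congr rfl h4]
      rw [← h3]
      exact h1
    rw [div_lt_one hδ] at h2
    exact h2.le
  have hfin := hmain P C.Wd (C.H x) (C.V x) S⁻¹ (inv_nonneg.mpr hS0.le) hi (C.det_moment x hx1)
  have hn := C.det_near x hx1 g hg0 hga
  have hf := C.det_far m0 x hx hx1 C.card_Wn g hg0 hg1 hgs
  have := (abs_le.mp hfin).2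
  linarith

end Pool.Agent.Half
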