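import Mathlib
import Pool.Agent.Lib_MP_33fb9b_bft.Cont

set_option autoImplicit false

/-!
# H19: basic definitions (see `Blueprint.md`)
-/

namespace Pool.Agent.Half

open Pool.Agent.BFT MeasureTheory

section

variable {P : Type} [Fintype P] [PartialOrder P]

/-- mean distance `E |pos u - pos v|` -/
noncomputable def ds (u v : P) : ℝ := Ex (fun σ : BFT.LE P => |(pos σ u : ℝ) - pos σ v|)

/-- spread of `X_v - X_u` in the continuous model: mean absolute deviation -/
noncomputable def sp (u v : P) : ℝ := ∫ x, |x v - x u - (ht v - ht u)| ∂(XL P)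

end

/-- every pair is `d`-unbalanced -/
def Unb (P : Type) [Fintype P] [PartialOrder P] (d : ℝ) : Prop :=
  ∀ u v : P, u ≠ v → min (BFT.lt u v) (BFT.lt v u) ≤ d

/-- entangled pairs are at mean distance at most `S` -/
def Ent (P : Type) [Fintype P] [PartialOrder P] (S : ℝ) : Prop :=
  ∀ u v : P, u ≠ v → 1 / 4 ≤ BFT.lt u v → 1 / 4 ≤ BFT.lt v u → ds u v ≤ S

/-- a real random variable with log-concave distribution and survival functions -/
structure LcRV {Ω : Type} [MeasurableSpace Ω] (μ : Measure Ω) (D : Ω → ℝ) : Prop where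
  meas : Measurable D
  int : Integrable D μ
  F : ∀ s h : ℝ, 0 ≤ h →
    μ.real {x | D x < s - h} * μ.real {x | D x < s + h} ≤ (μ.real {x | D x < s}) ^ 2
  G : ∀ s h : ℝ, 0 ≤ h →
    μ.real {x | s + h < D x} * μ.real {x | s - h < D x} ≤ (μ.real {x | s < D x}) ^ 2

end Pool.Agent.Half
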