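import Pool.Agent.Lib_MP_33fb9b_half.HomC

set_option autoImplicit false

/-!
# K15: homogeneity lemma, step (d): translation invariance for trigonometric polynomials
-/

namespace Pool.Agent.Half

open MeasureTheory

/-- the trigonometric polynomial `∏_t ((1 + cos (η k_t))/2)^N` -/
noncomputable def trig {T : ℕ} (η : ℝ) (N : ℕ) (k : Fin T → ℝ) : ℝ :=
  ∏ t, ((1 + Real.cos (η * k t)) / 2) ^ N

private theorem HomD_exists_bound (g : ℝ → ℝ) (hg : HasCompactSupport g) :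
    ∃ B : ℝ, 0 ≤ B ∧ ∀ y, B < |y| → g y = 0 := by
  obtain ⟨R, hR⟩ := hg.isCompact.isBounded.subset_closedBall (0 : ℝ)
  refine ⟨max R 0, le_max_right _ _, fun y hy => ?_⟩
  by_contra h
  have h1 : y ∈ tsupport g := subset_tsupport g h
  have h2 := hR h1
  rw [Metric.mem_closedBall, dist_zero_right, Real.norm_eq_abs] at h2
  exact absurd (h2.trans (le_max_left _ _)) (not_le.2 hy)

/-- `g - g(· - y0)` is the derivative of a test function -/
theorem test_shift (g : ℝ → ℝ) (hg : Test g) (y0 : ℝ) :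
    ∃ G : ℝ → ℝ, Test G ∧ ∀ y, deriv G y = g y - g (y - y0) := by
  obtain ⟨hs, hc⟩ := hg
  have hcont : Continuous g := hs.continuous
  have hder : ∀ y, HasDerivAt (fun y => ∫ s in (y - y0)..y, g s) (g y - g (y - y0)) y := by
    intro y
    have e : (fun y => ∫ s in (y - y0)..y, g s) =
        fun y => (∫ s in (0 : ℝ)..y, g s) - ∫ s in (0 : ℝ)..(y - y0), g s := by
      funext y
      rw [← intervalIntegral.integral_interval_sub_left (hcont.intervalIntegrable _ _)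
        (hcont.intervalIntegrable _ _)]
    rw [e]
    have h1 : HasDerivAt (fun u => ∫ s in (0 : ℝ)..u, g s) (g y) y :=
      (hcont.integral_hasStrictDerivAt 0 y).hasDerivAt
    have h2 : HasDerivAt (fun u => ∫ s in (0 : ℝ)..u, g s) (g (y - y0)) (y - y0) :=
      (hcont.integral_hasStrictDerivAt 0 (y - y0)).hasDerivAt
    have h3 : HasDerivAt (fun u : ℝ => u - y0) 1 y := (hasDerivAt_id y).sub_const y0
    have h4 := h2.comp y h3
    rw [mul_one] at h4
    exact h1.sub h4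
  have hd : deriv (fun y => ∫ s in (y - y0)..y, g s) = fun y => g y - g (y - y0) :=
    funext fun y => (hder y).deriv
  refine ⟨fun y => ∫ s in (y - y0)..y, g s, ⟨?_, ?_⟩, fun y => (hder y).deriv⟩
  · rw [contDiff_infty_iff_deriv, hd]
    refine ⟨fun y => (hder y).differentiableAt, ?_⟩
    exact hs.sub (hs.comp (contDiff_id.sub contDiff_const))
  · obtain ⟨B, hB0, hB⟩ := HomD_exists_bound g hc
    refine HasCompactSupport.intro (isCompact_Icc (a := -(B + |y0|)) (b := B + |y0|)) ?_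
    intro y hy
    have hy' : B + |y0| < |y| := by
      rw [Set.mem_Icc, not_and_or] at hy
      rcases hy with h | h
      · rw [lt_abs]; right; linarith [not_le.1 h]
      · rw [lt_abs]; left; exact not_le.1 h
    have habs := abs_le.1 (le_refl |y0|)
    refine (intervalIntegral.integral_congr (g := fun _ => (0 : ℝ)) ?_).trans
      intervalIntegral.integral_zero
    intro s hsm
    refine hB s ?_
    rcases le_total 0 y with h0 | h0
    · rw [abs_of_nonneg h0] at hy'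
      rw [Set.mem_uIcc] at hsm
      rw [lt_abs]; left
      rcases hsm with h | h <;> linarith [h.1, h.2]
    · rw [abs_of_nonpos h0] at hy'
      rw [Set.mem_uIcc] at hsm
      rw [lt_abs]; right
      rcases hsm with h | h <;> linarith [h.1, h.2]

private theorem HomD_wt_pos (y : ℝ) : 0 < wt y := by
  unfold wt
  have : 0 < 1 + |y| := by positivity
  have : 0 < Real.sqrt (1 + |y|) := Real.sqrt_pos.2 this
  positivity

private theorem HomD_wt_le_om {T : ℕ} {c : ℝ} (hc : 0 < c) (z : ℝ × (Fin T → ℝ)) :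
    wt z.1 ≤ om c z := by
  unfold om
  have h1 : 0 ≤ l1 z.2 := Finset.sum_nonneg fun t _ => abs_nonneg _
  have h2 : 1 ≤ Real.exp (c * l1 z.2) := Real.one_le_exp (by positivity)
  exact le_mul_of_one_le_right (HomD_wt_pos _).le h2

/-- a continuous function with compact support is bounded by a multiple of the weight -/
private theorem HomD_bound (g : ℝ → ℝ) (hcont : Continuous g) (hc : HasCompactSupport g) :
    ∃ A : ℝ, 0 ≤ A ∧ ∀ y, |g y| ≤ A * wt y := by
  have hcont2 : Continuous fun y => g y * (wt y)⁻¹ := by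
    unfold wt
    simp only [inv_inv]
    fun_prop
  have hsupp : HasCompactSupport fun y => g y * (wt y)⁻¹ := hc.mul_right
  obtain ⟨A, hA⟩ := hcont2.bounded_above_of_compact_support hsupp
  refine ⟨max A 0, le_max_right _ _, fun y => ?_⟩
  have h1 := hA y
  rw [norm_mul, Real.norm_eq_abs, Real.norm_eq_abs, abs_inv, abs_of_pos (HomD_wt_pos y),
    ← div_eq_mul_inv, div_le_iff₀ (HomD_wt_pos y)] at h1
  exact h1.trans (mul_le_mul_of_nonneg_right (le_max_left _ _) (HomD_wt_pos y).le)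

/-- the class of multipliers -/
private def HomD_good {T : ℕ} (L : (ℝ × (Fin T → ℝ) → ℂ) → ℂ) (h : ℝ → ℝ)
    (f : (Fin T → ℝ) → ℂ) : Prop :=
  (∃ B : ℝ, ∀ k, ‖f k‖ ≤ B) ∧ ∀ θ : Fin T → ℝ,
    L (fun z => ((h z.1 : ℝ) : ℂ) * (f z.2 * Complex.exp (Complex.I * (dt θ z.2 : ℝ)))) = 0

private theorem HomD_norm_exp {T : ℕ} (θ k : Fin T → ℝ) :
    ‖Complex.exp (Complex.I * (dt θ k : ℝ))‖ = 1 := by
  rw [mul_comm]
  exact Complex.norm_exp_ofReal_mul_I _

private theorem HomD_adm {T : ℕ} {c : ℝ} (hc : 0 < c) (h : ℝ → ℝ) (A : ℝ) (hA0 : 0 ≤ A)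
    (hA : ∀ y, |h y| ≤ A * wt y) (f : (Fin T → ℝ) → ℂ) (B : ℝ) (hB : ∀ k, ‖f k‖ ≤ B)
    (θ : Fin T → ℝ) :
    Adm c (fun z : ℝ × (Fin T → ℝ) =>
      ((h z.1 : ℝ) : ℂ) * (f z.2 * Complex.exp (Complex.I * (dt θ z.2 : ℝ)))) := by
  refine ⟨A * B, fun z => ?_⟩
  have hB0 : 0 ≤ B := (norm_nonneg _).trans (hB z.2)
  rw [norm_mul, norm_mul, HomD_norm_exp, mul_one, Complex.norm_real, Real.norm_eq_abs]
  calc |h z.1| * ‖f z.2‖ ≤ (A * wt z.1) * B :=
        mul_le_mul (hA _) (hB _) (norm_nonneg _) (mul_nonneg hA0 (HomD_wt_pos _).le)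
    _ = (A * B) * wt z.1 := by ring
    _ ≤ (A * B) * om c z := mul_le_mul_of_nonneg_left (HomD_wt_le_om hc z) (by positivity)

private theorem HomD_step {T : ℕ} {c C : ℝ} (hc : 0 < c) {L : (ℝ × (Fin T → ℝ) → ℂ) → ℂ}
    (hL : HomFun c C L) (h : ℝ → ℝ) (A : ℝ) (hA0 : 0 ≤ A) (hA : ∀ y, |h y| ≤ A * wt y)
    (η : ℝ) (t : Fin T) (f : (Fin T → ℝ) → ℂ) (hf : HomD_good L h f) :
    HomD_good L h (fun k => f k * (((1 + Real.cos (η * k t)) / 2 : ℝ) : ℂ)) := by
  classical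
  obtain ⟨⟨B, hB⟩, hf2⟩ := hf
  have hcb : ∀ x : ℝ, |(1 + Real.cos x) / 2| ≤ 1 := by
    intro x
    rw [abs_le]
    constructor <;> linarith [Real.neg_one_le_cos x, Real.cos_le_one x]
  refine ⟨⟨B, fun k => ?_⟩, fun θ => ?_⟩
  · rw [norm_mul, Complex.norm_real, Real.norm_eq_abs]
    have hB0 : 0 ≤ B := (norm_nonneg _).trans (hB k)
    calc ‖f k‖ * |(1 + Real.cos (η * k t)) / 2| ≤ B * 1 :=
          mul_le_mul (hB k) (hcb _) (abs_nonneg _) hB0
      _ = B := mul_one B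
  · set θ1 : Fin T → ℝ := fun s => θ s + if s = t then η else 0 with hθ1
    set θ2 : Fin T → ℝ := fun s => θ s + if s = t then -η else 0 with hθ2
    have d1 : ∀ k, dt θ1 k = dt θ k + η * k t := by
      intro k
      simp only [dt, hθ1, add_mul, Finset.sum_add_distrib, ite_mul, zero_mul,
        Finset.sum_ite_eq', Finset.mem_univ, if_true]
    have d2 : ∀ k, dt θ2 k = dt θ k - η * k t := by
      intro k
      simp only [dt, hθ2, add_mul, Finset.sum_add_distrib, ite_mul, zero_mul,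
        Finset.sum_ite_eq', Finset.mem_univ, if_true]
      ring
    set F0 : (Fin T → ℝ) → ℝ × (Fin T → ℝ) → ℂ := fun θ z =>
      ((h z.1 : ℝ) : ℂ) * (f z.2 * Complex.exp (Complex.I * (dt θ z.2 : ℝ))) with hF0
    have hadm : ∀ θ, Adm c (F0 θ) := fun θ => HomD_adm hc h A hA0 hA f B hB θ
    have hz : ∀ θ, L (F0 θ) = 0 := hf2
    have hadm2 : ∀ (a : ℂ) θ, Adm c (fun z => a * F0 θ z) := by
      intro a θ
      obtain ⟨A', hA'⟩ := hadm θ
      refine ⟨‖a‖ * A', fun z => ?_⟩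
      rw [norm_mul, mul_assoc]
      exact mul_le_mul_of_nonneg_left (hA' z) (norm_nonneg _)
    have hadm3 : Adm c (fun z => (1 / 4 : ℂ) * F0 θ1 z + (1 / 4 : ℂ) * F0 θ2 z) := by
      obtain ⟨A1, h1⟩ := hadm2 (1 / 4) θ1
      obtain ⟨A2, h2⟩ := hadm2 (1 / 4) θ2
      refine ⟨A1 + A2, fun z => ?_⟩
      rw [add_mul]
      exact (norm_add_le _ _).trans (add_le_add (h1 z) (h2 z))
    have e : (fun z : ℝ × (Fin T → ℝ) => ((h z.1 : ℝ) : ℂ) *
        ((f z.2 * (((1 + Real.cos (η * z.2 t)) / 2 : ℝ) : ℂ)) *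
          Complex.exp (Complex.I * (dt θ z.2 : ℝ)))) =
        fun z => (1 / 2 : ℂ) * F0 θ z + ((1 / 4 : ℂ) * F0 θ1 z + (1 / 4 : ℂ) * F0 θ2 z) := by
      funext z
      have hcos : (((1 + Real.cos (η * z.2 t)) / 2 : ℝ) : ℂ) =
          1 / 2 + (Complex.exp (Complex.I * ((η * z.2 t : ℝ) : ℂ)) +
            Complex.exp (-(Complex.I * ((η * z.2 t : ℝ) : ℂ)))) / 4 := by
        have h1 : ((Real.cos (η * z.2 t) : ℝ) : ℂ) =
            (Complex.exp (Complex.I * ((η * z.2 t : ℝ) : ℂ)) +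
            Complex.exp (-(Complex.I * ((η * z.2 t : ℝ) : ℂ)))) / 2 := by
          rw [Complex.ofReal_cos, Complex.cos, mul_comm Complex.I, neg_mul]
        rw [Complex.ofReal_div, Complex.ofReal_add, h1]
        push_cast
        ring
      have e1 : Complex.exp (Complex.I * ((dt θ1 z.2 : ℝ) : ℂ)) =
          Complex.exp (Complex.I * ((dt θ z.2 : ℝ) : ℂ)) *
            Complex.exp (Complex.I * ((η * z.2 t : ℝ) : ℂ)) := by
        rw [d1, ← Complex.exp_add]
        congr 1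
        push_cast
        ring
      have e2 : Complex.exp (Complex.I * ((dt θ2 z.2 : ℝ) : ℂ)) =
          Complex.exp (Complex.I * ((dt θ z.2 : ℝ) : ℂ)) *
            Complex.exp (-(Complex.I * ((η * z.2 t : ℝ) : ℂ))) := by
        rw [d2, ← Complex.exp_add]
        congr 1
        push_cast
        ring
      simp only [hF0]
      rw [hcos, e1, e2]
      ring
    change L (fun z : ℝ × (Fin T → ℝ) => ((h z.1 : ℝ) : ℂ) *
        ((f z.2 * (((1 + Real.cos (η * z.2 t)) / 2 : ℝ) : ℂ)) *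
          Complex.exp (Complex.I * (dt θ z.2 : ℝ)))) = 0
    rw [e, hL.add _ _ (hadm2 _ _) hadm3, hL.add _ _ (hadm2 _ _) (hadm2 _ _),
      hL.smul _ _ (hadm θ), hL.smul _ _ (hadm θ1), hL.smul _ _ (hadm θ2), hz, hz, hz]
    simp

private theorem HomD_pow {T : ℕ} {c C : ℝ} (hc : 0 < c) {L : (ℝ × (Fin T → ℝ) → ℂ) → ℂ}
    (hL : HomFun c C L) (h : ℝ → ℝ) (A : ℝ) (hA0 : 0 ≤ A) (hA : ∀ y, |h y| ≤ A * wt y)
    (η : ℝ) (t : Fin T) (N : ℕ) (f : (Fin T → ℝ) → ℂ) (hf : HomD_good L h f) :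
    HomD_good L h (fun k => f k * ((((1 + Real.cos (η * k t)) / 2) ^ N : ℝ) : ℂ)) := by
  induction N with
  | zero => simpa using hf
  | succ N ih =>
    have h1 := HomD_step hc hL h A hA0 hA η t _ ih
    have e : (fun k : Fin T → ℝ => f k * ((((1 + Real.cos (η * k t)) / 2) ^ (N + 1) : ℝ) : ℂ)) =
        fun k => f k * ((((1 + Real.cos (η * k t)) / 2) ^ N : ℝ) : ℂ) *
          (((1 + Real.cos (η * k t)) / 2 : ℝ) : ℂ) := by
      funext k
      rw [pow_succ]
      push_cast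
      ring
    rw [e]
    exact h1

private theorem HomD_prod {T : ℕ} {c C : ℝ} (hc : 0 < c) {L : (ℝ × (Fin T → ℝ) → ℂ) → ℂ}
    (hL : HomFun c C L) (h : ℝ → ℝ) (A : ℝ) (hA0 : 0 ≤ A) (hA : ∀ y, |h y| ≤ A * wt y)
    (η : ℝ) (N : ℕ) (h1 : HomD_good L h (fun _ => 1)) (s : Finset (Fin T)) :
    HomD_good L h (fun k => ((∏ t ∈ s, ((1 + Real.cos (η * k t)) / 2) ^ N : ℝ) : ℂ)) := by
  classical
  induction s using Finset.induction_on with
  | empty => simpa using h1
  | insert t s ht ih =>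
    have h2 := HomD_pow hc hL h A hA0 hA η t N _ ih
    have e : (fun k : Fin T → ℝ =>
        ((∏ t ∈ insert t s, ((1 + Real.cos (η * k t)) / 2) ^ N : ℝ) : ℂ)) =
        fun k => ((∏ t ∈ s, ((1 + Real.cos (η * k t)) / 2) ^ N : ℝ) : ℂ) *
          ((((1 + Real.cos (η * k t)) / 2) ^ N : ℝ) : ℂ) := by
      funext k
      rw [Finset.prod_insert ht, mul_comm, Complex.ofReal_mul]
    rw [e]
    exact h2

/-- (d). Proof: `trig` is a finite linear combination of `exp (i θ·k)` (induction over the factors: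
`(1 + cos x)/2 = 1/2 + exp(ix)/4 + exp(-ix)/4`), `hom_c`. -/
theorem hom_d {T : ℕ} {c C : ℝ} (hc : 0 < c) {L : (ℝ × (Fin T → ℝ) → ℂ) → ℂ} (hL : HomFun c C L)
    (g : ℝ → ℝ) (hg : Test g) (y0 η : ℝ) (N : ℕ) :
    L (fun z => (((g z.1 - g (z.1 - y0)) * trig η N z.2 : ℝ) : ℂ)) = 0 := by
  obtain ⟨G, hG, hG'⟩ := test_shift g hg y0
  have hcontd : Continuous (deriv G) := hG.1.continuous_deriv (by simp)
  obtain ⟨A, hA0, hA⟩ := HomD_bound (deriv G) hcontd hG.2.deriv
  have h1 : HomD_good L (deriv G) (fun _ : Fin T → ℝ => 1) := by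
    refine ⟨⟨1, fun k => by simp⟩, fun θ => ?_⟩
    have := hom_c hc hL G hG θ
    simpa using this
  have h2 := (HomD_prod hc hL (deriv G) A hA0 hA η N h1 Finset.univ).2 0
  have e : (fun z : ℝ × (Fin T → ℝ) => (((g z.1 - g (z.1 - y0)) * trig η N z.2 : ℝ) : ℂ)) =
      fun z => ((deriv G z.1 : ℝ) : ℂ) *
        (((∏ t, ((1 + Real.cos (η * z.2 t)) / 2) ^ N : ℝ) : ℂ) *
          Complex.exp (Complex.I * (dt (0 : Fin T → ℝ) z.2 : ℝ))) := by
    funext z
    have h3 : dt (0 : Fin T → ℝ) z.2 = 0 := by simp [dt]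
    rw [h3, ← hG', Complex.ofReal_zero, mul_zero, Complex.exp_zero, mul_one,
      ← Complex.ofReal_mul]
    rfl
  rw [e]
  exact h2

end Pool.Agent.Half
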