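import Pool.Agent.Lib_MP_33fb9b_half.Cfg
import Pool.Agent.Lib_MP_33fb9b_half.HomD

set_option autoImplicit false

/-!
# K27a: the deterministic part (blueprint C10)

`x t`, `t = 0, .., T`, is a good simplex; `H v` is the position of `v` relative to `a` at `t = 0`,
`V v t` its displacement relative to `a` between `0` and `t + 1` (in units of `S`).
-/

namespace Pool.Agent.Half

open Pool.Agent.BFT MeasureTheory Finset

/-- product of factors close to `1`: `(1+cos z)/2 ≥ 1 - z^2/4`, Bernoulli -/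
theorem trig_ge {T : ℕ} (η xi : ℝ) (N : ℕ) (k : Fin T → ℝ) (hη : 0 ≤ η) (hk : ∀ t, |k t| ≤ xi)
    (h : (N : ℝ) * T * (η * xi) ^ 2 ≤ 2) : 1 / 2 ≤ trig η N k := by
  unfold trig
  by_cases hNT : N * T = 0
  · have h1 : ∏ t, ((1 + Real.cos (η * k t)) / 2) ^ N = 1 := by
      rcases Nat.mul_eq_zero.1 hNT with h0 | h0
      · subst h0; simp
      · subst h0; simp
    rw [h1]; norm_num
  · have hNT1 : (1 : ℝ) ≤ (N : ℝ) * T := by
      have : 1 ≤ N * T := Nat.one_le_iff_ne_zero.2 hNT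
      exact_mod_cast this
    set a : ℝ := (η * xi) ^ 2 / 4 with ha
    have ha0 : 0 ≤ a := by positivity
    have haN : (N : ℝ) * T * a ≤ 1 / 2 := by rw [ha]; linarith
    have ha1 : a ≤ 1 / 2 := by nlinarith
    have hfac : ∀ t, 1 - a ≤ (1 + Real.cos (η * k t)) / 2 := by
      intro t
      have h1 := Real.one_sub_sq_div_two_le_cos (x := η * k t)
      have h2 : (η * k t) ^ 2 ≤ (η * xi) ^ 2 := by
        rw [← sq_abs (η * k t), abs_mul, abs_of_nonneg hη]
        have h3 : η * |k t| ≤ η * xi := mul_le_mul_of_nonneg_left (hk t) hη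
        have h4 : 0 ≤ η * |k t| := mul_nonneg hη (abs_nonneg _)
        exact pow_le_pow_left₀ h4 h3 2
      rw [ha]; linarith
    have h5 : ∏ _t : Fin T, (1 - a) ^ N ≤ ∏ t, ((1 + Real.cos (η * k t)) / 2) ^ N := by
      refine Finset.prod_le_prod (fun t _ => pow_nonneg (by linarith) N) fun t _ => ?_
      exact pow_le_pow_left₀ (by linarith) (hfac t) N
    rw [Finset.prod_const, Finset.card_univ, Fintype.card_fin, ← pow_mul] at h5
    have h6 := one_add_mul_le_pow (a := -a) (by linarith) (N * T)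
    have h7 : (1 : ℝ) + -a = 1 - a := by ring
    rw [h7] at h6
    push_cast at h6
    linarith

/-- one factor is small: `cos z ≤ 1 - 2 z^2/π^2` for `|z| ≤ π` (`Real.cos_quadratic_upper_bound`), the other
factors are in `[0, 1]` -/
theorem trig_le {T : ℕ} (ell δ : ℝ) (N : ℕ) (k : Fin T → ℝ) (t : Fin T) (hl : 0 < ell) (hδ : 0 ≤ δ)
    (h1 : δ ≤ |k t|) (h2 : |k t| ≤ ell) :
    trig (Real.pi / ell) N k ≤ Real.exp (-(N * (δ / ell) ^ 2)) := by
  unfold trig
  have hb : ∀ s, 0 ≤ (1 + Real.cos (Real.pi / ell * k s)) / 2 := fun s => by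
    have := Real.neg_one_le_cos (Real.pi / ell * k s)
    linarith
  have hb1 : ∀ s, (1 + Real.cos (Real.pi / ell * k s)) / 2 ≤ 1 := fun s => by
    have := Real.cos_le_one (Real.pi / ell * k s)
    linarith
  have hpi := Real.pi_pos
  have hz : |Real.pi / ell * k t| ≤ Real.pi := by
    rw [abs_mul, abs_of_nonneg (div_nonneg hpi.le hl.le)]
    calc Real.pi / ell * |k t| ≤ Real.pi / ell * ell :=
          mul_le_mul_of_nonneg_left h2 (div_nonneg hpi.le hl.le)
      _ = Real.pi := by field_simp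
  have h3 := Real.cos_le_one_sub_mul_cos_sq hz
  have h4 : 2 / Real.pi ^ 2 * (Real.pi / ell * k t) ^ 2 = 2 * (k t / ell) ^ 2 := by
    field_simp
  have h5 : (δ / ell) ^ 2 ≤ (k t / ell) ^ 2 := by
    rw [← sq_abs (k t / ell), abs_div, abs_of_pos hl]
    exact pow_le_pow_left₀ (div_nonneg hδ hl.le) (div_le_div_of_nonneg_right h1 hl.le) 2
  have h6 : (1 + Real.cos (Real.pi / ell * k t)) / 2 ≤ Real.exp (-(δ / ell) ^ 2) := by
    have h7 := Real.add_one_le_exp (-(δ / ell) ^ 2)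
    rw [h4] at h3
    linarith
  have h8 : ((1 + Real.cos (Real.pi / ell * k t)) / 2) ^ N ≤ Real.exp (-(N * (δ / ell) ^ 2)) := by
    calc ((1 + Real.cos (Real.pi / ell * k t)) / 2) ^ N ≤ (Real.exp (-(δ / ell) ^ 2)) ^ N :=
          pow_le_pow_left₀ (hb t) h6 N
      _ = Real.exp (-(N * (δ / ell) ^ 2)) := by
          rw [← Real.exp_nat_mul]; congr 1; ring
  calc ∏ s, ((1 + Real.cos (Real.pi / ell * k s)) / 2) ^ N
      = ((1 + Real.cos (Real.pi / ell * k t)) / 2) ^ N *
          ∏ s ∈ univ.erase t, ((1 + Real.cos (Real.pi / ell * k s)) / 2) ^ N :=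
        (Finset.mul_prod_erase univ _ (mem_univ t)).symm
    _ ≤ ((1 + Real.cos (Real.pi / ell * k t)) / 2) ^ N * 1 :=
        mul_le_mul_of_nonneg_left
          (Finset.prod_le_one (fun s _ => pow_nonneg (hb s) N)
            fun s _ => pow_le_one₀ (hb s) (hb1 s)) (pow_nonneg (hb t) N)
    _ ≤ Real.exp (-(N * (δ / ell) ^ 2)) := by rw [mul_one]; exact h8

theorem trig_nonneg {T : ℕ} (η : ℝ) (N : ℕ) (k : Fin T → ℝ) : 0 ≤ trig η N k := by
  unfold trig
  refine Finset.prod_nonneg fun t _ => pow_nonneg ?_ N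
  have := Real.neg_one_le_cos (η * k t)
  linarith

theorem trig_le_one {T : ℕ} (η : ℝ) (N : ℕ) (k : Fin T → ℝ) : trig η N k ≤ 1 := by
  unfold trig
  refine Finset.prod_le_one (fun t _ => pow_nonneg ?_ N) fun t _ => pow_le_one₀ ?_ ?_
  · have := Real.neg_one_le_cos (η * k t)
    linarith
  · have := Real.neg_one_le_cos (η * k t)
    linarith
  · have := Real.cos_le_one (η * k t)
    linarith

namespace Cfg

variable {gam K : ℝ} {R : ℕ} {p : Par gam K R} {y0 : ℝ} {P : Type} [Fintype P] [PartialOrder P]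
  {S : ℝ} (C : Cfg p y0 P S)

/-- relative position at `t = 0` -/
noncomputable def H (x : Fin (p.T + 1) → P → ℝ) (v : P) : ℝ := (x 0 v - x 0 C.a) / S

/-- relative displacements -/
noncomputable def V (x : Fin (p.T + 1) → P → ℝ) (v : P) (t : Fin p.T) : ℝ :=
  (x t.succ v - x t.succ C.a - (x 0 v - x 0 C.a)) / S

include C in
private theorem Det_S_pos : 0 < S := by
  have h1 := C.hK
  have h2 := C.hS
  linarith

include C in
private theorem Det_pp_pos : 0 < p.pp := by
  have h1 : (0 : ℝ) < R := by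
    have := C.hR
    exact_mod_cast this
  unfold Par.pp
  positivity

include C in
private theorem Det_th_pos : 0 < p.th := by
  have h1 : (0 : ℝ) < R := by
    have := C.hR
    exact_mod_cast this
  have h2 := Det_pp_pos C
  unfold Par.th
  positivity

/-- the pieces of `bad < 1` -/
theorem bad_parts (x : P → ℝ) (h : C.bad x < 1) :
    2 * ((p.T : ℝ) + 1) * C.N1 x ≤ C.Bal.card ∧ C.N3 x ≤ p.th * S ∧ C.N4 x ≤ p.th * S ∧
      C.N5 x ≤ p.th * S ∧ C.N6 x ≤ p.th * S ∧ C.B2 x ≤ 400 * ((p.T : ℝ) + 1) := by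
  have hS := Det_S_pos C
  have hth : 0 < p.th := Det_th_pos C
  have hthS : 0 < p.th * S := mul_pos hth hS
  have hT : (0 : ℝ) ≤ p.T := Nat.cast_nonneg _
  have n1 : 0 ≤ C.N1 x := Finset.sum_nonneg fun v _ => BFT.ind_nonneg _
  have n3 : 0 ≤ C.N3 x := Finset.sum_nonneg fun v _ => BFT.ind_nonneg _
  have n4 : 0 ≤ C.N4 x := Finset.sum_nonneg fun v _ => BFT.ind_nonneg _
  have n5 : 0 ≤ C.N5 x := Finset.sum_nonneg fun v _ => BFT.ind_nonneg _
  have n6 : 0 ≤ C.N6 x := Finset.sum_nonneg fun v _ => BFT.ind_nonneg _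
  have b2 : 0 ≤ C.B2 x := by
    unfold B2
    refine mul_nonneg (inv_nonneg.2 hS.le) (Finset.sum_nonneg fun v _ => mul_nonneg ?_
      (Real.exp_pos _).le)
    unfold wt
    have : (0 : ℝ) ≤ |(ix C.w v - ix C.w C.a) / S| := abs_nonneg _
    positivity
  have t1 : 0 ≤ 2 * ((p.T : ℝ) + 1) * (C.N1 x / C.Bal.card) := by positivity
  have t2 : 0 ≤ (C.N3 x + C.N4 x + C.N5 x + C.N6 x) / (p.th * S) := by positivity
  have t3 : 0 ≤ C.B2 x / (400 * ((p.T : ℝ) + 1)) := by positivity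
  unfold bad at h
  have h2 : C.N3 x + C.N4 x + C.N5 x + C.N6 x ≤ p.th * S := by
    have : (C.N3 x + C.N4 x + C.N5 x + C.N6 x) / (p.th * S) ≤ 1 := by linarith
    rwa [div_le_one hthS] at this
  have h3 : C.B2 x ≤ 400 * ((p.T : ℝ) + 1) := by
    have : C.B2 x / (400 * ((p.T : ℝ) + 1)) ≤ 1 := by linarith
    rwa [div_le_one (by positivity)] at this
  refine ⟨?_, by linarith, by linarith, by linarith, by linarith, h3⟩
  by_cases hB : C.Bal.card = 0
  · have hB' : C.Bal = ∅ := Finset.card_eq_zero.1 hB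
    have : C.N1 x = 0 := by unfold N1; rw [hB']; simp
    rw [this, hB]; simp
  · have hB' : (0 : ℝ) < C.Bal.card := by
      exact_mod_cast Nat.pos_of_ne_zero hB
    have : 2 * ((p.T : ℝ) + 1) * (C.N1 x / C.Bal.card) ≤ 1 := by linarith
    rw [← mul_div_assoc, div_le_one hB'] at this
    exact this

/-- near `a`: `v ∈ Bal` with all `dv a v (x t) < xi/2 S` has `|H v| ≤ eps + xi/2 ≤ tau/16` and
`|V v t| ≤ xi`, so the term is `≥ 1/2`; at most half of the ball is bad; `Bal ⊆ Wd` -/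
theorem det_near (x : Fin (p.T + 1) → P → ℝ) (hbad : ∀ t, C.bad (x t) < 1) (g : ℝ → ℝ)
    (hg0 : ∀ y, 0 ≤ g y) (hga : ∀ y, |y| ≤ p.tau / 16 → g y = 1) :
    p.pp / 4 ≤ S⁻¹ * ∑ v ∈ C.Wd, g (C.H x v) * trig (Real.pi / p.ell) p.N (C.V x v) := by
  classical
  have hS := Det_S_pos C
  have hSK := C.hS
  have hK := C.hK
  have hxi := p.xi_pos
  have hell : 0 < p.ell := by linarith [p.ell_ge]
  have heps : p.eps ≤ 1 := by
    have h1 := p.hdel
    have h2 := p.tau_le
    linarith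
  -- the good elements of the ball
  set G : Finset P := C.Bal.filter (fun v => ∀ t, dv C.a v (x t) < p.xi / 2 * S) with hG
  have hcount : (C.Bal.card : ℝ) ≤ 2 * G.card := by
    have h1 : ∀ v ∈ C.Bal, (1 : ℝ) ≤ (if v ∈ G then 1 else 0) +
        ∑ t, BFT.ind (p.xi / 2 * S ≤ dv C.a v (x t)) := by
      intro v hv
      by_cases hvG : v ∈ G
      · rw [if_pos hvG]
        have : 0 ≤ ∑ t, BFT.ind (p.xi / 2 * S ≤ dv C.a v (x t)) :=
          Finset.sum_nonneg fun t _ => BFT.ind_nonneg _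
        linarith
      · rw [if_neg hvG, zero_add]
        have h2 : ∃ t, p.xi / 2 * S ≤ dv C.a v (x t) := by
          by_contra hc
          push Not at hc
          exact hvG (Finset.mem_filter.2 ⟨hv, hc⟩)
        obtain ⟨t, ht⟩ := h2
        calc (1 : ℝ) = BFT.ind (p.xi / 2 * S ≤ dv C.a v (x t)) := (BFT.ind_true ht).symm
          _ ≤ ∑ t, BFT.ind (p.xi / 2 * S ≤ dv C.a v (x t)) :=
              Finset.single_le_sum (f := fun t => BFT.ind (p.xi / 2 * S ≤ dv C.a v (x t)))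
                (fun t _ => BFT.ind_nonneg _) (Finset.mem_univ t)
    have h2 := Finset.sum_le_sum h1
    rw [Finset.sum_const, nsmul_eq_mul, mul_one, Finset.sum_add_distrib, Finset.sum_comm] at h2
    have h3 : ∑ v ∈ C.Bal, (if v ∈ G then (1 : ℝ) else 0) = G.card := by
      rw [← Finset.sum_filter, Finset.sum_const, nsmul_eq_mul, mul_one]
      congr 2
      ext v
      simp only [Finset.mem_filter]
      constructor
      · exact fun h => h.2
      · exact fun h => ⟨(Finset.mem_filter.1 h).1, h⟩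
    have h4 : ∀ t : Fin (p.T + 1), 2 * ((p.T : ℝ) + 1) * ∑ v ∈ C.Bal,
        BFT.ind (p.xi / 2 * S ≤ dv C.a v (x t)) ≤ C.Bal.card :=
      fun t => (C.bad_parts (x t) (hbad t)).1
    have h5 : 2 * ((p.T : ℝ) + 1) * ∑ t : Fin (p.T + 1), ∑ v ∈ C.Bal,
        BFT.ind (p.xi / 2 * S ≤ dv C.a v (x t)) ≤ ((p.T : ℝ) + 1) * C.Bal.card := by
      rw [Finset.mul_sum]
      calc ∑ t : Fin (p.T + 1), 2 * ((p.T : ℝ) + 1) * ∑ v ∈ C.Bal,
            BFT.ind (p.xi / 2 * S ≤ dv C.a v (x t))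
          ≤ ∑ _t : Fin (p.T + 1), (C.Bal.card : ℝ) := Finset.sum_le_sum fun t _ => h4 t
        _ = ((p.T : ℝ) + 1) * C.Bal.card := by
            rw [Finset.sum_const, Finset.card_univ, Fintype.card_fin, nsmul_eq_mul]
            push_cast; ring
    have hTp : (0 : ℝ) < (p.T : ℝ) + 1 := by positivity
    have h6 : 2 * ∑ t : Fin (p.T + 1), ∑ v ∈ C.Bal,
        BFT.ind (p.xi / 2 * S ≤ dv C.a v (x t)) ≤ C.Bal.card := by
      have h7 : ((p.T : ℝ) + 1) * (2 * ∑ t : Fin (p.T + 1), ∑ v ∈ C.Bal,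
          BFT.ind (p.xi / 2 * S ≤ dv C.a v (x t))) ≤ ((p.T : ℝ) + 1) * C.Bal.card := by
        calc ((p.T : ℝ) + 1) * (2 * ∑ t : Fin (p.T + 1), ∑ v ∈ C.Bal,
              BFT.ind (p.xi / 2 * S ≤ dv C.a v (x t)))
            = 2 * ((p.T : ℝ) + 1) * ∑ t : Fin (p.T + 1), ∑ v ∈ C.Bal,
              BFT.ind (p.xi / 2 * S ≤ dv C.a v (x t)) := by ring
          _ ≤ _ := h5
      exact le_of_mul_le_mul_left h7 hTp
    rw [h3] at h2
    linarith
  have hGW : ∀ v ∈ G, v ∈ C.Wd ∧ g (C.H x v) = 1 ∧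
      1 / 2 ≤ trig (Real.pi / p.ell) p.N (C.V x v) := by
    intro v hv
    obtain ⟨hvB, hvd⟩ := Finset.mem_filter.1 hv
    have hds : ds C.a v ≤ p.eps * S := (Finset.mem_filter.1 hvB).2
    have hht : |ht v - ht C.a| ≤ p.eps * S := (ht_le_ds C.a v).trans hds
    have hdv : ∀ t, |x t v - x t C.a - (ht v - ht C.a)| < p.xi / 2 * S := hvd
    refine ⟨?_, ?_, ?_⟩
    · refine Finset.mem_filter.2 ⟨Finset.mem_univ _, ?_⟩
      have h1 := loc_ix C.disp C.a v
      have h2 : p.eps * S + 2 * (K * S) ≤ S ^ 2 := by nlinarith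
      linarith
    · refine hga _ ?_
      unfold H
      rw [abs_div, abs_of_pos hS, div_le_iff₀ hS]
      have h1 := hdv 0
      have h2 : |x 0 v - x 0 C.a| ≤ |x 0 v - x 0 C.a - (ht v - ht C.a)| + |ht v - ht C.a| := by
        have := abs_add_le (x 0 v - x 0 C.a - (ht v - ht C.a)) (ht v - ht C.a)
        rwa [sub_add_cancel] at this
      have h3 : (p.eps + p.xi / 2) * S ≤ p.tau / 16 * S :=
        mul_le_mul_of_nonneg_right p.hdel hS.le
      linarith
    · refine trig_ge _ p.xi p.N _ (div_nonneg Real.pi_pos.le hell.le) (fun t => ?_) ?_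
      · unfold V
        rw [abs_div, abs_of_pos hS, div_le_iff₀ hS]
        have h1 := hdv 0
        have h2 := hdv t.succ
        have h3 : x t.succ v - x t.succ C.a - (x 0 v - x 0 C.a) =
            (x t.succ v - x t.succ C.a - (ht v - ht C.a)) -
              (x 0 v - x 0 C.a - (ht v - ht C.a)) := by ring
        rw [h3]
        have h4 := abs_sub (x t.succ v - x t.succ C.a - (ht v - ht C.a))
              (x 0 v - x 0 C.a - (ht v - ht C.a))
        linarith
      · have h1 := p.hxi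
        have h2 : ((p.T : ℕ) : ℝ) = 2 * (R : ℝ) ^ p.k1 := by
          unfold Par.T; push_cast; ring
        rw [h2]
        exact h1
  have hsum : (G.card : ℝ) * (1 / 2) ≤
      ∑ v ∈ C.Wd, g (C.H x v) * trig (Real.pi / p.ell) p.N (C.V x v) := by
    calc (G.card : ℝ) * (1 / 2) = ∑ _v ∈ G, (1 / 2 : ℝ) := by
          rw [Finset.sum_const, nsmul_eq_mul]
      _ ≤ ∑ v ∈ G, g (C.H x v) * trig (Real.pi / p.ell) p.N (C.V x v) := by
          refine Finset.sum_le_sum fun v hv => ?_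
          rw [(hGW v hv).2.1, one_mul]
          exact (hGW v hv).2.2
      _ ≤ ∑ v ∈ C.Wd, g (C.H x v) * trig (Real.pi / p.ell) p.N (C.V x v) :=
          Finset.sum_le_sum_of_subset_of_nonneg (fun v hv => (hGW v hv).1)
            fun v _ _ => mul_nonneg (hg0 _) (trig_nonneg _ _ _)
  have hR0 : (0 : ℝ) < (R : ℝ) ^ p.k0 := by
    have : (0 : ℝ) < R := by
      have := C.hR
      exact_mod_cast this
    positivity
  have hbal : S ≤ (R : ℝ) ^ p.k0 * (C.Bal.card : ℝ) := by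
    have := C.hbal
    unfold Bal
    convert this
  have hpp : p.pp * S ≤ C.Bal.card := by
    unfold Par.pp
    rw [div_mul_eq_mul_div, one_mul, div_le_iff₀ hR0]
    linarith
  have hfin : p.pp / 4 * S ≤
      ∑ v ∈ C.Wd, g (C.H x v) * trig (Real.pi / p.ell) p.N (C.V x v) := by
    linarith
  rw [inv_mul_eq_div, le_div_iff₀ hS]
  exact hfin

end Cfg

end Pool.Agent.Half
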