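import Pool.Agent.Lib_MP_33fb9b_half.Det

set_option autoImplicit false

/-!
# K27b: the deterministic part, near `y0` (blueprint C10)
-/

namespace Pool.Agent.Half

open Pool.Agent.BFT MeasureTheory Finset

namespace Cfg

variable {gam K : ℝ} {R : ℕ} {p : Par gam K R} {y0 : ℝ} {P : Type} [Fintype P] [PartialOrder P]
  {S : ℝ} (C : Cfg p y0 P S)

private theorem DetFar_target (m0 : P → ℝ) (x : Fin (p.T + 1) → P → ℝ)
    (hx : ∀ t, x t ∈ C.tgt m0 t) (v : P) (hv : |ix C.w v - ix C.w C.a| ≤ p.ell * S)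
    (hsp : p.c * S ≤ sp C.a (C.cc v)) :
    ∃ t : Fin p.T, p.c / 400 * S ≤
      |(x t.succ (C.cc v) - x t.succ C.a) - (x 0 (C.cc v) - x 0 C.a)| := by
  rcases le_total (x 0 (C.cc v) - x 0 C.a) (m0 (C.cc v)) with h | h
  · obtain ⟨t, ht⟩ := C.he v hv true
    refine ⟨t, ?_⟩
    have h1 := hx t.succ
    simp only [Cfg.tgt, Fin.cases_succ, ht, if_pos hsp, if_true, Set.mem_setOf_eq] at h1
    refine le_trans ?_ (le_abs_self _)
    linarith
  · obtain ⟨t, ht⟩ := C.he v hv false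
    refine ⟨t, ?_⟩
    have h1 := hx t.succ
    simp only [Cfg.tgt, Fin.cases_succ, ht, if_pos hsp, Bool.false_eq_true, if_false,
      Set.mem_setOf_eq] at h1
    refine le_trans ?_ (neg_le_abs _)
    linarith

private theorem DetFar_ell : 0 < p.ell := by
  have := p.ell_ge
  linarith

private theorem DetFar_S (C : Cfg p y0 P S) : 0 < S := by
  have := C.hS
  have := C.hK
  linarith

/-- the displacement of a non-bad element whose centre is not rigid -/
private theorem DetFar_trig (m0 : P → ℝ) (x : Fin (p.T + 1) → P → ℝ)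
    (hx : ∀ t, x t ∈ C.tgt m0 t) (v : P) (hv : |ix C.w v - ix C.w C.a| ≤ p.ell * S)
    (hsp : p.c * S ≤ sp C.a (C.cc v))
    (h3 : ∀ t, dv (C.cc v) v (x t) < p.c / 1600 * S)
    (h6 : ∀ t, dv C.a v (x t) < p.ell / 2 * S) :
    trig (Real.pi / p.ell) p.N (C.V x v) ≤ Real.exp (-(p.N * (p.c / (800 * p.ell)) ^ 2)) := by
  have hS := DetFar_S C
  have hl := DetFar_ell (p := p)
  obtain ⟨t, ht⟩ := C.DetFar_target m0 x hx v hv hsp
  have e : p.c / (800 * p.ell) = (p.c / 800) / p.ell := by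
    rw [div_div]
  rw [e]
  have h30 := h3 0
  have h31 := h3 t.succ
  have h60 := h6 0
  have h61 := h6 t.succ
  unfold Cfg.dv at h30 h31 h60 h61
  rw [abs_lt] at h30 h31 h60 h61
  have hV : C.V x v t = ((x t.succ v - x t.succ C.a) - (x 0 v - x 0 C.a)) / S := rfl
  refine trig_le p.ell (p.c / 800) p.N (C.V x v) t hl (by have := p.c_pos; positivity) ?_ ?_
  · rw [hV, abs_div, abs_of_pos hS, le_div_iff₀ hS]
    rcases le_abs.1 ht with h | h
    · refine le_trans ?_ (le_abs_self _)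
      linarith [h30.1, h30.2, h31.1, h31.2]
    · refine le_trans ?_ (neg_le_abs _)
      linarith [h30.1, h30.2, h31.1, h31.2]
  · rw [hV, abs_div, abs_of_pos hS, div_le_iff₀ hS, abs_le]
    constructor <;> linarith [h60.1, h60.2, h61.1, h61.2]

open Classical in
private theorem DetFar_term (m0 : P → ℝ) (x : Fin (p.T + 1) → P → ℝ)
    (hx : ∀ t, x t ∈ C.tgt m0 t) (g : ℝ → ℝ)
    (hg0 : ∀ y, 0 ≤ g y) (hg1 : ∀ y, g y ≤ 1) (hgs : ∀ y, p.tau / 8 ≤ |y| → g y = 0)
    (v : P) (hv : v ∈ C.Wn) :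
    g (C.H x v - y0) * trig (Real.pi / p.ell) p.N (C.V x v) ≤
      ∑ t, BFT.ind (p.c / 1600 * S ≤ dv (C.cc v) v (x t)) +
      ∑ t, BFT.ind (p.ell / 2 * S ≤ dv C.a v (x t)) +
      (if sp C.a v ≤ 2 * p.c * S then BFT.ind (p.tau / 16 * S ≤ dv C.a v (x 0)) else 0) +
      Real.exp (-(p.N * (p.c / (800 * p.ell)) ^ 2)) := by
  have hS := DetFar_S C
  have hl := DetFar_ell (p := p)
  have hv' : |ix C.w v - ix C.w C.a| ≤ p.ell * S := (Finset.mem_filter.1 hv).2
  have n3 : 0 ≤ ∑ t, BFT.ind (p.c / 1600 * S ≤ dv (C.cc v) v (x t)) :=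
    Finset.sum_nonneg fun _ _ => BFT.ind_nonneg _
  have n6 : 0 ≤ ∑ t, BFT.ind (p.ell / 2 * S ≤ dv C.a v (x t)) :=
    Finset.sum_nonneg fun _ _ => BFT.ind_nonneg _
  have n4 : 0 ≤ (if sp C.a v ≤ 2 * p.c * S then
      BFT.ind (p.tau / 16 * S ≤ dv C.a v (x 0)) else 0) := by
    split_ifs
    · exact BFT.ind_nonneg _
    · exact le_rfl
  have ne : 0 ≤ Real.exp (-(p.N * (p.c / (800 * p.ell)) ^ 2)) := (Real.exp_pos _).le
  have hle1 : g (C.H x v - y0) * trig (Real.pi / p.ell) p.N (C.V x v) ≤ 1 :=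
    mul_le_one₀ (hg1 _) (trig_nonneg _ _ _) (trig_le_one _ _ _)
  by_cases hy : p.tau / 8 ≤ |C.H x v - y0|
  · rw [hgs _ hy, zero_mul]
    linarith
  by_cases h3 : ∃ t, p.c / 1600 * S ≤ dv (C.cc v) v (x t)
  · obtain ⟨t, ht⟩ := h3
    have h := Finset.single_le_sum
      (f := fun t => BFT.ind (p.c / 1600 * S ≤ dv (C.cc v) v (x t)))
      (fun _ _ => BFT.ind_nonneg _) (Finset.mem_univ t)
    simp only [BFT.ind_true ht] at h
    linarith
  by_cases h6 : ∃ t, p.ell / 2 * S ≤ dv C.a v (x t)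
  · obtain ⟨t, ht⟩ := h6
    have h := Finset.single_le_sum
      (f := fun t => BFT.ind (p.ell / 2 * S ≤ dv C.a v (x t)))
      (fun _ _ => BFT.ind_nonneg _) (Finset.mem_univ t)
    simp only [BFT.ind_true ht] at h
    linarith
  push Not at h3 h6
  by_cases hs : p.c * S ≤ sp C.a (C.cc v)
  · have h := C.DetFar_trig m0 x hx v hv' hs h3 h6
    have h1 : g (C.H x v - y0) * trig (Real.pi / p.ell) p.N (C.V x v) ≤
        trig (Real.pi / p.ell) p.N (C.V x v) :=
      mul_le_of_le_one_left (trig_nonneg _ _ _) (hg1 _)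
    linarith
  · -- rigid centre
    have h1 : sp C.a v ≤ 2 * p.c * S := by
      have h2 := sp_triangle C.a (C.cc v) v
      have h4 := sp_le_ds (C.cc v) v
      have h5 := C.hcc v hv'
      have h7 : p.c / p.ell * S ≤ p.c / 2 * S := by
        have := p.c_pos
        have := p.ell_ge
        gcongr
      push Not at hs
      nlinarith
    have h2 := C.foll v h1
    by_cases h4 : p.tau / 16 * S ≤ dv C.a v (x 0)
    · rw [if_pos h1, BFT.ind_true h4]
      linarith
    · exfalso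
      push Not at h4 hy
      unfold Cfg.dv at h4
      have h5 : |x 0 v - x 0 C.a - y0 * S| < p.tau / 8 * S := by
        have h7 : x 0 v - x 0 C.a - y0 * S = (C.H x v - y0) * S := by
          unfold Cfg.H
          field_simp
        rw [h7, abs_mul, abs_of_pos hS]
        exact mul_lt_mul_of_pos_right hy hS
      rw [abs_lt] at h4 h5
      have h8 : |ht v - ht C.a - y0 * S| ≤ 3 * p.tau / 16 * S := by
        rw [abs_le]
        constructor <;> linarith [h4.1, h4.2, h5.1, h5.2]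
      linarith

/-- near `y0` (blueprint C10): classes: outside `Wn` (`N5` at `t = 0`); `N3`-bad or `N6`-bad for some `t`;
`N4`-bad at `t = 0`; otherwise `v ∈ Wn`: if `sp a (cc v) ≥ c S` one of the two targets of `cc v` gives a `t` with
`c/800 ≤ |V v t| ≤ ell` (`trig_le`, at most `3 ell S` such `v`: hypothesis `hW`); if `sp a (cc v) < c S` then
`sp a v ≤ 2 c S` and `|ht v - ht a - y0 S| ≤ 3 tau/16 S`: excluded by `foll`. -/
theorem det_far (m0 : P → ℝ) (x : Fin (p.T + 1) → P → ℝ) (hx : ∀ t, x t ∈ C.tgt m0 t)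
    (hbad : ∀ t, C.bad (x t) < 1) (hW : (C.Wn.card : ℝ) ≤ 3 * p.ell * S) (g : ℝ → ℝ)
    (hg0 : ∀ y, 0 ≤ g y) (hg1 : ∀ y, g y ≤ 1) (hgs : ∀ y, p.tau / 8 ≤ |y| → g y = 0) :
    S⁻¹ * ∑ v ∈ C.Wd, g (C.H x v - y0) * trig (Real.pi / p.ell) p.N (C.V x v) ≤ p.pp / 8 := by
  classical
  have hS := DetFar_S C
  have hl := DetFar_ell (p := p)
  have hparts := fun t => C.bad_parts (x t) (hbad t)
  have hterm0 : ∀ v, 0 ≤ g (C.H x v - y0) * trig (Real.pi / p.ell) p.N (C.V x v) := fun v =>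
    mul_nonneg (hg0 _) (trig_nonneg _ _ _)
  -- the part outside the near window
  have h1 : ∑ v ∈ C.Wd.filter (fun v => v ∉ C.Wn),
      g (C.H x v - y0) * trig (Real.pi / p.ell) p.N (C.V x v) ≤ p.th * S := by
    refine le_trans ?_ (hparts 0).2.2.2.1
    unfold Cfg.N5
    refine Finset.sum_le_sum fun v _ => ?_
    by_cases hy : p.tau / 8 ≤ |C.H x v - y0|
    · rw [hgs _ hy, zero_mul]
      exact BFT.ind_nonneg _
    · have h2 : |x 0 v - x 0 C.a| ≤ (|y0| + p.tau / 8) * S := by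
        have h3 : x 0 v - x 0 C.a = C.H x v * S := by
          unfold Cfg.H
          field_simp
        rw [h3, abs_mul, abs_of_pos hS]
        refine mul_le_mul_of_nonneg_right ?_ hS.le
        push Not at hy
        have h4 := abs_sub_abs_le_abs_sub (C.H x v) y0
        linarith
      rw [BFT.ind_true h2]
      exact mul_le_one₀ (hg1 _) (trig_nonneg _ _ _) (trig_le_one _ _ _)
  -- the near window
  have h2 : ∑ v ∈ C.Wn, g (C.H x v - y0) * trig (Real.pi / p.ell) p.N (C.V x v) ≤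
      (p.T + 1) * (p.th * S) + (p.T + 1) * (p.th * S) + p.th * S + S * (p.pp / 16) := by
    refine le_trans (Finset.sum_le_sum fun v hv => C.DetFar_term m0 x hx g hg0 hg1 hgs v hv) ?_
    rw [Finset.sum_add_distrib, Finset.sum_add_distrib, Finset.sum_add_distrib]
    have a3 : ∑ v ∈ C.Wn, ∑ t, BFT.ind (p.c / 1600 * S ≤ dv (C.cc v) v (x t)) ≤
        (p.T + 1) * (p.th * S) := by
      rw [Finset.sum_comm]
      calc ∑ t, ∑ v ∈ C.Wn, BFT.ind (p.c / 1600 * S ≤ dv (C.cc v) v (x t)) ≤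
          ∑ _t : Fin (p.T + 1), p.th * S :=
            Finset.sum_le_sum fun t _ => (hparts t).2.1
        _ = (p.T + 1) * (p.th * S) := by simp
    have a6 : ∑ v ∈ C.Wn, ∑ t, BFT.ind (p.ell / 2 * S ≤ dv C.a v (x t)) ≤
        (p.T + 1) * (p.th * S) := by
      rw [Finset.sum_comm]
      calc ∑ t, ∑ v ∈ C.Wn, BFT.ind (p.ell / 2 * S ≤ dv C.a v (x t)) ≤
          ∑ _t : Fin (p.T + 1), p.th * S :=
            Finset.sum_le_sum fun t _ => (hparts t).2.2.2.2.1
        _ = (p.T + 1) * (p.th * S) := by simp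
    have a4 : ∑ v ∈ C.Wn, (if sp C.a v ≤ 2 * p.c * S then
        BFT.ind (p.tau / 16 * S ≤ dv C.a v (x 0)) else 0) ≤ p.th * S := by
      rw [← Finset.sum_filter]
      exact (hparts 0).2.2.1
    have ae : ∑ _v ∈ C.Wn, Real.exp (-(p.N * (p.c / (800 * p.ell)) ^ 2)) ≤
        S * (p.pp / 16) := by
      rw [Finset.sum_const, nsmul_eq_mul]
      calc (C.Wn.card : ℝ) * Real.exp (-(p.N * (p.c / (800 * p.ell)) ^ 2)) ≤
          3 * p.ell * S * Real.exp (-(p.N * (p.c / (800 * p.ell)) ^ 2)) :=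
            mul_le_mul_of_nonneg_right hW (Real.exp_pos _).le
        _ = S * (3 * p.ell * Real.exp (-(p.N * (p.c / (800 * p.ell)) ^ 2))) := by ring
        _ ≤ S * (p.pp / 16) := mul_le_mul_of_nonneg_left p.hN hS.le
    linarith
  have h3 : ∑ v ∈ C.Wd, g (C.H x v - y0) * trig (Real.pi / p.ell) p.N (C.V x v) ≤
      ∑ v ∈ C.Wn, g (C.H x v - y0) * trig (Real.pi / p.ell) p.N (C.V x v) +
      ∑ v ∈ C.Wd.filter (fun v => v ∉ C.Wn),
        g (C.H x v - y0) * trig (Real.pi / p.ell) p.N (C.V x v) := by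
    rw [← Finset.sum_filter_add_sum_filter_not C.Wd (fun v => v ∈ C.Wn)]
    refine add_le_add ?_ le_rfl
    refine Finset.sum_le_sum_of_subset_of_nonneg ?_ fun v _ _ => hterm0 v
    intro v hv
    exact (Finset.mem_filter.1 hv).2
  have hT : (p.T : ℝ) + 1 = 2 * (R : ℝ) ^ p.k1 + 1 := by
    unfold Par.T
    push_cast
    ring
  have hTpos : (0 : ℝ) < 2 * (R : ℝ) ^ p.k1 + 1 := by positivity
  have hth : (2 * (R : ℝ) ^ p.k1 + 1) * p.th = p.pp / 64 := by
    unfold Par.th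
    field_simp
  have hth0 : 0 ≤ p.pp := by
    unfold Par.pp
    positivity
  have hth1 : p.th ≤ (2 * (R : ℝ) ^ p.k1 + 1) * p.th := by
    have h5 : 0 ≤ p.th := by
      unfold Par.th
      positivity
    have h6 : (1 : ℝ) ≤ 2 * (R : ℝ) ^ p.k1 + 1 := by
      have : (0 : ℝ) ≤ (R : ℝ) ^ p.k1 := by positivity
      linarith
    nlinarith
  rw [hT] at h2
  have h4 : ∑ v ∈ C.Wd, g (C.H x v - y0) * trig (Real.pi / p.ell) p.N (C.V x v) ≤
      S * (p.pp / 8) := by
    have h5 : (2 * (R : ℝ) ^ p.k1 + 1) * (p.th * S) = p.pp / 64 * S := by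
      rw [← mul_assoc, hth]
    have h6 : p.th * S ≤ p.pp / 64 * S := by
      rw [← hth]
      exact mul_le_mul_of_nonneg_right hth1 hS.le
    rw [h5] at h2
    nlinarith
  calc S⁻¹ * ∑ v ∈ C.Wd, g (C.H x v - y0) * trig (Real.pi / p.ell) p.N (C.V x v) ≤
      S⁻¹ * (S * (p.pp / 8)) := mul_le_mul_of_nonneg_left h4 (by positivity)
    _ = p.pp / 8 := by field_simp

end Cfg

end Pool.Agent.Half
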