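import Mathlib

set_option autoImplicit false

/-!
# K05: the energy lemma (blueprint C2)
-/

namespace Pool.Agent.Half

open Finset

/-- sign of a comparison of natural numbers -/
def sg (a b : ℕ) : ℝ := if a < b then 1 else if b < a then -1 else 0

private theorem sg_eq (a b : ℕ) : sg a b = 1 - (if b ≤ a then 1 else 0) - (if b < a then 1 else 0) := by
  unfold sg
  rcases lt_trichotomy a b with h | h | h
  · simp [h, h.not_ge, h.not_gt]
  · subst h; simp
  · simp [h, h.le, h.not_gt]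

private theorem sg_anti (a b : ℕ) : sg a b = - sg b a := by
  unfold sg
  rcases lt_trichotomy a b with h | h | h
  · simp [h, h.not_gt]
  · subst h; simp
  · simp [h, h.not_gt]

/-- distribution function of a block -/
private noncomputable def Fr {Ω : Type} (q : ℕ → Ω → ℕ) (a n c : ℕ) (ω : Ω) : ℝ :=
  (∑ i ∈ range (2 ^ n), if q (a + i) ω ≤ c then (1 : ℝ) else 0) / 2 ^ n

private theorem Fr_succ {Ω : Type} (q : ℕ → Ω → ℕ) (a n c : ℕ) (ω : Ω) :
    Fr q a (n + 1) c ω = (Fr q a n c ω + Fr q (a + 2 ^ n) n c ω) / 2 := by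
  unfold Fr
  have h1 : (2 : ℕ) ^ (n + 1) = 2 ^ n + 2 ^ n := by ring
  rw [h1, sum_range_add]
  simp only [add_assoc]
  have h2 : (2 : ℝ) ^ (n + 1) = 2 ^ n * 2 := by ring
  rw [h2]
  have h3 : (2 : ℝ) ^ n ≠ 0 := by positivity
  field_simp

private theorem block_sg {Ω : Type} (q : ℕ → Ω → ℕ) (a n L : ℕ) (ω : Ω)
    (hq : ∀ i, q i ω < L) :
    ∑ i ∈ range (2 ^ n), ∑ j ∈ range (2 ^ n), sg (q (a + i) ω) (q (a + 2 ^ n + j) ω) ≤
      2 ^ n * 2 ^ n * (2 * ∑ c ∈ range L, |Fr q a n c ω - Fr q (a + 2 ^ n) n c ω|) := by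
  set S := ∑ c ∈ range L, |Fr q a n c ω - Fr q (a + 2 ^ n) n c ω| with hS
  have hle : ∀ c, c < L → |Fr q a n c ω - Fr q (a + 2 ^ n) n c ω| ≤ S := fun c hc =>
    single_le_sum (f := fun c => |Fr q a n c ω - Fr q (a + 2 ^ n) n c ω|)
      (fun _ _ => abs_nonneg _) (mem_range.2 hc)
  have hS0 : 0 ≤ S := sum_nonneg fun _ _ => abs_nonneg _
  have hzero : ∑ i ∈ range (2 ^ n), ∑ j ∈ range (2 ^ n), sg (q (a + i) ω) (q (a + j) ω) = 0 := by
    have h1 : ∑ i ∈ range (2 ^ n), ∑ j ∈ range (2 ^ n), sg (q (a + i) ω) (q (a + j) ω) =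
        - ∑ i ∈ range (2 ^ n), ∑ j ∈ range (2 ^ n), sg (q (a + i) ω) (q (a + j) ω) := by
      conv_lhs => rw [sum_comm]
      rw [← sum_neg_distrib]
      refine sum_congr rfl fun i _ => ?_
      rw [← sum_neg_distrib]
      exact sum_congr rfl fun j _ => sg_anti _ _
    linarith
  have hcnt : ∀ (b c : ℕ), (∑ i ∈ range (2 ^ n), if q (b + i) ω ≤ c then (1 : ℝ) else 0) =
      2 ^ n * Fr q b n c ω := by
    intro b c
    unfold Fr
    have h3 : (2 : ℝ) ^ n ≠ 0 := by positivity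
    field_simp
  have hrow : ∀ k, k < L → ∑ j ∈ range (2 ^ n), sg k (q (a + 2 ^ n + j) ω) -
      ∑ j ∈ range (2 ^ n), sg k (q (a + j) ω) ≤ 2 ^ n * (2 * S) := by
    intro k hk
    have h1 : ∀ b, ∑ j ∈ range (2 ^ n), sg k (q (b + j) ω) = 2 ^ n - 2 ^ n * Fr q b n k ω -
        ∑ j ∈ range (2 ^ n), (if q (b + j) ω < k then (1 : ℝ) else 0) := by
      intro b
      rw [← hcnt b k]
      simp only [sg_eq]
      rw [sum_sub_distrib, sum_sub_distrib]
      simp
    rw [h1, h1]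
    have h2 : (∑ j ∈ range (2 ^ n), (if q (a + j) ω < k then (1 : ℝ) else 0)) -
        ∑ j ∈ range (2 ^ n), (if q (a + 2 ^ n + j) ω < k then (1 : ℝ) else 0) ≤ 2 ^ n * S := by
      rcases k with _ | k
      · simp only [not_lt_zero, if_false, sum_const_zero, sub_zero]
        positivity
      · have h3 : ∀ b, (∑ j ∈ range (2 ^ n), (if q (b + j) ω < k + 1 then (1 : ℝ) else 0)) =
            2 ^ n * Fr q b n k ω := by
          intro b
          rw [← hcnt b k]
          refine sum_congr rfl fun j _ => ?_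
          simp only [Nat.lt_succ_iff]
        rw [h3, h3, ← mul_sub]
        refine mul_le_mul_of_nonneg_left ((le_abs_self _).trans (hle k (by omega))) (by positivity)
    have h4 : 2 ^ n * Fr q a n k ω - 2 ^ n * Fr q (a + 2 ^ n) n k ω ≤ 2 ^ n * S := by
      rw [← mul_sub]
      exact mul_le_mul_of_nonneg_left ((le_abs_self _).trans (hle k hk)) (by positivity)
    linarith
  have h5 : ∑ i ∈ range (2 ^ n), ∑ j ∈ range (2 ^ n), sg (q (a + i) ω) (q (a + 2 ^ n + j) ω) =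
      ∑ i ∈ range (2 ^ n), (∑ j ∈ range (2 ^ n), sg (q (a + i) ω) (q (a + 2 ^ n + j) ω) -
        ∑ j ∈ range (2 ^ n), sg (q (a + i) ω) (q (a + j) ω)) := by
    rw [sum_sub_distrib, hzero, sub_zero]
  rw [h5]
  refine (sum_le_sum fun i _ => hrow _ (hq _)).trans ?_
  rw [sum_const, card_range, nsmul_eq_mul]
  push_cast
  rw [mul_assoc]

/-- ENERGY LEMMA. `2^m` random variables with values in `{0,..,L-1}` (on a finite probability space with
weights `w`), such that `E sg (q i) (q j) ≥ g` for all `i < j`: then `m g^2 ≤ 16 L^2`.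
Proof (blueprint C2): `F_I(c) = |I|^-1 #{i in I | q_i ≤ c}`, `e(I) = E ∑_{c<L} F_I(c)^2 ≤ L`, for adjacent
dyadic blocks `I, J` the average of `sg (q i) (q j)` is `≤ 2 ∑_c |F_I - F_J|(c)`, so
`E ∑_c (F_I-F_J)^2 ≥ g^2/(4L)` and `e(I ∪ J) = (e(I)+e(J))/2 - (1/4) E ∑ (F_I-F_J)^2`. Induction on `m`:
claim `e(I) + m g^2/(16 L) ≤ L`... (some half has energy larger by `g^2/(16L)`). -/
theorem energy {Ω : Type} [Fintype Ω] (w : Ω → ℝ) (hw : ∀ ω, 0 ≤ w ω) (hw1 : ∑ ω, w ω = 1)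
    (L m : ℕ) (g : ℝ) (hg : 0 < g) (q : ℕ → Ω → ℕ) (hq : ∀ i ω, q i ω < L)
    (h : ∀ i j, i < j → j < 2 ^ m → g ≤ ∑ ω, w ω * sg (q i ω) (q j ω)) :
    (m : ℝ) * g ^ 2 ≤ 16 * (L : ℝ) ^ 2 := by
  have hL : 0 < L := by
    rcases Nat.eq_zero_or_pos L with h0 | h0
    · subst h0
      have : IsEmpty Ω := ⟨fun ω => absurd (hq 0 ω) (by omega)⟩
      simp at hw1
    · exact h0
  have hLR : (0 : ℝ) < L := by exact_mod_cast hL
  -- the energy increment
  have hinc : ∀ n a, a + 2 ^ (n + 1) ≤ 2 ^ m →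
      g ^ 2 / (4 * L) ≤ ∑ ω, w ω * ∑ c ∈ range L,
        (Fr q a n c ω - Fr q (a + 2 ^ n) n c ω) ^ 2 := by
    intro n a ha
    have hN : (0 : ℝ) < 2 ^ n := by positivity
    have h1 : (2 : ℝ) ^ n * 2 ^ n * g ≤ ∑ ω, w ω *
        ∑ i ∈ range (2 ^ n), ∑ j ∈ range (2 ^ n), sg (q (a + i) ω) (q (a + 2 ^ n + j) ω) := by
      have h2 : ∑ ω, w ω * ∑ i ∈ range (2 ^ n), ∑ j ∈ range (2 ^ n),
          sg (q (a + i) ω) (q (a + 2 ^ n + j) ω) =
          ∑ i ∈ range (2 ^ n), ∑ j ∈ range (2 ^ n), ∑ ω, w ω *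
            sg (q (a + i) ω) (q (a + 2 ^ n + j) ω) := by
        simp only [mul_sum]
        rw [sum_comm]
        refine sum_congr rfl fun i _ => ?_
        rw [sum_comm]
      rw [h2]
      have h3 : ∑ i ∈ range (2 ^ n), ∑ j ∈ range (2 ^ n), g = (2 : ℝ) ^ n * 2 ^ n * g := by
        simp only [sum_const, card_range, nsmul_eq_mul]
        push_cast
        ring
      rw [← h3]
      refine sum_le_sum fun i hi => sum_le_sum fun j hj => ?_
      have hi' := mem_range.1 hi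
      have hj' := mem_range.1 hj
      have hpow : (2 : ℕ) ^ (n + 1) = 2 ^ n + 2 ^ n := by ring
      exact h _ _ (by omega) (by omega)
    have h4 : ∑ ω, w ω * ∑ i ∈ range (2 ^ n), ∑ j ∈ range (2 ^ n),
        sg (q (a + i) ω) (q (a + 2 ^ n + j) ω) ≤
        ∑ ω, w ω * (2 ^ n * 2 ^ n * (2 * ∑ c ∈ range L,
          |Fr q a n c ω - Fr q (a + 2 ^ n) n c ω|)) :=
      sum_le_sum fun ω _ => mul_le_mul_of_nonneg_left (block_sg q a n L ω fun i => hq i ω) (hw ω)
    have h5 : g ≤ 2 * ∑ ω, w ω * ∑ c ∈ range L,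
        |Fr q a n c ω - Fr q (a + 2 ^ n) n c ω| := by
      have h6 := h1.trans h4
      have h7 : ∑ ω, w ω * (2 ^ n * 2 ^ n * (2 * ∑ c ∈ range L,
          |Fr q a n c ω - Fr q (a + 2 ^ n) n c ω|)) = 2 ^ n * 2 ^ n * (2 * ∑ ω, w ω *
          ∑ c ∈ range L, |Fr q a n c ω - Fr q (a + 2 ^ n) n c ω|) := by
        rw [mul_sum, mul_sum]
        refine sum_congr rfl fun ω _ => by ring
      rw [h7] at h6
      exact le_of_mul_le_mul_left h6 (by positivity)
    have h8 : ∑ ω, w ω * ∑ c ∈ range L, |Fr q a n c ω - Fr q (a + 2 ^ n) n c ω| ≤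
        ∑ ω, w ω * ∑ c ∈ range L, ((L / g) * (Fr q a n c ω - Fr q (a + 2 ^ n) n c ω) ^ 2 +
          g / (4 * L)) := by
      refine sum_le_sum fun ω _ => mul_le_mul_of_nonneg_left (sum_le_sum fun c _ => ?_) (hw ω)
      set x := Fr q a n c ω - Fr q (a + 2 ^ n) n c ω
      have h9 : 0 ≤ (2 * L * |x| - g) ^ 2 := sq_nonneg _
      have h10 : (L / g) * x ^ 2 + g / (4 * L) - |x| = (2 * L * |x| - g) ^ 2 / (4 * L * g) := by
        rw [← sq_abs x]
        field_simp
        ring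
      have h11 : 0 ≤ (2 * L * |x| - g) ^ 2 / (4 * L * g) := by positivity
      linarith
    have h12 : ∑ ω, w ω * ∑ c ∈ range L, ((L / g) * (Fr q a n c ω - Fr q (a + 2 ^ n) n c ω) ^ 2 +
          g / (4 * L)) = (L / g) * (∑ ω, w ω * ∑ c ∈ range L,
          (Fr q a n c ω - Fr q (a + 2 ^ n) n c ω) ^ 2) + g / 4 := by
      have h13 : ∀ ω, w ω * ∑ c ∈ range L, ((L / g) * (Fr q a n c ω - Fr q (a + 2 ^ n) n c ω) ^ 2 +
          g / (4 * L)) = (L / g) * (w ω * ∑ c ∈ range L,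
          (Fr q a n c ω - Fr q (a + 2 ^ n) n c ω) ^ 2) + w ω * (g / 4) := by
        intro ω
        rw [sum_add_distrib, ← mul_sum, sum_const, card_range, nsmul_eq_mul]
        have : (L : ℝ) * (g / (4 * L)) = g / 4 := by field_simp
        rw [this]
        ring
      rw [sum_congr rfl fun ω _ => h13 ω, sum_add_distrib, ← mul_sum, ← sum_mul, hw1, one_mul]
    rw [h12] at h8
    set E := ∑ ω, w ω * ∑ c ∈ range L, (Fr q a n c ω - Fr q (a + 2 ^ n) n c ω) ^ 2
    have h14 : g / 4 ≤ (L / g) * E := by linarith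
    rw [div_le_iff₀ (by positivity)]
    have h15 : g * (g / 4) ≤ g * ((L / g) * E) := mul_le_mul_of_nonneg_left h14 hg.le
    have h16 : g * ((L / g) * E) = L * E := by field_simp
    rw [h16] at h15
    nlinarith
  have hind : ∀ n a, a + 2 ^ n ≤ 2 ^ m →
      ∑ ω, w ω * ∑ c ∈ range L, (Fr q a n c ω) ^ 2 ≤ L - n * (g ^ 2 / (16 * L)) := by
    intro n
    induction n with
    | zero =>
      intro a _
      have h1 : ∀ ω, ∑ c ∈ range L, (Fr q a 0 c ω) ^ 2 ≤ L := by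
        intro ω
        have h2 : ∀ c ∈ range L, (Fr q a 0 c ω) ^ 2 ≤ 1 := by
          intro c _
          unfold Fr
          simp only [pow_zero, range_one, sum_singleton, div_one]
          split_ifs <;> norm_num
        refine (sum_le_sum h2).trans ?_
        simp
      have h3 : ∑ ω, w ω * ∑ c ∈ range L, (Fr q a 0 c ω) ^ 2 ≤ ∑ ω, w ω * L :=
        sum_le_sum fun ω _ => mul_le_mul_of_nonneg_left (h1 ω) (hw ω)
      rw [← sum_mul, hw1, one_mul] at h3
      simpa using h3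
    | succ n ih =>
      intro a ha
      have hpow : (2 : ℕ) ^ (n + 1) = 2 ^ n + 2 ^ n := by ring
      have hpos : 0 < (2 : ℕ) ^ n := by positivity
      have h1 := ih a (by omega)
      have h2 := ih (a + 2 ^ n) (by omega)
      have h3 := hinc n a ha
      have h4 : ∑ ω, w ω * ∑ c ∈ range L, (Fr q a (n + 1) c ω) ^ 2 =
          (∑ ω, w ω * ∑ c ∈ range L, (Fr q a n c ω) ^ 2 +
            ∑ ω, w ω * ∑ c ∈ range L, (Fr q (a + 2 ^ n) n c ω) ^ 2) / 2 -
          (∑ ω, w ω * ∑ c ∈ range L, (Fr q a n c ω - Fr q (a + 2 ^ n) n c ω) ^ 2) / 4 := by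
        rw [← sum_add_distrib, sum_div, sum_div, ← sum_sub_distrib]
        refine sum_congr rfl fun ω _ => ?_
        rw [← mul_add, ← sum_add_distrib, mul_div_assoc, mul_div_assoc, ← mul_sub, sum_div, sum_div,
          ← sum_sub_distrib]
        congr 1
        refine sum_congr rfl fun c _ => ?_
        rw [Fr_succ]
        ring
      rw [h4]
      have h5 : g ^ 2 / (4 * L) / 4 = g ^ 2 / (16 * L) := by
        rw [div_div]; congr 1; ring
      push_cast
      have h6 : g ^ 2 / (16 * L) ≤ (∑ ω, w ω * ∑ c ∈ range L,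
          (Fr q a n c ω - Fr q (a + 2 ^ n) n c ω) ^ 2) / 4 := by
        rw [← h5]; linarith
      linarith
  have h1 := hind m 0 (by simp)
  have h2 : 0 ≤ ∑ ω, w ω * ∑ c ∈ range L, (Fr q 0 m c ω) ^ 2 :=
    sum_nonneg fun ω _ => mul_nonneg (hw ω) (sum_nonneg fun c _ => sq_nonneg _)
  have h3 : (m : ℝ) * (g ^ 2 / (16 * L)) ≤ L := by linarith
  rw [← mul_div_assoc, div_le_iff₀ (by positivity)] at h3
  nlinarith

end Pool.Agent.Half
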