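import Pool.Agent.Lib_MP_33fb9b_half.Marg
import Pool.Agent.Lib_MP_33fb9b_half.Energy
import Pool.Agent.Lib_MP_33fb9b_half.Tourn

set_option autoImplicit false

/-!
# K07: the metric `ds` of an unbalanced poset is doubling (blueprint C3)
-/

namespace Pool.Agent.Half

open Pool.Agent.BFT MeasureTheory Finset

/-- cell number of a real number `x`: width `η`, range `[-M, M]`, overflow clamped -/
private noncomputable def dbCell (L : ℕ) (M η x : ℝ) : ℕ := min L ⌊(x + M) / η⌋₊

private theorem dbCell_lt (L : ℕ) (M η x : ℝ) : dbCell L M η x < L + 1 :=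
  Nat.lt_succ_of_le (min_le_left _ _)

private theorem dbCell_mono (L : ℕ) {M η x y : ℝ} (hη : 0 < η) (h : x ≤ y) :
    dbCell L M η x ≤ dbCell L M η y := by
  unfold dbCell
  apply min_le_min_left
  apply Nat.floor_mono
  apply div_le_div_of_nonneg_right _ hη.le
  linarith

private theorem dbCell_strict {L : ℕ} {M η x y : ℝ} (hη : 0 < η) (hL : 2 * M / η ≤ L)
    (h : x + η < y) (hx : -M ≤ x) (hy : y ≤ M) : dbCell L M η x < dbCell L M η y := by
  unfold dbCell
  have h0 : 0 ≤ (x + M) / η := div_nonneg (by linarith) hη.le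
  have h1 : (x + M) / η + 1 ≤ (y + M) / η := by
    rw [div_add_one hη.ne']
    apply div_le_div_of_nonneg_right _ hη.le
    linarith
  have h2 : ⌊(x + M) / η⌋₊ + 1 ≤ ⌊(y + M) / η⌋₊ := by
    rw [← Nat.floor_add_one h0]
    exact Nat.floor_mono h1
  have h3 : (y + M) / η ≤ L := by
    apply le_trans _ hL
    apply div_le_div_of_nonneg_right _ hη.le
    linarith
  have h4 : ⌊(y + M) / η⌋₊ ≤ L := by
    apply Nat.floor_le_of_le h3
  have h5 : min L ⌊(y + M) / η⌋₊ = ⌊(y + M) / η⌋₊ := min_eq_right h4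
  rw [h5]
  exact lt_of_le_of_lt (min_le_right _ _) (by omega)

private theorem dbCell_sg {L : ℕ} {M η x y : ℝ} (hη : 0 < η) (hL : 2 * M / η ≤ L) :
    ind (x < y) - ind (y < x) - ind (|x - y| ≤ η) - ind (M < |x|) - ind (M < |y|) ≤
      sg (dbCell L M η x) (dbCell L M η y) := by
  have i1 := ind_nonneg (|x - y| ≤ η)
  have i2 := ind_nonneg (M < |x|)
  have i3 := ind_nonneg (M < |y|)
  have i4 := ind_nonneg (y < x)
  have i5 := ind_le_one (x < y)
  have s1 : -1 ≤ sg (dbCell L M η x) (dbCell L M η y) := by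
    unfold sg; split_ifs <;> norm_num
  rcases lt_trichotomy x y with h | h | h
  · have s2 : 0 ≤ sg (dbCell L M η x) (dbCell L M η y) := by
      have := dbCell_mono L (M := M) hη h.le
      unfold sg
      rw [if_neg (not_lt.mpr this)]
      split_ifs <;> norm_num
    by_cases h1 : |x - y| ≤ η
    · rw [ind_true h1]; linarith
    · by_cases h2 : M < |x|
      · rw [ind_true h2]; linarith
      · by_cases h3 : M < |y|
        · rw [ind_true h3]; linarith
        · rw [not_le] at h1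
          rw [not_lt] at h2 h3
          have h4 : |x - y| = y - x := by rw [abs_sub_comm]; exact abs_of_pos (by linarith)
          rw [h4] at h1
          have h5 := dbCell_strict hη hL (x := x) (y := y) (by linarith) (abs_le.mp h2).1
            (abs_le.mp h3).2
          have h6 : sg (dbCell L M η x) (dbCell L M η y) = 1 := by
            unfold sg; rw [if_pos h5]
          rw [h6]; linarith
  · have h1 : |x - y| ≤ η := by rw [h, sub_self, abs_zero]; exact hη.le
    have h2 : ¬ x < y := by rw [h]; exact lt_irrefl _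
    rw [ind_true h1, ind_false h2]; linarith
  · have h2 : ¬ x < y := not_lt.mpr h.le
    rw [ind_true h, ind_false h2]; linarith

section

variable {P : Type} [Fintype P] [PartialOrder P]

private theorem db_Ex_eq (f : BFT.LE P → ℝ) :
    Ex f = ∑ σ : BFT.LE P, (Fintype.card (BFT.LE P) : ℝ)⁻¹ * f σ := by
  unfold Ex
  rw [div_eq_inv_mul, Finset.mul_sum]

/-- Markov -/
private theorem db_markov (u v : P) {c : ℝ} (hc : 0 < c) :
    BFT.Pr (fun σ : BFT.LE P => c < |(pos σ u : ℝ) - pos σ v|) ≤ ds u v / c := by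
  unfold BFT.Pr ds
  rw [div_eq_inv_mul, ← Ex_mul]
  apply Ex_mono
  intro σ
  by_cases h : c < |(pos σ u : ℝ) - pos σ v|
  · rw [ind_true h, ← div_eq_inv_mul, one_le_div hc]
    exact h.le
  · rw [ind_false h]
    positivity

private theorem db_sg {d r : ℝ} (hr : 0 < r) {L : ℕ} {M η : ℝ} (hη : 0 < η) (hM : 0 < M)
    (hL : 2 * M / η ≤ L) (a u v : P) (huv : u ≠ v) (hlt : 1 - d ≤ BFT.lt u v)
    (hau : ds u a ≤ 4 * r) (hav : ds v a ≤ 4 * r) (hsp : r / 2 ≤ sp u v) :
    (1 - 2 * d) - 2000 * η - 8 / M ≤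
      Ex (fun σ : BFT.LE P => sg (dbCell L M η (((pos σ u : ℝ) - pos σ a) / r))
        (dbCell L M η (((pos σ v : ℝ) - pos σ a) / r))) := by
  have h1 : ∀ σ : BFT.LE P, ind (pos σ u < pos σ v) - ind (pos σ v < pos σ u) -
      ind (|(pos σ u : ℝ) - pos σ v| ≤ η * r) - ind (M * r < |(pos σ u : ℝ) - pos σ a|) -
      ind (M * r < |(pos σ v : ℝ) - pos σ a|) ≤
      sg (dbCell L M η (((pos σ u : ℝ) - pos σ a) / r))
        (dbCell L M η (((pos σ v : ℝ) - pos σ a) / r)) := by
    intro σ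
    have h := dbCell_sg (L := L) (M := M) (η := η) (x := ((pos σ u : ℝ) - pos σ a) / r)
      (y := ((pos σ v : ℝ) - pos σ a) / r) hη hL
    have e1 : (((pos σ u : ℝ) - pos σ a) / r < ((pos σ v : ℝ) - pos σ a) / r) ↔
        pos σ u < pos σ v := by
      rw [div_lt_div_iff_of_pos_right hr, sub_lt_sub_iff_right, Nat.cast_lt]
    have e2 : (((pos σ v : ℝ) - pos σ a) / r < ((pos σ u : ℝ) - pos σ a) / r) ↔
        pos σ v < pos σ u := by
      rw [div_lt_div_iff_of_pos_right hr, sub_lt_sub_iff_right, Nat.cast_lt]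
    have e3 : (|((pos σ u : ℝ) - pos σ a) / r - ((pos σ v : ℝ) - pos σ a) / r| ≤ η) ↔
        |(pos σ u : ℝ) - pos σ v| ≤ η * r := by
      have : ((pos σ u : ℝ) - pos σ a) / r - ((pos σ v : ℝ) - pos σ a) / r =
          ((pos σ u : ℝ) - pos σ v) / r := by ring
      rw [this, abs_div, abs_of_pos hr, div_le_iff₀ hr]
    have e4 : (M < |((pos σ u : ℝ) - pos σ a) / r|) ↔ M * r < |(pos σ u : ℝ) - pos σ a| := by
      rw [abs_div, abs_of_pos hr, lt_div_iff₀ hr]
    have e5 : (M < |((pos σ v : ℝ) - pos σ a) / r|) ↔ M * r < |(pos σ v : ℝ) - pos σ a| := by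
      rw [abs_div, abs_of_pos hr, lt_div_iff₀ hr]
    rw [propext e1, propext e2, propext e3, propext e4, propext e5] at h
    exact h
  refine le_trans ?_ (Ex_mono h1)
  rw [Ex_sub, Ex_sub, Ex_sub, Ex_sub]
  have t1 : Ex (fun σ : BFT.LE P => ind (pos σ u < pos σ v)) = BFT.lt u v := rfl
  have t2 : Ex (fun σ : BFT.LE P => ind (pos σ v < pos σ u)) = BFT.lt v u := rfl
  have t3 : Ex (fun σ : BFT.LE P => ind (|(pos σ u : ℝ) - pos σ v| ≤ η * r)) ≤
      2000 * η := by
    have h := ds_small u v (lt_of_lt_of_le (by positivity) hsp) (η * r) (by positivity)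
    refine le_trans h ?_
    rw [div_le_iff₀ (lt_of_lt_of_le (by positivity) hsp)]
    nlinarith [mul_le_mul_of_nonneg_left hsp (show (0:ℝ) ≤ 2000 * η by positivity)]
  have hMr : 0 < M * r := by positivity
  have t4 : Ex (fun σ : BFT.LE P => ind (M * r < |(pos σ u : ℝ) - pos σ a|)) ≤ 4 / M := by
    refine le_trans (db_markov u a hMr) ?_
    rw [div_le_div_iff₀ hMr hM]
    nlinarith
  have t5 : Ex (fun σ : BFT.LE P => ind (M * r < |(pos σ v : ℝ) - pos σ a|)) ≤ 4 / M := by
    refine le_trans (db_markov v a hMr) ?_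
    rw [div_le_div_iff₀ hMr hM]
    nlinarith
  have t6 := lt_add huv
  have t7 : 8 / M = 4 / M + 4 / M := by ring
  rw [t1, t2, t7]
  linarith

end

/-- DOUBLING. Proof: `|ht u - ht v| ≤ ds u v ≤ 4 r`, so at least `card/16` elements have mean positions
within `r/2` of each other, then `sp ≥ r/2` (`ds_le_sp`). Majority tournament (`lt u v > 1/2`, then
`lt u v ≥ 1 - d`), transitive chain `w_0, w_1, ..` of length `2^m`. `q i` = number of the cell (width
`η r`, range `[-M r, M r]`, overflow clamped) of `pos (w_i) - pos (w_0)`; `E sg (q i) (q j) ≥ (1-2d)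
- P(|pos w_i - pos w_j| ≤ η r) - 2*4/M ≥ (1-2d)/2` by `ds_small` and Markov. `energy` bounds `m`. -/
theorem doubling (d : ℝ) (hd : d < 1 / 2) : ∃ R : ℕ, 1 ≤ R ∧ ∀ (P : Type) [Fintype P] [PartialOrder P],
    Unb P d → ∀ (r : ℝ) (A : Finset P), 0 < r →
      (∀ u ∈ A, ∀ v ∈ A, u ≠ v → r ≤ ds u v ∧ ds u v ≤ 4 * r) → A.card ≤ R := by
  classical
  set γ : ℝ := 1 - 2 * d with hγ
  have hγ0 : 0 < γ := by rw [hγ]; linarith
  set η : ℝ := γ / 8000 with hηd
  have hη : 0 < η := by rw [hηd]; positivity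
  set M : ℝ := 32 / γ with hMd
  have hM : 0 < M := by rw [hMd]; positivity
  obtain ⟨L, hL⟩ := exists_nat_ge (2 * M / η)
  obtain ⟨m, hm⟩ := exists_nat_gt (16 * ((L + 1 : ℕ) : ℝ) ^ 2 / (γ / 2) ^ 2)
  refine ⟨17 * 2 ^ (2 ^ m), Nat.succ_le_of_lt (by positivity), ?_⟩
  intro P _ _ hU r A hr hA
  by_contra hcon
  rw [not_le] at hcon
  have hAne : A.Nonempty := by
    rw [← Finset.card_pos]; exact lt_of_le_of_lt (Nat.zero_le _) hcon
  obtain ⟨a0, ha0⟩ := hAne
  -- all elements are at distance at most `4 r`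
  have hle : ∀ u ∈ A, ∀ v ∈ A, ds u v ≤ 4 * r := by
    intro u hu v hv
    by_cases h : u = v
    · rw [h, ds_self]; positivity
    · exact (hA u hu v hv h).2
  -- pigeonhole for the mean positions
  obtain ⟨y, -, hy⟩ := Finset.exists_lt_card_fiber_of_mul_lt_card_of_maps_to
    (s := A) (t := Finset.range 17) (f := fun u => ⌊(ht u - ht a0 + 4 * r) / (r / 2)⌋₊)
    (n := 2 ^ (2 ^ m)) (by
      intro u hu
      rw [Finset.mem_range]
      have h1 := abs_le.mp (le_trans (ht_le_ds a0 u) (hle a0 ha0 u hu))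
      rw [Nat.floor_lt (div_nonneg (by linarith) (by positivity)), div_lt_iff₀ (by positivity)]
      push_cast
      linarith) (by rw [Finset.card_range]; exact hcon)
  set B := A.filter (fun u => ⌊(ht u - ht a0 + 4 * r) / (r / 2)⌋₊ = y) with hB
  have hBA : ∀ u ∈ B, u ∈ A := fun u hu => (Finset.mem_filter.mp hu).1
  have hBsp : ∀ u ∈ B, ∀ v ∈ B, u ≠ v → r / 2 ≤ sp u v := by
    intro u hu v hv huv
    have h1 := (hA u (hBA u hu) v (hBA v hv) huv).1
    have h2 := ds_le_sp u v
    have h3 : |ht v - ht u| ≤ r / 2 := by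
      have hu1 := abs_le.mp (le_trans (ht_le_ds a0 u) (hle a0 ha0 u (hBA u hu)))
      have hv1 := abs_le.mp (le_trans (ht_le_ds a0 v) (hle a0 ha0 v (hBA v hv)))
      have hu2 := (Finset.mem_filter.mp hu).2
      have hv2 := (Finset.mem_filter.mp hv).2
      have hr2 : 0 < r / 2 := by positivity
      rw [Nat.floor_eq_iff (div_nonneg (by linarith) hr2.le), le_div_iff₀ hr2,
        div_lt_iff₀ hr2] at hu2 hv2
      rw [abs_le]
      constructor <;> nlinarith
    linarith
  -- the tournament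
  obtain ⟨f, hf1, hf2⟩ := tournament (fun u v : P => 1 - d ≤ BFT.lt u v) (2 ^ m) B hy.le (by
    intro u _ v _ huv
    have h1 := hU u v huv
    have h2 := lt_add huv
    rcases min_le_iff.mp h1 with h | h
    · right; linarith
    · left; linarith)
  have hcard := cardLE_pos (P := P)
  have hen := energy (Ω := BFT.LE P) (fun _ => (Fintype.card (BFT.LE P) : ℝ)⁻¹)
    (fun _ => by positivity)
    (by rw [Finset.sum_const, Finset.card_univ, nsmul_eq_mul, mul_inv_cancel₀ hcard.ne'])
    (L + 1) m (γ / 2) (by positivity)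
    (fun i σ => dbCell L M η (((pos σ (f i) : ℝ) - pos σ (f 0)) / r))
    (fun i σ => dbCell_lt _ _ _ _) (by
      intro i j hij hj
      have hi' : f i ∈ B := hf1 i (by omega)
      have hj' : f j ∈ B := hf1 j (by omega)
      have h0' : f 0 ∈ B := hf1 0 (by omega)
      obtain ⟨hne, hlt⟩ := hf2 i j hij hj.le
      have h := db_sg (d := d) hr hη hM hL (f 0) (f i) (f j) hne hlt
        (hle _ (hBA _ hi') _ (hBA _ h0')) (hle _ (hBA _ hj') _ (hBA _ h0'))
        (hBsp _ hi' _ hj' hne)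
      rw [db_Ex_eq] at h
      refine le_trans ?_ h
      have e1 : 8 / M = γ / 4 := by
        rw [hMd]; field_simp; norm_num
      have e2 : 2000 * η = γ / 4 := by rw [hηd]; ring
      rw [e1, e2]
      linarith)
  have hg2 : (0:ℝ) < (γ / 2) ^ 2 := by positivity
  rw [div_lt_iff₀ hg2] at hm
  linarith

end Pool.Agent.Half
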