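import Pool.Agent.Lib_MP_33fb9b_half.Defs

set_option autoImplicit false

/-!
# K19: adding a long chain below and above a poset (blueprint C0)
-/

namespace Pool.Agent.Half

open Pool.Agent.BFT

/-- chain of `m` elements, then `P`, then a chain of `m` elements -/
inductive ExtPad (P : Type) (m : ℕ) : Type
  | bot (i : Fin m) : ExtPad P m
  | mid (u : P) : ExtPad P m
  | top (i : Fin m) : ExtPad P m

namespace ExtPad

/-- the underlying sum -/
def equivSum (P : Type) (m : ℕ) : (Fin m ⊕ P) ⊕ Fin m ≃ ExtPad P m where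
  toFun x := match x with
    | Sum.inl (Sum.inl i) => bot i
    | Sum.inl (Sum.inr u) => mid u
    | Sum.inr i => top i
  invFun x := match x with
    | bot i => Sum.inl (Sum.inl i)
    | mid u => Sum.inl (Sum.inr u)
    | top i => Sum.inr i
  left_inv x := by rcases x with (i | u) | i <;> rfl
  right_inv x := by cases x <;> rfl

noncomputable instance (P : Type) [Fintype P] (m : ℕ) : Fintype (ExtPad P m) :=
  Fintype.ofEquiv _ (equivSum P m)

theorem sum_eq {P : Type} [Fintype P] {m : ℕ} (f : ExtPad P m → ℕ) :
    ∑ w, f w = ∑ i, f (bot i) + ∑ u, f (mid u) + ∑ i, f (top i) := by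
  rw [← (equivSum P m).sum_comp f, Fintype.sum_sum_type, Fintype.sum_sum_type]
  rfl

theorem card_eq (P : Type) [Fintype P] (m : ℕ) :
    Fintype.card (ExtPad P m) = Fintype.card P + 2 * m := by
  rw [← Fintype.card_congr (equivSum P m)]
  simp only [Fintype.card_sum, Fintype.card_fin]
  ring

/-- the order -/
def ple {P : Type} [PartialOrder P] {m : ℕ} : ExtPad P m → ExtPad P m → Prop
  | bot i, bot j => i ≤ j
  | bot _, mid _ => True
  | bot _, top _ => True
  | mid _, bot _ => False
  | mid u, mid v => u ≤ v
  | mid _, top _ => True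
  | top _, bot _ => False
  | top _, mid _ => False
  | top i, top j => i ≤ j

instance {P : Type} [PartialOrder P] {m : ℕ} : PartialOrder (ExtPad P m) where
  le := ple
  le_refl x := by cases x <;> simp [ple]
  le_trans x y z h1 h2 := by
    cases x <;> cases y <;> cases z <;> simp_all [ple] <;> exact h1.trans h2
  le_antisymm x y h1 h2 := by
    cases x <;> cases y <;> simp_all [ple] <;> exact le_antisymm h1 h2

section
variable {P : Type} [PartialOrder P] {m : ℕ}

theorem bot_le_bot {i j : Fin m} : (bot i : ExtPad P m) ≤ bot j ↔ i ≤ j := Iff.rfl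
theorem mid_le_mid {u v : P} : (mid u : ExtPad P m) ≤ mid v ↔ u ≤ v := Iff.rfl
theorem top_le_top {i j : Fin m} : (top i : ExtPad P m) ≤ top j ↔ i ≤ j := Iff.rfl
theorem bot_lt_bot {i j : Fin m} : (bot i : ExtPad P m) < bot j ↔ i < j := by
  rw [lt_iff_le_not_ge, bot_le_bot, bot_le_bot, lt_iff_le_not_ge]
theorem top_lt_top {i j : Fin m} : (top i : ExtPad P m) < top j ↔ i < j := by
  rw [lt_iff_le_not_ge, top_le_top, top_le_top, lt_iff_le_not_ge]
theorem bot_lt_mid (i : Fin m) (u : P) : (bot i : ExtPad P m) < mid u := by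
  rw [lt_iff_le_not_ge]
  exact ⟨trivial, fun h => h⟩
theorem bot_lt_top (i j : Fin m) : (bot i : ExtPad P m) < top j := by
  rw [lt_iff_le_not_ge]
  exact ⟨trivial, fun h => h⟩
theorem mid_lt_top (u : P) (j : Fin m) : (mid u : ExtPad P m) < top j := by
  rw [lt_iff_le_not_ge]
  exact ⟨trivial, fun h => h⟩

end

variable {P : Type} [Fintype P] [PartialOrder P] {m : ℕ}

/-- a position is the number of smaller positions -/
theorem pos_eq_sum {Q : Type} [Fintype Q] [PartialOrder Q] (σ : BFT.LE Q) (w : Q) :
    pos σ w = ∑ w' : Q, if pos σ w' < pos σ w then 1 else 0 := by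
  classical
  rw [← Finset.card_filter]
  have h1 : (Finset.univ.filter fun w' : Q => pos σ w' < pos σ w).card =
      (Finset.Iio (σ.1 w)).card := by
    refine Finset.card_bij (fun w' _ => σ.1 w') ?_ ?_ ?_
    · intro w' hw'
      simp only [Finset.mem_filter, Finset.mem_univ, true_and] at hw'
      rw [Finset.mem_Iio]
      exact Fin.lt_def.2 hw'
    · intro a _ b _ h
      exact σ.1.injective h
    · intro b hb
      refine ⟨σ.1.symm b, ?_, by simp⟩
      rw [Finset.mem_Iio] at hb
      simp only [Finset.mem_filter, Finset.mem_univ, true_and]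
      show ((σ.1 (σ.1.symm b) : Fin _) : ℕ) < _
      rw [Equiv.apply_symm_apply]
      exact Fin.lt_def.1 hb
  rw [h1, Fin.card_Iio]
  rfl

theorem pos_bot (σ : BFT.LE (ExtPad P m)) (i : Fin m) : pos σ (bot i) = i := by
  rw [pos_eq_sum, sum_eq]
  have h1 : ∀ j : Fin m, (if pos σ (bot j) < pos σ (bot i) then 1 else 0) =
      if j < i then 1 else 0 := by
    intro j
    by_cases h : j < i
    · rw [if_pos h, if_pos (pos_lt_of_lt σ (bot_lt_bot.2 h))]
    · rw [if_neg h, if_neg]
      rw [not_lt] at h ⊢
      exact σ.2 (bot_le_bot.2 h)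
  have h2 : ∀ u : P, (if pos σ (mid u) < pos σ (bot i) then 1 else 0) = 0 := fun u =>
    if_neg (not_lt.2 (pos_lt_of_lt σ (bot_lt_mid i u)).le)
  have h3 : ∀ j : Fin m, (if pos σ (top j) < pos σ (bot i) then 1 else 0) = 0 := fun j =>
    if_neg (not_lt.2 (pos_lt_of_lt σ (bot_lt_top i j)).le)
  simp only [h1, h2, h3, Finset.sum_const_zero, add_zero]
  rw [← Finset.card_filter]
  have : (Finset.univ.filter fun j : Fin m => j < i) = Finset.Iio i := by ext j; simp
  rw [this, Fin.card_Iio]

theorem pos_mid (σ : BFT.LE (ExtPad P m)) (u : P) :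
    m ≤ pos σ (mid u) ∧ pos σ (mid u) < m + Fintype.card P := by
  classical
  rw [pos_eq_sum, sum_eq]
  have h1 : ∀ j : Fin m, (if pos σ (bot j) < pos σ (mid u) then 1 else 0) = 1 := fun j =>
    if_pos (pos_lt_of_lt σ (bot_lt_mid j u))
  have h3 : ∀ j : Fin m, (if pos σ (top j) < pos σ (mid u) then 1 else 0) = 0 := fun j =>
    if_neg (not_lt.2 (pos_lt_of_lt σ (mid_lt_top u j)).le)
  simp only [h1, h3, Finset.sum_const_zero, add_zero, Finset.sum_const, Finset.card_univ,
    Fintype.card_fin, smul_eq_mul, mul_one]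
  refine ⟨Nat.le_add_right _ _, Nat.add_lt_add_left ?_ m⟩
  rw [← Finset.card_filter]
  refine lt_of_lt_of_le (Finset.card_lt_card (t := Finset.univ) ?_) (by rw [Finset.card_univ])
  rw [Finset.ssubset_univ_iff]
  intro h
  have : u ∈ (Finset.univ.filter fun v : P => pos σ (mid v) < pos σ (mid u)) := by
    rw [h]; exact Finset.mem_univ u
  simp at this

theorem pos_top (σ : BFT.LE (ExtPad P m)) (i : Fin m) :
    pos σ (top i) = m + Fintype.card P + i := by
  rw [pos_eq_sum, sum_eq]
  have h1 : ∀ j : Fin m, (if pos σ (bot j) < pos σ (top i) then 1 else 0) = 1 := fun j =>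
    if_pos (pos_lt_of_lt σ (bot_lt_top j i))
  have h2 : ∀ u : P, (if pos σ (mid u) < pos σ (top i) then 1 else 0) = 1 := fun u =>
    if_pos (pos_lt_of_lt σ (mid_lt_top u i))
  have h3 : ∀ j : Fin m, (if pos σ (top j) < pos σ (top i) then 1 else 0) =
      if j < i then 1 else 0 := by
    intro j
    by_cases h : j < i
    · rw [if_pos h, if_pos (pos_lt_of_lt σ (top_lt_top.2 h))]
    · rw [if_neg h, if_neg]
      rw [not_lt] at h ⊢
      exact σ.2 (top_le_top.2 h)
  simp only [h1, h2, h3, Finset.sum_const, Finset.card_univ, Fintype.card_fin, smul_eq_mul,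
    mul_one]
  rw [← Finset.card_filter]
  have : (Finset.univ.filter fun j : Fin m => j < i) = Finset.Iio i := by ext j; simp
  rw [this, Fin.card_Iio]

/-- restriction of a linear extension -/
noncomputable def res (σ : BFT.LE (ExtPad P m)) : BFT.LE P :=
  ⟨Equiv.ofBijective (fun u => (⟨pos σ (mid u) - m, by have := pos_mid σ u; omega⟩ :
      Fin (Fintype.card P))) (by
    refine (Fintype.bijective_iff_injective_and_card _).2 ⟨?_, by simp⟩
    intro u v h
    have h1 : pos σ (mid u) - m = pos σ (mid v) - m := congrArg Fin.val h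
    have h2 := pos_mid σ u
    have h3 := pos_mid σ v
    have h4 : (mid u : ExtPad P m) = mid v := pos_inj (σ := σ) (by omega)
    injection h4), by
    intro u v h
    have h1 : pos σ (mid u) ≤ pos σ (mid v) := σ.2 (mid_le_mid.2 h)
    show pos σ (mid u) - m ≤ pos σ (mid v) - m
    omega⟩

theorem pos_res (σ : BFT.LE (ExtPad P m)) (u : P) : pos σ (mid u) = m + pos (res σ) u := by
  have h1 : pos (res σ) u = pos σ (mid u) - m := rfl
  have := pos_mid σ u
  omega

/-- positions of the extended linear extension -/
noncomputable def ef (m : ℕ) (σ : BFT.LE P) : ExtPad P m → ℕ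
  | bot i => i
  | mid u => m + pos σ u
  | top i => m + Fintype.card P + i

theorem ef_lt (σ : BFT.LE P) (w : ExtPad P m) : ef m σ w < Fintype.card (ExtPad P m) := by
  rw [card_eq]
  cases w with
  | bot i => have := i.2; simp only [ef]; omega
  | mid u => have := pos_lt_card σ u; simp only [ef]; omega
  | top i => have := i.2; simp only [ef]; omega

theorem ef_inj (σ : BFT.LE P) : Function.Injective (ef m σ) := by
  intro w w' h
  cases w with
  | bot i =>
    cases w' with
    | bot j => simp only [ef] at h; rw [Fin.ext h]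
    | mid v => simp only [ef] at h; have := i.2; omega
    | top j => simp only [ef] at h; have := i.2; omega
  | mid u =>
    have hu := pos_lt_card σ u
    cases w' with
    | bot j => simp only [ef] at h; have := j.2; omega
    | mid v => simp only [ef] at h; rw [pos_inj (σ := σ) (u := u) (v := v) (by omega)]
    | top j => simp only [ef] at h; omega
  | top i =>
    cases w' with
    | bot j => simp only [ef] at h; have := j.2; omega
    | mid v => simp only [ef] at h; have := pos_lt_card σ v; omega
    | top j => simp only [ef] at h; rw [Fin.ext (show (i : ℕ) = j by omega)]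

theorem ef_mono (σ : BFT.LE P) : ∀ w w' : ExtPad P m, w ≤ w' → ef m σ w ≤ ef m σ w' := by
  intro w w' h
  cases w with
  | bot i =>
    cases w' with
    | bot j => simp only [ef]; exact Fin.le_def.1 (bot_le_bot.1 h)
    | mid v => simp only [ef]; have := i.2; omega
    | top j => simp only [ef]; have := i.2; omega
  | mid u =>
    have hu := pos_lt_card σ u
    cases w' with
    | bot j => exact absurd h (fun h => h)
    | mid v =>
      simp only [ef]
      have : pos σ u ≤ pos σ v := σ.2 (mid_le_mid.1 h)
      omega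
    | top j => simp only [ef]; omega
  | top i =>
    cases w' with
    | bot j => exact absurd h (fun h => h)
    | mid v => exact absurd h (fun h => h)
    | top j =>
      simp only [ef]
      have := Fin.le_def.1 (top_le_top.1 h)
      omega

/-- extension of a linear extension -/
noncomputable def ext (m : ℕ) (σ : BFT.LE P) : BFT.LE (ExtPad P m) :=
  ⟨Equiv.ofBijective (fun w => (⟨ef m σ w, ef_lt σ w⟩ : Fin (Fintype.card (ExtPad P m)))) (by
    refine (Fintype.bijective_iff_injective_and_card _).2 ⟨?_, by simp⟩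
    intro w w' h
    exact ef_inj σ (congrArg Fin.val h)), by
    intro w w' h
    exact Fin.le_def.2 (ef_mono σ w w' h)⟩

theorem pos_ext (σ : BFT.LE P) (w : ExtPad P m) : pos (ext m σ) w = ef m σ w := rfl

/-- linear extensions of the padded poset -/
noncomputable def equivLE (P : Type) [Fintype P] [PartialOrder P] (m : ℕ) :
    BFT.LE P ≃ BFT.LE (ExtPad P m) where
  toFun := ext m
  invFun := res
  left_inv σ := by
    refine LE_ext fun u => ?_
    have h1 := pos_res (ext m σ) u
    rw [pos_ext] at h1
    simp only [ef] at h1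
    omega
  right_inv σ := by
    refine LE_ext fun w => ?_
    rw [pos_ext]
    cases w with
    | bot i => simp only [ef]; rw [pos_bot]
    | mid u => simp only [ef]; rw [pos_res]
    | top i => simp only [ef]; rw [pos_top]

theorem Ex_pad (F : BFT.LE (ExtPad P m) → ℝ) : Ex F = Ex (fun σ => F (ext m σ)) := by
  unfold Ex
  rw [Fintype.card_congr (equivLE P m)]
  congr 1
  exact ((equivLE P m).sum_comp F).symm

end ExtPad

/-- `P' = chain(m) + P + chain(m)` (for instance `Fin m ⊕ₗ P ⊕ₗ Fin m`). The linear extensions of `P'`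
restrict bijectively to those of `P`, with positions shifted by `m`. -/
theorem padding (P : Type) [Fintype P] [PartialOrder P] (m : ℕ) :
    ∃ (P' : Type) (_ : Fintype P') (_ : PartialOrder P') (ι : P → P'), Function.Injective ι ∧
      Fintype.card P' = Fintype.card P + 2 * m ∧
      (∀ u v : P, BFT.lt (ι u) (ι v) = BFT.lt u v) ∧
      (∀ u v : P, ds (ι u) (ι v) = ds u v) ∧
      (∀ (σ : BFT.LE P') (u : P), m ≤ pos σ (ι u) ∧ pos σ (ι u) < m + Fintype.card P) ∧
      (∀ w : P', w ∉ Set.range ι → ∃ k : ℕ, ∀ σ : BFT.LE P', pos σ w = k) ∧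
      (∀ w : P', w ∉ Set.range ι → ∀ w' : P', w' ≠ w →
        (BFT.lt w w' = 0 ∨ BFT.lt w w' = 1)) := by
  refine ⟨ExtPad P m, inferInstance, inferInstance, ExtPad.mid, ?_, ExtPad.card_eq P m, ?_, ?_,
    ?_, ?_, ?_⟩
  · intro u v h
    injection h
  · intro u v
    unfold BFT.lt Pr
    rw [ExtPad.Ex_pad]
    refine Ex_congr fun σ => ?_
    show ind (pos (ExtPad.ext m σ) (ExtPad.mid u) < pos (ExtPad.ext m σ) (ExtPad.mid v)) =
      ind (pos σ u < pos σ v)
    rw [ExtPad.pos_ext, ExtPad.pos_ext]
    simp only [ExtPad.ef, Nat.add_lt_add_iff_left]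
  · intro u v
    unfold ds
    rw [ExtPad.Ex_pad]
    refine Ex_congr fun σ => ?_
    rw [ExtPad.pos_ext, ExtPad.pos_ext]
    simp only [ExtPad.ef, Nat.cast_add]
    congr 1
    ring
  · intro σ u
    exact ExtPad.pos_mid σ u
  · intro w hw
    cases w with
    | bot i => exact ⟨i, fun σ => ExtPad.pos_bot σ i⟩
    | mid u => exact absurd ⟨u, rfl⟩ hw
    | top i => exact ⟨m + Fintype.card P + i, fun σ => ExtPad.pos_top σ i⟩
  · intro w hw w' hne
    have hcmp : w < w' ∨ w' < w := by
      cases w with
      | bot i =>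
        cases w' with
        | bot j =>
          rcases lt_trichotomy i j with h | h | h
          · exact Or.inl (ExtPad.bot_lt_bot.2 h)
          · exact absurd (by rw [h]) hne
          · exact Or.inr (ExtPad.bot_lt_bot.2 h)
        | mid v => exact Or.inl (ExtPad.bot_lt_mid i v)
        | top j => exact Or.inl (ExtPad.bot_lt_top i j)
      | mid u => exact absurd ⟨u, rfl⟩ hw
      | top i =>
        cases w' with
        | bot j => exact Or.inr (ExtPad.bot_lt_top j i)
        | mid v => exact Or.inr (ExtPad.mid_lt_top v i)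
        | top j =>
          rcases lt_trichotomy i j with h | h | h
          · exact Or.inl (ExtPad.top_lt_top.2 h)
          · exact absurd (by rw [h]) hne
          · exact Or.inr (ExtPad.top_lt_top.2 h)
    rcases hcmp with h | h
    · exact Or.inr (lt_of_lt h)
    · exact Or.inl (lt_of_gt h)

end Pool.Agent.Half
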