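import Pool.Agent.Lib_MP_33fb9b_half.Defs
import Pool.Agent.Lib_MP_33fb9b_bft.XLD
import Pool.Agent.Lib_MP_33fb9b_ks.GamVar

set_option autoImplicit false

/-!
# K17: sums of independent exponential variables (blueprint C6)
-/

namespace Pool.Agent.Half

open Pool.Agent.BFT MeasureTheory

private theorem Gam_expo_exp : ∫ x, Real.exp (-x) ∂expo = 1 / 2 := by
  have hlt : ∀ᵐ x ∂(volume : Measure ℝ),
      ENNReal.ofReal (if 0 < x then Real.exp (-x) else 0) < ⊤ :=
    Filter.Eventually.of_forall fun x => ENNReal.ofReal_lt_top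
  unfold expo
  rw [integral_withDensity_eq_integral_toReal_smul expo_meas hlt]
  have h1 : ∀ x : ℝ, (ENNReal.ofReal (if 0 < x then Real.exp (-x) else 0)).toReal • Real.exp (-x) =
      (Set.Ioi (0:ℝ)).indicator (fun x => Real.exp ((-2) * x)) x := by
    intro x
    by_cases h : 0 < x
    · rw [if_pos h, ENNReal.toReal_ofReal (Real.exp_pos _).le,
        Set.indicator_of_mem (Set.mem_Ioi.mpr h), smul_eq_mul, ← Real.exp_add]
      congr 1
      ring
    · rw [if_neg h, Set.indicator_of_notMem (by simpa using h)]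
      simp
  simp_rw [h1]
  rw [integral_indicator measurableSet_Ioi, integral_exp_mul_Ioi (by norm_num)]
  norm_num

/-- the Laplace transform: `P(∑_{j∈J} y_j ≤ |J|/2) ≤ (√e/2)^|J|` (Markov for `exp (-∑)`, `E exp (-y) = 1/2`) -/
theorem gam_lower (n : ℕ) (J : Finset (Fin n)) :
    (gam n).real {y | ∑ j ∈ J, y j ≤ (J.card : ℝ) / 2} ≤ (Real.exp (1 / 2) / 2) ^ J.card := by
  classical
  have hpos := gam_pos n
  have hmeas : Measurable (fun y : Fin n → ℝ => Real.exp ((-1) * ∑ j ∈ J, y j)) := by
    fun_prop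
  have hint : Integrable (fun y : Fin n → ℝ => Real.exp ((-1) * ∑ j ∈ J, y j)) (gam n) := by
    refine Integrable.of_bound hmeas.aestronglyMeasurable 1 ?_
    filter_upwards [hpos] with y hy
    rw [Real.norm_eq_abs, abs_of_pos (Real.exp_pos _), Real.exp_le_one_iff]
    have : 0 ≤ ∑ j ∈ J, y j := Finset.sum_nonneg fun j _ => (hy j).le
    linarith
  have h1 := ProbabilityTheory.measure_le_le_exp_mul_mgf (μ := gam n)
    (X := fun y : Fin n → ℝ => ∑ j ∈ J, y j) (t := -1) ((J.card : ℝ) / 2) (by norm_num) hint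
  have h2 : ProbabilityTheory.mgf (fun y : Fin n → ℝ => ∑ j ∈ J, y j) (gam n) (-1) =
      (1 / 2) ^ J.card := by
    unfold ProbabilityTheory.mgf
    have h3 : ∀ y : Fin n → ℝ, Real.exp ((-1) * ∑ j ∈ J, y j) =
        ∏ i, (if i ∈ J then Real.exp (-(y i)) else 1) := by
      intro y
      rw [Finset.prod_ite_mem, Finset.univ_inter, neg_one_mul, ← Finset.sum_neg_distrib,
        Real.exp_sum]
    simp_rw [h3]
    have h4 := integral_fintype_prod_eq_prod (𝕜 := ℝ) (μ := fun _ : Fin n => expo)
      (fun (i : Fin n) (x : ℝ) => if i ∈ J then Real.exp (-x) else 1)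
    unfold gam
    rw [h4]
    have h5 : ∀ i : Fin n, ∫ x, (if i ∈ J then Real.exp (-x) else 1) ∂expo =
        if i ∈ J then (1 / 2 : ℝ) else 1 := by
      intro i
      by_cases hi : i ∈ J
      · simp only [hi, if_true]; exact Gam_expo_exp
      · simp only [hi, if_false]; simp
    simp_rw [h5]
    rw [Finset.prod_ite_mem, Finset.univ_inter, Finset.prod_const]
  rw [h2] at h1
  refine h1.trans (le_of_eq ?_)
  have h6 : Real.exp (-(-1) * ((J.card : ℝ) / 2)) = Real.exp (1 / 2) ^ J.card := by
    rw [← Real.exp_nat_mul]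
    congr 1
    ring
  rw [h6, ← mul_pow]
  congr 1
  ring

/-- mean absolute deviation of a sum of spacings (from the variance, see `gam_cheb`) -/
theorem gam_dev (n : ℕ) (J : Finset (Fin n)) :
    Integrable (fun y : Fin n → ℝ => |∑ j ∈ J, y j - (J.card : ℝ)|) (gam n) ∧
      ∫ y, |∑ j ∈ J, y j - (J.card : ℝ)| ∂(gam n) ≤ Real.sqrt J.card := by
  classical
  let X : (i : Fin n) → ℝ → ℝ := fun i => if i ∈ J then (fun x => x) else (fun _ => 0)
  have hX : ∀ i, MemLp (X i) 2 expo := by
    intro i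
    by_cases hi : i ∈ J
    · simp only [X, if_pos hi]; exact Pool.Agent.Thin.expo_memLp
    · simp only [X, if_neg hi]; exact memLp_const 0
  have hV : ∀ i, ProbabilityTheory.variance (X i) expo = if i ∈ J then 1 else 0 := by
    intro i
    by_cases hi : i ∈ J
    · simp only [X, if_pos hi]; exact Pool.Agent.Thin.expo_var
    · simp only [X, if_neg hi]
      exact ProbabilityTheory.variance_zero (μ := expo)
  have hS : (∑ i, fun ω : Fin n → ℝ => X i (ω i)) = fun y => ∑ j ∈ J, y j := by
    funext y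
    rw [Finset.sum_apply, ← Finset.sum_filter_add_sum_filter_not Finset.univ (fun i => i ∈ J)]
    have h1 : ∑ i ∈ Finset.univ.filter (fun i => ¬ i ∈ J), X i (y i) = 0 := by
      apply Finset.sum_eq_zero
      intro i hi
      have : i ∉ J := by simpa using hi
      simp only [X, if_neg this]
    rw [h1, add_zero]
    have h2 : Finset.univ.filter (fun i => i ∈ J) = J := by ext; simp
    rw [h2]
    apply Finset.sum_congr rfl
    intro i hi
    simp only [X, if_pos hi]
  have hvar : ProbabilityTheory.variance (fun y : Fin n → ℝ => ∑ j ∈ J, y j) (gam n) =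
      (J.card : ℝ) := by
    have h := ProbabilityTheory.variance_sum_pi (μ := fun _ : Fin n => expo) hX
    rw [hS] at h
    unfold gam
    rw [h]
    simp_rw [hV]
    simp
  have hmem : MemLp (fun y : Fin n → ℝ => ∑ j ∈ J, y j) 2 (gam n) := by
    apply memLp_finsetSum
    intro j _
    exact Pool.Agent.Thin.expo_memLp.comp_measurePreserving
      (measurePreserving_eval (fun _ : Fin n => expo) j)
  have hmem2 : MemLp (fun y : Fin n → ℝ => ∑ j ∈ J, y j - (J.card : ℝ)) 2 (gam n) :=
    hmem.sub (memLp_const _)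
  have hmem3 : MemLp (fun y : Fin n → ℝ => |∑ j ∈ J, y j - (J.card : ℝ)|) 2 (gam n) :=
    hmem2.norm
  refine ⟨hmem3.integrable one_le_two, ?_⟩
  have hvv : ∫ y, (∑ j ∈ J, y j - (J.card : ℝ)) ^ 2 ∂(gam n) = (J.card : ℝ) := by
    rw [ProbabilityTheory.variance_eq_integral hmem.aestronglyMeasurable.aemeasurable,
      (gam_mean n J).2] at hvar
    exact hvar
  have h0 := ProbabilityTheory.variance_nonneg
    (fun y : Fin n → ℝ => |∑ j ∈ J, y j - (J.card : ℝ)|) (gam n)
  rw [ProbabilityTheory.variance_eq_sub hmem3] at h0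
  have h1 : ∫ y, ((fun y : Fin n → ℝ => |∑ j ∈ J, y j - (J.card : ℝ)|) ^ 2) y ∂(gam n) =
      (J.card : ℝ) := by
    refine Eq.trans ?_ hvv
    refine integral_congr_ae (Filter.Eventually.of_forall fun y => ?_)
    simp only [Pi.pow_apply, sq_abs]
  rw [h1] at h0
  refine Real.le_sqrt_of_sq_le ?_
  linarith

end Pool.Agent.Half
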