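import Pool.Agent.Lib_MP_33fb9b_half.HomDefs

set_option autoImplicit false

/-!
# K12: homogeneity lemma, step (a)
-/

namespace Pool.Agent.Half

open MeasureTheory

private theorem HomA_l1_nonneg {T : ℕ} (k : Fin T → ℝ) : 0 ≤ l1 k :=
  Finset.sum_nonneg fun _ _ => abs_nonneg _

/-- a function bounded by `M` and supported in `|y| ≤ B + b * l1 k` times a polynomial in `l1 k` is
admissible: `(1+|y|)^(3/2) (1 + l1 k)^m ≤ A exp (c l1 k)` there -/
theorem adm_aux (c : ℝ) (hc : 0 < c) (B b : ℝ) (hB : 0 ≤ B) (hb : 0 ≤ b) (m : ℕ) :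
    ∃ A : ℝ, 0 ≤ A ∧ ∀ (T : ℕ) (z : ℝ × (Fin T → ℝ)), |z.1| ≤ B + b * l1 z.2 →
      (1 + l1 z.2) ^ m ≤ A * om c z := by
  refine ⟨(1 + B + b) ^ 2 * (((m + 2).factorial : ℝ) / c ^ (m + 2) * Real.exp c), by positivity, ?_⟩
  intro T z hz
  set x : ℝ := l1 z.2 with hx
  have hx0 : 0 ≤ x := HomA_l1_nonneg z.2
  have hy0 : 0 ≤ |z.1| := abs_nonneg _
  have h1 : (1 + |z.1|) * Real.sqrt (1 + |z.1|) ≤ (1 + |z.1|) ^ 2 := by
    rw [sq]
    refine mul_le_mul_of_nonneg_left ?_ (by positivity)
    rw [Real.sqrt_le_left (by positivity)]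
    nlinarith
  have h2 : (1 + |z.1|) ^ 2 ≤ ((1 + B + b) * (1 + x)) ^ 2 := by
    refine pow_le_pow_left₀ (by positivity) ?_ 2
    nlinarith [mul_nonneg hB hx0, mul_nonneg hb hx0]
  have h3 : (c * (1 + x)) ^ (m + 2) / ((m + 2).factorial : ℝ) ≤ Real.exp (c * (1 + x)) :=
    Real.pow_div_factorial_le_exp _ (by positivity) _
  have h4 : (1 + x) ^ (m + 2) ≤ ((m + 2).factorial : ℝ) / c ^ (m + 2) * Real.exp c *
      Real.exp (c * x) := by
    have h5 : Real.exp (c * (1 + x)) = Real.exp c * Real.exp (c * x) := by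
      rw [← Real.exp_add]; congr 1; ring
    rw [h5, mul_pow, div_le_iff₀ (by positivity)] at h3
    rw [div_mul_eq_mul_div, div_mul_eq_mul_div, le_div_iff₀ (by positivity)]
    nlinarith [h3]
  have hw : 0 < (1 + |z.1|) * Real.sqrt (1 + |z.1|) := by positivity
  have h6 : (1 + x) ^ m * ((1 + |z.1|) * Real.sqrt (1 + |z.1|)) ≤
      (1 + B + b) ^ 2 * (((m + 2).factorial : ℝ) / c ^ (m + 2) * Real.exp c) *
        Real.exp (c * x) := by
    calc (1 + x) ^ m * ((1 + |z.1|) * Real.sqrt (1 + |z.1|))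
        ≤ (1 + x) ^ m * ((1 + B + b) * (1 + x)) ^ 2 :=
          mul_le_mul_of_nonneg_left (h1.trans h2) (by positivity)
      _ = (1 + B + b) ^ 2 * (1 + x) ^ (m + 2) := by ring
      _ ≤ (1 + B + b) ^ 2 * (((m + 2).factorial : ℝ) / c ^ (m + 2) * Real.exp c *
            Real.exp (c * x)) := mul_le_mul_of_nonneg_left h4 (by positivity)
      _ = _ := by ring
  unfold om wt
  rw [← hx]
  calc (1 + x) ^ m = (1 + x) ^ m * ((1 + |z.1|) * Real.sqrt (1 + |z.1|)) *
        ((1 + |z.1|) * Real.sqrt (1 + |z.1|))⁻¹ := by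
          field_simp
    _ ≤ ((1 + B + b) ^ 2 * (((m + 2).factorial : ℝ) / c ^ (m + 2) * Real.exp c) *
        Real.exp (c * x)) * ((1 + |z.1|) * Real.sqrt (1 + |z.1|))⁻¹ :=
          mul_le_mul_of_nonneg_right h6 (by positivity)
    _ = _ := by ring

/-- coefficients of a polynomial which is `O(s^M)` at `0+` vanish -/
theorem coeff_zero (M : ℕ) (a : ℕ → ℂ) (C s0 : ℝ) (hs0 : 0 < s0)
    (h : ∀ s : ℝ, 0 < s → s ≤ s0 → ‖∑ j ∈ Finset.range M, (s : ℂ) ^ j * a j‖ ≤ C * s ^ M) :
    ∀ j, j < M → a j = 0 := by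
  induction M generalizing a with
  | zero => intro j hj; omega
  | succ M ih =>
    have hsplit : ∀ s : ℝ, ∑ j ∈ Finset.range (M + 1), (s : ℂ) ^ j * a j =
        (s : ℂ) * (∑ j ∈ Finset.range M, (s : ℂ) ^ j * a (j + 1)) + a 0 := by
      intro s
      rw [Finset.sum_range_succ', Finset.mul_sum]
      simp only [pow_zero, one_mul]
      congr 1
      refine Finset.sum_congr rfl fun j _ => ?_
      ring
    have hcont : Continuous (fun s : ℝ => (s : ℂ) *
        (∑ j ∈ Finset.range M, (s : ℂ) ^ j * a (j + 1)) + a 0) := by fun_prop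
    have hcont2 : Continuous (fun s : ℝ => C * s ^ (M + 1)) := by fun_prop
    have ha0 : a 0 = 0 := by
      have h1 : Filter.Tendsto (fun s : ℝ => ‖(s : ℂ) *
          (∑ j ∈ Finset.range M, (s : ℂ) ^ j * a (j + 1)) + a 0‖)
          (nhdsWithin 0 (Set.Ioi 0)) (nhds ‖a 0‖) := by
        have h2 := (hcont.norm.tendsto (0 : ℝ))
        simp only [Complex.ofReal_zero, zero_mul, zero_add] at h2
        exact h2.mono_left nhdsWithin_le_nhds
      have h3 : Filter.Tendsto (fun s : ℝ => C * s ^ (M + 1))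
          (nhdsWithin 0 (Set.Ioi 0)) (nhds 0) := by
        have h2 := (hcont2.tendsto (0 : ℝ))
        simp only [ne_eq, Nat.add_eq_zero_iff, one_ne_zero, and_false, not_false_eq_true,
          zero_pow, mul_zero] at h2
        exact h2.mono_left nhdsWithin_le_nhds
      have h4 : ∀ᶠ s : ℝ in nhdsWithin 0 (Set.Ioi 0), ‖(s : ℂ) *
          (∑ j ∈ Finset.range M, (s : ℂ) ^ j * a (j + 1)) + a 0‖ ≤ C * s ^ (M + 1) := by
        filter_upwards [Ioc_mem_nhdsGT hs0] with s hs
        rw [← hsplit]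
        exact h s hs.1 hs.2
      have h5 := le_of_tendsto_of_tendsto h1 h3 h4
      exact norm_le_zero_iff.1 h5
    have hrest := ih (fun j => a (j + 1)) (by
      intro s hs hs1
      have h1 := h s hs hs1
      rw [hsplit, ha0, add_zero, norm_mul, Complex.norm_real, Real.norm_eq_abs,
        abs_of_pos hs, pow_succ] at h1
      have h2 : s * ‖∑ j ∈ Finset.range M, (s : ℂ) ^ j * a (j + 1)‖ ≤ s * (C * s ^ M) := by
        calc _ ≤ _ := h1
          _ = _ := by ring
      exact le_of_mul_le_mul_left h2 hs)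
    intro j hj
    rcases Nat.eq_zero_or_pos j with rfl | hj0
    · exact ha0
    · obtain ⟨i, rfl⟩ : ∃ i, j = i + 1 := ⟨j - 1, by omega⟩
      exact hrest i (by omega)

/-- Taylor formula, two sided, with a crude constant -/
private theorem HomA_taylor (M : ℕ) : ∀ (φ : ℝ → ℝ), ContDiff ℝ (⊤ : ℕ∞) φ → ∀ K : ℝ,
    (∀ x, |iteratedDeriv M φ x| ≤ K) → ∀ y h : ℝ,
    |φ (y + h) - ∑ j ∈ Finset.range M, h ^ j / (j.factorial : ℝ) * iteratedDeriv j φ y| ≤
      K * |h| ^ M := by
  induction M with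
  | zero =>
    intro φ _ K hK y h
    have := hK (y + h)
    simpa using this
  | succ M ih =>
    intro φ hφ K hK y h
    have hK0 : 0 ≤ K := (abs_nonneg _).trans (hK 0)
    have hφ' : ContDiff ℝ (⊤ : ℕ∞) (deriv φ) := by
      exact (contDiff_infty_iff_deriv.1 hφ).2
    have hd : Differentiable ℝ φ := hφ.differentiable (by simp)
    have hIH := ih (deriv φ) hφ' K (by
      intro x
      rw [← iteratedDeriv_succ']
      exact hK x) y
    set f : ℝ → ℝ := fun t => φ (y + t) -
      ∑ j ∈ Finset.range (M + 1), t ^ j / (j.factorial : ℝ) * iteratedDeriv j φ y with hf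
    have hf0 : f 0 = 0 := by
      simp only [hf, add_zero]
      rw [Finset.sum_range_succ']
      simp
    have hfd : ∀ t, HasDerivAt f (deriv φ (y + t) - ∑ j ∈ Finset.range M,
        t ^ j / (j.factorial : ℝ) * iteratedDeriv j (deriv φ) y) t := by
      intro t
      have h1 : HasDerivAt (fun t => φ (y + t)) (deriv φ (y + t)) t := by
        have h2 : HasDerivAt (fun t : ℝ => y + t) 1 t := (hasDerivAt_id t).const_add y
        have h3 := (hd (y + t)).hasDerivAt.comp t h2
        rw [mul_one] at h3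
        exact h3
      refine h1.sub ?_
      have h4 : (fun t : ℝ => ∑ j ∈ Finset.range (M + 1),
          t ^ j / (j.factorial : ℝ) * iteratedDeriv j φ y) = fun t =>
          (∑ j ∈ Finset.range M, t ^ (j + 1) / ((j + 1).factorial : ℝ) *
            iteratedDeriv j (deriv φ) y) + iteratedDeriv 0 φ y := by
        funext t
        rw [Finset.sum_range_succ']
        congr 1
        · refine Finset.sum_congr rfl fun j _ => ?_
          rw [iteratedDeriv_succ']
        · simp
      rw [h4]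
      refine HasDerivAt.add_const _ ?_
      refine HasDerivAt.fun_sum fun j _ => ?_
      refine HasDerivAt.mul_const ?_ _
      have h5 : HasDerivAt (fun t : ℝ => t ^ (j + 1)) (((j + 1 : ℕ) : ℝ) * t ^ j) t := by
        have := hasDerivAt_pow (j + 1) t
        simpa using this
      have h6 := h5.div_const ((j + 1).factorial : ℝ)
      refine h6.congr_deriv ?_
      rw [Nat.factorial_succ]
      push_cast
      have h7 : (j.factorial : ℝ) ≠ 0 := by positivity
      have h8 : (j : ℝ) + 1 ≠ 0 := by positivity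
      field_simp
    have hb : ∀ t ∈ Set.uIcc 0 h, ‖deriv φ (y + t) - ∑ j ∈ Finset.range M,
        t ^ j / (j.factorial : ℝ) * iteratedDeriv j (deriv φ) y‖ ≤ K * |h| ^ M := by
      intro t ht
      rw [Real.norm_eq_abs]
      refine (hIH t).trans ?_
      refine mul_le_mul_of_nonneg_left (pow_le_pow_left₀ (abs_nonneg _) ?_ M) hK0
      have := Set.abs_sub_left_of_mem_uIcc ht
      simpa using this
    have hmv := Convex.norm_image_sub_le_of_norm_hasDerivWithin_le (s := Set.uIcc 0 h)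
      (fun t ht => (hfd t).hasDerivWithinAt) hb (convex_uIcc 0 h) Set.left_mem_uIcc
      Set.right_mem_uIcc
    rw [hf0, sub_zero, sub_zero, Real.norm_eq_abs, Real.norm_eq_abs] at hmv
    calc |f h| ≤ K * |h| ^ M * |h| := hmv
      _ = K * |h| ^ (M + 1) := by ring

private theorem HomA_adm_add {T : ℕ} {c : ℝ} {F G : ℝ × (Fin T → ℝ) → ℂ} (hF : Adm c F)
    (hG : Adm c G) : Adm c (fun z => F z + G z) := by
  obtain ⟨A, hA⟩ := hF
  obtain ⟨B, hB⟩ := hG
  refine ⟨A + B, fun z => (norm_add_le _ _).trans ?_⟩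
  rw [add_mul]
  exact add_le_add (hA z) (hB z)

private theorem HomA_adm_smul {T : ℕ} {c : ℝ} {F : ℝ × (Fin T → ℝ) → ℂ} (a : ℂ) (hF : Adm c F) :
    Adm c (fun z => a * F z) := by
  obtain ⟨A, hA⟩ := hF
  refine ⟨‖a‖ * A, fun z => ?_⟩
  rw [norm_mul, mul_assoc]
  exact mul_le_mul_of_nonneg_left (hA z) (norm_nonneg _)

private theorem HomA_adm_zero {T : ℕ} {c : ℝ} : Adm c (fun _ : ℝ × (Fin T → ℝ) => (0 : ℂ)) :=
  ⟨0, fun z => by simp⟩

private theorem HomA_adm_sum {T : ℕ} {c : ℝ} {J : Type} (s : Finset J)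
    (f : J → ℝ × (Fin T → ℝ) → ℂ) (hf : ∀ j ∈ s, Adm c (f j)) :
    Adm c (fun z => ∑ j ∈ s, f j z) := by
  classical
  induction s using Finset.induction_on with
  | empty => simpa using (HomA_adm_zero (T := T) (c := c))
  | insert j s hj ih =>
    simp only [Finset.sum_insert hj]
    exact HomA_adm_add (hf j (Finset.mem_insert_self _ _))
      (ih fun i hi => hf i (Finset.mem_insert_of_mem hi))

private theorem HomA_zero {T : ℕ} {c C : ℝ} {L : (ℝ × (Fin T → ℝ) → ℂ) → ℂ} (hL : HomFun c C L) :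
    L (fun _ => 0) = 0 := by
  have := hL.smul 0 (fun _ => 0) HomA_adm_zero
  simpa using this

private theorem HomA_sum {T : ℕ} {c C : ℝ} {L : (ℝ × (Fin T → ℝ) → ℂ) → ℂ} (hL : HomFun c C L)
    {J : Type} (s : Finset J) (f : J → ℝ × (Fin T → ℝ) → ℂ) (hf : ∀ j ∈ s, Adm c (f j)) :
    L (fun z => ∑ j ∈ s, f j z) = ∑ j ∈ s, L (f j) := by
  classical
  induction s using Finset.induction_on with
  | empty => simpa using HomA_zero hL
  | insert j s hj ih =>
    have h1 : (fun z => ∑ i ∈ insert j s, f i z) = fun z => f j z + ∑ i ∈ s, f i z := by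
      funext z
      rw [Finset.sum_insert hj]
    rw [h1, hL.add (f j) (fun z => ∑ i ∈ s, f i z) (hf j (Finset.mem_insert_self _ _))
      (HomA_adm_sum s f fun i hi => hf i (Finset.mem_insert_of_mem hi)), Finset.sum_insert hj,
      ih fun i hi => hf i (Finset.mem_insert_of_mem hi)]

private theorem HomA_cs_iter {φ : ℝ → ℝ} (hφ : Test φ) (j : ℕ) :
    HasCompactSupport (iteratedDeriv j φ) := by
  induction j with
  | zero => simpa [iteratedDeriv_zero] using hφ.2
  | succ j ih =>
    rw [iteratedDeriv_succ]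
    exact ih.deriv

private theorem HomA_cont_iter {φ : ℝ → ℝ} (hφ : Test φ) (j : ℕ) :
    Continuous (iteratedDeriv j φ) :=
  hφ.1.continuous_iteratedDeriv j (by exact_mod_cast le_top)

private theorem HomA_data {φ : ℝ → ℝ} (hφ : Test φ) (j : ℕ) :
    ∃ B K : ℝ, 0 ≤ B ∧ 0 ≤ K ∧ (∀ x, B < |x| → iteratedDeriv j φ x = 0) ∧
      ∀ x, |iteratedDeriv j φ x| ≤ K := by
  have hcs := HomA_cs_iter hφ j
  obtain ⟨K, hK⟩ := (HomA_cont_iter hφ j).bounded_above_of_compact_support hcs
  obtain ⟨R, hR⟩ := hcs.isCompact.isBounded.subset_closedBall 0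
  refine ⟨|R|, |K|, abs_nonneg _, abs_nonneg _, ?_, ?_⟩
  · intro x hx
    by_contra hne
    have h1 : x ∈ tsupport (iteratedDeriv j φ) := subset_tsupport _ hne
    have h2 := hR h1
    rw [Metric.mem_closedBall, Real.dist_eq, sub_zero] at h2
    have := le_abs_self R
    linarith
  · intro x
    have := hK x
    rw [Real.norm_eq_abs] at this
    exact this.trans (le_abs_self K)

private theorem HomA_dt_le {T : ℕ} (θ k : Fin T → ℝ) (hθ : ∀ t, 0 ≤ θ t) :
    |dt θ k| ≤ (∑ t, θ t) * l1 k := by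
  unfold dt l1
  refine (Finset.abs_sum_le_sum_abs _ _).trans ?_
  rw [Finset.mul_sum]
  refine Finset.sum_le_sum fun t _ => ?_
  rw [abs_mul, abs_of_nonneg (hθ t)]
  refine mul_le_mul_of_nonneg_right ?_ (abs_nonneg _)
  exact Finset.single_le_sum (f := θ) (fun i _ => hθ i) (Finset.mem_univ t)

/-- (a): `L ((θ·k)^m φ^(m)(y)) = 0` for `m ≥ 1` and `θ ≥ 0`. Proof: for small `s ≥ 0`,
`∫ φ = L (φ (y + s θ·k)) = ∑_{j<M} s^j/j! L ((θ·k)^j φ^(j)(y)) + O(s^M)` (Taylor with Lagrange remainder, the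
remainder is supported in `|y| ≤ B + s |θ·k|`), `coeff_zero`. -/
theorem hom_a {T : ℕ} {c C : ℝ} (hc : 0 < c) {L : (ℝ × (Fin T → ℝ) → ℂ) → ℂ} (hL : HomFun c C L)
    (φ : ℝ → ℝ) (hφ : Test φ) (θ : Fin T → ℝ) (hθ : ∀ t, 0 ≤ θ t) (m : ℕ) (hm : 1 ≤ m) :
    L (fun z => (((dt θ z.2) ^ m * iteratedDeriv m φ z.1 : ℝ) : ℂ)) = 0 := by
  classical
  set M : ℕ := m + 1 with hM
  choose Bf Kf hBf hKf hsupp hbd using HomA_data hφ
  set B : ℝ := ∑ j ∈ Finset.range (M + 1), Bf j with hB
  have hB0 : 0 ≤ B := Finset.sum_nonneg fun j _ => hBf j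
  have hBj : ∀ j, j ≤ M → Bf j ≤ B := fun j hj =>
    Finset.single_le_sum (f := Bf) (fun i _ => hBf i) (Finset.mem_range.2 (by omega))
  set Θ : ℝ := ∑ t, θ t with hΘ
  have hΘ0 : 0 ≤ Θ := Finset.sum_nonneg fun t _ => hθ t
  have hdt : ∀ k, |dt θ k| ≤ Θ * l1 k := fun k => HomA_dt_le θ k hθ
  -- the functions of the expansion
  set f : ℕ → ℝ × (Fin T → ℝ) → ℂ := fun j z =>
    (((dt θ z.2) ^ j * iteratedDeriv j φ z.1 : ℝ) : ℂ) with hf
  have hfadm : ∀ j, j ≤ M → Adm c (f j) := by
    intro j hj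
    obtain ⟨A, hA0, hA⟩ := adm_aux c hc B 0 hB0 le_rfl j
    refine ⟨Θ ^ j * Kf j * A, fun z => ?_⟩
    have hl := HomA_l1_nonneg z.2
    have hom : 0 ≤ om c z := by
      unfold om wt
      positivity
    simp only [hf, Complex.norm_real, Real.norm_eq_abs, abs_mul, abs_pow]
    by_cases hz : |z.1| ≤ B
    · have h1 : |dt θ z.2| ^ j ≤ Θ ^ j * (1 + l1 z.2) ^ j := by
        rw [← mul_pow]
        refine pow_le_pow_left₀ (abs_nonneg _) ((hdt z.2).trans ?_) j
        nlinarith
      have h2 := hA T z (by simpa using hz)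
      calc |dt θ z.2| ^ j * |iteratedDeriv j φ z.1|
          ≤ (Θ ^ j * (1 + l1 z.2) ^ j) * Kf j :=
            mul_le_mul h1 (hbd j z.1) (abs_nonneg _) (by positivity)
        _ = Θ ^ j * Kf j * (1 + l1 z.2) ^ j := by ring
        _ ≤ Θ ^ j * Kf j * (A * om c z) :=
            mul_le_mul_of_nonneg_left h2 (mul_nonneg (by positivity) (hKf j))
        _ = _ := by ring
    · have h1 : iteratedDeriv j φ z.1 = 0 := by
        refine hsupp j z.1 ?_
        have := hBj j hj
        push Not at hz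
        linarith
      rw [h1, abs_zero, mul_zero]
      have := hKf j
      positivity
  obtain ⟨A, hA0, hA⟩ := adm_aux c hc B 1 hB0 zero_le_one M
  set a : ℕ → ℂ := fun j => (if j = 0 then -((∫ y, φ y : ℝ) : ℂ) else 0) +
    ((j.factorial : ℝ) : ℂ)⁻¹ * L (f j) with ha
  have hkey := coeff_zero M a (C * (Kf M * Θ ^ M * A)) (1 / (1 + Θ)) (by positivity) (by
    intro s hs hs1
    have hsΘ : s * Θ ≤ 1 := by
      rw [le_div_iff₀ (by positivity)] at hs1
      nlinarith
    -- the identity for the translated function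
    have hid := hL.id φ (fun t => s * θ t) hφ (fun t => mul_nonneg hs.le (hθ t)) (by
      rw [← Finset.mul_sum]
      exact hsΘ)
    have hdts : ∀ k : Fin T → ℝ, dt (fun t => s * θ t) k = s * dt θ k := by
      intro k
      unfold dt
      rw [Finset.mul_sum]
      exact Finset.sum_congr rfl fun t _ => by ring
    set R : ℝ × (Fin T → ℝ) → ℂ := fun z => ((φ (z.1 + s * dt θ z.2) -
      ∑ j ∈ Finset.range M, (s * dt θ z.2) ^ j / (j.factorial : ℝ) *
        iteratedDeriv j φ z.1 : ℝ) : ℂ) with hR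
    have hRb : ∀ z, ‖R z‖ ≤ (Kf M * Θ ^ M * A * s ^ M) * om c z := by
      intro z
      have hl := HomA_l1_nonneg z.2
      have hom : 0 ≤ om c z := by
        unfold om wt
        positivity
      have hsd : |s * dt θ z.2| ≤ l1 z.2 := by
        rw [abs_mul, abs_of_pos hs]
        calc s * |dt θ z.2| ≤ s * (Θ * l1 z.2) := mul_le_mul_of_nonneg_left (hdt z.2) hs.le
          _ = (s * Θ) * l1 z.2 := by ring
          _ ≤ 1 * l1 z.2 := mul_le_mul_of_nonneg_right hsΘ hl
          _ = l1 z.2 := one_mul _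
      by_cases hz : |z.1| ≤ B + 1 * l1 z.2
      · have h1 := HomA_taylor M φ hφ.1 (Kf M) (hbd M) z.1 (s * dt θ z.2)
        simp only [hR, Complex.norm_real, Real.norm_eq_abs]
        have h2 := hA T z hz
        have h3 : |s * dt θ z.2| ^ M ≤ s ^ M * Θ ^ M * (1 + l1 z.2) ^ M := by
          rw [← mul_pow, ← mul_pow]
          refine pow_le_pow_left₀ (abs_nonneg _) ?_ M
          rw [abs_mul, abs_of_pos hs]
          calc s * |dt θ z.2| ≤ s * (Θ * l1 z.2) := mul_le_mul_of_nonneg_left (hdt z.2) hs.le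
            _ ≤ s * (Θ * (1 + l1 z.2)) := by
                refine mul_le_mul_of_nonneg_left (mul_le_mul_of_nonneg_left ?_ hΘ0) hs.le
                linarith
            _ = _ := by ring
        calc _ ≤ Kf M * |s * dt θ z.2| ^ M := h1
          _ ≤ Kf M * (s ^ M * Θ ^ M * (1 + l1 z.2) ^ M) :=
              mul_le_mul_of_nonneg_left h3 (hKf M)
          _ ≤ Kf M * (s ^ M * Θ ^ M * (A * om c z)) := by
              refine mul_le_mul_of_nonneg_left (mul_le_mul_of_nonneg_left h2 ?_) (hKf M)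
              positivity
          _ = _ := by ring
      · push Not at hz
        rw [one_mul] at hz
        have h1 : φ (z.1 + s * dt θ z.2) = 0 := by
          have h2 := hsupp 0 (z.1 + s * dt θ z.2) (by
            have h3 := hBj 0 (Nat.zero_le _)
            have h4 : |z.1| ≤ |z.1 + s * dt θ z.2| + |s * dt θ z.2| := by
              have := abs_sub (z.1 + s * dt θ z.2) (s * dt θ z.2)
              simpa using this
            linarith)
          simpa using h2
        have h2 : ∑ j ∈ Finset.range M, (s * dt θ z.2) ^ j / (j.factorial : ℝ) *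
            iteratedDeriv j φ z.1 = 0 := by
          refine Finset.sum_eq_zero fun j hj => ?_
          rw [Finset.mem_range] at hj
          rw [hsupp j z.1 (by
            have := hBj j hj.le
            linarith), mul_zero]
        simp only [hR]
        rw [h1, h2, sub_zero, Complex.ofReal_zero, norm_zero]
        have := hKf M
        positivity
    have hRadm : Adm c R := ⟨_, hRb⟩
    have hRL : ‖L R‖ ≤ C * (Kf M * Θ ^ M * A * s ^ M) :=
      hL.bd _ R (by have := hKf M; positivity) hRb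
    have hexp : (fun z : ℝ × (Fin T → ℝ) => ((φ (z.1 + dt (fun t => s * θ t) z.2) : ℝ) : ℂ)) =
        fun z => (∑ j ∈ Finset.range M, (((s ^ j : ℝ) : ℂ) * ((j.factorial : ℝ) : ℂ)⁻¹) * f j z) +
          R z := by
      funext z
      have h1 : ∀ j ∈ Finset.range M, (((s ^ j : ℝ) : ℂ) * ((j.factorial : ℝ) : ℂ)⁻¹) * f j z =
          (((s * dt θ z.2) ^ j / (j.factorial : ℝ) * iteratedDeriv j φ z.1 : ℝ) : ℂ) := by
        intro j _
        simp only [hf]
        rw [← Complex.ofReal_inv, ← Complex.ofReal_mul, ← Complex.ofReal_mul]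
        congr 1
        rw [mul_pow]
        ring
      rw [Finset.sum_congr rfl h1, ← Complex.ofReal_sum]
      simp only [hR, hdts]
      rw [← Complex.ofReal_add]
      congr 1
      ring
    rw [hexp, hL.add (fun z => ∑ j ∈ Finset.range M,
      (((s ^ j : ℝ) : ℂ) * ((j.factorial : ℝ) : ℂ)⁻¹) * f j z) R
      (HomA_adm_sum _ _ fun j hj => HomA_adm_smul _ (hfadm j (Finset.mem_range.1 hj).le)) hRadm,
      HomA_sum hL (Finset.range M) (fun j z => (((s ^ j : ℝ) : ℂ) *
        ((j.factorial : ℝ) : ℂ)⁻¹) * f j z)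
        (fun j hj => HomA_adm_smul _ (hfadm j (Finset.mem_range.1 hj).le))] at hid
    have hsum : ∑ j ∈ Finset.range M, (s : ℂ) ^ j * a j = -L R := by
      have h1 : ∀ j ∈ Finset.range M, (s : ℂ) ^ j * a j =
          (if j = 0 then -((∫ y, φ y : ℝ) : ℂ) else 0) +
          L (fun z => (((s ^ j : ℝ) : ℂ) * ((j.factorial : ℝ) : ℂ)⁻¹) * f j z) := by
        intro j hj
        rw [hL.smul _ (f j) (hfadm j (Finset.mem_range.1 hj).le)]
        simp only [ha]
        by_cases hj0 : j = 0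
        · subst hj0
          simp
        · simp only [hj0, if_false, zero_add]
          push_cast
          ring
      rw [Finset.sum_congr rfl h1, Finset.sum_add_distrib]
      have h2 : ∑ j ∈ Finset.range M, (if j = 0 then -((∫ y, φ y : ℝ) : ℂ) else 0) =
          -((∫ y, φ y : ℝ) : ℂ) := by
        rw [Finset.sum_ite_eq' (Finset.range M) 0]
        simp [hM]
      rw [h2, ← hid]
      ring
    rw [hsum, norm_neg]
    calc ‖L R‖ ≤ C * (Kf M * Θ ^ M * A * s ^ M) := hRL
      _ = _ := by ring) m (by omega)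
  have h1 : ((m.factorial : ℝ) : ℂ)⁻¹ * L (f m) = 0 := by
    have h2 := hkey
    simp only [ha] at h2
    rwa [if_neg (by omega), zero_add] at h2
  rcases mul_eq_zero.1 h1 with h2 | h2
  · exfalso
    rw [inv_eq_zero] at h2
    have : ((m.factorial : ℝ) : ℂ) ≠ 0 := by
      exact_mod_cast (Nat.factorial_pos m).ne'
    exact this h2
  · exact h2

end Pool.Agent.Half
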