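import Pool.Agent.Lib_MP_33fb9b_half.HomA

set_option autoImplicit false

/-!
# K13: homogeneity lemma, step (b)
-/

namespace Pool.Agent.Half

open MeasureTheory

theorem homB_test_deriv {φ : ℝ → ℝ} (h : Test φ) : Test (deriv φ) :=
  ⟨(contDiff_infty_iff_deriv.1 h.1).2, h.2.deriv⟩

theorem homB_test_iter {φ : ℝ → ℝ} (h : Test φ) (m : ℕ) : Test (iteratedDeriv m φ) := by
  induction m with
  | zero => rw [iteratedDeriv_zero]; exact h
  | succ m ih => rw [iteratedDeriv_succ]; exact homB_test_deriv ih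

theorem homB_test_add {φ ψ : ℝ → ℝ} (h : Test φ) (h' : Test ψ) : Test (fun y => φ y + ψ y) :=
  ⟨h.1.add h'.1, h.2.add h'.2⟩

theorem homB_test_smul {φ : ℝ → ℝ} (h : Test φ) (a : ℝ) : Test (fun y => a * φ y) :=
  ⟨contDiff_const.mul h.1, h.2.mul_left⟩

theorem homB_supp {φ : ℝ → ℝ} (h : Test φ) : ∃ R : ℝ, 0 ≤ R ∧ ∀ y, R < |y| → φ y = 0 := by
  obtain ⟨R, hR⟩ := h.2.isCompact.isBounded.subset_closedBall (0 : ℝ)
  refine ⟨max R 0, le_max_right _ _, fun y hy => ?_⟩
  by_contra hne
  have h1 : y ∈ tsupport φ := subset_tsupport _ hne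
  have h2 := hR h1
  rw [Metric.mem_closedBall, Real.dist_eq, sub_zero] at h2
  exact absurd (lt_of_le_of_lt (le_max_left R 0) hy) (not_lt.2 h2)

theorem homB_anti {ψ : ℝ → ℝ} (h : Test ψ) (h0 : ∫ y, ψ y = 0) :
    ∃ Φ : ℝ → ℝ, Test Φ ∧ deriv Φ = ψ := by
  obtain ⟨R, hR0, hR⟩ := homB_supp h
  have hc : Continuous ψ := h.1.continuous
  let Φ : ℝ → ℝ := fun y => ∫ t in (-(R + 1))..y, ψ t
  have hd : deriv Φ = ψ := by
    funext y
    exact hc.deriv_integral ψ (-(R + 1)) y
  have hdiff : Differentiable ℝ Φ := fun y =>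
    (hc.integral_hasStrictDerivAt (-(R + 1)) y).hasDerivAt.differentiableAt
  refine ⟨Φ, ⟨?_, ?_⟩, hd⟩
  · rw [contDiff_infty_iff_deriv]
    refine ⟨hdiff, ?_⟩
    rw [hd]
    exact h.1
  · refine HasCompactSupport.intro (isCompact_Icc : IsCompact (Set.Icc (-(R + 1)) (R + 1))) ?_
    intro y hy
    rcases lt_or_ge y (-(R + 1)) with h1 | h1
    · change ∫ t in (-(R + 1))..y, ψ t = 0
      rw [intervalIntegral.integral_congr (g := fun _ => (0 : ℝ))]
      · simp
      · intro t ht
        rw [Set.uIcc_of_ge h1.le] at ht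
        refine hR t ?_
        rw [abs_of_neg (by linarith [ht.2])]
        linarith [ht.2]
    · have h2 : R + 1 < y := by
        by_contra h3
        exact hy ⟨h1, not_lt.1 h3⟩
      change ∫ t in (-(R + 1))..y, ψ t = 0
      rw [intervalIntegral.integral_eq_integral_of_support_subset, h0]
      intro t ht
      have h3 : |t| ≤ R := by
        by_contra h4
        exact ht (hR t (not_le.1 h4))
      rw [abs_le] at h3
      exact ⟨by linarith [h3.1], by linarith [h3.2]⟩

theorem homB_bump : ∃ h : ℝ → ℝ, Test h ∧ ∫ y, h y = 1 := by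
  let f : ContDiffBump (0 : ℝ) := default
  exact ⟨f.normed volume, ⟨f.contDiff_normed, f.hasCompactSupport_normed⟩, f.integral_normed⟩

theorem homB_scale {h : ℝ → ℝ} (ht : Test h) (hi : ∫ y, h y = 1) {a : ℝ} (ha : 0 < a) :
    Test (fun y => a * h (a * y)) ∧ ∫ y, a * h (a * y) = 1 := by
  obtain ⟨R, hR0, hR⟩ := homB_supp ht
  refine ⟨homB_test_smul ⟨?_, ?_⟩ a, ?_⟩
  · exact ht.1.comp (contDiff_const.mul contDiff_id)
  · refine HasCompactSupport.intro (isCompact_Icc : IsCompact (Set.Icc (-(R / a)) (R / a))) ?_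
    intro y hy
    refine hR _ ?_
    by_contra h1
    apply hy
    rw [not_lt, abs_mul, abs_of_pos ha] at h1
    have h2 : |y| ≤ R / a := by rw [le_div_iff₀ ha]; linarith
    exact abs_le.1 h2
  · rw [integral_const_mul, MeasureTheory.Measure.integral_comp_mul_left, hi, abs_inv,
      abs_of_pos ha]
    simp [ha.ne']

theorem homB_step (U : (ℝ → ℝ) → ℂ) (K : ℝ)
    (hadd : ∀ φ ψ, Test φ → Test ψ → U (fun y => φ y + ψ y) = U φ + U ψ)
    (hsmul : ∀ (a : ℝ) φ, Test φ → U (fun y => a * φ y) = a * U φ)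
    (hbd : ∀ (A : ℝ) φ, Test φ → 0 ≤ A → (∀ y, |φ y| ≤ A * wt y) → ‖U φ‖ ≤ K * A)
    (j : ℕ) (hj : 1 ≤ j) (hk : ∀ φ, Test φ → U (iteratedDeriv (j + 1) φ) = 0) :
    ∀ φ, Test φ → U (iteratedDeriv j φ) = 0 := by
  intro φ hφ
  obtain ⟨h, hh, hh1⟩ := homB_bump
  obtain ⟨R, hR0, hR⟩ := homB_supp (homB_test_iter hh j)
  have hhj := homB_test_iter hh j
  obtain ⟨M, hM⟩ := hhj.1.continuous.bounded_above_of_compact_support hhj.2
  have hM0 : 0 ≤ M := le_trans (norm_nonneg _) (hM 0)
  set I : ℝ := ∫ y, φ y with hI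
  have key : ∀ n : ℕ, ‖U (iteratedDeriv j φ)‖ ≤
      (|I| * (K * (M * ((1 + R) * Real.sqrt (1 + R))))) / ((n : ℝ) + 1) := by
    intro n
    set N : ℝ := (n : ℝ) + 1 with hN
    have hN1 : 1 ≤ N := by rw [hN]; linarith [Nat.cast_nonneg (α := ℝ) n]
    have hN0 : 0 < N := by linarith
    set a : ℝ := (N ^ 2)⁻¹ with ha
    have ha0 : 0 < a := by positivity
    obtain ⟨ht, hi⟩ := homB_scale hh hh1 ha0
    -- the derivative of the scaled bump
    have hder : iteratedDeriv j (fun y => a * h (a * y)) =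
        fun y => a * (a ^ j * iteratedDeriv j h (a * y)) := by
      funext y
      rw [iteratedDeriv_const_mul_field, iteratedDeriv_comp_const_mul
        (hh.1.of_le (by exact_mod_cast le_top))]
    have hψ : Test (fun y => φ y + (-I) * (a * h (a * y))) :=
      homB_test_add hφ (homB_test_smul ht (-I))
    have hψ0 : ∫ y, (φ y + (-I) * (a * h (a * y))) = 0 := by
      rw [integral_add (hφ.1.continuous.integrable_of_hasCompactSupport hφ.2)
        ((homB_test_smul ht (-I)).1.continuous.integrable_of_hasCompactSupport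
          (homB_test_smul ht (-I)).2), integral_const_mul, hi]
      ring
    obtain ⟨Φ, hΦ, hΦd⟩ := homB_anti hψ hψ0
    have h1 := hk Φ hΦ
    rw [iteratedDeriv_succ', hΦd] at h1
    have h2 : iteratedDeriv j (fun y => φ y + (-I) * (a * h (a * y))) =
        fun y => iteratedDeriv j φ y + (-I) * iteratedDeriv j (fun y => a * h (a * y)) y := by
      funext y
      rw [iteratedDeriv_fun_add, iteratedDeriv_const_mul_field]
      · exact (hφ.1.of_le (by exact_mod_cast le_top)).contDiffAt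
      · exact ((homB_test_smul ht (-I)).1.of_le (by exact_mod_cast le_top)).contDiffAt
    rw [h2, hadd _ _ (homB_test_iter hφ j) (homB_test_smul (homB_test_iter ht j) (-I)),
      hsmul _ _ (homB_test_iter ht j)] at h1
    have h3 : U (iteratedDeriv j φ) = (I : ℂ) * U (iteratedDeriv j (fun y => a * h (a * y))) := by
      have h4 := eq_neg_of_add_eq_zero_left h1
      rw [h4]
      push_cast
      ring
    have hS : 0 ≤ M * ((1 + R) * Real.sqrt (1 + R)) := by positivity
    have h5 := hbd (M * ((1 + R) * Real.sqrt (1 + R)) / N)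
      (iteratedDeriv j (fun y => a * h (a * y))) (homB_test_iter ht j) (by positivity) (by
        intro y
        rw [hder]
        change |a * (a ^ j * iteratedDeriv j h (a * y))| ≤ _
        unfold wt
        by_cases hy : R < |a * y|
        · rw [hR _ hy]
          simp only [mul_zero, abs_zero]
          positivity
        · rw [not_lt, abs_mul, abs_of_pos ha0] at hy
          have h6 : |y| ≤ R * N ^ 2 := by
            rw [ha, inv_mul_le_iff₀ (by positivity)] at hy
            linarith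
          have h7 : 1 + |y| ≤ (1 + R) * N ^ 2 := by nlinarith
          have h8 : Real.sqrt (1 + |y|) ≤ Real.sqrt (1 + R) * N := by
            rw [← Real.sqrt_sq hN0.le, ← Real.sqrt_mul (by positivity)]
            exact Real.sqrt_le_sqrt h7
          have h9 : (1 + |y|) * Real.sqrt (1 + |y|) ≤
              ((1 + R) * N ^ 2) * (Real.sqrt (1 + R) * N) :=
            mul_le_mul h7 h8 (Real.sqrt_nonneg _) (by positivity)
          have hp : 0 < (1 + |y|) * Real.sqrt (1 + |y|) := by positivity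
          have h10 : |a * (a ^ j * iteratedDeriv j h (a * y))| ≤ a ^ 2 * M := by
            rw [abs_mul, abs_mul, abs_of_pos ha0, abs_of_pos (pow_pos ha0 j)]
            have h11 : a ^ j ≤ a := by
              have ha1 : a ≤ 1 := by
                rw [ha]
                exact inv_le_one_of_one_le₀ (one_le_pow₀ hN1)
              have h12 := pow_le_pow_of_le_one ha0.le ha1 hj
              rwa [pow_one] at h12
            have h13 : |iteratedDeriv j h (a * y)| ≤ M := hM _
            calc a * (a ^ j * |iteratedDeriv j h (a * y)|) ≤ a * (a * M) := by gcongr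
              _ = a ^ 2 * M := by ring
          refine h10.trans ?_
          rw [← div_eq_mul_inv, le_div_iff₀ hp]
          calc a ^ 2 * M * ((1 + |y|) * Real.sqrt (1 + |y|))
              ≤ a ^ 2 * M * (((1 + R) * N ^ 2) * (Real.sqrt (1 + R) * N)) := by gcongr
            _ = M * ((1 + R) * Real.sqrt (1 + R)) / N := by
                rw [ha]
                field_simp)
    rw [h3, norm_mul, Complex.norm_real, Real.norm_eq_abs]
    calc |I| * ‖U (iteratedDeriv j (fun y => a * h (a * y)))‖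
        ≤ |I| * (K * (M * ((1 + R) * Real.sqrt (1 + R)) / N)) := by gcongr
      _ = _ := by ring
  have hlim := tendsto_const_div_atTop_nhds_zero_nat
    (|I| * (K * (M * ((1 + R) * Real.sqrt (1 + R)))))
  have hlim2 := (Filter.tendsto_add_atTop_iff_nat 1).2 hlim
  have hfin : ‖U (iteratedDeriv j φ)‖ ≤ 0 := by
    refine ge_of_tendsto' hlim2 fun n => ?_
    have := key n
    push_cast
    exact this
  exact norm_le_zero_iff.1 hfin

/-- (b), abstract form: a linear functional `U` on test functions with `|U φ| ≤ K sup (1+|y|)^(3/2) |φ|`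
which kills all `m`-th derivatives (`m ≥ 1`) kills all derivatives. Proof: descent from `j` to `j-1`, `j ≥ 2`:
`φ - (∫ φ) h_A = Φ'` with `h_A(y) = h(y/A)/A`, `∫ h = 1`, `|U (h_A^(j-1))| ≤ C A^(3/2-j)`. -/
theorem hom_b (U : (ℝ → ℝ) → ℂ) (K : ℝ)
    (hadd : ∀ φ ψ, Test φ → Test ψ → U (fun y => φ y + ψ y) = U φ + U ψ)
    (hsmul : ∀ (a : ℝ) φ, Test φ → U (fun y => a * φ y) = a * U φ)
    (hbd : ∀ (A : ℝ) φ, Test φ → 0 ≤ A → (∀ y, |φ y| ≤ A * wt y) → ‖U φ‖ ≤ K * A)
    (m : ℕ) (hm : 1 ≤ m) (hk : ∀ φ, Test φ → U (iteratedDeriv m φ) = 0) :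
    ∀ φ, Test φ → U (deriv φ) = 0 := by
  have main : ∀ φ, Test φ → U (iteratedDeriv 1 φ) = 0 := by
    induction m, hm using Nat.le_induction with
    | base => exact hk
    | succ j hj ih => exact ih (homB_step U K hadd hsmul hbd j hj hk)
  intro φ hφ
  have := main φ hφ
  rwa [iteratedDeriv_one] at this

/-- (b): `L ((θ·k)^m G'(y)) = 0` for all `m ≥ 0` and `θ ≥ 0` -/
theorem hom_ab {T : ℕ} {c C : ℝ} (hc : 0 < c) {L : (ℝ × (Fin T → ℝ) → ℂ) → ℂ} (hL : HomFun c C L)
    (φ : ℝ → ℝ) (hφ : Test φ) (θ : Fin T → ℝ) (hθ : ∀ t, 0 ≤ θ t) (m : ℕ) :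
    L (fun z => (((dt θ z.2) ^ m * deriv φ z.1 : ℝ) : ℂ)) = 0 := by
  rcases Nat.eq_zero_or_pos m with hm | hm
  · subst hm
    have h1 := hL.id (deriv φ) (fun _ => 0) (homB_test_deriv hφ) (fun _ => le_rfl) (by simp)
    have h2 : ∫ y, deriv φ y = 0 :=
      integral_eq_zero_of_hasDerivAt_of_integrable
        (fun y => ((contDiff_infty_iff_deriv.1 hφ.1).1 y).hasDerivAt)
        ((homB_test_deriv hφ).1.continuous.integrable_of_hasCompactSupport (homB_test_deriv hφ).2)
        (hφ.1.continuous.integrable_of_hasCompactSupport hφ.2)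
    rw [h2] at h1
    simp only [dt, zero_mul, Finset.sum_const_zero, add_zero, pow_zero, one_mul] at h1 ⊢
    rw [h1]
    simp
  · set Θ : ℝ := ∑ t, |θ t| with hΘ
    have hΘ0 : 0 ≤ Θ := Finset.sum_nonneg fun t _ => abs_nonneg _
    have hdt : ∀ k : Fin T → ℝ, |dt θ k| ≤ Θ * l1 k := by
      intro k
      unfold dt l1
      calc |∑ t, θ t * k t| ≤ ∑ t, |θ t * k t| := Finset.abs_sum_le_sum_abs _ _
        _ = ∑ t, |θ t| * |k t| := by simp only [abs_mul]
        _ ≤ ∑ t, Θ * |k t| := by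
            refine Finset.sum_le_sum fun t _ => ?_
            refine mul_le_mul_of_nonneg_right ?_ (abs_nonneg _)
            exact Finset.single_le_sum (f := fun t => |θ t|) (fun t _ => abs_nonneg _)
              (Finset.mem_univ t)
        _ = Θ * ∑ t, |k t| := by rw [Finset.mul_sum]
    set Cm : ℝ := Θ ^ m * (m.factorial / c ^ m) with hCm
    have hCm0 : 0 ≤ Cm := by positivity
    have hpow : ∀ k : Fin T → ℝ, |dt θ k| ^ m ≤ Cm * Real.exp (c * l1 k) := by
      intro k
      have hl : 0 ≤ l1 k := Finset.sum_nonneg fun t _ => abs_nonneg _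
      have h1 := Real.pow_div_factorial_le_exp (c * l1 k) (by positivity) m
      have hf : (0 : ℝ) < m.factorial := by exact_mod_cast m.factorial_pos
      rw [div_le_iff₀ hf, mul_pow] at h1
      have hcm : 0 < c ^ m := pow_pos hc m
      calc |dt θ k| ^ m ≤ (Θ * l1 k) ^ m := pow_le_pow_left₀ (abs_nonneg _) (hdt k) m
        _ = Θ ^ m * (c ^ m * l1 k ^ m) / c ^ m := by rw [mul_pow]; field_simp
        _ ≤ Θ ^ m * (Real.exp (c * l1 k) * m.factorial) / c ^ m := by gcongr
        _ = Cm * Real.exp (c * l1 k) := by rw [hCm]; ring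
    have hadm : ∀ (A : ℝ) (ψ : ℝ → ℝ), 0 ≤ A → (∀ y, |ψ y| ≤ A * wt y) →
        ∀ z : ℝ × (Fin T → ℝ), ‖(((dt θ z.2) ^ m * ψ z.1 : ℝ) : ℂ)‖ ≤ (Cm * A) * om c z := by
      intro A ψ hA hψ z
      rw [Complex.norm_real, Real.norm_eq_abs, abs_mul, abs_pow]
      unfold om
      calc |dt θ z.2| ^ m * |ψ z.1| ≤ (Cm * Real.exp (c * l1 z.2)) * (A * wt z.1) :=
            mul_le_mul (hpow _) (hψ _) (abs_nonneg _) (by positivity)
        _ = (Cm * A) * (wt z.1 * Real.exp (c * l1 z.2)) := by ring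
    have htest : ∀ ψ : ℝ → ℝ, Test ψ → ∃ A, 0 ≤ A ∧ ∀ y, |ψ y| ≤ A * wt y := by
      intro ψ hψ
      obtain ⟨R, hR0, hR⟩ := homB_supp hψ
      obtain ⟨M, hM⟩ := hψ.1.continuous.bounded_above_of_compact_support hψ.2
      have hM0 : 0 ≤ M := le_trans (norm_nonneg _) (hM 0)
      refine ⟨M * ((1 + R) * Real.sqrt (1 + R)), by positivity, fun y => ?_⟩
      unfold wt
      by_cases hy : R < |y|
      · rw [hR y hy, abs_zero]
        positivity
      · have hp : 0 < (1 + |y|) * Real.sqrt (1 + |y|) := by positivity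
        rw [← div_eq_mul_inv, le_div_iff₀ hp]
        have h1 : |ψ y| ≤ M := hM y
        have h2 : 1 + |y| ≤ 1 + R := by linarith [not_lt.1 hy]
        gcongr
    have hAdm : ∀ ψ : ℝ → ℝ, Test ψ →
        Adm c (fun z : ℝ × (Fin T → ℝ) => (((dt θ z.2) ^ m * ψ z.1 : ℝ) : ℂ)) := by
      intro ψ hψ
      obtain ⟨A, hA, hA'⟩ := htest ψ hψ
      exact ⟨Cm * A, hadm A ψ hA hA'⟩
    exact hom_b (fun ψ => L (fun z => (((dt θ z.2) ^ m * ψ z.1 : ℝ) : ℂ))) (C * Cm)
      (fun φ ψ hφ hψ => by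
        rw [← hL.add _ _ (hAdm φ hφ) (hAdm ψ hψ)]
        congr 1
        funext z
        push_cast
        ring)
      (fun a φ hφ => by
        rw [← hL.smul _ _ (hAdm φ hφ)]
        congr 1
        funext z
        push_cast
        ring)
      (fun A φ hφ hA hA' => by
        have h1 := hL.bd (Cm * A) _ (by positivity) (hadm A φ hA hA')
        rw [mul_assoc]
        exact h1)
      m hm (fun φ hφ => hom_a hc hL φ hφ θ hθ m hm) φ hφ

end Pool.Agent.Half
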