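import Pool.Agent.Lib_MP_33fb9b_half.HomB

set_option autoImplicit false

/-!
# K14: homogeneity lemma, step (c)
-/

namespace Pool.Agent.Half

open MeasureTheory

/-! ### auxiliary estimates -/

private theorem HomC_exp_tail (r : ℝ) (hr : 0 ≤ r) (M : ℕ) :
    Real.exp r - ∑ j ∈ Finset.range M, r ^ j / j.factorial ≤ (1 / 2) ^ M * Real.exp (2 * r) := by
  have h1 : Summable fun n : ℕ => r ^ n / n.factorial := Real.summable_pow_div_factorial r
  have h2 : Summable fun n : ℕ => (2 * r) ^ n / n.factorial := Real.summable_pow_div_factorial _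
  have e1 : Real.exp r = ∑' n : ℕ, r ^ n / n.factorial := by
    rw [Real.exp_eq_exp_ℝ, NormedSpace.exp_eq_tsum_div]
  have e2 : Real.exp (2 * r) = ∑' n : ℕ, (2 * r) ^ n / n.factorial := by
    rw [Real.exp_eq_exp_ℝ, NormedSpace.exp_eq_tsum_div]
  have e3 := h1.sum_add_tsum_nat_add M
  have e4 := h2.sum_add_tsum_nat_add M
  have h3 : ∑' i : ℕ, r ^ (i + M) / (i + M).factorial ≤
      ∑' i : ℕ, (1 / 2) ^ M * ((2 * r) ^ (i + M) / (i + M).factorial) := by
    refine Summable.tsum_le_tsum (fun i => ?_) ((summable_nat_add_iff M).2 h1)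
      (((summable_nat_add_iff M).2 h2).mul_left _)
    have h5 : ((1 : ℝ) / 2) ^ M * ((2 * r) ^ (i + M) / (i + M).factorial) =
        2 ^ i * (r ^ (i + M) / (i + M).factorial) := by
      have h6 : ((1 : ℝ) / 2) ^ M * 2 ^ (i + M) = 2 ^ i := by
        rw [pow_add, mul_left_comm, ← mul_pow]
        norm_num
      rw [mul_pow, ← h6]
      ring
    rw [h5]
    have h7 : 0 ≤ r ^ (i + M) / ((i + M).factorial : ℝ) := by positivity
    have h8 : (1 : ℝ) ≤ 2 ^ i := one_le_pow₀ (by norm_num)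
    nlinarith
  rw [tsum_mul_left] at h3
  have h5 : 0 ≤ ∑ j ∈ Finset.range M, (2 * r) ^ j / (j.factorial : ℝ) :=
    Finset.sum_nonneg fun j _ => by positivity
  have h6 : (0 : ℝ) ≤ (1 / 2) ^ M := by positivity
  have h7 : Real.exp r - ∑ j ∈ Finset.range M, r ^ j / (j.factorial : ℝ) =
      ∑' i : ℕ, r ^ (i + M) / (i + M).factorial := by
    rw [e1, ← e3]; ring
  rw [h7]
  refine h3.trans (mul_le_mul_of_nonneg_left ?_ h6)
  rw [e2, ← e4]
  linarith

private theorem HomC_exp_rem (w : ℂ) (M : ℕ) :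
    ‖Complex.exp w - ∑ j ∈ Finset.range M, w ^ j / j.factorial‖ ≤
      (1 / 2) ^ M * Real.exp (2 * ‖w‖) :=
  (Complex.norm_exp_sub_sum_le_exp_norm_sub_sum w M).trans (HomC_exp_tail ‖w‖ (norm_nonneg _) M)

private theorem HomC_l1_nonneg {T : ℕ} (k : Fin T → ℝ) : 0 ≤ l1 k :=
  Finset.sum_nonneg fun _ _ => abs_nonneg _

private theorem HomC_dt_le {T : ℕ} (θ k : Fin T → ℝ) : |dt θ k| ≤ l1 θ * l1 k := by
  unfold dt
  refine (Finset.abs_sum_le_sum_abs _ _).trans ?_
  have h1 : l1 θ * l1 k = ∑ t, l1 θ * |k t| := by rw [← Finset.mul_sum]; rfl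
  rw [h1]
  refine Finset.sum_le_sum fun t _ => ?_
  rw [abs_mul]
  refine mul_le_mul_of_nonneg_right ?_ (abs_nonneg _)
  exact Finset.single_le_sum (f := fun t => |θ t|) (fun _ _ => abs_nonneg _) (Finset.mem_univ t)

private theorem HomC_om_nonneg {T : ℕ} (c : ℝ) (z : ℝ × (Fin T → ℝ)) : 0 ≤ om c z := by
  unfold om wt
  positivity

/-- functions with support in `|y| ≤ B` and growth `(1 + l1)^m exp (c/2 l1)` are admissible -/
private theorem HomC_dom (c : ℝ) (hc : 0 < c) (B : ℝ) (hB : 0 ≤ B) (m : ℕ) :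
    ∃ A : ℝ, 0 ≤ A ∧ ∀ (T : ℕ) (F : ℝ × (Fin T → ℝ) → ℂ) (D : ℝ), 0 ≤ D →
      (∀ z, B < |z.1| → F z = 0) →
      (∀ z, ‖F z‖ ≤ D * ((1 + l1 z.2) ^ m * Real.exp (c / 2 * l1 z.2))) →
      ∀ z, ‖F z‖ ≤ (A * D) * om c z := by
  obtain ⟨A, hA, h⟩ := adm_aux (c / 2) (half_pos hc) B 0 hB le_rfl m
  refine ⟨A, hA, fun T F D hD hF0 hF z => ?_⟩
  by_cases hz : |z.1| ≤ B
  · have h1 := h T z (by rw [zero_mul, add_zero]; exact hz)
    refine (hF z).trans ?_
    have h2 : (1 + l1 z.2) ^ m * Real.exp (c / 2 * l1 z.2) ≤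
        (A * om (c / 2) z) * Real.exp (c / 2 * l1 z.2) :=
      mul_le_mul_of_nonneg_right h1 (Real.exp_pos _).le
    have h3 : om (c / 2) z * Real.exp (c / 2 * l1 z.2) = om c z := by
      unfold om
      rw [mul_assoc, ← Real.exp_add]
      congr 2
      ring
    calc D * ((1 + l1 z.2) ^ m * Real.exp (c / 2 * l1 z.2))
        ≤ D * ((A * om (c / 2) z) * Real.exp (c / 2 * l1 z.2)) :=
          mul_le_mul_of_nonneg_left h2 hD
      _ = (A * D) * om c z := by rw [← h3]; ring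
  · push Not at hz
    rw [hF0 z hz, norm_zero]
    exact mul_nonneg (mul_nonneg hA hD) (HomC_om_nonneg c z)

/-- the derivative of a test function is bounded with bounded support -/
private theorem HomC_test {φ : ℝ → ℝ} (hφ : Test φ) : ∃ B M : ℝ, 0 ≤ B ∧ 0 ≤ M ∧
    (∀ y, |deriv φ y| ≤ M) ∧ ∀ y, B < |y| → deriv φ y = 0 := by
  have hcs : HasCompactSupport (deriv φ) := hφ.2.deriv
  have hcont : Continuous (deriv φ) := hφ.1.continuous_deriv (by norm_num)
  obtain ⟨M, hM⟩ := hcont.bounded_above_of_compact_support hcs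
  obtain ⟨B, hB⟩ := hcs.isCompact.isBounded.subset_closedBall (0 : ℝ)
  refine ⟨max B 0, max M 0, le_max_right _ _, le_max_right _ _, fun y => ?_, fun y hy => ?_⟩
  · exact (hM y).trans (le_max_left _ _)
  · refine image_eq_zero_of_notMem_tsupport fun h => ?_
    have h1 := hB h
    rw [Metric.mem_closedBall, dist_zero_right, Real.norm_eq_abs] at h1
    exact absurd (h1.trans (le_max_left B 0)) (not_le.2 hy)

/-- linearity for finite sums -/
private theorem HomC_sum {T : ℕ} {c C : ℝ} {L : (ℝ × (Fin T → ℝ) → ℂ) → ℂ}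
    (hL : HomFun c C L) (s : Finset ℕ) (a : ℕ → ℂ) (F : ℕ → ℝ × (Fin T → ℝ) → ℂ)
    (hF : ∀ j ∈ s, Adm c (F j)) :
    Adm c (fun z => ∑ j ∈ s, a j * F j z) ∧
      L (fun z => ∑ j ∈ s, a j * F j z) = ∑ j ∈ s, a j * L (F j) := by
  classical
  induction s using Finset.induction_on with
  | empty =>
    refine ⟨⟨0, fun z => by simp⟩, ?_⟩
    have h1 := hL.smul 0 (fun _ => (0 : ℂ)) ⟨0, fun z => by simp⟩
    simp only [zero_mul] at h1
    simpa using h1
  | insert i s hi ih =>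
    obtain ⟨h1, h2⟩ := ih fun j hj => hF j (Finset.mem_insert_of_mem hj)
    obtain ⟨A1, hA1⟩ := h1
    obtain ⟨A2, hA2⟩ := hF i (Finset.mem_insert_self i s)
    have h3 : Adm c (fun z => a i * F i z) := by
      refine ⟨‖a i‖ * A2, fun z => ?_⟩
      rw [norm_mul, mul_assoc]
      exact mul_le_mul_of_nonneg_left (hA2 z) (norm_nonneg _)
    obtain ⟨A3, hA3⟩ := h3
    constructor
    · refine ⟨A3 + A1, fun z => ?_⟩
      change ‖∑ j ∈ insert i s, a j * F j z‖ ≤ _
      rw [Finset.sum_insert hi, add_mul]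
      exact (norm_add_le _ _).trans (add_le_add (hA3 z) (hA1 z))
    · have h4 := hL.add (fun z => a i * F i z) (fun z => ∑ j ∈ s, a j * F j z) ⟨A3, hA3⟩
        ⟨A1, hA1⟩
      have h5 : (fun z => ∑ j ∈ insert i s, a j * F j z) =
          fun z => a i * F i z + ∑ j ∈ s, a j * F j z := by
        funext z
        rw [Finset.sum_insert hi]
      rw [h5, h4, h2, Finset.sum_insert hi, hL.smul (a i) (F i) ⟨A2, hA2⟩]

/-- polarization: `L ((θ·k)^m G'(y)) = 0` for all real `θ`. Proof: `θ = p - q` with `p, q ≥ 0`; for `s ≥ 0`,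
`0 = L (((p + s q)·k)^m G') = ∑_j C(m,j) s^j L ((p·k)^(m-j) (q·k)^j G')` is a polynomial in `s` with
infinitely many zeros, hence zero; `s = -1`. -/
theorem hom_polar {T : ℕ} {c C : ℝ} (hc : 0 < c) {L : (ℝ × (Fin T → ℝ) → ℂ) → ℂ} (hL : HomFun c C L)
    (φ : ℝ → ℝ) (hφ : Test φ) (θ : Fin T → ℝ) (m : ℕ) :
    L (fun z => (((dt θ z.2) ^ m * deriv φ z.1 : ℝ) : ℂ)) = 0 := by
  obtain ⟨B, M, hB, hM, hbd, hsupp⟩ := HomC_test hφ
  obtain ⟨A, hA, hdom⟩ := HomC_dom c hc B hB m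
  set p : Fin T → ℝ := fun t => max (θ t) 0 with hp
  set q : Fin T → ℝ := fun t => max (-θ t) 0 with hq
  have hpq : ∀ t, θ t = p t - q t := by
    intro t
    simp only [hp, hq]
    rcases le_total (θ t) 0 with h | h
    · rw [max_eq_right h, max_eq_left (by linarith)]; ring
    · rw [max_eq_left h, max_eq_right (by linarith)]; ring
  have hdt : ∀ (s : ℝ) (k : Fin T → ℝ), dt (fun t => p t + s * q t) k = dt p k + s * dt q k := by
    intro s k
    unfold dt
    rw [Finset.mul_sum, ← Finset.sum_add_distrib]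
    exact Finset.sum_congr rfl fun t _ => by ring
  have hθ : ∀ k : Fin T → ℝ, dt θ k = dt p k + (-1) * dt q k := by
    intro k
    rw [← hdt]
    unfold dt
    exact Finset.sum_congr rfl fun t _ => by rw [hpq t]; ring
  set F : ℕ → ℝ × (Fin T → ℝ) → ℂ := fun j z =>
    (((dt p z.2) ^ (m - j) * (dt q z.2) ^ j * deriv φ z.1 : ℝ) : ℂ) with hFdef
  have hFadm : ∀ j ∈ Finset.range (m + 1), Adm c (F j) := by
    intro j hj
    have hj' : j ≤ m := Nat.lt_succ_iff.1 (Finset.mem_range.1 hj)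
    set D : ℝ := (l1 p + l1 q) ^ m * M with hD
    have hp0 := HomC_l1_nonneg p
    have hq0 := HomC_l1_nonneg q
    refine ⟨A * D, hdom T (F j) D (by positivity) ?_ ?_⟩
    · intro z hz
      simp only [hFdef]
      rw [hsupp z.1 hz, mul_zero, Complex.ofReal_zero]
    · intro z
      simp only [hFdef]
      rw [Complex.norm_real, Real.norm_eq_abs, abs_mul, abs_mul, abs_pow, abs_pow]
      have hk0 := HomC_l1_nonneg z.2
      have h1 : |dt p z.2| ≤ (l1 p + l1 q) * (1 + l1 z.2) :=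
        (HomC_dt_le p z.2).trans (by nlinarith)
      have h2 : |dt q z.2| ≤ (l1 p + l1 q) * (1 + l1 z.2) :=
        (HomC_dt_le q z.2).trans (by nlinarith)
      have h3 : |dt p z.2| ^ (m - j) * |dt q z.2| ^ j ≤
          ((l1 p + l1 q) * (1 + l1 z.2)) ^ m := by
        calc |dt p z.2| ^ (m - j) * |dt q z.2| ^ j
            ≤ ((l1 p + l1 q) * (1 + l1 z.2)) ^ (m - j) * ((l1 p + l1 q) * (1 + l1 z.2)) ^ j :=
              mul_le_mul (pow_le_pow_left₀ (abs_nonneg _) h1 _)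
                (pow_le_pow_left₀ (abs_nonneg _) h2 _) (by positivity) (by positivity)
          _ = ((l1 p + l1 q) * (1 + l1 z.2)) ^ m := by
              rw [← pow_add]
              congr 1
              omega
      have h4 : 1 ≤ Real.exp (c / 2 * l1 z.2) := Real.one_le_exp (by positivity)
      calc |dt p z.2| ^ (m - j) * |dt q z.2| ^ j * |deriv φ z.1|
          ≤ ((l1 p + l1 q) * (1 + l1 z.2)) ^ m * M :=
            mul_le_mul h3 (hbd z.1) (abs_nonneg _) (by positivity)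
        _ = D * ((1 + l1 z.2) ^ m * 1) := by rw [hD, mul_pow]; ring
        _ ≤ D * ((1 + l1 z.2) ^ m * Real.exp (c / 2 * l1 z.2)) := by
            refine mul_le_mul_of_nonneg_left ?_ (by positivity)
            exact mul_le_mul_of_nonneg_left h4 (by positivity)
  have hexp : ∀ s : ℝ, L (fun z => (((dt p z.2 + s * dt q z.2) ^ m * deriv φ z.1 : ℝ) : ℂ)) =
      ∑ j ∈ Finset.range (m + 1), ((m.choose j : ℂ) * (s : ℂ) ^ j) * L (F j) := by
    intro s
    rw [← (HomC_sum hL (Finset.range (m + 1)) (fun j => (m.choose j : ℂ) * (s : ℂ) ^ j) F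
      hFadm).2]
    congr 1
    funext z
    simp only [hFdef]
    rw [add_comm (dt p z.2), add_pow, Finset.sum_mul, Complex.ofReal_sum]
    refine Finset.sum_congr rfl fun j _ => ?_
    push_cast
    ring
  set P : Polynomial ℂ := ∑ j ∈ Finset.range (m + 1),
    Polynomial.C ((m.choose j : ℂ) * L (F j)) * Polynomial.X ^ j with hP
  have hPev : ∀ s : ℝ, P.eval (s : ℂ) =
      L (fun z => (((dt p z.2 + s * dt q z.2) ^ m * deriv φ z.1 : ℝ) : ℂ)) := by
    intro s
    rw [hexp s, hP, Polynomial.eval_finsetSum]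
    refine Finset.sum_congr rfl fun j _ => ?_
    simp only [Polynomial.eval_mul, Polynomial.eval_C, Polynomial.eval_pow, Polynomial.eval_X]
    ring
  have hP0 : P = 0 := by
    refine Polynomial.eq_zero_of_infinite_isRoot P ?_
    have hsub : (fun n : ℕ => ((n : ℝ) : ℂ)) '' Set.univ ⊆ {x | P.IsRoot x} := by
      rintro _ ⟨n, -, rfl⟩
      change P.eval (((n : ℝ)) : ℂ) = 0
      rw [hPev]
      have h1 := hom_ab hc hL φ hφ (fun t => p t + (n : ℝ) * q t) (fun t => by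
        have h2 : 0 ≤ p t := le_max_right _ _
        have h3 : 0 ≤ q t := le_max_right _ _
        positivity) m
      rw [← h1]
      congr 1
      funext z
      rw [hdt]
    refine Set.Infinite.mono hsub ?_
    refine Set.Infinite.image ?_ Set.infinite_univ
    intro a _ b _ hab
    have : (a : ℝ) = (b : ℝ) := Complex.ofReal_injective hab
    exact_mod_cast this
  have h1 := hPev (-1)
  rw [hP0, Polynomial.eval_zero] at h1
  rw [h1]
  congr 1
  funext z
  rw [hθ]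

/-- the functions of step (c) -/
private noncomputable def HomCF {T : ℕ} (φ : ℝ → ℝ) (θ : Fin T → ℝ) (s : ℝ) (m : ℕ)
    (z : ℝ × (Fin T → ℝ)) : ℂ :=
  ((dt θ z.2 : ℝ) : ℂ) ^ m * Complex.exp (Complex.I * ((s * dt θ z.2 : ℝ) : ℂ)) *
    ((deriv φ z.1 : ℝ) : ℂ)

private theorem HomC_norm_le {T : ℕ} {φ : ℝ → ℝ} {M : ℝ}
    (hbd : ∀ y, |deriv φ y| ≤ M) (θ : Fin T → ℝ) (s : ℝ) (m : ℕ) (z : ℝ × (Fin T → ℝ)) :
    ‖HomCF φ θ s m z‖ ≤ (l1 θ ^ m * M) * (1 + l1 z.2) ^ m := by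
  have hk0 := HomC_l1_nonneg z.2
  have hθ0 := HomC_l1_nonneg θ
  unfold HomCF
  rw [norm_mul, norm_mul, norm_pow, Complex.norm_real, Complex.norm_real, Real.norm_eq_abs,
    Real.norm_eq_abs]
  have h0 : ‖Complex.exp (Complex.I * ((s * dt θ z.2 : ℝ) : ℂ))‖ = 1 := by
    rw [mul_comm]
    exact Complex.norm_exp_ofReal_mul_I _
  rw [h0, mul_one]
  have h1 : |dt θ z.2| ≤ l1 θ * (1 + l1 z.2) := (HomC_dt_le θ z.2).trans (by nlinarith)
  calc |dt θ z.2| ^ m * |deriv φ z.1| ≤ (l1 θ * (1 + l1 z.2)) ^ m * M :=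
        mul_le_mul (pow_le_pow_left₀ (abs_nonneg _) h1 _) (hbd z.1) (abs_nonneg _)
          (by positivity)
    _ = (l1 θ ^ m * M) * (1 + l1 z.2) ^ m := by rw [mul_pow]; ring

private theorem HomC_adm {T : ℕ} {c : ℝ} (hc : 0 < c) {φ : ℝ → ℝ} (hφ : Test φ)
    (θ : Fin T → ℝ) (s : ℝ) (m : ℕ) : Adm c (HomCF φ θ s m) := by
  obtain ⟨B, M, hB, hM, hbd, hsupp⟩ := HomC_test hφ
  obtain ⟨A, hA, hdom⟩ := HomC_dom c hc B hB m
  have hθ0 := HomC_l1_nonneg θ
  refine ⟨A * (l1 θ ^ m * M), hdom T _ _ (by positivity) ?_ ?_⟩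
  · intro z hz
    unfold HomCF
    rw [hsupp z.1 hz, Complex.ofReal_zero, mul_zero]
  · intro z
    have hk0 := HomC_l1_nonneg z.2
    refine (HomC_norm_le hbd θ s m z).trans ?_
    have h4 : 1 ≤ Real.exp (c / 2 * l1 z.2) := Real.one_le_exp (by positivity)
    refine mul_le_mul_of_nonneg_left ?_ (by positivity)
    exact le_mul_of_one_le_right (by positivity) h4

/-- one step of the continuation -/
private theorem HomC_step {T : ℕ} {c C : ℝ} (hc : 0 < c) {L : (ℝ × (Fin T → ℝ) → ℂ) → ℂ}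
    (hL : HomFun c C L) (φ : ℝ → ℝ) (hφ : Test φ) (θ : Fin T → ℝ) (s h : ℝ)
    (hh : |h| * l1 θ ≤ c / 4) (hs : ∀ m, L (HomCF φ θ s m) = 0) (m : ℕ) :
    L (HomCF φ θ (s + h) m) = 0 := by
  obtain ⟨B, M, hB, hM, hbd, hsupp⟩ := HomC_test hφ
  obtain ⟨A, hA, hdom⟩ := HomC_dom c hc B hB m
  have hθ0 := HomC_l1_nonneg θ
  set D : ℝ := l1 θ ^ m * M with hD
  have hD0 : 0 ≤ D := by positivity
  have key : ∀ n : ℕ, ‖L (HomCF φ θ (s + h) m)‖ ≤ C * (A * (D * (1 / 2) ^ n)) := by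
    intro n
    set a : ℕ → ℂ := fun j => (Complex.I * (h : ℂ)) ^ j / (j.factorial : ℂ) with ha
    set R : ℝ × (Fin T → ℝ) → ℂ := fun z => HomCF φ θ s m z *
      (Complex.exp (Complex.I * ((h * dt θ z.2 : ℝ) : ℂ)) -
        ∑ j ∈ Finset.range n, (Complex.I * ((h * dt θ z.2 : ℝ) : ℂ)) ^ j / (j.factorial : ℂ))
      with hR
    have hRb : ∀ z, ‖R z‖ ≤ (A * (D * (1 / 2) ^ n)) * om c z := by
      refine hdom T R (D * (1 / 2) ^ n) (by positivity) ?_ ?_
      · intro z hz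
        simp only [hR]
        unfold HomCF
        rw [hsupp z.1 hz, Complex.ofReal_zero, mul_zero, zero_mul]
      · intro z
        have hk0 := HomC_l1_nonneg z.2
        simp only [hR]
        rw [norm_mul]
        have h1 := HomC_norm_le hbd θ s m z
        have h2 := HomC_exp_rem (Complex.I * ((h * dt θ z.2 : ℝ) : ℂ)) n
        have h3 : ‖Complex.I * ((h * dt θ z.2 : ℝ) : ℂ)‖ ≤ c / 4 * l1 z.2 := by
          rw [norm_mul, Complex.norm_I, one_mul, Complex.norm_real, Real.norm_eq_abs, abs_mul]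
          calc |h| * |dt θ z.2| ≤ |h| * (l1 θ * l1 z.2) :=
                mul_le_mul_of_nonneg_left (HomC_dt_le θ z.2) (abs_nonneg _)
            _ = (|h| * l1 θ) * l1 z.2 := by ring
            _ ≤ c / 4 * l1 z.2 := mul_le_mul_of_nonneg_right hh hk0
        have h4 : Real.exp (2 * ‖Complex.I * ((h * dt θ z.2 : ℝ) : ℂ)‖) ≤
            Real.exp (c / 2 * l1 z.2) := Real.exp_le_exp.2 (by linarith)
        have h5 : (0 : ℝ) ≤ (1 / 2) ^ n := by positivity
        calc ‖HomCF φ θ s m z‖ * ‖Complex.exp (Complex.I * ((h * dt θ z.2 : ℝ) : ℂ)) -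
              ∑ j ∈ Finset.range n, (Complex.I * ((h * dt θ z.2 : ℝ) : ℂ)) ^ j /
                (j.factorial : ℂ)‖
            ≤ (D * (1 + l1 z.2) ^ m) * ((1 / 2) ^ n * Real.exp (c / 2 * l1 z.2)) :=
              mul_le_mul h1 (h2.trans (mul_le_mul_of_nonneg_left h4 h5)) (norm_nonneg _)
                (by positivity)
          _ = D * (1 / 2) ^ n * ((1 + l1 z.2) ^ m * Real.exp (c / 2 * l1 z.2)) := by ring
    obtain ⟨hS1, hS2⟩ := HomC_sum hL (Finset.range n) a (fun j => HomCF φ θ s (m + j))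
      (fun j _ => HomC_adm hc hφ θ s (m + j))
    have hsplit : HomCF φ θ (s + h) m =
        fun z => (∑ j ∈ Finset.range n, a j * HomCF φ θ s (m + j) z) + R z := by
      funext z
      simp only [hR, ha]
      have h1 : ∑ j ∈ Finset.range n, (Complex.I * (h : ℂ)) ^ j / (j.factorial : ℂ) *
          HomCF φ θ s (m + j) z = HomCF φ θ s m z *
          ∑ j ∈ Finset.range n, (Complex.I * ((h * dt θ z.2 : ℝ) : ℂ)) ^ j /
            (j.factorial : ℂ) := by
        rw [Finset.mul_sum]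
        refine Finset.sum_congr rfl fun j _ => ?_
        unfold HomCF
        push_cast
        rw [pow_add, mul_pow Complex.I ((h : ℂ) * _), mul_pow (h : ℂ), mul_pow]
        ring
      rw [h1, ← mul_add, add_sub_cancel]
      unfold HomCF
      have h2 : Complex.exp (Complex.I * (((s + h) * dt θ z.2 : ℝ) : ℂ)) =
          Complex.exp (Complex.I * ((s * dt θ z.2 : ℝ) : ℂ)) *
            Complex.exp (Complex.I * ((h * dt θ z.2 : ℝ) : ℂ)) := by
        rw [← Complex.exp_add]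
        congr 1
        push_cast
        ring
      rw [h2]
      ring
    rw [hsplit, hL.add _ R hS1 ⟨_, hRb⟩, hS2]
    have h0 : ∑ j ∈ Finset.range n, a j * L (HomCF φ θ s (m + j)) = 0 :=
      Finset.sum_eq_zero fun j _ => by rw [hs (m + j), mul_zero]
    rw [h0, zero_add]
    exact hL.bd _ R (by positivity) hRb
  have hlim : Filter.Tendsto (fun n : ℕ => C * (A * (D * (1 / 2 : ℝ) ^ n))) Filter.atTop
      (nhds 0) := by
    have h1 : Filter.Tendsto (fun n : ℕ => (1 / 2 : ℝ) ^ n) Filter.atTop (nhds 0) :=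
      tendsto_pow_atTop_nhds_zero_of_lt_one (by norm_num) (by norm_num)
    have h2 := ((h1.const_mul D).const_mul A).const_mul C
    simpa using h2
  have h3 := ge_of_tendsto' hlim key
  exact norm_le_zero_iff.1 h3

/-- (c): `L (G'(y) exp (i θ·k)) = 0` for all real `θ`. Proof: P(s): for all `m`,
`L ((θ·k)^m exp (i s θ·k) G'(y)) = 0`. P(0) is `hom_polar`. P(s) implies P(s+h) if `|h θ t| ≤ c/4` for all `t`:
`exp (i h u) = ∑_{j<M} (i h u)^j/j! + rem`, `|rem| ≤ ∑_{j≥M} |h u|^j/j! ≤ 2^(-M) exp (2 |h u|)`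
(`Complex.norm_exp_sub_sum_le_exp_norm_sub_sum`), `M → ∞`. -/
theorem hom_c {T : ℕ} {c C : ℝ} (hc : 0 < c) {L : (ℝ × (Fin T → ℝ) → ℂ) → ℂ} (hL : HomFun c C L)
    (φ : ℝ → ℝ) (hφ : Test φ) (θ : Fin T → ℝ) :
    L (fun z => ((deriv φ z.1 : ℝ) : ℂ) * Complex.exp (Complex.I * (dt θ z.2 : ℝ))) = 0 := by
  have hθ0 := HomC_l1_nonneg θ
  obtain ⟨n, hn⟩ := exists_nat_gt (4 * l1 θ / c)
  have hn0 : 0 < (n : ℝ) := lt_of_le_of_lt (by positivity) hn
  have hh : |1 / (n : ℝ)| * l1 θ ≤ c / 4 := by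
    rw [abs_of_pos (by positivity), div_mul_eq_mul_div, one_mul, div_le_div_iff₀ hn0 (by norm_num)]
    rw [div_lt_iff₀ hc] at hn
    nlinarith
  have hP : ∀ j : ℕ, ∀ m, L (HomCF φ θ (j * (1 / (n : ℝ))) m) = 0 := by
    intro j
    induction j with
    | zero =>
      intro m
      have h1 := hom_polar hc hL φ hφ θ m
      rw [← h1]
      congr 1
      funext z
      unfold HomCF
      simp
    | succ j ih =>
      intro m
      have h1 := HomC_step hc hL φ hφ θ (j * (1 / (n : ℝ))) (1 / (n : ℝ)) hh ih m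
      have h2 : ((j + 1 : ℕ) : ℝ) * (1 / (n : ℝ)) = j * (1 / (n : ℝ)) + 1 / (n : ℝ) := by
        push_cast
        ring
      rw [h2]
      exact h1
  have h1 := hP n 0
  have h2 : (n : ℝ) * (1 / (n : ℝ)) = 1 := by field_simp
  rw [h2] at h1
  rw [← h1]
  congr 1
  funext z
  unfold HomCF
  rw [pow_zero, one_mul, one_mul, mul_comm]

end Pool.Agent.Half
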