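import Pool.Agent.Lib_MP_33fb9b_half.LcTail

set_option autoImplicit false

/-!
# K02: small balls and quartiles of a log-concave real random variable (blueprint C1 (SB), (Q))
-/

namespace Pool.Agent.Half

open MeasureTheory

variable {Ω : Type} [MeasurableSpace Ω] {μ : Measure Ω} [IsProbabilityMeasure μ] {D : Ω → ℝ}

private theorem LcSmall_log : Real.log 8192 ≤ 37 / 4 := by
  have h : (8192 : ℝ) = 2 ^ 13 := by norm_num
  rw [h, Real.log_pow]
  have := Real.log_two_lt_d9
  push_cast
  linarith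

/-- a log-concave decreasing sequence -/
private theorem LcSmall_chain (H : ℕ → ℝ) (J : ℕ) (h0 : H 0 ≤ 1) (hJ : 1 / 8192 ≤ H (J + 1))
    (hm : Antitone H) (hlc : ∀ k, H k * H (k + 2) ≤ H (k + 1) ^ 2) :
    (H 0 - H 1) * (J + 1) ≤ 37 / 4 := by
  have hpos : ∀ k, k ≤ J + 1 → 0 < H k := fun k hk =>
    lt_of_lt_of_le (by norm_num) (hJ.trans (hm hk))
  have key : ∀ j, j ≤ J → Real.log (H 0) - Real.log (H 1) ≤ Real.log (H j) - Real.log (H (j + 1)) ∧
      (Real.log (H 0) - Real.log (H 1)) * (j + 1) ≤ Real.log (H 0) - Real.log (H (j + 1)) := by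
    intro j
    induction j with
    | zero => intro _; simp
    | succ j ih =>
      intro hj
      obtain ⟨h1, h2⟩ := ih (by omega)
      have h3 : Real.log (H j) + Real.log (H (j + 2)) ≤ 2 * Real.log (H (j + 1)) := by
        rw [← Real.log_mul (hpos j (by omega)).ne' (hpos (j + 2) (by omega)).ne']
        have h4 : 2 * Real.log (H (j + 1)) = Real.log (H (j + 1) ^ 2) := by
          rw [Real.log_pow]; push_cast; ring
        rw [h4]
        exact Real.log_le_log (mul_pos (hpos j (by omega)) (hpos (j + 2) (by omega))) (hlc j)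
      have h5 : Real.log (H 0) - Real.log (H 1) ≤ Real.log (H (j + 1)) - Real.log (H (j + 1 + 1)) := by
        have : H (j + 1 + 1) = H (j + 2) := rfl
        rw [this]
        linarith
      refine ⟨h5, ?_⟩
      push_cast
      nlinarith
  have h1 := (key J le_rfl).2
  have hp0 := hpos 0 (by omega)
  have hp1 := hpos 1 (by omega)
  have h2 : Real.log (H 0) ≤ 0 := Real.log_nonpos hp0.le h0
  have h3 : -Real.log (H (J + 1)) ≤ 37 / 4 := by
    refine le_trans ?_ LcSmall_log
    rw [← Real.log_inv]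
    refine Real.log_le_log (inv_pos.2 (hpos _ le_rfl)) ?_
    have h4 := inv_anti₀ (by norm_num : (0 : ℝ) < 1 / 8192) hJ
    refine h4.trans ?_
    norm_num
  have h4 : H 0 - H 1 ≤ Real.log (H 0) - Real.log (H 1) := by
    have h5 := Real.one_sub_inv_le_log_of_pos (div_pos hp0 hp1)
    rw [Real.log_div hp0.ne' hp1.ne', inv_div] at h5
    have h6 : H 1 ≤ H 0 := hm (by omega)
    have h7 : H 0 - H 1 ≤ 1 - H 1 / H 0 := by
      have : 1 - H 1 / H 0 = (H 0 - H 1) / H 0 := by field_simp
      rw [this, le_div_iff₀ hp0]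
      nlinarith
    linarith
  have h5 : (H 0 - H 1) * (J + 1) ≤ (Real.log (H 0) - Real.log (H 1)) * (J + 1) :=
    mul_le_mul_of_nonneg_right h4 (by positivity)
  linarith

private theorem LcSmall_steps {s η : ℝ} (hs : 0 < s) (hη : 0 < η) :
    ∃ J : ℕ, (J : ℝ) * η < s / 4 ∧ s / 4 ≤ (J + 1) * η := by
  have hx : 0 < s / 4 / η := by positivity
  have h1 : 0 < ⌈s / 4 / η⌉₊ := Nat.ceil_pos.2 hx
  obtain ⟨J, hJ⟩ := Nat.exists_eq_succ_of_ne_zero h1.ne'
  refine ⟨J, ?_, ?_⟩
  · have h2 := Nat.ceil_lt_add_one hx.le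
    rw [hJ] at h2
    push_cast at h2
    have h3 : (J : ℝ) < s / 4 / η := by linarith
    rwa [lt_div_iff₀ hη] at h3
  · have h2 := Nat.le_ceil (s / 4 / η)
    rw [hJ] at h2
    push_cast at h2
    rwa [div_le_iff₀ hη] at h2

private theorem LcSmall_up (h : LcRV μ D) {s : ℝ} (hs0 : 0 < s)
    (hs : ∫ x, |D x - ∫ y, D y ∂μ| ∂μ = s) (z η : ℝ) (hη : 0 < η) (hz : ∫ y, D y ∂μ ≤ z) :
    μ.real {x | z ≤ D x ∧ D x < z + η} ≤ 100 * η / s := by
  obtain ⟨J, hJ1, hJ2⟩ := LcSmall_steps hs0 hη
  have hlow := lc_lower h hs0 hs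
  have hc := LcSmall_chain (fun k => μ.real {x | D x < z + η - k * η}) J
    measureReal_le_one
    (by
      refine hlow.trans (measureReal_mono ?_)
      intro x hx
      simp only [Set.mem_ofPred_eq] at hx ⊢
      push_cast
      nlinarith)
    (by
      intro k l hkl
      refine measureReal_mono ?_
      intro x hx
      simp only [Set.mem_ofPred_eq] at hx ⊢
      have : (k : ℝ) ≤ l := by exact_mod_cast hkl
      nlinarith)
    (by
      intro k
      have h1 := h.F (z + η - (k + 1 : ℕ) * η) η hη.le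
      have e1 : z + η - ((k + 1 : ℕ) : ℝ) * η - η = z + η - ((k + 2 : ℕ) : ℝ) * η := by
        push_cast; ring
      have e2 : z + η - ((k + 1 : ℕ) : ℝ) * η + η = z + η - ((k : ℕ) : ℝ) * η := by
        push_cast; ring
      rw [e1, e2] at h1
      rw [mul_comm]
      exact h1)
  simp only [Nat.cast_zero, zero_mul, sub_zero, Nat.cast_one, one_mul, add_sub_cancel_right] at hc
  have hsplit : μ.real {x | D x < z + η} = μ.real {x | D x < z} + μ.real {x | z ≤ D x ∧ D x < z + η} := by
    rw [← measureReal_union]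
    · congr 1
      ext x
      simp only [Set.mem_ofPred_eq, Set.mem_union]
      constructor
      · intro hx
        rcases lt_or_ge (D x) z with h1 | h1
        · exact Or.inl h1
        · exact Or.inr ⟨h1, hx⟩
      · rintro (hx | hx)
        · linarith
        · exact hx.2
    · rw [Set.disjoint_left]
      intro x hx hx2
      simp only [Set.mem_ofPred_eq] at hx hx2
      linarith [hx2.1]
    · exact (measurableSet_le measurable_const h.meas).inter
        (measurableSet_lt h.meas measurable_const)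
  set p := μ.real {x | z ≤ D x ∧ D x < z + η} with hp
  have hp0 : 0 ≤ p := measureReal_nonneg
  have h1 : p * (J + 1) ≤ 37 / 4 := by
    rw [hsplit] at hc
    simpa using hc
  rw [le_div_iff₀ hs0]
  have h2 : p * (s / 4) ≤ p * ((J + 1) * η) := mul_le_mul_of_nonneg_left hJ2 hp0
  have h3 : p * ((J + 1) * η) ≤ 37 / 4 * η := by
    have := mul_le_mul_of_nonneg_right h1 hη.le
    linarith
  nlinarith

private theorem LcSmall_dn (h : LcRV μ D) {s : ℝ} (hs0 : 0 < s)
    (hs : ∫ x, |D x - ∫ y, D y ∂μ| ∂μ = s) (z η : ℝ) (hη : 0 < η) (hz : z + η ≤ ∫ y, D y ∂μ) :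
    μ.real {x | z ≤ D x ∧ D x < z + η} ≤ 100 * η / s := by
  obtain ⟨J, hJ1, hJ2⟩ := LcSmall_steps hs0 (by linarith : 0 < 2 * η)
  have hup := lc_upper h hs0 hs
  have hc := LcSmall_chain (fun k => μ.real {x | z - η + k * (2 * η) < D x}) J
    measureReal_le_one
    (by
      refine hup.trans (measureReal_mono ?_)
      intro x hx
      simp only [Set.mem_ofPred_eq] at hx ⊢
      push_cast
      nlinarith)
    (by
      intro k l hkl
      refine measureReal_mono ?_
      intro x hx
      simp only [Set.mem_ofPred_eq] at hx ⊢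
      have : (k : ℝ) ≤ l := by exact_mod_cast hkl
      nlinarith)
    (by
      intro k
      have h1 := h.G (z - η + (k + 1 : ℕ) * (2 * η)) (2 * η) (by linarith)
      have e1 : z - η + ((k + 1 : ℕ) : ℝ) * (2 * η) + 2 * η = z - η + ((k + 2 : ℕ) : ℝ) * (2 * η) := by
        push_cast; ring
      have e2 : z - η + ((k + 1 : ℕ) : ℝ) * (2 * η) - 2 * η = z - η + ((k : ℕ) : ℝ) * (2 * η) := by
        push_cast; ring
      rw [e1, e2] at h1
      rw [mul_comm]
      exact h1)
  have e3 : z - η + ((1 : ℕ) : ℝ) * (2 * η) = z + η := by push_cast; ring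
  have e4 : z - η + ((0 : ℕ) : ℝ) * (2 * η) = z - η := by push_cast; ring
  simp only [e3, e4] at hc
  have hsplit : μ.real {x | z ≤ D x ∧ D x < z + η} + μ.real {x | z + η < D x} ≤
      μ.real {x | z - η < D x} := by
    rw [← measureReal_union]
    · refine measureReal_mono ?_
      intro x hx
      simp only [Set.mem_ofPred_eq, Set.mem_union] at hx ⊢
      rcases hx with hx | hx
      · linarith [hx.1]
      · linarith
    · rw [Set.disjoint_left]
      intro x hx hx2
      simp only [Set.mem_ofPred_eq] at hx hx2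
      linarith [hx.2]
    · exact measurableSet_lt measurable_const h.meas
  set p := μ.real {x | z ≤ D x ∧ D x < z + η} with hp
  have hp0 : 0 ≤ p := measureReal_nonneg
  have h1 : p * (J + 1) ≤ 37 / 4 := by
    refine le_trans ?_ hc
    exact mul_le_mul_of_nonneg_right (by linarith) (by positivity)
  rw [le_div_iff₀ hs0]
  have h2 : p * (s / 4) ≤ p * ((J + 1) * (2 * η)) := mul_le_mul_of_nonneg_left hJ2 hp0
  have h3 : p * ((J + 1) * (2 * η)) ≤ 37 / 4 * (2 * η) := by
    have := mul_le_mul_of_nonneg_right h1 (by linarith : 0 ≤ 2 * η)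
    linarith
  nlinarith

/-- (SB). Proof. Case `z ≥ m` (`m` the mean). `F` on the points `z + η, z, z - η, .., z - J η ≥ m - s/4`:
the ratios `F(y+η)/F(y)` decrease in `y`, the product of the `J+1 ≥ s/(4η)` last ones is at most
`1/F(m - s/4) ≤ 8192`, so `log (F(z+η)/F(z)) ≤ 4 η log 8192/s ≤ 37 η/s`, and
`F(z+η) - F(z) ≤ log (F(z+η)/F(z))`. (`F(y) = μ(D < y)`; `F(m - s/4) >= ..` use `lc_lower` with `D ≤`
and a slightly larger point, or start the chain at `m - s/4 + η`.) Case `z + η ≤ m`: the same with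
`G(y) = μ(D > y)` on the points `z - η, z + η, z + 3η, ..` (step `2η`), giving `74 η/s`. Case
`z < m < z + η`: split at `m`. (Trivial if `100 η ≥ s`.) -/
theorem lc_small (h : LcRV μ D) {s : ℝ} (hs0 : 0 < s) (hs : ∫ x, |D x - ∫ y, D y ∂μ| ∂μ = s)
    (z η : ℝ) (hη : 0 ≤ η) :
    μ.real {x | z ≤ D x ∧ D x < z + η} ≤ 100 * η / s := by
  rcases eq_or_lt_of_le hη with h0 | h0
  · have : {x | z ≤ D x ∧ D x < z + η} = ∅ := by
      ext x
      simp only [Set.mem_ofPred_eq, Set.mem_empty_iff_false, iff_false, not_and, not_lt]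
      intro hx
      linarith
    rw [this, measureReal_empty, ← h0]
    simp
  rcases le_or_gt (∫ y, D y ∂μ) z with h1 | h1
  · exact LcSmall_up h hs0 hs z η h0 h1
  rcases le_or_gt (z + η) (∫ y, D y ∂μ) with h2 | h2
  · exact LcSmall_dn h hs0 hs z η h0 h2
  set m := ∫ y, D y ∂μ with hm
  have ha := LcSmall_dn h hs0 hs z (m - z) (by linarith) (by linarith)
  have hb := LcSmall_up h hs0 hs m (z + η - m) (by linarith) le_rfl
  have hsub : {x | z ≤ D x ∧ D x < z + η} ⊆
      {x | z ≤ D x ∧ D x < z + (m - z)} ∪ {x | m ≤ D x ∧ D x < m + (z + η - m)} := by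
    intro x hx
    simp only [Set.mem_ofPred_eq, Set.mem_union] at hx ⊢
    rcases lt_or_ge (D x) m with h3 | h3
    · exact Or.inl ⟨hx.1, by linarith⟩
    · exact Or.inr ⟨h3, by linarith [hx.2]⟩
  refine (measureReal_mono hsub).trans ((measureReal_union_le _ _).trans ?_)
  have e : 100 * η / s = 100 * (m - z) / s + 100 * (z + η - m) / s := by
    field_simp; ring
  rw [e]
  exact add_le_add ha hb

/-- (Q) a median with some room on both sides. Proof: `m0 = sup {z | μ(D < z) ≤ 1/2}`, then
`μ(D < m0) ≤ 1/2` and `μ(D ≤ m0) ≥ 1/2`; `lc_small` with `η = s/400` (for the lower side use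
`z = m0 - s/400` and that there is no atom: `lc_small` with `η → 0`). `|m0 - m| ≤ 2 s`: Markov. -/
theorem lc_median (h : LcRV μ D) {s : ℝ} (hs0 : 0 < s) (hs : ∫ x, |D x - ∫ y, D y ∂μ| ∂μ = s) :
    ∃ m0 : ℝ, 1 / 2 ≤ μ.real {x | m0 ≤ D x} ∧ 1 / 2 ≤ μ.real {x | D x ≤ m0} ∧
      1 / 4 ≤ μ.real {x | m0 + s / 400 ≤ D x} ∧ 1 / 4 ≤ μ.real {x | D x ≤ m0 - s / 400} ∧
      |m0 - ∫ y, D y ∂μ| ≤ 2 * s := by
  set m := ∫ y, D y ∂μ with hm
  set F : ℝ → ℝ := fun z => μ.real {x | D x < z} with hF
  have hmsF : ∀ z, MeasurableSet {x | D x < z} := fun z => measurableSet_lt h.meas measurable_const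
  have hFmono : Monotone F := by
    intro a b hab
    refine measureReal_mono ?_
    intro x hx
    simp only [Set.mem_ofPred_eq] at hx ⊢
    linarith
  have hcompl : ∀ z, μ.real {x | z ≤ D x} = 1 - F z := by
    intro z
    have h1 := probReal_compl_eq_one_sub (μ := μ) (hmsF z)
    have h2 : {x | D x < z}ᶜ = {x | z ≤ D x} := by
      ext x
      simp
    rw [h2] at h1
    exact h1
  have hinc : ∀ a b : ℝ, a ≤ b → F b ≤ F a + 100 * (b - a) / s := by
    intro a b hab
    have h1 := lc_small h hs0 hs a (b - a) (by linarith)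
    have hsub : {x | D x < b} ⊆ {x | D x < a} ∪ {x | a ≤ D x ∧ D x < a + (b - a)} := by
      intro x hx
      simp only [Set.mem_ofPred_eq, Set.mem_union] at hx ⊢
      rcases lt_or_ge (D x) a with h3 | h3
      · exact Or.inl h3
      · exact Or.inr ⟨h3, by linarith⟩
    have h2 := (measureReal_mono hsub (μ := μ)).trans (measureReal_union_le _ _)
    simp only [hF]
    linarith
  have hcont : Continuous F := by
    have : LipschitzWith (Real.toNNReal (100 / s)) F := by
      refine LipschitzWith.of_le_add_mul _ ?_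
      intro x y
      rw [Real.coe_toNNReal _ (by positivity), Real.dist_eq]
      rcases le_total x y with hxy | hxy
      · have h1 := hFmono hxy
        have h2 : 0 ≤ 100 / s * |x - y| := by positivity
        linarith
      · have h1 := hinc y x hxy
        rw [abs_of_nonneg (by linarith)]
        have : 100 * (x - y) / s = 100 / s * (x - y) := by ring
        linarith
    exact this.continuous
  -- Markov
  have hmark : μ.real {x | 2 * s ≤ |D x - m|} ≤ 1 / 2 := by
    have h1 := mul_meas_ge_le_integral_of_nonneg (μ := μ) (f := fun x => |D x - m|)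
      (Filter.Eventually.of_forall fun x => abs_nonneg _) ((h.int.sub (integrable_const m)).abs) (2 * s)
    rw [hs] at h1
    nlinarith
  have hF1 : F (m - 2 * s) ≤ 1 / 2 := by
    refine le_trans (measureReal_mono ?_) hmark
    intro x hx
    simp only [Set.mem_ofPred_eq] at hx ⊢
    rw [abs_of_nonpos (by linarith)]
    linarith
  have hF2 : 1 / 2 ≤ F (m + 2 * s) := by
    have h1 : μ.real {x | m + 2 * s ≤ D x} ≤ 1 / 2 := by
      refine le_trans (measureReal_mono ?_) hmark
      intro x hx
      simp only [Set.mem_ofPred_eq] at hx ⊢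
      rw [abs_of_nonneg (by linarith)]
      linarith
    rw [hcompl] at h1
    linarith
  obtain ⟨m0, ⟨hm1, hm2⟩, hm0⟩ := intermediate_value_Icc (by linarith : m - 2 * s ≤ m + 2 * s)
    hcont.continuousOn ⟨hF1, hF2⟩
  have hle : ∀ z, F z ≤ μ.real {x | D x ≤ z} := by
    intro z
    refine measureReal_mono ?_
    intro x hx
    simp only [Set.mem_ofPred_eq] at hx ⊢
    exact hx.le
  have e : 100 * (s / 400) / s = 1 / 4 := by field_simp; norm_num
  refine ⟨m0, ?_, ?_, ?_, ?_, ?_⟩
  · rw [hcompl, hm0]; norm_num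
  · rw [← hm0]; exact hle m0
  · rw [hcompl]
    have h1 := hinc m0 (m0 + s / 400) (by linarith)
    rw [add_sub_cancel_left, e, hm0] at h1
    linarith
  · refine le_trans ?_ (hle _)
    have h1 := hinc (m0 - s / 400) m0 (by linarith)
    rw [sub_sub_cancel, e, hm0] at h1
    linarith
  · rw [abs_le]
    constructor <;> linarith

end Pool.Agent.Half
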