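import Pool.Agent.Lib_MP_33fb9b_half.Defs

set_option autoImplicit false

/-!
# K01: exponential tails of a log-concave real random variable (blueprint C1 (T))
-/

namespace Pool.Agent.Half

open MeasureTheory

variable {Ω : Type} [MeasurableSpace Ω] {μ : Measure Ω} [IsProbabilityMeasure μ] {D : Ω → ℝ}

omit [IsProbabilityMeasure μ] in
/-- the class is stable under `D ↦ -D` -/
private theorem LcTail_neg (h : LcRV μ D) : LcRV μ (fun x => -D x) := by
  refine ⟨h.meas.neg, h.int.neg, ?_, ?_⟩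
  · intro s t ht
    have h1 := h.G (-s) t ht
    have e1 : {x | -D x < s - t} = {x | -s + t < D x} := by
      ext x; simp only [Set.mem_ofPred_eq]; constructor <;> intro hx <;> linarith
    have e2 : {x | -D x < s + t} = {x | -s - t < D x} := by
      ext x; simp only [Set.mem_ofPred_eq]; constructor <;> intro hx <;> linarith
    have e3 : {x | -D x < s} = {x | -s < D x} := by
      ext x; simp only [Set.mem_ofPred_eq]; constructor <;> intro hx <;> linarith
    rw [e1, e2, e3]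
    exact h1
  · intro s t ht
    have h1 := h.F (-s) t ht
    have e1 : {x | s + t < -D x} = {x | D x < -s - t} := by
      ext x; simp only [Set.mem_ofPred_eq]; constructor <;> intro hx <;> linarith
    have e2 : {x | s - t < -D x} = {x | D x < -s + t} := by
      ext x; simp only [Set.mem_ofPred_eq]; constructor <;> intro hx <;> linarith
    have e3 : {x | s < -D x} = {x | D x < -s} := by
      ext x; simp only [Set.mem_ofPred_eq]; constructor <;> intro hx <;> linarith
    rw [e1, e2, e3]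
    exact h1

/-- Markov at level `4 s` -/
private theorem LcTail_markov (h : LcRV μ D) {s : ℝ} (hs0 : 0 < s)
    (hs : ∫ x, |D x - ∫ y, D y ∂μ| ∂μ ≤ s) :
    μ.real {x | 4 * s ≤ |D x - ∫ y, D y ∂μ|} ≤ 1 / 4 := by
  have h1 := mul_meas_ge_le_integral_of_nonneg (μ := μ) (f := fun x => |D x - ∫ y, D y ∂μ|)
    (Filter.Eventually.of_forall fun x => abs_nonneg _)
    ((h.int.sub (integrable_const (∫ y, D y ∂μ))).abs) (4 * s)
  have h2 : 4 * s * μ.real {x | 4 * s ≤ |D x - ∫ y, D y ∂μ|} ≤ s := h1.trans hs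
  have h3 : 0 ≤ μ.real {x | 4 * s ≤ |D x - ∫ y, D y ∂μ|} := measureReal_nonneg
  nlinarith

/-- one-sided tail -/
private theorem LcTail_one (h : LcRV μ D) {s : ℝ} (hs0 : 0 < s)
    (hs : ∫ x, |D x - ∫ y, D y ∂μ| ∂μ ≤ s) (k : ℕ) :
    μ.real {x | (∫ y, D y ∂μ) + 4 * s + 8 * s * k < D x} ≤ 1 / 4 * (1 / 3) ^ k := by
  set m := ∫ y, D y ∂μ with hm
  have hmark := LcTail_markov h hs0 hs
  rw [← hm] at hmark
  set a : ℕ → ℝ := fun k => μ.real {x | m - 4 * s + 8 * s * k < D x} with ha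
  have hanti : Antitone a := by
    intro i j hij
    refine measureReal_mono ?_
    intro x hx
    simp only [Set.mem_ofPred_eq] at hx ⊢
    have : (i : ℝ) ≤ j := by exact_mod_cast hij
    nlinarith
  have hnn : ∀ k, 0 ≤ a k := fun k => measureReal_nonneg
  have ha0 : 3 / 4 ≤ a 0 := by
    have hms : MeasurableSet {x | 4 * s ≤ |D x - m|} :=
      measurableSet_le measurable_const ((h.meas.sub_const m).abs)
    have h1 := probReal_compl_eq_one_sub (μ := μ) hms
    have h2 : μ.real {x | 4 * s ≤ |D x - m|}ᶜ ≤ a 0 := by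
      refine measureReal_mono ?_
      intro x hx
      simp only [Set.mem_compl_iff, Set.mem_ofPred_eq, not_le] at hx ⊢
      have := (abs_lt.1 hx).1
      push_cast
      linarith
    linarith
  have ha1 : a 1 ≤ 1 / 4 := by
    refine le_trans (measureReal_mono ?_) hmark
    intro x hx
    simp only [Set.mem_ofPred_eq] at hx ⊢
    push_cast at hx
    refine le_trans ?_ (le_abs_self _)
    linarith
  have hlc : ∀ k, a k * a (k + 2) ≤ a (k + 1) ^ 2 := by
    intro k
    have h1 := h.G (m - 4 * s + 8 * s * (k + 1 : ℕ)) (8 * s) (by linarith)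
    have e1 : m - 4 * s + 8 * s * ((k + 1 : ℕ) : ℝ) + 8 * s = m - 4 * s + 8 * s * ((k + 2 : ℕ) : ℝ) := by
      push_cast; ring
    have e2 : m - 4 * s + 8 * s * ((k + 1 : ℕ) : ℝ) - 8 * s = m - 4 * s + 8 * s * ((k : ℕ) : ℝ) := by
      push_cast; ring
    rw [e1, e2, mul_comm] at h1
    exact h1
  have hstep : ∀ k, a (k + 1) ≤ 1 / 3 * a k := by
    intro k
    induction k with
    | zero => simp only [zero_add]; linarith
    | succ k ih =>
      rcases (hnn k).eq_or_lt with h0 | h0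
      · have h1 : a (k + 1) ≤ a k := hanti (by omega)
        have h2 : a (k + 1 + 1) ≤ a (k + 1) := hanti (by omega)
        have h3 := hnn (k + 1)
        linarith
      · have h1 := hlc k
        have h2 : a k * a (k + 2) ≤ a k * (1 / 3 * a (k + 1)) := by
          have := mul_le_mul_of_nonneg_right ih (hnn (k + 1))
          nlinarith
        exact le_of_mul_le_mul_left h2 h0
  have hfin : ∀ k, a (k + 1) ≤ 1 / 4 * (1 / 3) ^ k := by
    intro k
    induction k with
    | zero => simpa using ha1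
    | succ k ih =>
      have h1 := hstep (k + 1)
      rw [pow_succ]
      linarith
  refine le_trans (le_of_eq ?_) (hfin k)
  simp only [ha]
  congr 1
  ext x
  simp only [Set.mem_ofPred_eq]
  push_cast
  constructor <;> intro hx <;> linarith

private theorem LcTail_exp32 : Real.exp (3 / 2) ≤ 8 := by
  have h1 : Real.exp (3 / 2) ≤ Real.exp 2 := Real.exp_le_exp.2 (by norm_num)
  have h2 : Real.exp 2 = Real.exp 1 * Real.exp 1 := by
    rw [← Real.exp_add]; norm_num
  have h3 := Real.exp_one_lt_d9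
  have h4 := Real.exp_pos 1
  nlinarith

/-- (T). Proof: Markov gives `μ(D - m ≥ 4s) ≤ 1/4` and `μ(D - m > -4s) ≥ 3/4`; with `F`/`G` at step `8s`
(induction) `μ(D > m + 4s + 8s k) ≤ (1/4) 3^(-k)`, and the same on the other side. -/
theorem lc_tail (h : LcRV μ D) {s : ℝ} (hs0 : 0 < s) (hs : ∫ x, |D x - ∫ y, D y ∂μ| ∂μ ≤ s) (z : ℝ) :
    μ.real {x | z ≤ |D x - ∫ y, D y ∂μ|} ≤ 4 * Real.exp (-(z / (8 * s))) := by
  set m := ∫ y, D y ∂μ with hm
  rcases le_or_gt z (4 * s) with hz | hz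
  · refine measureReal_le_one.trans ?_
    have h1 : z / (8 * s) ≤ 1 / 2 := by
      rw [div_le_iff₀ (by positivity)]; linarith
    have h2 := Real.add_one_le_exp (-(z / (8 * s)))
    linarith
  -- `4 s + 8 s k < z ≤ 4 s + 8 s (k + 1)`
  obtain ⟨k, hk1, hk2⟩ : ∃ k : ℕ, 4 * s + 8 * s * k < z ∧ z ≤ 4 * s + 8 * s * (k + 1) := by
    have hx : 0 < (z - 4 * s) / (8 * s) := div_pos (by linarith) (by positivity)
    have h1 : 0 < ⌈(z - 4 * s) / (8 * s)⌉₊ := Nat.ceil_pos.2 hx
    obtain ⟨J, hJ⟩ := Nat.exists_eq_succ_of_ne_zero h1.ne'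
    refine ⟨J, ?_, ?_⟩
    · have h2 := Nat.ceil_lt_add_one hx.le
      rw [hJ] at h2
      push_cast at h2
      have h3 : (J : ℝ) < (z - 4 * s) / (8 * s) := by linarith
      rw [lt_div_iff₀ (by positivity)] at h3
      nlinarith
    · have h2 := Nat.le_ceil ((z - 4 * s) / (8 * s))
      rw [hJ] at h2
      push_cast at h2
      rw [div_le_iff₀ (by positivity)] at h2
      nlinarith
  have hup := LcTail_one h hs0 hs k
  have hmneg : ∫ y, -D y ∂μ = -m := by rw [integral_neg]
  have hdn := LcTail_one (LcTail_neg h) hs0 (by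
    refine le_trans (le_of_eq ?_) hs
    refine integral_congr_ae (Filter.Eventually.of_forall fun x => ?_)
    simp only [hmneg]
    rw [← abs_neg]
    congr 1
    ring) k
  rw [hmneg] at hdn
  rw [← hm] at hup
  have hsub : {x | z ≤ |D x - m|} ⊆
      {x | m + 4 * s + 8 * s * k < D x} ∪ {x | -m + 4 * s + 8 * s * k < -D x} := by
    intro x hx
    simp only [Set.mem_ofPred_eq, Set.mem_union] at hx ⊢
    rcases le_abs.1 hx with h1 | h1
    · left; linarith
    · right; linarith
  have h1 : μ.real {x | z ≤ |D x - m|} ≤ 1 / 2 * (1 / 3) ^ k := by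
    refine (measureReal_mono hsub).trans ((measureReal_union_le _ _).trans ?_)
    linarith
  refine h1.trans ?_
  have h2 : z / (8 * s) ≤ k + 3 / 2 := by
    rw [div_le_iff₀ (by positivity)]; nlinarith
  have h3 : Real.exp (-(k + 3 / 2 : ℝ)) ≤ Real.exp (-(z / (8 * s))) :=
    Real.exp_le_exp.2 (by linarith)
  have h4 : 1 / 8 * (1 / 3) ^ k ≤ Real.exp (-(k + 3 / 2 : ℝ)) := by
    have e : Real.exp (-(k + 3 / 2 : ℝ)) = (Real.exp (3 / 2))⁻¹ * ((Real.exp 1)⁻¹) ^ k := by
      rw [← Real.exp_neg, ← Real.exp_neg, ← Real.exp_nat_mul, ← Real.exp_add]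
      congr 1
      ring
    rw [e]
    have h5 : (1 / 8 : ℝ) ≤ (Real.exp (3 / 2))⁻¹ := by
      rw [one_div]
      exact inv_anti₀ (Real.exp_pos _) LcTail_exp32
    have h6 : (1 / 3 : ℝ) ≤ (Real.exp 1)⁻¹ := by
      rw [one_div]
      exact inv_anti₀ (Real.exp_pos _) Real.exp_one_lt_three.le
    have h7 : ((1 / 3 : ℝ)) ^ k ≤ ((Real.exp 1)⁻¹) ^ k := pow_le_pow_left₀ (by norm_num) h6 k
    exact mul_le_mul h5 h7 (by positivity) (by positivity)
  linarith

/-- second moment -/
private theorem LcTail_sq (h : LcRV μ D) {s : ℝ} (hs0 : 0 < s)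
    (hs : ∫ x, |D x - ∫ y, D y ∂μ| ∂μ ≤ s) :
    Integrable (fun x => (D x - ∫ y, D y ∂μ) ^ 2) μ ∧
      ∫ x, (D x - ∫ y, D y ∂μ) ^ 2 ∂μ ≤ 512 * s ^ 2 := by
  set m := ∫ y, D y ∂μ with hm
  have hmeas : Measurable (fun x => (D x - m) ^ 2) := (h.meas.sub_const m).pow_const 2
  have hlin : ∫⁻ x, ENNReal.ofReal ((D x - m) ^ 2) ∂μ ≤ ENNReal.ofReal (512 * s ^ 2) := by
    have h1 := lintegral_rpow_eq_lintegral_meas_le_mul μ (f := fun x => |D x - m|)
      (Filter.Eventually.of_forall fun x => abs_nonneg _) ((h.meas.sub_const m).abs.aemeasurable)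
      (p := 2) (by norm_num)
    have e1 : ∀ x, |D x - m| ^ (2 : ℝ) = (D x - m) ^ 2 := by
      intro x
      rw [Real.rpow_two, sq_abs]
    simp only [e1] at h1
    rw [h1]
    have h2 : ∫⁻ t in Set.Ioi (0 : ℝ), μ {a | t ≤ |D a - m|} * ENNReal.ofReal (t ^ ((2 : ℝ) - 1)) ≤
        ∫⁻ t in Set.Ioi (0 : ℝ), ENNReal.ofReal (4 * (t ^ ((2 : ℝ) - 1) * Real.exp (-(1 / (8 * s) * t)))) := by
      refine setLIntegral_mono' measurableSet_Ioi ?_
      intro t ht
      have ht0 : (0 : ℝ) < t := ht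
      have h3 := lc_tail h hs0 hs t
      rw [← hm] at h3
      have h4 : μ {a | t ≤ |D a - m|} = ENNReal.ofReal (μ.real {a | t ≤ |D a - m|}) := by
        rw [Measure.real, ENNReal.ofReal_toReal (measure_ne_top _ _)]
      rw [h4, ← ENNReal.ofReal_mul measureReal_nonneg]
      refine ENNReal.ofReal_le_ofReal ?_
      have h5 : 0 ≤ t ^ ((2 : ℝ) - 1) := Real.rpow_nonneg ht0.le _
      have h6 := mul_le_mul_of_nonneg_right h3 h5
      refine h6.trans (le_of_eq ?_)
      have e : -(t / (8 * s)) = -(1 / (8 * s) * t) := by ring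
      rw [e]
      ring
    have hG := Real.integral_rpow_mul_exp_neg_mul_Ioi (a := 2) (r := 1 / (8 * s)) (by norm_num)
      (by positivity)
    have hint : IntegrableOn (fun t : ℝ => t ^ ((2 : ℝ) - 1) * Real.exp (-(1 / (8 * s) * t)))
        (Set.Ioi 0) := by
      by_contra hcon
      have h0 : ∫ t in Set.Ioi (0 : ℝ), t ^ ((2 : ℝ) - 1) * Real.exp (-(1 / (8 * s) * t)) = 0 :=
        integral_undef hcon
      rw [h0] at hG
      have : (0 : ℝ) < (1 / (1 / (8 * s))) ^ (2 : ℝ) * Real.Gamma 2 :=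
        mul_pos (Real.rpow_pos_of_pos (by positivity) _) (Real.Gamma_pos_of_pos (by norm_num))
      linarith
    have h3 : ∫⁻ t in Set.Ioi (0 : ℝ), ENNReal.ofReal (4 * (t ^ ((2 : ℝ) - 1) * Real.exp (-(1 / (8 * s) * t))))
        = ENNReal.ofReal (∫ t in Set.Ioi (0 : ℝ), 4 * (t ^ ((2 : ℝ) - 1) * Real.exp (-(1 / (8 * s) * t)))) := by
      rw [ofReal_integral_eq_lintegral_ofReal (hint.const_mul 4)]
      refine (ae_restrict_iff' measurableSet_Ioi).2 (Filter.Eventually.of_forall fun t ht => ?_)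
      have ht0 : (0 : ℝ) < t := ht
      have := Real.rpow_nonneg ht0.le ((2 : ℝ) - 1)
      show (0 : ℝ) ≤ 4 * (t ^ ((2 : ℝ) - 1) * Real.exp (-(1 / (8 * s) * t)))
      positivity
    have h4 : ∫ t in Set.Ioi (0 : ℝ), 4 * (t ^ ((2 : ℝ) - 1) * Real.exp (-(1 / (8 * s) * t))) = 256 * s ^ 2 := by
      rw [integral_const_mul, hG]
      have e2 : Real.Gamma 2 = 1 := Real.Gamma_two
      rw [e2, Real.rpow_two]
      field_simp
      ring
    rw [h3, h4] at h2
    calc ENNReal.ofReal 2 * ∫⁻ t in Set.Ioi (0 : ℝ), μ {a | t ≤ |D a - m|} * ENNReal.ofReal (t ^ ((2 : ℝ) - 1))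
        ≤ ENNReal.ofReal 2 * ENNReal.ofReal (256 * s ^ 2) := by gcongr
      _ = ENNReal.ofReal (512 * s ^ 2) := by
          rw [← ENNReal.ofReal_mul (by norm_num)]
          congr 1
          ring
  have hintg : Integrable (fun x => (D x - m) ^ 2) μ := by
    refine ⟨hmeas.aestronglyMeasurable, ?_⟩
    rw [hasFiniteIntegral_iff_ofReal (Filter.Eventually.of_forall fun x => sq_nonneg _)]
    exact lt_of_le_of_lt hlin ENNReal.ofReal_lt_top
  refine ⟨hintg, ?_⟩
  rw [integral_eq_lintegral_of_nonneg_ae (Filter.Eventually.of_forall fun x => sq_nonneg _)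
    hmeas.aestronglyMeasurable]
  exact ENNReal.toReal_le_of_le_ofReal (by positivity) hlin

/-- one-sided lower bounds. Proof: `E (D-m)^+ = s/2`, so `E (D-m) 1{D-m ≥ s/4} ≥ s/4`; Cauchy-Schwarz with
`E (D-m)^2 ≤ ∫ 2 z * 4 exp (-z/(8s)) dz = 512 s^2` (from `lc_tail`). -/
theorem lc_upper (h : LcRV μ D) {s : ℝ} (hs0 : 0 < s) (hs : ∫ x, |D x - ∫ y, D y ∂μ| ∂μ = s) :
    1 / 8192 ≤ μ.real {x | (∫ y, D y ∂μ) + s / 4 ≤ D x} := by
  obtain ⟨hi2, hsq⟩ := LcTail_sq h hs0 hs.le
  set m := ∫ y, D y ∂μ with hm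
  have hA : MeasurableSet {x | m + s / 4 ≤ D x} := measurableSet_le measurable_const h.meas
  have hiX : Integrable (fun x => D x - m) μ := h.int.sub (integrable_const m)
  have hX0 : ∫ x, (D x - m) ∂μ = 0 := by
    rw [integral_sub h.int (integrable_const m), integral_const]
    simp [hm]
  have hpt : ∀ x, (|D x - m| + (D x - m)) / 2 ≤
      s / 4 + (1 / (4096 * s) * (D x - m) ^ 2 + 1024 * s * ({x | m + s / 4 ≤ D x}.indicator 1 x)) := by
    intro x
    by_cases hx : m + s / 4 ≤ D x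
    · have e : ({x | m + s / 4 ≤ D x}.indicator (1 : Ω → ℝ) x) = 1 := by
        rw [Set.indicator_of_mem (by exact hx)]; rfl
      rw [e, abs_of_nonneg (by linarith)]
      have h1 : 0 ≤ 1 / (4096 * s) * ((D x - m) - 2048 * s) ^ 2 := by positivity
      have h2 : 1 / (4096 * s) * ((D x - m) - 2048 * s) ^ 2 =
          1 / (4096 * s) * (D x - m) ^ 2 - (D x - m) + 1024 * s := by
        field_simp
        ring
      linarith
    · have e : ({x | m + s / 4 ≤ D x}.indicator (1 : Ω → ℝ) x) = 0 :=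
        Set.indicator_of_notMem (by exact hx) _
      rw [e]
      push Not at hx
      have h1 : 0 ≤ 1 / (4096 * s) * (D x - m) ^ 2 := by positivity
      rcases le_or_gt 0 (D x - m) with h2 | h2
      · rw [abs_of_nonneg h2]; linarith
      · rw [abs_of_neg h2]; linarith
  have hind : Integrable ({x | m + s / 4 ≤ D x}.indicator (1 : Ω → ℝ)) μ :=
    (integrable_const (1 : ℝ)).indicator hA
  have hmono := integral_mono (μ := μ) (f := fun x => (|D x - m| + (D x - m)) / 2)
    (g := fun x => s / 4 + (1 / (4096 * s) * (D x - m) ^ 2 + 1024 * s * ({x | m + s / 4 ≤ D x}.indicator 1 x)))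
    ((hiX.abs.add hiX).div_const 2)
    ((integrable_const (s / 4)).add ((hi2.const_mul _).add (hind.const_mul _))) hpt
  have hL : ∫ x, (|D x - m| + (D x - m)) / 2 ∂μ = s / 2 := by
    rw [integral_div, integral_add hiX.abs hiX, hX0, hs, add_zero]
  have hR : ∫ x, (s / 4 + (1 / (4096 * s) * (D x - m) ^ 2 +
      1024 * s * ({x | m + s / 4 ≤ D x}.indicator (1 : Ω → ℝ) x))) ∂μ =
      s / 4 + (1 / (4096 * s) * ∫ x, (D x - m) ^ 2 ∂μ) + 1024 * s * μ.real {x | m + s / 4 ≤ D x} := by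
    have ha : Integrable (fun x => 1 / (4096 * s) * (D x - m) ^ 2) μ := hi2.const_mul _
    have hb : Integrable (fun x => 1024 * s * ({x | m + s / 4 ≤ D x}.indicator (1 : Ω → ℝ) x)) μ :=
      hind.const_mul _
    have hab : Integrable (fun x => 1 / (4096 * s) * (D x - m) ^ 2 +
        1024 * s * ({x | m + s / 4 ≤ D x}.indicator (1 : Ω → ℝ) x)) μ := ha.add hb
    rw [integral_add (integrable_const _) hab, integral_add ha hb, integral_const_mul,
      integral_const_mul, integral_indicator_one hA, integral_const]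
    simp only [probReal_univ, one_smul]
    ring
  rw [hL] at hmono
  have hmono2 := hmono.trans (le_of_eq hR)
  have h1 : 1 / (4096 * s) * ∫ x, (D x - m) ^ 2 ∂μ ≤ s / 8 := by
    have h2 := mul_le_mul_of_nonneg_left hsq (by positivity : 0 ≤ 1 / (4096 * s))
    refine h2.trans (le_of_eq ?_)
    field_simp
    norm_num
  have h2 : s / 8 ≤ 1024 * s * μ.real {x | m + s / 4 ≤ D x} := by linarith
  have h3 : s * (1 / 8) ≤ s * (1024 * μ.real {x | m + s / 4 ≤ D x}) := by linarith
  have h4 := le_of_mul_le_mul_left h3 hs0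
  linarith

theorem lc_lower (h : LcRV μ D) {s : ℝ} (hs0 : 0 < s) (hs : ∫ x, |D x - ∫ y, D y ∂μ| ∂μ = s) :
    1 / 8192 ≤ μ.real {x | D x ≤ (∫ y, D y ∂μ) - s / 4} := by
  have hmneg : ∫ y, -D y ∂μ = -∫ y, D y ∂μ := by rw [integral_neg]
  have h1 := lc_upper (LcTail_neg h) hs0 (by
    refine Eq.trans ?_ hs
    refine integral_congr_ae (Filter.Eventually.of_forall fun x => ?_)
    simp only [hmneg]
    rw [← abs_neg]
    congr 1
    ring)
  rw [hmneg] at h1
  refine h1.trans (le_of_eq ?_)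
  congr 1
  ext x
  simp only [Set.mem_ofPred_eq]
  constructor <;> intro hx <;> linarith

end Pool.Agent.Half
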