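import Pool.Agent.Lib_MP_33fb9b_half.Gam
import Pool.Agent.Lib_MP_33fb9b_bft.XLD
import Pool.Agent.Lib_MP_33fb9b_ks.GamVar

set_option autoImplicit false

/-!
# K18: law of large numbers in the continuous model (blueprint C6)
-/

namespace Pool.Agent.Half

open Pool.Agent.BFT MeasureTheory

private theorem Lln_L_nonneg (φ : ℝ → ℝ) (L : ℝ) (hL : ∀ x y, |φ x - φ y| ≤ L * |x - y|) : 0 ≤ L := by
  have h1 := hL 1 0
  have h2 := abs_nonneg (φ 1 - φ 0)
  norm_num at h1
  linarith

private theorem Lln_cont (φ : ℝ → ℝ) (L : ℝ) (hL : ∀ x y, |φ x - φ y| ≤ L * |x - y|) :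
    Continuous φ := by
  have h0 := Lln_L_nonneg φ L hL
  have : LipschitzWith (Real.toNNReal L) φ := LipschitzWith.of_dist_le_mul fun x y => by
    rw [Real.dist_eq, Real.dist_eq, Real.coe_toNNReal L h0]
    exact hL x y
  exact this.continuous

private theorem Lln_bdd (φ : ℝ → ℝ) (L B : ℝ) (hL : ∀ x y, |φ x - φ y| ≤ L * |x - y|) (hB : 0 < B)
    (hs : ∀ x, B ≤ |x| → φ x = 0) (x : ℝ) : |φ x| ≤ 2 * L * B := by
  have h0 := Lln_L_nonneg φ L hL
  rcases le_or_gt B |x| with h | h
  · rw [hs x h, abs_zero]; positivity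
  · have h1 := hL x B
    rw [hs B (by rw [abs_of_pos hB]), sub_zero] at h1
    have h2 : |x - B| ≤ 2 * B := by
      rw [abs_lt] at h
      rw [abs_le]
      constructor <;> linarith
    calc |φ x| ≤ L * |x - B| := h1
      _ ≤ L * (2 * B) := mul_le_mul_of_nonneg_left h2 h0
      _ = 2 * L * B := by ring

/-- Riemann sums of a Lipschitz function with support in `[-B, B]` -/
theorem riemann (φ : ℝ → ℝ) (L B : ℝ) (hL : ∀ x y, |φ x - φ y| ≤ L * |x - y|) (hB : 0 < B)
    (hs : ∀ x, B ≤ |x| → φ x = 0) :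
    ∃ C : ℝ, ∀ (S : ℝ) (p q : ℕ), 1 ≤ S → B * S ≤ p → B * S ≤ q →
      |S⁻¹ * ∑ i ∈ Finset.range (p + q + 1), φ (((i : ℝ) - p) / S) - ∫ x, φ x| ≤ C / S := by
  have h0 := Lln_L_nonneg φ L hL
  have hc := Lln_cont φ L hL
  refine ⟨(2 * B + 2) * L, fun S p q hS hp hq => ?_⟩
  have hS0 : 0 < S := by linarith
  set N := p + q + 1 with hN
  let X : ℕ → ℝ := fun i => ((i : ℝ) - p) / S
  have hX0 : X 0 ≤ -B := by
    simp only [X, Nat.cast_zero, zero_sub]
    rw [div_le_iff₀ hS0]; linarith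
  have hXN : B ≤ X N := by
    simp only [X, hN]
    push_cast
    rw [le_div_iff₀ hS0]; linarith
  have hstep : ∀ i, X (i + 1) - X i = 1 / S := by
    intro i
    simp only [X]
    push_cast
    field_simp
    ring
  have hint : ∫ x, φ x = ∫ x in (X 0)..(X N), φ x := by
    rw [intervalIntegral.integral_of_le (by linarith)]
    rw [setIntegral_eq_integral_of_forall_compl_eq_zero]
    intro x hx
    apply hs
    rw [Set.mem_Ioc, not_and_or] at hx
    rcases hx with hx | hx
    · have : x ≤ -B := by linarith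
      rw [abs_of_nonpos (by linarith)]; linarith
    · have : B ≤ x := by linarith
      rwa [abs_of_nonneg (by linarith)]
  have hsum : ∫ x in (X 0)..(X N), φ x = ∑ i ∈ Finset.range N, ∫ x in (X i)..(X (i + 1)), φ x := by
    rw [intervalIntegral.sum_integral_adjacent_intervals]
    intro i _
    exact hc.intervalIntegrable _ _
  have herr : ∀ i, |S⁻¹ * φ (X i) - ∫ x in (X i)..(X (i + 1)), φ x| ≤
      if X i < B ∧ -B < X (i + 1) then L / S ^ 2 else 0 := by
    intro i
    have hle : X i ≤ X (i + 1) := by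
      have := hstep i
      have h2 : 0 < 1 / S := by positivity
      linarith
    have h1 : S⁻¹ * φ (X i) - ∫ x in (X i)..(X (i + 1)), φ x =
        ∫ x in (X i)..(X (i + 1)), (φ (X i) - φ x) := by
      rw [intervalIntegral.integral_sub (by simp) (hc.intervalIntegrable _ _)]
      rw [intervalIntegral.integral_const, hstep, smul_eq_mul, one_div]
    rw [h1]
    split_ifs with hif
    · have h2 : ‖∫ x in (X i)..(X (i + 1)), (φ (X i) - φ x)‖ ≤ (L / S) * |X (i + 1) - X i| := by
        apply intervalIntegral.norm_integral_le_of_norm_le_const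
        intro x hx
        rw [Set.uIoc_of_le hle] at hx
        rw [Real.norm_eq_abs]
        refine (hL _ _).trans ?_
        have h3 : |X i - x| ≤ 1 / S := by
          rw [abs_sub_comm, abs_of_nonneg (by linarith [hx.1])]
          have := hstep i
          linarith [hx.2]
        calc L * |X i - x| ≤ L * (1 / S) := mul_le_mul_of_nonneg_left h3 h0
          _ = L / S := by ring
      have hab : |X (i + 1) - X i| = 1 / S := by
        rw [hstep, abs_of_pos (by positivity)]
      rw [Real.norm_eq_abs, hab] at h2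
      refine h2.trans (le_of_eq ?_)
      field_simp
    · have h4 : ∀ x ∈ Set.uIcc (X i) (X (i + 1)), φ (X i) - φ x = 0 := by
        intro x hx
        rw [Set.uIcc_of_le hle] at hx
        rw [not_and_or] at hif
        rcases hif with hif | hif
        · rw [hs (X i), hs x, sub_zero]
          · rw [abs_of_nonneg (by linarith [hx.1])]; linarith [hx.1]
          · rw [abs_of_nonneg (by linarith)]; linarith
        · rw [hs (X i), hs x, sub_zero]
          · rw [abs_of_nonpos (by linarith [hx.2])]; linarith [hx.2]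
          · rw [abs_of_nonpos (by linarith)]; linarith
      rw [intervalIntegral.integral_congr (g := fun _ => 0) (by
        intro x hx; exact h4 x hx)]
      simp
  have hcard : (((Finset.range N).filter fun i => X i < B ∧ -B < X (i + 1)).card : ℝ) ≤
      2 * (B * S) + 2 := by
    have h1 : (Finset.range N).filter (fun i => X i < B ∧ -B < X (i + 1)) ⊆
        Finset.Ico (p - ⌈B * S⌉₊) (p + ⌈B * S⌉₊) := by
      intro i hi
      obtain ⟨_, h2, h3⟩ := Finset.mem_filter.1 hi
      have hceil := Nat.le_ceil (B * S)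
      simp only [X] at h2 h3
      rw [div_lt_iff₀ hS0] at h2
      rw [lt_div_iff₀ hS0] at h3
      rw [Finset.mem_Ico]
      constructor
      · have h5 : (p : ℝ) < (i : ℝ) + 1 + ⌈B * S⌉₊ := by
          push_cast at h3
          linarith
        have h6 : p < i + 1 + ⌈B * S⌉₊ := by exact_mod_cast h5
        omega
      · have h5 : (i : ℝ) < (p : ℝ) + ⌈B * S⌉₊ := by linarith
        exact_mod_cast h5
    have h2 := Finset.card_le_card h1
    rw [Nat.card_Ico] at h2
    have h3 : (p + ⌈B * S⌉₊ - (p - ⌈B * S⌉₊) : ℕ) ≤ 2 * ⌈B * S⌉₊ := by omega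
    have h4 : (((Finset.range N).filter fun i => X i < B ∧ -B < X (i + 1)).card : ℝ) ≤
        2 * (⌈B * S⌉₊ : ℝ) := by exact_mod_cast h2.trans h3
    have h5 := Nat.ceil_lt_add_one (show 0 ≤ B * S by positivity)
    linarith
  have h1 : S⁻¹ * ∑ i ∈ Finset.range N, φ (((i : ℝ) - p) / S) - ∫ x, φ x =
      ∑ i ∈ Finset.range N, (S⁻¹ * φ (X i) - ∫ x in (X i)..(X (i + 1)), φ x) := by
    rw [hint, hsum, Finset.mul_sum, Finset.sum_sub_distrib]
  rw [h1]
  refine (Finset.abs_sum_le_sum_abs _ _).trans ((Finset.sum_le_sum fun i _ => herr i).trans ?_)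
  rw [← Finset.sum_filter, Finset.sum_const, nsmul_eq_mul]
  have h2 : 0 ≤ L / S ^ 2 := by positivity
  refine (mul_le_mul_of_nonneg_right hcard h2).trans ?_
  have h3 : 2 * (B * S) + 2 ≤ (2 * B + 2) * S := by nlinarith
  refine (mul_le_mul_of_nonneg_right h3 h2).trans (le_of_eq ?_)
  field_simp

private theorem Lln_rho : Real.exp (1 / 2) / 2 < 1 ∧ 0 < Real.exp (1 / 2) / 2 := by
  constructor
  · rw [div_lt_one (by norm_num)]
    have h1 : Real.exp (1 / 2) * Real.exp (1 / 2) = Real.exp 1 := by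
      rw [← Real.exp_add]; norm_num
    have h2 := Real.exp_one_lt_d9
    nlinarith [Real.exp_pos (1 / 2 : ℝ)]
  · positivity

private theorem Lln_one (n : ℕ) (J : Finset (Fin n)) (φ : ℝ → ℝ) (L B S : ℝ)
    (hL : ∀ x y, |φ x - φ y| ≤ L * |x - y|) (hB : 0 < B) (hs : ∀ x, B ≤ |x| → φ x = 0)
    (hS : 1 ≤ S) :
    ∫ y, |φ ((∑ j ∈ J, y j) / S) - φ ((J.card : ℝ) / S)| ∂(gam n) ≤
      (if (J.card : ℝ) ≤ 2 * B * S then (L / S) * Real.sqrt (2 * B * S) else 0) +
        2 * L * B * (Real.exp (1 / 2) / 2) ^ J.card := by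
  have h0 := Lln_L_nonneg φ L hL
  have hS0 : 0 < S := by linarith
  obtain ⟨hi, hd⟩ := gam_dev n J
  have hρ := Lln_rho.2
  split_ifs with hif
  · have h1 : ∫ y, |φ ((∑ j ∈ J, y j) / S) - φ ((J.card : ℝ) / S)| ∂(gam n) ≤
        ∫ y, (L / S) * |∑ j ∈ J, y j - (J.card : ℝ)| ∂(gam n) := by
      apply integral_mono_of_nonneg
      · exact Filter.Eventually.of_forall fun y => abs_nonneg _
      · exact hi.const_mul _
      · refine Filter.Eventually.of_forall fun y => (hL _ _).trans (le_of_eq ?_)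
        dsimp only
        rw [← sub_div, abs_div, abs_of_pos hS0]
        ring
    rw [integral_const_mul] at h1
    have h2 : (L / S) * ∫ y, |∑ j ∈ J, y j - (J.card : ℝ)| ∂(gam n) ≤
        (L / S) * Real.sqrt (2 * B * S) :=
      mul_le_mul_of_nonneg_left (hd.trans (Real.sqrt_le_sqrt hif)) (by positivity)
    have h3 : 0 ≤ 2 * L * B * (Real.exp (1 / 2) / 2) ^ J.card := by positivity
    linarith
  · rw [not_le] at hif
    have h1 : φ ((J.card : ℝ) / S) = 0 := by
      apply hs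
      rw [abs_of_nonneg (by positivity), le_div_iff₀ hS0]
      nlinarith
    rw [h1]
    have hmeas : MeasurableSet {y : Fin n → ℝ | ∑ j ∈ J, y j ≤ (J.card : ℝ) / 2} :=
      measurableSet_le (Finset.measurable_sum _ fun j _ => measurable_pi_apply j) measurable_const
    have h2 : ∫ y, |φ ((∑ j ∈ J, y j) / S) - 0| ∂(gam n) ≤
        ∫ y, ({y : Fin n → ℝ | ∑ j ∈ J, y j ≤ (J.card : ℝ) / 2}).indicator
          (fun _ => 2 * L * B) y ∂(gam n) := by
      apply integral_mono_of_nonneg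
      · exact Filter.Eventually.of_forall fun y => abs_nonneg _
      · exact (integrable_const _).indicator hmeas
      · refine Filter.Eventually.of_forall fun y => ?_
        dsimp only
        rw [sub_zero]
        by_cases hy : ∑ j ∈ J, y j ≤ (J.card : ℝ) / 2
        · rw [Set.indicator_of_mem (by exact hy)]
          exact Lln_bdd φ L B hL hB hs _
        · rw [Set.indicator_of_notMem (by exact hy), hs, abs_zero]
          rw [not_le] at hy
          have h3 : B ≤ (∑ j ∈ J, y j) / S := by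
            rw [le_div_iff₀ hS0]; nlinarith
          rwa [abs_of_nonneg (by linarith)]
    rw [integral_indicator_const _ hmeas, smul_eq_mul] at h2
    have h4 := gam_lower n J
    have h5 : (gam n).real {y : Fin n → ℝ | ∑ j ∈ J, y j ≤ (J.card : ℝ) / 2} * (2 * L * B) ≤
        (Real.exp (1 / 2) / 2) ^ J.card * (2 * L * B) :=
      mul_le_mul_of_nonneg_right h4 (by positivity)
    rw [zero_add]
    calc _ ≤ _ := h2
      _ ≤ _ := h5
      _ = _ := by ring

/-- distance of positions -/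
private def nd (i k : ℕ) : ℕ := (i - k) + (k - i)

private theorem Lln_geom (ρ : ℝ) (h0 : 0 < ρ) (h1 : ρ < 1) (n k : ℕ) :
    ∑ i ∈ Finset.range n, ρ ^ (nd i k) ≤ 2 / (1 - ρ) := by
  have hs := summable_geometric_of_lt_one h0.le h1
  have ht : ∑' i, ρ ^ i = (1 - ρ)⁻¹ := tsum_geometric_of_lt_one h0.le h1
  have hA : ∑ i ∈ (Finset.range n).filter (fun i => i < k), ρ ^ (nd i k) ≤ (1 - ρ)⁻¹ := by
    rw [← ht]
    have h2 : ∑ i ∈ (Finset.range n).filter (fun i => i < k), ρ ^ (nd i k) =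
        ∑ j ∈ ((Finset.range n).filter (fun i => i < k)).image (fun i => k - i), ρ ^ j := by
      rw [Finset.sum_image]
      · refine Finset.sum_congr rfl fun i hi => ?_
        have := (Finset.mem_filter.1 hi).2
        unfold nd
        congr 1
        omega
      · intro i hi j hj hij
        have h3 := (Finset.mem_filter.1 hi).2
        have h4 := (Finset.mem_filter.1 hj).2
        simp only at hij
        omega
    rw [h2]
    exact hs.sum_le_tsum _ fun i _ => by positivity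
  have hB : ∑ i ∈ (Finset.range n).filter (fun i => ¬ i < k), ρ ^ (nd i k) ≤ (1 - ρ)⁻¹ := by
    rw [← ht]
    have h2 : ∑ i ∈ (Finset.range n).filter (fun i => ¬ i < k), ρ ^ (nd i k) =
        ∑ j ∈ ((Finset.range n).filter (fun i => ¬ i < k)).image (fun i => i - k), ρ ^ j := by
      rw [Finset.sum_image]
      · refine Finset.sum_congr rfl fun i hi => ?_
        have := (Finset.mem_filter.1 hi).2
        unfold nd
        congr 1
        omega
      · intro i hi j hj hij
        have h3 := (Finset.mem_filter.1 hi).2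
        have h4 := (Finset.mem_filter.1 hj).2
        simp only at hij
        omega
    rw [h2]
    exact hs.sum_le_tsum _ fun i _ => by positivity
  rw [← Finset.sum_filter_add_sum_filter_not (Finset.range n) (fun i => i < k)]
  have : (2 : ℝ) / (1 - ρ) = (1 - ρ)⁻¹ + (1 - ρ)⁻¹ := by
    rw [div_eq_mul_inv]; ring
  linarith

private theorem Lln_count (n k : ℕ) (T : ℝ) (hT : 0 ≤ T) :
    (((Finset.range n).filter fun i => ((nd i k : ℕ) : ℝ) ≤ T).card : ℝ) ≤ 2 * T + 1 := by
  have h1 : (Finset.range n).filter (fun i => ((nd i k : ℕ) : ℝ) ≤ T) ⊆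
      Finset.Ico (k - ⌊T⌋₊) (k + ⌊T⌋₊ + 1) := by
    intro i hi
    have h2 := (Finset.mem_filter.1 hi).2
    have h3 : nd i k ≤ ⌊T⌋₊ := Nat.le_floor h2
    rw [Finset.mem_Ico]
    unfold nd at h3
    omega
  have h2 := Finset.card_le_card h1
  rw [Nat.card_Ico] at h2
  have h3 : (k + ⌊T⌋₊ + 1 - (k - ⌊T⌋₊) : ℕ) ≤ 2 * ⌊T⌋₊ + 1 := by omega
  have h4 : (((Finset.range n).filter fun i => ((nd i k : ℕ) : ℝ) ≤ T).card : ℝ) ≤
      2 * (⌊T⌋₊ : ℝ) + 1 := by exact_mod_cast h2.trans h3
  have h5 := Nat.floor_le hT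
  linarith

private theorem Lln_sum_pos {P : Type} [Fintype P] [PartialOrder P] (σ : BFT.LE P) (f : ℕ → ℝ) :
    ∑ w, f (pos σ w) = ∑ i ∈ Finset.range (Fintype.card P), f i := by
  rw [← Fin.sum_univ_eq_sum_range]
  exact Fintype.sum_equiv σ.1 _ _ fun w => rfl

private theorem Lln_pair {P : Type} [Fintype P] [PartialOrder P] (σ : BFT.LE P) (a w : P)
    (φ : ℝ → ℝ) (L B S : ℝ)
    (hL : ∀ x y, |φ x - φ y| ≤ L * |x - y|) (hB : 0 < B) (hs : ∀ x, B ≤ |x| → φ x = 0)
    (hS : 1 ≤ S) :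
    ∫ y, |φ ((Xv σ y w - Xv σ y a) / S) - φ (((pos σ w : ℝ) - pos σ a) / S)|
        ∂(gam (Fintype.card P)) ≤
      (if ((nd (pos σ w) (pos σ a) : ℕ) : ℝ) ≤ 2 * B * S then
        (L / S) * Real.sqrt (2 * B * S) else 0) +
        2 * L * B * (Real.exp (1 / 2) / 2) ^ (nd (pos σ w) (pos σ a)) := by
  rcases le_total (pos σ a) (pos σ w) with h | h
  · have h1 := Lln_one (Fintype.card P) (Finset.Ioc (σ.1 a) (σ.1 w)) φ L B S hL hB hs hS
    have h2 : (Finset.Ioc (σ.1 a) (σ.1 w)).card = nd (pos σ w) (pos σ a) := by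
      rw [Xv_card]; unfold nd; omega
    have h3 : ((Finset.Ioc (σ.1 a) (σ.1 w)).card : ℝ) = (pos σ w : ℝ) - pos σ a := by
      rw [Xv_card, Nat.cast_sub h]
    have h4 : ∀ y, Xv σ y w - Xv σ y a = ∑ j ∈ Finset.Ioc (σ.1 a) (σ.1 w), y j :=
      fun y => Xv_diff σ y a w h
    simp only [h4, ← h3]
    rw [← h2]
    exact h1
  · have h1 := Lln_one (Fintype.card P) (Finset.Ioc (σ.1 w) (σ.1 a)) (fun x => φ (-x)) L B S
      (fun x y => by
        refine (hL _ _).trans (le_of_eq ?_)
        rw [show -x - -y = -(x - y) by ring, abs_neg])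
      hB (fun x hx => hs _ (by rwa [abs_neg])) hS
    have h2 : (Finset.Ioc (σ.1 w) (σ.1 a)).card = nd (pos σ w) (pos σ a) := by
      rw [Xv_card]; unfold nd; omega
    have h3 : ((Finset.Ioc (σ.1 w) (σ.1 a)).card : ℝ) = (pos σ a : ℝ) - pos σ w := by
      rw [Xv_card, Nat.cast_sub h]
    have h4 : ∀ y, Xv σ y w - Xv σ y a = -(∑ j ∈ Finset.Ioc (σ.1 w) (σ.1 a), y j) :=
      fun y => by rw [← Xv_diff σ y w a h]; ring
    have h5 : (pos σ w : ℝ) - pos σ a = -((Finset.Ioc (σ.1 w) (σ.1 a)).card : ℝ) := by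
      rw [h3]; ring
    simp only [h4, h5, neg_div]
    rw [← h2]
    exact h1

/-- LAW OF LARGE NUMBERS. Proof (blueprint C6): for fixed `σ` enumerate `w` by position;
`|X_w - X_a|` is a sum of `|pos w - pos a|` spacings (`Xv_diff`); for `|pos w - pos a| ≤ 2BS` compare `φ` at
`(X_w - X_a)/S` and `(pos w - pos a)/S` (`gam_dev`); the others contribute at most `‖φ‖ P(G_i ≤ i/2)`
(`gam_lower`); `riemann`. -/
theorem lln (φ : ℝ → ℝ) (L B : ℝ) (hL : ∀ x y, |φ x - φ y| ≤ L * |x - y|) (hB : 0 < B)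
    (hs : ∀ x, B ≤ |x| → φ x = 0) :
    ∃ C : ℝ, ∀ (P : Type) [Fintype P] [PartialOrder P] (a : P) (S : ℝ), 1 ≤ S →
      (∀ σ : BFT.LE P, 2 * B * S + 1 ≤ pos σ a ∧ (pos σ a : ℝ) + 2 * B * S + 2 ≤ Fintype.card P) →
      ∫ x, |S⁻¹ * ∑ w, φ ((x w - x a) / S) - ∫ y, φ y| ∂(XL P) ≤ C / Real.sqrt S := by
  have h0 := Lln_L_nonneg φ L hL
  have hc := Lln_cont φ L hL
  obtain ⟨C1, hC1⟩ := riemann φ L B hL hB hs
  set ρ := Real.exp (1 / 2) / 2 with hρ
  have hρ0 : 0 < ρ := Lln_rho.2
  have hρ1 : ρ < 1 := Lln_rho.1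
  refine ⟨|C1| + (4 * B + 1) * L * Real.sqrt (2 * B) + 2 * L * B * (2 / (1 - ρ)), ?_⟩
  intro P _ _ a S hS hpos
  have hS0 : 0 < S := by linarith
  have hsq1 : 1 ≤ Real.sqrt S := by rw [Real.one_le_sqrt]; exact hS
  have hsq : Real.sqrt S * Real.sqrt S = S := Real.mul_self_sqrt hS0.le
  have hinv : 1 / S ≤ 1 / Real.sqrt S := by
    apply one_div_le_one_div_of_le (by positivity)
    nlinarith
  have hmeas : Measurable fun x : P → ℝ => |S⁻¹ * ∑ w, φ ((x w - x a) / S) - ∫ y, φ y| := by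
    have h1 : Measurable fun x : P → ℝ => S⁻¹ * ∑ w, φ ((x w - x a) / S) - ∫ y, φ y := by
      refine (Measurable.const_mul (Finset.measurable_sum _ fun w _ => ?_) _).sub_const _
      exact hc.measurable.comp (((measurable_pi_apply w).sub (measurable_pi_apply a)).div_const _)
    exact h1.abs
  -- integrability of the single terms
  have hterm : ∀ (σ : BFT.LE P) (w : P), Integrable (fun y =>
      |φ ((Xv σ y w - Xv σ y a) / S) - φ (((pos σ w : ℝ) - pos σ a) / S)|)
      (gam (Fintype.card P)) := by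
    intro σ w
    refine Integrable.abs ?_
    have hm : Measurable fun y => φ ((Xv σ y w - Xv σ y a) / S) :=
      hc.measurable.comp ((((measurable_pi_apply w).comp (Xv_measurable σ)).sub
        ((measurable_pi_apply a).comp (Xv_measurable σ))).div_const _)
    refine Integrable.sub ?_ (integrable_const _)
    exact Integrable.of_bound hm.aestronglyMeasurable (2 * L * B)
      (Filter.Eventually.of_forall fun y => by
        rw [Real.norm_eq_abs]; exact Lln_bdd φ L B hL hB hs _)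
  have hptw : ∀ (σ : BFT.LE P) (y : Fin (Fintype.card P) → ℝ),
      |S⁻¹ * ∑ w, φ ((Xv σ y w - Xv σ y a) / S) - ∫ y, φ y| ≤
      S⁻¹ * ∑ w, |φ ((Xv σ y w - Xv σ y a) / S) - φ (((pos σ w : ℝ) - pos σ a) / S)| +
        |C1| / S := by
    intro σ y
    obtain ⟨hp1, hp2⟩ := hpos σ
    have hlt := pos_lt_card σ a
    have h1 := hC1 S (pos σ a) (Fintype.card P - 1 - pos σ a) hS (by nlinarith) (by
      have h2 : ((Fintype.card P - 1 - pos σ a : ℕ) : ℝ) = (Fintype.card P : ℝ) - 1 - pos σ a := by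
        rw [Nat.cast_sub (by omega), Nat.cast_sub (by omega)]; simp
      rw [h2]; nlinarith)
    have h3 : pos σ a + (Fintype.card P - 1 - pos σ a) + 1 = Fintype.card P := by omega
    rw [h3, ← Lln_sum_pos σ (fun i => φ (((i : ℝ) - pos σ a) / S))] at h1
    have h4 : S⁻¹ * ∑ w, φ ((Xv σ y w - Xv σ y a) / S) - ∫ y, φ y =
        S⁻¹ * ∑ w, (φ ((Xv σ y w - Xv σ y a) / S) - φ (((pos σ w : ℝ) - pos σ a) / S)) +
        (S⁻¹ * ∑ w, φ (((pos σ w : ℝ) - pos σ a) / S) - ∫ y, φ y) := by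
      rw [Finset.sum_sub_distrib]; ring
    rw [h4]
    refine (abs_add_le _ _).trans (add_le_add ?_ (h1.trans ?_))
    · rw [abs_mul, abs_of_pos (by positivity : 0 < S⁻¹)]
      exact mul_le_mul_of_nonneg_left (Finset.abs_sum_le_sum_abs _ _) (by positivity)
    · exact div_le_div_of_nonneg_right (le_abs_self _) hS0.le
  have hbd : ∀ (σ : BFT.LE P), Integrable (fun y =>
      S⁻¹ * ∑ w, |φ ((Xv σ y w - Xv σ y a) / S) - φ (((pos σ w : ℝ) - pos σ a) / S)| +
        |C1| / S) (gam (Fintype.card P)) := fun σ =>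
    ((integrable_finsetSum _ fun w _ => hterm σ w).const_mul _).add (integrable_const _)
  have hint : ∀ σ : BFT.LE P, Integrable (fun y => (fun x : P → ℝ =>
      |S⁻¹ * ∑ w, φ ((x w - x a) / S) - ∫ y, φ y|) (Xv σ y)) (gam (Fintype.card P)) := by
    intro σ
    refine (hbd σ).mono' (hmeas.comp (Xv_measurable σ)).aestronglyMeasurable ?_
    refine Filter.Eventually.of_forall fun y => ?_
    rw [Real.norm_eq_abs, abs_abs]
    exact hptw σ y
  obtain ⟨_, hXL⟩ := XL_integral _ hmeas hint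
  rw [hXL]
  refine le_trans (Ex_mono (g := fun _ => (|C1| + (4 * B + 1) * L * Real.sqrt (2 * B) +
    2 * L * B * (2 / (1 - ρ))) / Real.sqrt S) fun σ => ?_) (le_of_eq (Ex_const _))
  have h1 : ∫ y, |S⁻¹ * ∑ w, φ ((Xv σ y w - Xv σ y a) / S) - ∫ y, φ y| ∂(gam (Fintype.card P)) ≤
      ∫ y, (S⁻¹ * ∑ w, |φ ((Xv σ y w - Xv σ y a) / S) - φ (((pos σ w : ℝ) - pos σ a) / S)| +
        |C1| / S) ∂(gam (Fintype.card P)) :=
    integral_mono_of_nonneg (Filter.Eventually.of_forall fun y => abs_nonneg _) (hbd σ)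
      (Filter.Eventually.of_forall fun y => hptw σ y)
  refine h1.trans ?_
  rw [integral_add ((integrable_finsetSum _ fun w _ => hterm σ w).const_mul _)
    (integrable_const _), integral_const_mul, integral_finsetSum _ fun w _ => hterm σ w,
    integral_const]
  simp only [probReal_univ, smul_eq_mul, one_mul]
  have h2 : ∑ w, ∫ y, |φ ((Xv σ y w - Xv σ y a) / S) - φ (((pos σ w : ℝ) - pos σ a) / S)|
      ∂(gam (Fintype.card P)) ≤
      ∑ w, ((if ((nd (pos σ w) (pos σ a) : ℕ) : ℝ) ≤ 2 * B * S then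
        (L / S) * Real.sqrt (2 * B * S) else 0) +
        2 * L * B * ρ ^ (nd (pos σ w) (pos σ a))) :=
    Finset.sum_le_sum fun w _ => Lln_pair σ a w φ L B S hL hB hs hS
  rw [Lln_sum_pos σ (fun i => (if ((nd i (pos σ a) : ℕ) : ℝ) ≤ 2 * B * S then
        (L / S) * Real.sqrt (2 * B * S) else 0) +
        2 * L * B * ρ ^ (nd i (pos σ a))), Finset.sum_add_distrib, ← Finset.sum_filter,
    Finset.sum_const, nsmul_eq_mul, ← Finset.mul_sum] at h2
  have h3 := Lln_geom ρ hρ0 hρ1 (Fintype.card P) (pos σ a)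
  have h4 := Lln_count (Fintype.card P) (pos σ a) (2 * B * S) (by positivity)
  have h5 : (((Finset.range (Fintype.card P)).filter fun i =>
      ((nd i (pos σ a) : ℕ) : ℝ) ≤ 2 * B * S).card : ℝ) * ((L / S) * Real.sqrt (2 * B * S)) ≤
      (4 * B + 1) * L * Real.sqrt (2 * B) * Real.sqrt S := by
    have h6 : (((Finset.range (Fintype.card P)).filter fun i =>
      ((nd i (pos σ a) : ℕ) : ℝ) ≤ 2 * B * S).card : ℝ) ≤ (4 * B + 1) * S := by nlinarith
    have h7 : 0 ≤ (L / S) * Real.sqrt (2 * B * S) := by positivity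
    refine (mul_le_mul_of_nonneg_right h6 h7).trans (le_of_eq ?_)
    rw [Real.sqrt_mul (by positivity)]
    field_simp
  have h8 : 2 * L * B * ∑ i ∈ Finset.range (Fintype.card P), ρ ^ nd i (pos σ a) ≤
      2 * L * B * (2 / (1 - ρ)) := mul_le_mul_of_nonneg_left h3 (by positivity)
  have h9 : S⁻¹ * ∑ w, ∫ y, |φ ((Xv σ y w - Xv σ y a) / S) - φ (((pos σ w : ℝ) - pos σ a) / S)|
      ∂(gam (Fintype.card P)) ≤ S⁻¹ * ((4 * B + 1) * L * Real.sqrt (2 * B) * Real.sqrt S +
        2 * L * B * (2 / (1 - ρ))) :=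
    mul_le_mul_of_nonneg_left (h2.trans (add_le_add h5 h8)) (by positivity)
  have h10 : S⁻¹ * ((4 * B + 1) * L * Real.sqrt (2 * B) * Real.sqrt S) =
      (4 * B + 1) * L * Real.sqrt (2 * B) / Real.sqrt S := by
    have h11 : Real.sqrt S ≠ 0 := by positivity
    have h15 : S⁻¹ * Real.sqrt S = 1 / Real.sqrt S := by
      rw [eq_div_iff h11, mul_assoc, hsq, inv_mul_cancel₀ hS0.ne']
    calc _ = (4 * B + 1) * L * Real.sqrt (2 * B) * (S⁻¹ * Real.sqrt S) := by ring
      _ = _ := by rw [h15]; ring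
  have h12 : S⁻¹ * (2 * L * B * (2 / (1 - ρ))) ≤ 2 * L * B * (2 / (1 - ρ)) / Real.sqrt S := by
    have h13 : 0 ≤ 2 * L * B * (2 / (1 - ρ)) := by
      have : 0 < 1 - ρ := by linarith
      positivity
    calc _ = 2 * L * B * (2 / (1 - ρ)) * (1 / S) := by ring
      _ ≤ 2 * L * B * (2 / (1 - ρ)) * (1 / Real.sqrt S) := mul_le_mul_of_nonneg_left hinv h13
      _ = _ := by ring
  have h14 : |C1| / S ≤ |C1| / Real.sqrt S := by
    calc _ = |C1| * (1 / S) := by ring
      _ ≤ |C1| * (1 / Real.sqrt S) := mul_le_mul_of_nonneg_left hinv (abs_nonneg _)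
      _ = _ := by ring
  rw [mul_add, h10] at h9
  rw [add_div, add_div]
  linarith

end Pool.Agent.Half
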