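import Pool.Agent.Lib_MP_33fb9b_half.Marg

set_option autoImplicit false

/-!
# K20: metric consequences of a bounded displacement (blueprint C1 (N))
-/

namespace Pool.Agent.Half

open Pool.Agent.BFT MeasureTheory Finset

variable {P : Type} [Fintype P] [PartialOrder P]

/-- the index of an element as a real number -/
noncomputable def ix (w : Fin (Fintype.card P) ≃ P) (v : P) : ℝ := (((w.symm v : Fin _) : ℕ) : ℝ)

/-- every element is displaced by at most `K S` in the mean -/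
def Disp (w : Fin (Fintype.card P) ≃ P) (K S : ℝ) : Prop :=
  ∀ v : P, Ex (fun σ : BFT.LE P => |(pos σ v : ℝ) - ix w v|) ≤ K * S

variable {w : Fin (Fintype.card P) ≃ P} {K S : ℝ}

private theorem Loc_Ex_abs (f : BFT.LE P → ℝ) : |Ex f| ≤ Ex (fun σ => |f σ|) := by
  rw [abs_le]
  constructor
  · rw [← Ex_neg]
    exact Ex_mono fun σ => neg_abs_le _
  · exact Ex_mono fun σ => le_abs_self _

private theorem Loc_dev (h : Disp w K S) (u v : P) :
    Ex (fun σ : BFT.LE P => |(pos σ v : ℝ) - pos σ u - (ix w v - ix w u)|) ≤ 2 * (K * S) := by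
  have h1 : Ex (fun σ : BFT.LE P => |(pos σ v : ℝ) - pos σ u - (ix w v - ix w u)|) ≤
      Ex (fun σ : BFT.LE P => |(pos σ v : ℝ) - ix w v| + |(pos σ u : ℝ) - ix w u|) := by
    refine Ex_mono fun σ => ?_
    have h2 : (pos σ v : ℝ) - pos σ u - (ix w v - ix w u) =
        ((pos σ v : ℝ) - ix w v) - ((pos σ u : ℝ) - ix w u) := by ring
    rw [h2]
    exact abs_sub _ _
  rw [Ex_add] at h1
  linarith [h u, h v]

theorem loc_ht (h : Disp w K S) (u v : P) : |ht v - ht u - (ix w v - ix w u)| ≤ 2 * (K * S) := by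
  have h1 : ht v - ht u - (ix w v - ix w u) =
      Ex (fun σ : BFT.LE P => (pos σ v : ℝ) - pos σ u - (ix w v - ix w u)) := by
    rw [Ex_sub, Ex_sub, Ex_const]
    rfl
  rw [h1]
  exact (Loc_Ex_abs _).trans (Loc_dev h u v)

theorem loc_dev (h : Disp w K S) (u v : P) :
    Ex (fun σ : BFT.LE P => |(pos σ v : ℝ) - pos σ u - (ix w v - ix w u)|) ≤ 2 * (K * S) :=
  Loc_dev h u v

theorem loc_ds (h : Disp w K S) (u v : P) : ds u v ≤ |ix w v - ix w u| + 2 * (K * S) := by
  have h1 : ds u v ≤ Ex (fun σ : BFT.LE P => |ix w v - ix w u| +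
      |(pos σ v : ℝ) - pos σ u - (ix w v - ix w u)|) := by
    refine Ex_mono fun σ => ?_
    have h2 : |(pos σ u : ℝ) - pos σ v| =
        |(ix w v - ix w u) + ((pos σ v : ℝ) - pos σ u - (ix w v - ix w u))| := by
      rw [abs_sub_comm]
      congr 1
      ring
    rw [h2]
    exact abs_add_le _ _
  rw [Ex_add, Ex_const] at h1
  linarith [loc_dev h u v]

theorem loc_ix (h : Disp w K S) (u v : P) : |ix w v - ix w u| ≤ ds u v + 2 * (K * S) := by
  have h1 : Ex (fun _ : BFT.LE P => |ix w v - ix w u|) ≤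
      Ex (fun σ : BFT.LE P => |(pos σ u : ℝ) - pos σ v| +
        |(pos σ v : ℝ) - pos σ u - (ix w v - ix w u)|) := by
    refine Ex_mono fun σ => ?_
    have h2 : ix w v - ix w u =
        -((pos σ u : ℝ) - pos σ v) - ((pos σ v : ℝ) - pos σ u - (ix w v - ix w u)) := by
      ring
    calc |ix w v - ix w u|
        = |-((pos σ u : ℝ) - pos σ v) - ((pos σ v : ℝ) - pos σ u - (ix w v - ix w u))| := by
          rw [← h2]
      _ ≤ |-((pos σ u : ℝ) - pos σ v)| + |(pos σ v : ℝ) - pos σ u - (ix w v - ix w u)| :=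
          abs_sub _ _
      _ = _ := by rw [abs_neg]
  rw [Ex_add, Ex_const] at h1
  have h3 : Ex (fun σ : BFT.LE P => |(pos σ u : ℝ) - pos σ v|) = ds u v := rfl
  rw [h3] at h1
  linarith [loc_dev h u v]

/-- (N) with `r ≤ ρ^2`, `S ≤ ρ`: `sp ≤ 2KS + 2KS + sqrt (r + 2KS) ≤ 6 K ρ` -/
theorem loc_sp (h : Disp w K S) (hK : 1 ≤ K) (hS : 1 ≤ S) (u v : P) (ρ : ℝ) (hρ : S ≤ ρ)
    (hr : |ix w v - ix w u| ≤ ρ ^ 2) : sp u v ≤ 6 * K * ρ := by
  have h1 := sp_le_dev u v (ix w v - ix w u)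
  have h2 := loc_dev h u v
  have h3 := loc_ht h u v
  rw [abs_sub_comm] at h3
  have h4 := loc_ds h u v
  have hρ1 : 1 ≤ ρ := hS.trans hρ
  have hKρ : 1 ≤ K * ρ := by nlinarith
  have hKS : K * S ≤ K * ρ := by nlinarith
  have h5 : Real.sqrt (ds u v) ≤ 2 * (K * ρ) := by
    apply Real.sqrt_le_iff.mpr
    refine ⟨by linarith, ?_⟩
    have h6 : ρ ^ 2 ≤ (K * ρ) ^ 2 := by
      apply pow_le_pow_left₀ (by linarith)
      nlinarith
    have h7 : K * ρ ≤ (K * ρ) ^ 2 := by nlinarith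
    nlinarith
  linarith

/-- at most `2A+1` elements have index within `A` of `ix a` -/
theorem loc_card_le (w : Fin (Fintype.card P) ≃ P) (a : P) (A : ℝ) (hA : 0 ≤ A) :
    (((univ : Finset P).filter (fun v => |ix w v - ix w a| ≤ A)).card : ℝ) ≤ 2 * A + 1 := by
  classical
  have h1 : ((univ : Finset P).filter (fun v => |ix w v - ix w a| ≤ A)).card ≤
      (Finset.Icc ((((w.symm a : Fin _) : ℕ) : ℤ) - ⌊A⌋)
        ((((w.symm a : Fin _) : ℕ) : ℤ) + ⌊A⌋)).card := by
    apply Finset.card_le_card_of_injOn (fun v => (((w.symm v : Fin _) : ℕ) : ℤ))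
    · intro v hv
      have hv' : |ix w v - ix w a| ≤ A := by simpa using hv
      rw [abs_le] at hv'
      unfold ix at hv'
      simp only [Finset.coe_Icc, Set.mem_Icc]
      constructor
      · have : (((w.symm a : Fin _) : ℕ) : ℤ) - (((w.symm v : Fin _) : ℕ) : ℤ) ≤ ⌊A⌋ := by
          rw [Int.le_floor]
          push_cast
          linarith [hv'.1]
        linarith
      · have : (((w.symm v : Fin _) : ℕ) : ℤ) - (((w.symm a : Fin _) : ℕ) : ℤ) ≤ ⌊A⌋ := by
          rw [Int.le_floor]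
          push_cast
          linarith [hv'.2]
        linarith
    · intro x _ y _ hxy
      have hxy' : ((w.symm x : Fin _) : ℕ) = ((w.symm y : Fin _) : ℕ) := by
        have h0 : (((w.symm x : Fin _) : ℕ) : ℤ) = (((w.symm y : Fin _) : ℕ) : ℤ) := hxy
        exact_mod_cast h0
      exact w.symm.injective (Fin.ext hxy')
  rw [Int.card_Icc] at h1
  have h2 : 0 ≤ ⌊A⌋ := Int.floor_nonneg.mpr hA
  have h3 : ((((w.symm a : Fin _) : ℕ) : ℤ) + ⌊A⌋ + 1 -
      ((((w.symm a : Fin _) : ℕ) : ℤ) - ⌊A⌋)).toNat = (2 * ⌊A⌋ + 1).toNat := by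
    congr 1
    ring
  rw [h3] at h1
  have h4 : (((univ : Finset P).filter (fun v => |ix w v - ix w a| ≤ A)).card : ℤ) ≤
      2 * ⌊A⌋ + 1 := by
    have h5 : (((univ : Finset P).filter (fun v => |ix w v - ix w a| ≤ A)).card : ℤ) ≤
      ((2 * ⌊A⌋ + 1).toNat : ℤ) := by exact_mod_cast h1
    rwa [Int.toNat_of_nonneg (by linarith)] at h5
  have h6 : (((univ : Finset P).filter (fun v => |ix w v - ix w a| ≤ A)).card : ℝ) ≤
      2 * (⌊A⌋ : ℝ) + 1 := by exact_mod_cast h4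
  linarith [Int.floor_le A]

/-- at least `A` elements have index in `[ix u, ix u + A]` if there is room -/
theorem loc_card_ge (w : Fin (Fintype.card P) ≃ P) (u : P) (A : ℝ) (hA : 0 ≤ A)
    (hr : ix w u + A + 1 ≤ Fintype.card P) :
    A ≤ (((univ : Finset P).filter (fun v => ix w u ≤ ix w v ∧ ix w v ≤ ix w u + A)).card : ℝ) := by
  classical
  have hf : (⌊A⌋₊ : ℝ) ≤ A := Nat.floor_le hA
  have hlt : ∀ j : Fin (⌊A⌋₊ + 1), ((w.symm u : Fin _) : ℕ) + (j : ℕ) < Fintype.card P := by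
    intro j
    have hj : (j : ℕ) ≤ ⌊A⌋₊ := Nat.lt_succ_iff.mp j.2
    have h1 : ((((w.symm u : Fin _) : ℕ) + ⌊A⌋₊ + 1 : ℕ) : ℝ) ≤ (Fintype.card P : ℕ) := by
      push_cast
      unfold ix at hr
      linarith
    have h2 : ((w.symm u : Fin _) : ℕ) + ⌊A⌋₊ + 1 ≤ Fintype.card P := by exact_mod_cast h1
    omega
  have h1 : (univ : Finset (Fin (⌊A⌋₊ + 1))).card ≤
      ((univ : Finset P).filter (fun v => ix w u ≤ ix w v ∧ ix w v ≤ ix w u + A)).card := by
    apply Finset.card_le_card_of_injOn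
      (fun j : Fin (⌊A⌋₊ + 1) => w ⟨((w.symm u : Fin _) : ℕ) + (j : ℕ), hlt j⟩)
    · intro j _
      have hj : (j : ℕ) ≤ ⌊A⌋₊ := Nat.lt_succ_iff.mp j.2
      have hj' : ((j : ℕ) : ℝ) ≤ (⌊A⌋₊ : ℝ) := by exact_mod_cast hj
      have hj0 : (0 : ℝ) ≤ ((j : ℕ) : ℝ) := Nat.cast_nonneg _
      simp only [Finset.coe_filter, Finset.mem_univ, true_and, Set.mem_setOf_eq]
      unfold ix
      rw [Equiv.symm_apply_apply]
      push_cast
      constructor <;> linarith
    · intro i _ j _ hij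
      have h2 := w.injective hij
      have h3 := congrArg Fin.val h2
      simp only at h3
      apply Fin.ext
      omega
  rw [Finset.card_univ, Fintype.card_fin] at h1
  have h2 : ((⌊A⌋₊ : ℝ) + 1) ≤
      (((univ : Finset P).filter (fun v => ix w u ≤ ix w v ∧ ix w v ≤ ix w u + A)).card : ℝ) := by
    exact_mod_cast h1
  linarith [Nat.lt_floor_add_one A]

end Pool.Agent.Half
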