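import Pool.Agent.Lib_MP_33fb9b_half.MargA
import Pool.Agent.Lib_MP_33fb9b_half.LcSmall
import Pool.Agent.Lib_MP_33fb9b_ks.GamVar

set_option autoImplicit false

/-!
# K04: tails, small balls and quartiles of the differences (blueprint C1)
-/

namespace Pool.Agent.Half

open Pool.Agent.BFT MeasureTheory

variable {P : Type} [Fintype P] [PartialOrder P]

/-! ### auxiliary facts -/

/-- mean absolute deviation of a square integrable variable -/
private theorem Marg_abs_le {Ω : Type} [MeasurableSpace Ω] {μ : Measure Ω} [IsProbabilityMeasure μ]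
    {f : Ω → ℝ} (hf : MemLp f 2 μ) :
    ∫ x, |f x| ∂μ ≤ Real.sqrt (∫ x, f x ^ 2 ∂μ) := by
  have h1 : MemLp (fun x => |f x|) 2 μ := hf.abs
  have h2 := ProbabilityTheory.variance_nonneg (fun x => |f x|) μ
  rw [ProbabilityTheory.variance_eq_sub h1] at h2
  have h3 : ∫ x, ((fun x => |f x|) ^ 2) x ∂μ = ∫ x, f x ^ 2 ∂μ := by
    refine integral_congr_ae (Filter.Eventually.of_forall fun x => ?_)
    simp only [Pi.pow_apply, sq_abs]
  rw [h3] at h2
  exact Real.le_sqrt_of_sq_le (by linarith)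

private theorem Marg_var (n : ℕ) (J : Finset (Fin n)) :
    MemLp (fun y : Fin n → ℝ => ∑ j ∈ J, y j - (J.card : ℝ)) 2 (gam n) ∧
      ∫ y, (∑ j ∈ J, y j - (J.card : ℝ)) ^ 2 ∂(gam n) = (J.card : ℝ) := by
  classical
  let X : (i : Fin n) → ℝ → ℝ := fun i => if i ∈ J then (fun x => x) else (fun _ => 0)
  have hX : ∀ i, MemLp (X i) 2 expo := by
    intro i
    by_cases hi : i ∈ J
    · simp only [X, if_pos hi]; exact Pool.Agent.Thin.expo_memLp
    · simp only [X, if_neg hi]; exact memLp_const 0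
  have hV : ∀ i, ProbabilityTheory.variance (X i) expo = if i ∈ J then 1 else 0 := by
    intro i
    by_cases hi : i ∈ J
    · simp only [X, if_pos hi]; exact Pool.Agent.Thin.expo_var
    · simp only [X, if_neg hi]
      exact ProbabilityTheory.variance_zero (μ := expo)
  have hS : (∑ i, fun ω : Fin n → ℝ => X i (ω i)) = fun y => ∑ j ∈ J, y j := by
    funext y
    rw [Finset.sum_apply, ← Finset.sum_filter_add_sum_filter_not Finset.univ (fun i => i ∈ J)]
    have h1 : ∑ i ∈ Finset.univ.filter (fun i => ¬ i ∈ J), X i (y i) = 0 := by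
      apply Finset.sum_eq_zero
      intro i hi
      have : i ∉ J := by simpa using hi
      simp only [X, if_neg this]
    rw [h1, add_zero]
    have h2 : Finset.univ.filter (fun i => i ∈ J) = J := by ext; simp
    rw [h2]
    apply Finset.sum_congr rfl
    intro i hi
    simp only [X, if_pos hi]
  have hvar : ProbabilityTheory.variance (fun y : Fin n → ℝ => ∑ j ∈ J, y j) (gam n) =
      (J.card : ℝ) := by
    have h := ProbabilityTheory.variance_sum_pi (μ := fun _ : Fin n => expo) hX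
    rw [hS] at h
    unfold gam
    rw [h]
    simp_rw [hV]
    simp
  have hmem : MemLp (fun y : Fin n → ℝ => ∑ j ∈ J, y j) 2 (gam n) := by
    apply memLp_finsetSum
    intro j _
    exact Pool.Agent.Thin.expo_memLp.comp_measurePreserving
      (measurePreserving_eval (fun _ : Fin n => expo) j)
  refine ⟨hmem.sub (memLp_const _), ?_⟩
  rw [ProbabilityTheory.variance_eq_integral hmem.aestronglyMeasurable.aemeasurable,
    (gam_mean n J).2] at hvar
  exact hvar

/-- the difference of two coordinates for a fixed linear extension -/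
private theorem Marg_sigma (σ : BFT.LE P) (u v : P) : ∃ J : Finset (Fin (Fintype.card P)),
    (J.card : ℝ) = |(pos σ u : ℝ) - pos σ v| ∧
    (∀ y, |Xv σ y v - Xv σ y u| = |∑ j ∈ J, y j|) ∧
    ∀ y, |Xv σ y v - Xv σ y u - ((pos σ v : ℝ) - pos σ u)| = |∑ j ∈ J, y j - (J.card : ℝ)| := by
  rcases le_total (pos σ u) (pos σ v) with h | h
  · have hr : (pos σ u : ℝ) ≤ pos σ v := by exact_mod_cast h
    have hc : ((Finset.Ioc (σ.1 u) (σ.1 v)).card : ℝ) = (pos σ v : ℝ) - pos σ u := by
      rw [Xv_card, Nat.cast_sub h]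
    refine ⟨Finset.Ioc (σ.1 u) (σ.1 v), ?_, fun y => ?_, fun y => ?_⟩
    · rw [hc, abs_sub_comm, abs_of_nonneg (by linarith)]
    · rw [Xv_diff σ y u v h]
    · rw [Xv_diff σ y u v h, hc]
  · have hr : (pos σ v : ℝ) ≤ pos σ u := by exact_mod_cast h
    have hc : ((Finset.Ioc (σ.1 v) (σ.1 u)).card : ℝ) = (pos σ u : ℝ) - pos σ v := by
      rw [Xv_card, Nat.cast_sub h]
    refine ⟨Finset.Ioc (σ.1 v) (σ.1 u), ?_, fun y => ?_, fun y => ?_⟩
    · rw [hc, abs_of_nonneg (by linarith)]
    · rw [← Xv_diff σ y v u h, abs_sub_comm]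
    · rw [← Xv_diff σ y v u h, hc, ← abs_neg]
      congr 1
      ring

private theorem Marg_mean (u v : P) : ∫ y : P → ℝ, (y v - y u) ∂(XL P) = ht v - ht u :=
  XL_mean u v

/-- (T) -/
theorem sp_tail (u v : P) {s : ℝ} (hs0 : 0 < s) (hs : sp u v ≤ s) (z : ℝ) :
    (XL P).real {x : P → ℝ | z ≤ |x v - x u - (ht v - ht u)|} ≤ 4 * Real.exp (-(z / (8 * s))) := by
  have h := lc_tail (XL_lc u v) hs0 (by rw [Marg_mean u v]; exact hs) z
  rw [Marg_mean u v] at h
  exact h

/-- (SB) -/
theorem sp_small (u v : P) (hs0 : 0 < sp u v) (z η : ℝ) (hη : 0 ≤ η) :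
    (XL P).real {x : P → ℝ | z ≤ x v - x u ∧ x v - x u < z + η} ≤ 100 * η / sp u v :=
  lc_small (XL_lc u v) hs0 (by rw [Marg_mean u v]; rfl) z η hη

/-- (Q) -/
theorem sp_median (u v : P) (hs0 : 0 < sp u v) :
    ∃ m0 : ℝ, 1 / 2 ≤ (XL P).real {x : P → ℝ | m0 ≤ x v - x u} ∧
      1 / 2 ≤ (XL P).real {x : P → ℝ | x v - x u ≤ m0} ∧
      1 / 4 ≤ (XL P).real {x : P → ℝ | m0 + sp u v / 400 ≤ x v - x u} ∧
      1 / 4 ≤ (XL P).real {x : P → ℝ | x v - x u ≤ m0 - sp u v / 400} ∧
      |m0 - (ht v - ht u)| ≤ 2 * sp u v := by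
  have h := lc_median (XL_lc u v) hs0 (by rw [Marg_mean u v]; rfl)
  rw [Marg_mean u v] at h
  exact h

/-- (SBd) small ball for positions: given `σ`, `E |X_u - X_v| = |pos u - pos v|`, so by Markov
`P(|pos u - pos v| ≤ z) ≤ 2 P(|X_u - X_v| ≤ 2 z)` -/
theorem ds_small (u v : P) (hs0 : 0 < sp u v) (z : ℝ) (hz : 0 < z) :
    BFT.Pr (fun σ : BFT.LE P => |(pos σ u : ℝ) - pos σ v| ≤ z) ≤ 1000 * z / sp u v := by
  have h1 := sp_small u v hs0 (-(2 * z)) (5 * z) (by linarith)
  have hA : MeasurableSet {x : P → ℝ | -(2 * z) ≤ x v - x u ∧ x v - x u < -(2 * z) + 5 * z} :=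
    (measurableSet_le measurable_const ((measurable_pi_apply v).sub (measurable_pi_apply u))).inter
      (measurableSet_lt ((measurable_pi_apply v).sub (measurable_pi_apply u)) measurable_const)
  rw [XL_real _ hA] at h1
  have h2 : BFT.Pr (fun σ : BFT.LE P => |(pos σ u : ℝ) - pos σ v| ≤ z) ≤
      2 * Ex (fun σ : BFT.LE P => (gam (Fintype.card P)).real
        {y | Xv σ y ∈ {x : P → ℝ | -(2 * z) ≤ x v - x u ∧ x v - x u < -(2 * z) + 5 * z}}) := by
    rw [← Ex_mul]
    unfold BFT.Pr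
    refine Ex_mono fun σ => ?_
    by_cases hσ : |(pos σ u : ℝ) - pos σ v| ≤ z
    · rw [ind_true hσ]
      obtain ⟨J, hJ1, hJ2, -⟩ := Marg_sigma σ u v
      -- Markov
      have hint : Integrable (fun y : Fin (Fintype.card P) → ℝ => |∑ j ∈ J, y j|)
          (gam (Fintype.card P)) := (gam_mean _ J).1.abs
      have hval : ∫ y, |∑ j ∈ J, y j| ∂(gam (Fintype.card P)) = (J.card : ℝ) := by
        rw [← (gam_mean _ J).2]
        refine integral_congr_ae ?_
        filter_upwards [gam_pos (Fintype.card P)] with y hy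
        exact abs_of_nonneg (Finset.sum_nonneg fun j _ => (hy j).le)
      have hM := mul_meas_ge_le_integral_of_nonneg
        (Filter.Eventually.of_forall fun y : Fin (Fintype.card P) → ℝ => abs_nonneg (∑ j ∈ J, y j))
        hint (2 * z)
      rw [hval, hJ1] at hM
      have hM2 : (gam (Fintype.card P)).real
          {y : Fin (Fintype.card P) → ℝ | 2 * z ≤ |∑ j ∈ J, y j|} ≤ 1 / 2 := by
        have h3 : 2 * z * (gam (Fintype.card P)).real
          {y : Fin (Fintype.card P) → ℝ | 2 * z ≤ |∑ j ∈ J, y j|} ≤ z := le_trans hM hσ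
        have h4 : 2 * z * (gam (Fintype.card P)).real
          {y : Fin (Fintype.card P) → ℝ | 2 * z ≤ |∑ j ∈ J, y j|} ≤ 2 * z * (1 / 2) := by linarith
        exact le_of_mul_le_mul_left h4 (by linarith)
      have hun : (1 : ℝ) ≤ (gam (Fintype.card P)).real
            {y : Fin (Fintype.card P) → ℝ | 2 * z ≤ |∑ j ∈ J, y j|} +
          (gam (Fintype.card P)).real {y | Xv σ y ∈
            {x : P → ℝ | -(2 * z) ≤ x v - x u ∧ x v - x u < -(2 * z) + 5 * z}} := by
        have h3 : (gam (Fintype.card P)).real Set.univ ≤ (gam (Fintype.card P)).real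
            ({y : Fin (Fintype.card P) → ℝ | 2 * z ≤ |∑ j ∈ J, y j|} ∪ {y | Xv σ y ∈
            {x : P → ℝ | -(2 * z) ≤ x v - x u ∧ x v - x u < -(2 * z) + 5 * z}}) := by
          refine measureReal_mono (fun y _ => ?_) (measure_ne_top _ _)
          by_cases hy : 2 * z ≤ |∑ j ∈ J, y j|
          · exact Or.inl hy
          · right
            rw [not_le, ← hJ2 y, abs_lt] at hy
            exact ⟨by linarith [hy.1], by linarith [hy.2]⟩
        rw [probReal_univ] at h3
        exact h3.trans (measureReal_union_le _ _)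
      linarith
    · rw [ind_false hσ]
      exact mul_nonneg (by norm_num) measureReal_nonneg
  refine h2.trans ((mul_le_mul_of_nonneg_left h1 (by norm_num)).trans (le_of_eq ?_))
  ring

/-- (N) `sp` is controlled by the discrete deviation and `sqrt ds`: given `σ` the difference `X_v - X_u`
has mean `pos v - pos u` and variance `|pos v - pos u|` -/
theorem sp_le_dev (u v : P) (r : ℝ) :
    sp u v ≤ Real.sqrt (ds u v) + Ex (fun σ : BFT.LE P => |(pos σ v : ℝ) - pos σ u - r|) +
      |r - (ht v - ht u)| := by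
  set m : ℝ := ht v - ht u with hm
  have hmeas : Measurable (fun x : P → ℝ => |x v - x u - m|) :=
    (((measurable_pi_apply v).sub (measurable_pi_apply u)).sub measurable_const).abs
  have hI : ∀ σ : BFT.LE P, Integrable (fun y : Fin (Fintype.card P) → ℝ =>
      Xv σ y v - Xv σ y u) (gam (Fintype.card P)) := by
    intro σ
    rcases le_total (pos σ u) (pos σ v) with h | h
    · have h1 := (gam_mean (Fintype.card P) (Finset.Ioc (σ.1 u) (σ.1 v))).1
      refine h1.congr (Filter.Eventually.of_forall fun y => (Xv_diff σ y u v h).symm)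
    · have h1 := (gam_mean (Fintype.card P) (Finset.Ioc (σ.1 v) (σ.1 u))).1.neg
      refine h1.congr (Filter.Eventually.of_forall fun y => ?_)
      have h2 := Xv_diff σ y v u h
      simp only [Pi.neg_apply]
      linarith
  have hI2 : ∀ σ : BFT.LE P, Integrable (fun y : Fin (Fintype.card P) → ℝ =>
      |Xv σ y v - Xv σ y u - m|) (gam (Fintype.card P)) := fun σ =>
    ((hI σ).sub (integrable_const m)).abs
  have h1 := (XL_integral (fun x : P → ℝ => |x v - x u - m|) hmeas hI2).2
  have h2 : sp u v = Ex (fun σ : BFT.LE P => ∫ y, |Xv σ y v - Xv σ y u - m|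
      ∂(gam (Fintype.card P))) := h1
  rw [h2]
  -- one linear extension
  have h3 : ∀ σ : BFT.LE P, ∫ y, |Xv σ y v - Xv σ y u - m| ∂(gam (Fintype.card P)) ≤
      Real.sqrt |(pos σ u : ℝ) - pos σ v| + |(pos σ v : ℝ) - pos σ u - r| + |r - m| := by
    intro σ
    obtain ⟨J, hJ1, -, hJ3⟩ := Marg_sigma σ u v
    obtain ⟨hv1, hv2⟩ := Marg_var (Fintype.card P) J
    have h4 := Marg_abs_le hv1
    rw [hv2] at h4
    have h4' : Real.sqrt (J.card : ℝ) = Real.sqrt |(pos σ u : ℝ) - pos σ v| := by rw [hJ1]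
    rw [h4'] at h4
    have hK : Integrable (fun y : Fin (Fintype.card P) → ℝ =>
        |∑ j ∈ J, y j - (J.card : ℝ)|) (gam (Fintype.card P)) :=
      ((gam_mean _ J).1.sub (integrable_const _)).abs
    have h5 : ∫ y, |Xv σ y v - Xv σ y u - m| ∂(gam (Fintype.card P)) ≤
        ∫ y, (|∑ j ∈ J, y j - (J.card : ℝ)| + (|(pos σ v : ℝ) - pos σ u - r| + |r - m|))
          ∂(gam (Fintype.card P)) := by
      refine integral_mono (hI2 σ) (hK.add (integrable_const _)) fun y => ?_
      have h6 := hJ3 y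
      simp only
      rw [← h6]
      have e1 : Xv σ y v - Xv σ y u - m = (Xv σ y v - Xv σ y u - ((pos σ v : ℝ) - pos σ u)) +
          (((pos σ v : ℝ) - pos σ u - r) + (r - m)) := by ring
      calc |Xv σ y v - Xv σ y u - m|
          ≤ |Xv σ y v - Xv σ y u - ((pos σ v : ℝ) - pos σ u)| +
            |((pos σ v : ℝ) - pos σ u - r) + (r - m)| := by rw [e1]; exact abs_add_le _ _
        _ ≤ _ := add_le_add le_rfl (abs_add_le _ _)
    rw [integral_add hK (integrable_const _), integral_const, probReal_univ, one_smul] at h5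
    linarith
  refine (Ex_mono h3).trans ?_
  rw [Ex_add (fun σ : BFT.LE P => Real.sqrt |(pos σ u : ℝ) - pos σ v| +
      |(pos σ v : ℝ) - pos σ u - r|) (fun _ => |r - m|), Ex_const,
    Ex_add (fun σ : BFT.LE P => Real.sqrt |(pos σ u : ℝ) - pos σ v|)
      (fun σ => |(pos σ v : ℝ) - pos σ u - r|)]
  -- Cauchy-Schwarz
  have h7 : Ex (fun σ : BFT.LE P => Real.sqrt |(pos σ u : ℝ) - pos σ v|) ≤
      Real.sqrt (ds u v) := by
    refine Real.le_sqrt_of_sq_le ?_
    set c := Ex (fun σ : BFT.LE P => Real.sqrt |(pos σ u : ℝ) - pos σ v|) with hc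
    have h8 : 0 ≤ Ex (fun σ : BFT.LE P => (Real.sqrt |(pos σ u : ℝ) - pos σ v| - c) ^ 2) :=
      Ex_nonneg fun σ => sq_nonneg _
    have h9 : Ex (fun σ : BFT.LE P => (Real.sqrt |(pos σ u : ℝ) - pos σ v| - c) ^ 2) =
        Ex (fun σ : BFT.LE P => (|(pos σ u : ℝ) - pos σ v| +
          (-(2 * c)) * Real.sqrt |(pos σ u : ℝ) - pos σ v|) + c ^ 2) := by
      refine Ex_congr fun σ => ?_
      have := Real.sq_sqrt (abs_nonneg ((pos σ u : ℝ) - pos σ v))
      nlinarith
    rw [h9, Ex_add (fun σ : BFT.LE P => |(pos σ u : ℝ) - pos σ v| +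
        (-(2 * c)) * Real.sqrt |(pos σ u : ℝ) - pos σ v|) (fun _ => c ^ 2), Ex_const,
      Ex_add (fun σ : BFT.LE P => |(pos σ u : ℝ) - pos σ v|)
        (fun σ => (-(2 * c)) * Real.sqrt |(pos σ u : ℝ) - pos σ v|), Ex_mul, ← hc] at h8
    have h10 : ds u v = Ex (fun σ : BFT.LE P => |(pos σ u : ℝ) - pos σ v|) := rfl
    rw [h10]
    nlinarith
  linarith

end Pool.Agent.Half
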