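import Pool.Agent.Lib_MP_33fb9b_half.Defs
import Pool.Agent.Lib_MP_33fb9b_bft.MCons
import Pool.Agent.Lib_MP_33fb9b_bft.XLD
import Pool.Agent.Lib_MP_33fb9b_bft.XLA

set_option autoImplicit false

/-!
# K03: the metrics `ds` and `sp`; the differences `X_v - X_u` are log-concave (blueprint C1)
-/

namespace Pool.Agent.Half

open Pool.Agent.BFT MeasureTheory

variable {P : Type} [Fintype P] [PartialOrder P]

/-! ### the metric `ds` -/

theorem ds_nonneg (u v : P) : 0 ≤ ds u v := by
  unfold ds
  exact Ex_nonneg fun _ => abs_nonneg _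

theorem ds_self (u : P) : ds u u = 0 := by
  unfold ds
  rw [Ex_congr (g := fun _ => 0), Ex_const]
  intro σ
  rw [sub_self, abs_zero]

theorem ds_comm (u v : P) : ds u v = ds v u := by
  unfold ds
  exact Ex_congr fun _ => abs_sub_comm _ _

theorem ds_triangle (u v w : P) : ds u w ≤ ds u v + ds v w := by
  unfold ds
  rw [← Ex_add]
  exact Ex_mono fun _ => abs_sub_le _ _ _

theorem one_le_ds {u v : P} (h : u ≠ v) : 1 ≤ ds u v := by
  unfold ds
  rw [← Ex_const (P := P) 1]
  apply Ex_mono
  intro σ
  have h1 : (pos σ u : ℤ) - pos σ v ≠ 0 := by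
    have h2 := pos_ne (σ := σ) h
    omega
  have h3 : (1 : ℤ) ≤ |(pos σ u : ℤ) - pos σ v| := Int.one_le_abs h1
  exact_mod_cast h3

theorem ht_le_ds (u v : P) : |ht v - ht u| ≤ ds u v := by
  unfold ht ds
  rw [← Ex_sub, abs_le, ← Ex_neg]
  constructor
  · apply Ex_mono
    intro σ
    have := le_abs_self ((pos σ u : ℝ) - pos σ v)
    linarith
  · apply Ex_mono
    intro σ
    have := neg_abs_le ((pos σ u : ℝ) - pos σ v)
    linarith

/-! ### the continuous model (`XL_plus`: `∫ max (x v - x u) 0 = dd v u`) -/

private theorem MargA_split (a b : ℝ) : b - a = max (b - a) 0 - max (a - b) 0 := by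
  rcases le_total a b with h | h
  · rw [max_eq_left (by linarith), max_eq_right (by linarith)]; ring
  · rw [max_eq_right (by linarith), max_eq_left (by linarith)]; ring

private theorem MargA_split_abs (a b : ℝ) : |b - a| = max (b - a) 0 + max (a - b) 0 := by
  rcases le_total a b with h | h
  · rw [max_eq_left (by linarith), max_eq_right (by linarith), abs_of_nonneg (by linarith)]; ring
  · rw [max_eq_right (by linarith), max_eq_left (by linarith), abs_of_nonpos (by linarith)]; ring

private theorem MargA_ds (u v : P) : ds u v = dd v u + dd u v := by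
  unfold ds dd
  rw [← Ex_add]
  apply Ex_congr
  intro σ
  rw [MargA_split_abs (pos σ v : ℝ) (pos σ u)]
  ring

theorem XL_int (u v : P) : Integrable (fun x : P → ℝ => x v - x u) (XL P) := by
  have h := (XL_plus u v).1.sub (XL_plus v u).1
  refine h.congr (Filter.Eventually.of_forall fun x => ?_)
  exact (MargA_split (x u) (x v)).symm

theorem XL_mean (u v : P) : ∫ x, (x v - x u) ∂(XL P) = ht v - ht u := by
  have h : (fun x : P → ℝ => x v - x u) = fun x => max (x v - x u) 0 - max (x u - x v) 0 := by
    funext x
    exact MargA_split (x u) (x v)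
  rw [h, integral_sub (XL_plus u v).1 (XL_plus v u).1, (XL_plus u v).2, (XL_plus v u).2, dd_sub]

theorem XL_abs (u v : P) : ∫ x, |x v - x u| ∂(XL P) = ds u v := by
  have h : (fun x : P → ℝ => |x v - x u|) = fun x => max (x v - x u) 0 + max (x u - x v) 0 := by
    funext x
    exact MargA_split_abs (x u) (x v)
  rw [h, integral_add (XL_plus u v).1 (XL_plus v u).1, (XL_plus u v).2, (XL_plus v u).2, MargA_ds]

theorem XL_lc (u v : P) : LcRV (XL P) (fun x : P → ℝ => x v - x u) := by
  refine ⟨(measurable_pi_apply v).sub (measurable_pi_apply u), XL_int u v,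
    fun s h hh => F_lc u v s h hh, fun s h hh => ?_⟩
  have key := F_lc v u (-s) h hh
  have e1 : {x : P → ℝ | x u - x v < -s - h} = {x | s + h < x v - x u} := by
    ext x
    show x u - x v < -s - h ↔ s + h < x v - x u
    constructor <;> intro hx <;> linarith
  have e2 : {x : P → ℝ | x u - x v < -s + h} = {x | s - h < x v - x u} := by
    ext x
    show x u - x v < -s + h ↔ s - h < x v - x u
    constructor <;> intro hx <;> linarith
  have e3 : {x : P → ℝ | x u - x v < -s} = {x | s < x v - x u} := by
    ext x
    show x u - x v < -s ↔ s < x v - x u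
    constructor <;> intro hx <;> linarith
  rw [e1, e2, e3] at key
  exact key

/-! ### the pseudometric `sp` -/

private theorem MargA_int (u v : P) :
    Integrable (fun x : P → ℝ => x v - x u - (ht v - ht u)) (XL P) :=
  (XL_int u v).sub (integrable_const _)

theorem sp_nonneg (u v : P) : 0 ≤ sp u v := by
  unfold sp
  exact integral_nonneg fun _ => abs_nonneg _

theorem sp_self (u : P) : sp u u = 0 := by
  unfold sp
  simp

theorem sp_comm (u v : P) : sp u v = sp v u := by
  unfold sp
  congr 1
  funext x
  rw [← abs_neg]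
  congr 1
  ring

theorem sp_triangle (u v w : P) : sp u w ≤ sp u v + sp v w := by
  unfold sp
  rw [← integral_add (MargA_int u v).abs (MargA_int v w).abs]
  apply integral_mono (MargA_int u w).abs ((MargA_int u v).abs.add (MargA_int v w).abs)
  intro x
  show |x w - x u - (ht w - ht u)| ≤ |x v - x u - (ht v - ht u)| + |x w - x v - (ht w - ht v)|
  have h := abs_add_le (x v - x u - (ht v - ht u)) (x w - x v - (ht w - ht v))
  have e : x v - x u - (ht v - ht u) + (x w - x v - (ht w - ht v)) =
      x w - x u - (ht w - ht u) := by ring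
  rw [e] at h
  exact h

theorem sp_le_ds (u v : P) : sp u v ≤ 2 * ds u v := by
  have h1 : sp u v ≤ ∫ x, (|x v - x u| + |ht v - ht u|) ∂(XL P) := by
    unfold sp
    apply integral_mono (MargA_int u v).abs ((XL_int u v).abs.add (integrable_const _))
    intro x
    show |x v - x u - (ht v - ht u)| ≤ |x v - x u| + |ht v - ht u|
    exact abs_sub _ _
  rw [integral_add (XL_int u v).abs (integrable_const _), XL_abs, integral_const,
    probReal_univ, one_smul] at h1
  have h2 := ht_le_ds u v
  linarith

theorem ds_le_sp (u v : P) : ds u v ≤ |ht v - ht u| + sp u v := by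
  have h1 : ds u v ≤ ∫ x, (|ht v - ht u| + |x v - x u - (ht v - ht u)|) ∂(XL P) := by
    rw [← XL_abs]
    apply integral_mono (XL_int u v).abs ((integrable_const _).add (MargA_int u v).abs)
    intro x
    show |x v - x u| ≤ |ht v - ht u| + |x v - x u - (ht v - ht u)|
    have h := abs_add_le (ht v - ht u) (x v - x u - (ht v - ht u))
    have e : ht v - ht u + (x v - x u - (ht v - ht u)) = x v - x u := by ring
    rw [e] at h
    exact h
  rw [integral_add (integrable_const _) (MargA_int u v).abs, integral_const,
    probReal_univ, one_smul] at h1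
  exact h1

end Pool.Agent.Half
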