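import Pool.Agent.Lib_MP_33fb9b_half.Defs
import Pool.Agent.Lib_MP_33fb9b_half.AInst
import Pool.Agent.Lib_MP_33fb9b_half.ASelect

set_option autoImplicit false

/-!
# Part A: displacement at scale `S`
-/

namespace Pool.Agent.Half

open Pool.Agent.BFT Pool.Agent.Thin

theorem partA_h {P : Type} [Fintype P] [PartialOrder P] (w : Fin (Fintype.card P) ≃ P)
    (σ : BFT.LE P) (v : P) : (rpOf P w).h σ (w.symm v : ℕ) = pos σ v := by
  unfold rpOf
  simp

/-- PART A (scaled version of part A of `Lib_MP_33fb9b_ks`) -/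
theorem partA : ∃ K : ℝ, 1 ≤ K ∧ ∀ (P : Type) [Fintype P] [PartialOrder P] (S : ℝ), 1 ≤ S →
    Ent P S → ∃ w : Fin (Fintype.card P) ≃ P, Monotone (fun i => ht (w i)) ∧
      ∀ v : P, Ex (fun σ : BFT.LE P => |(pos σ v : ℝ) - ((w.symm v : Fin _) : ℕ)|) ≤ K * S := by
  obtain ⟨C, hC, hgood⟩ := exists_goodS
  obtain ⟨K, hK, hA⟩ := RP.goalA_S (1 / 25) C (by norm_num) (by norm_num) hC
  refine ⟨K, hK, ?_⟩
  intro P _ _ S hS hE
  obtain ⟨w, hw, hX⟩ := hgood P S hS hE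
  refine ⟨w, hw, ?_⟩
  intro v
  have hlt : ((w.symm v : Fin (Fintype.card P)) : ℕ) < Fintype.card P := (w.symm v).2
  have h1 := le_trans ((rpOf P w).E_abs_le hlt) (hA S _ (rpOf P w) hS hX _ hlt)
  have h2 : (rpOf P w).E (fun σ => |((rpOf P w).h σ (w.symm v : ℕ) : ℝ) -
      (w.symm v : ℕ)|) = Ex (fun σ : BFT.LE P => |(pos σ v : ℝ) - (w.symm v : ℕ)|) := by
    rw [show (fun σ => |((rpOf P w).h σ (w.symm v : ℕ) : ℝ) - (w.symm v : ℕ)|) =
      (fun σ : BFT.LE P => |(pos σ v : ℝ) - (w.symm v : ℕ)|) from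
      funext fun σ => by rw [partA_h w σ v]]
    rfl
  rw [← h2]
  exact h1

end Pool.Agent.Half
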