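import Pool.Agent.Lib_MP_33fb9b_half.PartA
import Pool.Agent.Lib_MP_33fb9b_half.Core
import Pool.Agent.Lib_MP_33fb9b_half.Choose
import Pool.Agent.Lib_MP_33fb9b_half.Doubling
import Pool.Agent.Lib_MP_33fb9b_half.Ext

set_option autoImplicit false

/-!
# K29: part C: entangled pairs of an unbalanced poset are at bounded distance
-/

namespace Pool.Agent.Half

open Pool.Agent.BFT Finset MeasureTheory

/-- entangled pairs have a large spread: if `μ = ht v - ht u ≥ 0` then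
`sp ≥ E |D - μ| 1{D < 0} ≥ μ/4`, and `ds ≤ |μ| + sp` -/
theorem sp_ge {P : Type} [Fintype P] [PartialOrder P] (u v : P) (h1 : 1 / 4 ≤ BFT.lt u v)
    (h2 : 1 / 4 ≤ BFT.lt v u) : ds u v / 5 ≤ sp u v := by
  have hint : Integrable (fun x : P → ℝ => |x v - x u - (ht v - ht u)|) (XL P) :=
    ((XL_int u v).sub (integrable_const _)).abs
  have hM := mul_meas_ge_le_integral_of_nonneg (μ := XL P)
    (f := fun x : P → ℝ => |x v - x u - (ht v - ht u)|)
    (Filter.Eventually.of_forall fun x => abs_nonneg _) hint |ht v - ht u|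
  have h3 : 1 / 4 ≤ (XL P).real {x : P → ℝ | |ht v - ht u| ≤ |x v - x u - (ht v - ht u)|} := by
    rcases le_total 0 (ht v - ht u) with h | h
    · rw [← XL_lt u v] at h2
      refine h2.trans (measureReal_mono ?_)
      intro x hx
      have hx' : x v < x u := hx
      show |ht v - ht u| ≤ |x v - x u - (ht v - ht u)|
      rw [abs_of_nonneg h, abs_of_nonpos (by linarith)]
      linarith
    · rw [← XL_lt v u] at h1
      refine h1.trans (measureReal_mono ?_)
      intro x hx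
      have hx' : x u < x v := hx
      show |ht v - ht u| ≤ |x v - x u - (ht v - ht u)|
      rw [abs_of_nonpos h, abs_of_nonneg (by linarith)]
      linarith
  have h4 : |ht v - ht u| * (1 / 4) ≤ sp u v := by
    refine le_trans ?_ hM
    exact mul_le_mul_of_nonneg_left h3 (abs_nonneg _)
  have h5 := ds_le_sp u v
  linarith

/-- `core`, uniformly in the finitely many places `y0` -/
private theorem PartC_unif {gam K : ℝ} {R : ℕ} (p : Par gam K R) (hK : 1 ≤ K) (hR : 1 ≤ R) :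
    ∃ SM B : ℝ, 0 ≤ SM ∧ 0 ≤ B ∧ ∀ j : ℤ, |(j : ℝ)| ≤ 16 * (10 * (1 + K) + 1) / p.tau →
      ∀ (P : Type) [Fintype P] [PartialOrder P] (S : ℝ) (C : Cfg p (j * (p.tau / 16)) P S),
        SM ≤ S → 0 ≤ S →
        (∀ σ : BFT.LE P, B * S + 1 ≤ pos σ C.a ∧ (pos σ C.a : ℝ) + B * S + 2 ≤ Fintype.card P) →
        False := by
  choose Sf Bf hcore using fun j : ℤ => core p hK hR (j * (p.tau / 16))
  obtain ⟨J, hJ⟩ := exists_nat_ge (16 * (10 * (1 + K) + 1) / p.tau)
  refine ⟨∑ j ∈ Finset.Icc (-(J : ℤ)) J, |Sf j|, ∑ j ∈ Finset.Icc (-(J : ℤ)) J, |Bf j|,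
    Finset.sum_nonneg fun i _ => abs_nonneg _, Finset.sum_nonneg fun i _ => abs_nonneg _, ?_⟩
  intro j hj P _ _ S C hS hS0 hpos
  have hjI : j ∈ Finset.Icc (-(J : ℤ)) J := by
    rw [Finset.mem_Icc]
    have h1 : |(j : ℝ)| ≤ J := hj.trans hJ
    have h2 := abs_le.1 h1
    constructor
    · exact_mod_cast h2.1
    · exact_mod_cast h2.2
  have h1 : Sf j ≤ ∑ j ∈ Finset.Icc (-(J : ℤ)) J, |Sf j| :=
    (le_abs_self _).trans (Finset.single_le_sum (f := fun j => |Sf j|) (fun i _ => abs_nonneg _) hjI)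
  have h2 : Bf j ≤ ∑ j ∈ Finset.Icc (-(J : ℤ)) J, |Bf j| :=
    (le_abs_self _).trans (Finset.single_le_sum (f := fun j => |Bf j|) (fun i _ => abs_nonneg _) hjI)
  refine hcore j P S C (h1.trans hS) ?_
  intro σ
  have h3 := mul_le_mul_of_nonneg_right h2 hS0
  obtain ⟨h4, h5⟩ := hpos σ
  constructor <;> linarith

/-- the padded poset -/
private theorem PartC_pad {P : Type} [Fintype P] [PartialOrder P] {d S : ℝ} (hd0 : 0 ≤ d)
    (hU : Unb P d) (hE : Ent P S) (m : ℕ) :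
    ∃ (P' : Type) (_ : Fintype P') (_ : PartialOrder P') (ι : P → P'),
      Unb P' d ∧ Ent P' S ∧ (Fintype.card P' : ℝ) = Fintype.card P + 2 * m ∧
      (∀ u v : P, BFT.lt (ι u) (ι v) = BFT.lt u v) ∧
      (∀ u v : P, ds (ι u) (ι v) = ds u v) ∧
      (∀ u : P, (m : ℝ) ≤ ht (ι u) ∧ ht (ι u) ≤ m + Fintype.card P) ∧
      ∀ a : P', (∀ σ : BFT.LE P', (m : ℝ) ≤ pos σ a ∧ (pos σ a : ℝ) ≤ m + Fintype.card P) ∨
        ∀ σ : BFT.LE P', (pos σ a : ℝ) = ht a := by
  obtain ⟨P', iF, iP, ι, hinj, hcard, hlt, hds, hpos, hconst, hout⟩ := padding P m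
  have hout' : ∀ u v : P', u ≠ v → (u ∉ Set.range ι ∨ v ∉ Set.range ι) →
      min (BFT.lt u v) (BFT.lt v u) ≤ 0 := by
    intro u v huv h
    have h1 : BFT.lt u v = 0 ∨ BFT.lt v u = 0 := by
      rcases h with h | h
      · rcases hout u h v huv.symm with h2 | h2
        · exact Or.inl h2
        · right
          have := lt_add huv
          linarith
      · rcases hout v h u huv with h2 | h2
        · exact Or.inr h2
        · left
          have := lt_add huv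
          linarith
    rcases h1 with h1 | h1
    · exact (min_le_left _ _).trans h1.le
    · exact (min_le_right _ _).trans h1.le
  refine ⟨P', iF, iP, ι, ?_, ?_, ?_, hlt, hds, ?_, ?_⟩
  · intro u v huv
    by_cases hu : u ∈ Set.range ι
    · by_cases hv : v ∈ Set.range ι
      · obtain ⟨u, rfl⟩ := hu
        obtain ⟨v, rfl⟩ := hv
        rw [hlt, hlt]
        exact hU u v (fun h => huv (by rw [h]))
      · exact (hout' u v huv (Or.inr hv)).trans hd0
    · exact (hout' u v huv (Or.inl hu)).trans hd0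
  · intro u v huv ha hb
    have h0 : ¬ (u ∉ Set.range ι ∨ v ∉ Set.range ι) := by
      intro h
      have h1 := hout' u v huv h
      have h2 : 1 / 4 ≤ min (BFT.lt u v) (BFT.lt v u) := le_min ha hb
      linarith
    rw [not_or, not_not, not_not] at h0
    obtain ⟨⟨u, rfl⟩, ⟨v, rfl⟩⟩ := h0
    rw [hlt] at ha hb
    rw [hds]
    exact hE u v (fun h => huv (by rw [h])) ha hb
  · rw [hcard]; push_cast; ring
  · intro u
    constructor
    · rw [← Ex_const (P := P') (m : ℝ)]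
      exact Ex_mono fun σ => by exact_mod_cast (hpos σ u).1
    · rw [← Ex_const (P := P') ((m : ℝ) + Fintype.card P)]
      exact Ex_mono fun σ => by exact_mod_cast (hpos σ u).2.le
  · intro a
    by_cases ha : a ∈ Set.range ι
    · left
      obtain ⟨a, rfl⟩ := ha
      intro σ
      constructor
      · exact_mod_cast (hpos σ a).1
      · exact_mod_cast (hpos σ a).2.le
    · right
      obtain ⟨k, hk⟩ := hconst a ha
      intro σ
      unfold ht
      rw [Ex_congr (g := fun _ => (k : ℝ)) fun σ => by rw [hk σ], Ex_const, hk σ]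

private theorem PartC_ht {P : Type} [Fintype P] [PartialOrder P] {K S : ℝ}
    {w : Fin (Fintype.card P) ≃ P} (hw : Disp w K S) (v : P) : |ht v - ix w v| ≤ K * S := by
  have h1 := hw v
  have h2 : ht v - ix w v = Ex (fun σ : BFT.LE P => (pos σ v : ℝ) - ix w v) := by
    rw [Ex_sub, Ex_const]
    rfl
  rw [h2, abs_le]
  constructor
  · have h3 : Ex (fun σ : BFT.LE P => -|(pos σ v : ℝ) - ix w v|) ≤
        Ex (fun σ : BFT.LE P => (pos σ v : ℝ) - ix w v) := Ex_mono fun σ => neg_abs_le _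
    rw [Ex_neg] at h3
    linarith
  · exact (Ex_mono fun σ => le_abs_self _).trans h1

/-- an entangled pair at the largest distance -/
private theorem PartC_max {P : Type} [Fintype P] [PartialOrder P] {S1 : ℝ} (h : ¬ Ent P S1) :
    ∃ u v : P, u ≠ v ∧ 1 / 4 ≤ BFT.lt u v ∧ 1 / 4 ≤ BFT.lt v u ∧ S1 < ds u v ∧ Ent P (ds u v) := by
  classical
  unfold Ent at h
  push Not at h
  obtain ⟨u1, v1, huv1, ha1, hb1, hc1⟩ := h
  obtain ⟨⟨u0, v0⟩, hq, hmax⟩ := Finset.exists_max_image (Finset.univ.filter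
    (fun q : P × P => q.1 ≠ q.2 ∧ 1 / 4 ≤ BFT.lt q.1 q.2 ∧ 1 / 4 ≤ BFT.lt q.2 q.1))
    (fun q : P × P => ds q.1 q.2)
    ⟨(u1, v1), Finset.mem_filter.2 ⟨Finset.mem_univ _, huv1, ha1, hb1⟩⟩
  obtain ⟨-, huv0, ha0, hb0⟩ := Finset.mem_filter.1 hq
  refine ⟨u0, v0, huv0, ha0, hb0, ?_, ?_⟩
  · exact lt_of_lt_of_le hc1 (hmax (u1, v1)
      (Finset.mem_filter.2 ⟨Finset.mem_univ _, huv1, ha1, hb1⟩))
  · intro u v huv ha hb
    exact hmax (u, v) (Finset.mem_filter.2 ⟨Finset.mem_univ _, huv, ha, hb⟩)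

/-- one poset -/
private theorem PartC_one {d K : ℝ} {R : ℕ} (hK : 1 ≤ K) (hR : 1 ≤ R) (p : Par (1 / 2 - d) K R)
    (hA : ∀ (P : Type) [Fintype P] [PartialOrder P] (S : ℝ), 1 ≤ S →
      Ent P S → ∃ w : Fin (Fintype.card P) ≃ P, Disp w K S)
    (hdbl : ∀ (P : Type) [Fintype P] [PartialOrder P],
      Unb P d → ∀ (r : ℝ) (A : Finset P), 0 < r →
      (∀ u ∈ A, ∀ v ∈ A, u ≠ v → r ≤ ds u v ∧ ds u v ≤ 4 * r) → A.card ≤ R)
    {SM B : ℝ} (hSM0 : 0 ≤ SM) (hB0 : 0 ≤ B)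
    (hcore : ∀ j : ℤ, |(j : ℝ)| ≤ 16 * (10 * (1 + K) + 1) / p.tau →
      ∀ (P : Type) [Fintype P] [PartialOrder P] (S : ℝ) (C : Cfg p (j * (p.tau / 16)) P S),
        SM ≤ S → 0 ≤ S →
        (∀ σ : BFT.LE P, B * S + 1 ≤ pos σ C.a ∧ (pos σ C.a : ℝ) + B * S + 2 ≤ Fintype.card P) →
        False)
    (P : Type) [Fintype P] [PartialOrder P] (hU : Unb P d) : Ent P (2 * K + 2 + SM) := by
  by_contra hcon
  obtain ⟨u0, v0, huv0, ha0, hb0, hS1, hEnt⟩ := PartC_max hcon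
  obtain ⟨S, hS⟩ : ∃ S, S = ds u0 v0 := ⟨_, rfl⟩
  rw [← hS] at hS1 hEnt
  have hS0 : 1 ≤ S := by linarith
  have hd0 : 0 ≤ d := by
    have h1 := hU u0 v0 huv0
    have h2 : 1 / 4 ≤ min (BFT.lt u0 v0) (BFT.lt v0 u0) := le_min ha0 hb0
    linarith
  obtain ⟨m, hm⟩ := exists_nat_ge ((B + 2 * K + 2) * S + 3)
  obtain ⟨P', iF, iP, ι, hU', hEnt', hcardR, hlt, hds, hι, hall⟩ := PartC_pad hd0 hU hEnt m
  obtain ⟨w, hw⟩ := hA P' S hS0 hEnt'
  have hKS : 0 ≤ K * S := by positivity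
  have hBS : 0 ≤ B * S := by positivity
  have hm' : B * S + 2 * (K * S) + 2 * S + 3 ≤ m := by
    have : (B + 2 * K + 2) * S + 3 = B * S + 2 * (K * S) + 2 * S + 3 := by ring
    linarith
  have hu0 := abs_le.1 (PartC_ht hw (ι u0))
  obtain ⟨h3, h4⟩ := hι u0
  have hroom : ix w (ι u0) + S + 1 ≤ Fintype.card P' := by
    rw [hcardR]
    linarith
  have hdsι : ds (ι u0) (ι v0) = S := by rw [hds, hS]
  have hspι : S / 5 ≤ sp (ι u0) (ι v0) := by
    have h1 : 1 / 4 ≤ BFT.lt (ι u0) (ι v0) := by rw [hlt]; exact ha0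
    have h2 : 1 / 4 ≤ BFT.lt (ι v0) (ι u0) := by rw [hlt]; exact hb0
    have h3 := sp_ge (ι u0) (ι v0) h1 h2
    rwa [hdsι] at h3
  obtain ⟨j, C, hj, hCw, hCa1, hCa2⟩ := cfg_exists hR hK p hU' (by linarith) w hw (hdbl P' hU')
    (ι u0) (ι v0) hspι hdsι.le hroom
  refine hcore j hj P' S C (by linarith) (by linarith) ?_
  intro σ
  rw [hcardR]
  rcases hall C.a with h | h
  · obtain ⟨h1, h2⟩ := h σ
    constructor <;> linarith
  · have h2 := abs_le.1 (PartC_ht hw C.a)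
    rw [h σ]
    constructor <;> linarith

/-- PART C. Proof (blueprint C0, C8): `K` from `partA`, `R = 2^ρ` from `doubling`, `p` from `exists_par`; `core` for the
finitely many `y0 = j tau/16`; `S` = largest `ds` of an entangled pair; `padding` with
`m ≥ (B + 2K + 2) S + 3`; `partA` and `doubling` for the padded poset; `cfg_exists`. -/
theorem partC (d : ℝ) (hd : d < 1 / 2) : ∃ S0 : ℝ, 1 ≤ S0 ∧ ∀ (P : Type) [Fintype P] [PartialOrder P],
    Unb P d → Ent P S0 := by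
  obtain ⟨K, hK, hA⟩ := partA
  obtain ⟨R0, hR0, hdbl⟩ := doubling d hd
  have hR02 : R0 ≤ 2 ^ R0 := Nat.lt_two_pow_self.le
  obtain ⟨p⟩ := exists_par (1 / 2 - d) K (by linarith) hK R0
  obtain ⟨SM, B, hSM, hB, hcore⟩ := PartC_unif p hK Nat.one_le_two_pow
  refine ⟨2 * K + 2 + SM, by linarith, fun P _ _ hU => ?_⟩
  exact PartC_one hK Nat.one_le_two_pow p
    (fun P _ _ S hS hE => by
      obtain ⟨w, -, hw⟩ := hA P S hS hE
      exact ⟨w, hw⟩)
    (fun P _ _ hU r A hr hAr => (hdbl P hU r A hr hAr).trans hR02) hSM hB hcore P hU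

end Pool.Agent.Half
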