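import Mathlib

set_option autoImplicit false

/-!
# K08: quantile functions (blueprint C4)
-/

namespace Pool.Agent.Half

open MeasureTheory

/-- continuity of the distribution function of an absolutely continuous probability measure -/
private theorem quantile_cdf_continuous (μ : Measure ℝ) [IsProbabilityMeasure μ]
    (hμ : ∀ x, μ {x} = 0) : Continuous (ProbabilityTheory.cdf μ) := by
  rw [continuous_iff_continuousAt]
  intro x
  have hmono : Monotone (ProbabilityTheory.cdf μ) := ProbabilityTheory.monotone_cdf μ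
  rw [hmono.continuousAt_iff_leftLim_eq_rightLim, StieltjesFunction.rightLim_eq]
  apply le_antisymm
  · exact hmono.leftLim_le le_rfl
  · have h1 : (ProbabilityTheory.cdf μ).measure {x} = 0 := by
      rw [ProbabilityTheory.measure_cdf]; exact hμ x
    rw [StieltjesFunction.measure_singleton, ENNReal.ofReal_eq_zero] at h1
    linarith

/-- the strict increase at a point with positive derivative -/
private theorem quantile_lt_right {F : ℝ → ℝ} (hF : Monotone F) {x d : ℝ} (hd : 0 < d)
    (h : HasDerivAt F d x) {y : ℝ} (hy : x < y) : F x < F y := by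
  have h1 : ∀ᶠ z in nhdsWithin x {x}ᶜ, 0 < slope F x z :=
    (hasDerivAt_iff_tendsto_slope.1 h).eventually (lt_mem_nhds hd)
  have h2 : ∀ᶠ z in nhdsWithin x (Set.Ioi x), 0 < slope F x z :=
    h1.filter_mono (nhdsWithin_mono _ fun z hz => ne_of_gt hz)
  obtain ⟨z, hz1, hz2⟩ := (h2.and (Ioo_mem_nhdsGT hy)).exists
  have h3 : 0 < z - x := sub_pos.2 hz2.1
  rw [slope_def_field, lt_div_iff₀ h3, zero_mul] at hz1
  linarith [hF hz2.2.le]

private theorem quantile_lt_left {F : ℝ → ℝ} (hF : Monotone F) {x d : ℝ} (hd : 0 < d)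
    (h : HasDerivAt F d x) {y : ℝ} (hy : y < x) : F y < F x := by
  have h1 : ∀ᶠ z in nhdsWithin x {x}ᶜ, 0 < slope F x z :=
    (hasDerivAt_iff_tendsto_slope.1 h).eventually (lt_mem_nhds hd)
  have h2 : ∀ᶠ z in nhdsWithin x (Set.Iio x), 0 < slope F x z :=
    h1.filter_mono (nhdsWithin_mono _ fun z hz => ne_of_lt hz)
  obtain ⟨z, hz1, hz2⟩ := (h2.and (Ioo_mem_nhdsLT hy)).exists
  have h3 : z - x < 0 := sub_neg.2 hz2.2
  rw [slope_def_field] at hz1
  have h4 : F z - F x < 0 := by
    by_contra hcon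
    have := div_nonpos_of_nonneg_of_nonpos (not_lt.1 hcon) h3.le
    linarith
  linarith [hF hz2.1.le]

/-- the quantile function of a probability density: strictly increasing on `(0,1)`, pushes Lebesgue
measure on `(0,1)` forward to `f dx`, and has derivative `1/f(Q)` almost everywhere.
Proof. `cdf x = ∫_{-∞}^x f`, continuous; `Q s = sInf {x | s ≤ cdf x}`; `cdf (Q s) = s`. `Q` is monotone,
hence a.e. differentiable (`Monotone.ae_differentiableAt` for a monotone extension); `cdf' = f` at almost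
every `x` (Lebesgue differentiation, `MeasureTheory.LocallyIntegrable...` / `VitaliFamily`), and the set of
`s` with `Q s` in a null set is null (push forward); chain rule. -/
theorem quantile (f : ℝ → ENNReal) (hf : Measurable f) (hf1 : ∫⁻ x, f x = 1) :
    ∃ Q : ℝ → ℝ, Measurable Q ∧ StrictMonoOn Q (Set.Ioo 0 1) ∧
      (∀ b : ℝ → ENNReal, Measurable b → ∫⁻ s in Set.Ioo (0:ℝ) 1, b (Q s) = ∫⁻ x, b x * f x) ∧
      (∀ᵐ s : ℝ, s ∈ Set.Ioo (0:ℝ) 1 → 0 < f (Q s) ∧ f (Q s) < ⊤ ∧
        HasDerivAt Q (1 / (f (Q s)).toReal) s) := by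
  classical
  set μ : Measure ℝ := volume.withDensity f with hμdef
  have hprob : IsProbabilityMeasure μ := ⟨by
    rw [hμdef, withDensity_apply _ MeasurableSet.univ, Measure.restrict_univ, hf1]⟩
  have hac : μ ≪ volume := withDensity_absolutelyContinuous _ _
  set F : StieltjesFunction ℝ := ProbabilityTheory.cdf μ with hFdef
  have hcont : Continuous F :=
    quantile_cdf_continuous μ fun x => hac (measure_singleton x)
  have hmono : Monotone F := ProbabilityTheory.monotone_cdf μ
  have hbot : Filter.Tendsto F Filter.atBot (nhds 0) := ProbabilityTheory.tendsto_cdf_atBot μ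
  have htop : Filter.Tendsto F Filter.atTop (nhds 1) := ProbabilityTheory.tendsto_cdf_atTop μ
  let A : ℝ → Set ℝ := fun s => {x | s ≤ F x}
  have hAne : ∀ s, s < 1 → (A s).Nonempty := by
    intro s hs
    obtain ⟨x, hx⟩ := (htop.eventually (lt_mem_nhds hs)).exists
    exact ⟨x, hx.le⟩
  have hAbdd : ∀ s, 0 < s → BddBelow (A s) := by
    intro s hs
    obtain ⟨b, hb⟩ := (hbot.eventually (gt_mem_nhds hs)).exists
    refine ⟨b, fun x hx => ?_⟩
    by_contra hcon
    have h1 : F x ≤ F b := hmono (not_le.1 hcon).le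
    have h2 : s ≤ F x := hx
    have h3 : F b < s := hb
    linarith
  have hAcl : ∀ s, IsClosed (A s) := fun s => isClosed_le continuous_const hcont
  let Q : ℝ → ℝ := fun s => if s ∈ Set.Ioo (0:ℝ) 1 then sInf (A s) else 0
  have hQ : ∀ s ∈ Set.Ioo (0:ℝ) 1, Q s = sInf (A s) := fun s hs => by simp only [Q, if_pos hs]
  have hFQ : ∀ s ∈ Set.Ioo (0:ℝ) 1, F (Q s) = s := by
    intro s hs
    have hmem : sInf (A s) ∈ A s := (hAcl s).csInf_mem (hAne s hs.2) (hAbdd s hs.1)
    rw [hQ s hs]
    apply le_antisymm _ hmem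
    by_contra hcon
    push Not at hcon
    have h1 : ∀ᶠ z in nhdsWithin (sInf (A s)) (Set.Iio (sInf (A s))), s < F z :=
      (hcont.continuousAt.eventually (lt_mem_nhds hcon)).filter_mono nhdsWithin_le_nhds
    obtain ⟨z, hz1, hz2⟩ := (h1.and self_mem_nhdsWithin).exists
    have h2 : sInf (A s) ≤ z := csInf_le (hAbdd s hs.1) hz1.le
    exact absurd hz2 (not_lt.2 h2)
  have hgal : ∀ s ∈ Set.Ioo (0:ℝ) 1, ∀ x, Q s ≤ x ↔ s ≤ F x := by
    intro s hs x
    constructor
    · intro h
      rw [← hFQ s hs]; exact hmono h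
    · intro h
      rw [hQ s hs]
      exact csInf_le (hAbdd s hs.1) h
  have hpre : ∀ x, Q ⁻¹' Set.Iic x ∩ Set.Ioo 0 1 = Set.Ioo 0 1 ∩ Set.Iic (F x) := by
    intro x
    ext s
    constructor
    · rintro ⟨h1, h2⟩
      exact ⟨h2, (hgal s h2 x).1 h1⟩
    · rintro ⟨h1, h2⟩
      exact ⟨(hgal s h1 x).2 h2, h1⟩
  have hQm : Measurable Q := by
    apply measurable_of_Iic
    intro x
    have h1 : Q ⁻¹' Set.Iic x = (Set.Ioo 0 1 ∩ Set.Iic (F x)) ∪
        ((Set.Ioo (0:ℝ) 1)ᶜ ∩ {_s : ℝ | (0:ℝ) ≤ x}) := by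
      ext s
      by_cases hs : s ∈ Set.Ioo (0:ℝ) 1
      · have h2 : s ∈ Q ⁻¹' Set.Iic x ↔ s ∈ Q ⁻¹' Set.Iic x ∩ Set.Ioo 0 1 :=
          ⟨fun h => ⟨h, hs⟩, fun h => h.1⟩
        rw [h2, hpre]
        constructor
        · exact fun h => Or.inl h
        · rintro (h | h)
          · exact h
          · exact absurd hs h.1
      · have h2 : Q s = 0 := by simp only [Q, if_neg hs]
        constructor
        · intro h
          right
          refine ⟨hs, ?_⟩
          have h3 : Q s ≤ x := h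
          rw [h2] at h3
          exact h3
        · rintro (h | h)
          · exact absurd h.1 hs
          · have h3 : (0:ℝ) ≤ x := h.2
            change Q s ≤ x
            rw [h2]; exact h3
    rw [h1]
    exact (measurableSet_Ioo.inter measurableSet_Iic).union
      (measurableSet_Ioo.compl.inter (MeasurableSet.const _))
  have hmap : (volume.restrict (Set.Ioo (0:ℝ) 1)).map Q = μ := by
    have : IsFiniteMeasure (volume.restrict (Set.Ioo (0:ℝ) 1)) := inferInstance
    have : IsFiniteMeasure ((volume.restrict (Set.Ioo (0:ℝ) 1)).map Q) := inferInstance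
    refine Measure.ext_of_Iic _ _ fun x => ?_
    rw [Measure.map_apply hQm measurableSet_Iic, Measure.restrict_apply
      (hQm measurableSet_Iic), hpre x, ← ProbabilityTheory.ofReal_cdf μ x]
    have h0 : 0 ≤ F x := ProbabilityTheory.cdf_nonneg μ x
    have h1 : F x ≤ 1 := ProbabilityTheory.cdf_le_one μ x
    rcases lt_or_eq_of_le h1 with h2 | h2
    · have h3 : Set.Ioo (0:ℝ) 1 ∩ Set.Iic (F x) = Set.Ioc 0 (F x) := by
        ext s
        constructor
        · rintro ⟨h4, h5⟩; exact ⟨h4.1, h5⟩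
        · rintro ⟨h4, h5⟩; exact ⟨⟨h4, lt_of_le_of_lt h5 h2⟩, h5⟩
      rw [h3, Real.volume_Ioc, sub_zero]
    · have h3 : Set.Ioo (0:ℝ) 1 ∩ Set.Iic (F x) = Set.Ioo 0 1 := by
        ext s
        constructor
        · rintro ⟨h4, h5⟩; exact h4
        · intro h4; exact ⟨h4, by rw [h2]; exact h4.2.le⟩
      rw [h3, Real.volume_Ioo, sub_zero]
      change ENNReal.ofReal 1 = ENNReal.ofReal (F x)
      rw [h2]
  have hstrict : StrictMonoOn Q (Set.Ioo 0 1) := by
    intro s hs t ht hst
    by_contra hcon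
    have h1 := hmono (not_lt.1 hcon)
    rw [hFQ s hs, hFQ t ht] at h1
    linarith
  refine ⟨Q, hQm, hstrict, ?_, ?_⟩
  · intro b hb
    have h1 : ∫⁻ s in Set.Ioo (0:ℝ) 1, b (Q s) =
        ∫⁻ x, b x ∂((volume.restrict (Set.Ioo (0:ℝ) 1)).map Q) := (lintegral_map hb hQm).symm
    rw [h1, hmap, hμdef, lintegral_withDensity_eq_lintegral_mul _ hf hb]
    refine lintegral_congr fun x => ?_
    rw [Pi.mul_apply, mul_comm]
  · -- the good points
    have g1 : ∀ᵐ x ∂μ, HasDerivAt F (f x).toReal x ∧ f x < ⊤ := by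
      have h1 : ∀ᵐ x, HasDerivAt F (F.measure.rnDeriv volume x).toReal x := F.ae_hasDerivAt
      have h2 : F.measure = μ := ProbabilityTheory.measure_cdf μ
      rw [h2] at h1
      have h3 : μ.rnDeriv volume =ᵐ[volume] f := Measure.rnDeriv_withDensity volume hf
      have h4 : ∀ᵐ x, f x < ⊤ := ae_lt_top hf (by rw [hf1]; exact ENNReal.one_ne_top)
      have h5 : ∀ᵐ x, HasDerivAt F (f x).toReal x ∧ f x < ⊤ := by
        filter_upwards [h1, h3, h4] with x h6 h7 h8
        rw [h7] at h6
        exact ⟨h6, h8⟩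
      exact hac.ae_le h5
    have g2 : ∀ᵐ x ∂μ, 0 < f x := by
      rw [ae_iff]
      have h1 : {x | ¬ 0 < f x} = {x | f x = 0} := by
        ext x; simp
      have h2 : MeasurableSet {x | f x = 0} := hf (measurableSet_singleton 0)
      rw [h1, hμdef, withDensity_apply _ h2]
      rw [setLIntegral_congr_fun (g := fun _ => 0) h2 (fun x hx => hx)]
      simp
    have g3 : ∀ᵐ s ∂(volume.restrict (Set.Ioo (0:ℝ) 1)),
        (HasDerivAt F (f (Q s)).toReal (Q s) ∧ f (Q s) < ⊤) ∧ 0 < f (Q s) := by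
      have h1 : ∀ᵐ x ∂((volume.restrict (Set.Ioo (0:ℝ) 1)).map Q),
          (HasDerivAt F (f x).toReal x ∧ f x < ⊤) ∧ 0 < f x := by
        rw [hmap]; exact g1.and g2
      exact ae_of_ae_map hQm.aemeasurable h1
    rw [ae_restrict_iff' measurableSet_Ioo] at g3
    filter_upwards [g3] with s hs1 hs
    obtain ⟨⟨h1, h2⟩, h3⟩ := hs1 hs
    refine ⟨h3, h2, ?_⟩
    have hd : 0 < (f (Q s)).toReal := ENNReal.toReal_pos h3.ne' h2.ne
    have hQc : ContinuousAt Q s := by
      rw [Metric.continuousAt_iff']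
      intro ε hε
      have h4 : s < F (Q s + ε / 2) := by
        have := quantile_lt_right hmono hd h1 (show Q s < Q s + ε / 2 by linarith)
        rwa [hFQ s hs] at this
      have h5 : F (Q s - ε / 2) < s := by
        have := quantile_lt_left hmono hd h1 (show Q s - ε / 2 < Q s by linarith)
        rwa [hFQ s hs] at this
      filter_upwards [Ioo_mem_nhds hs.1 hs.2, Ioo_mem_nhds h5 h4] with t ht1 ht2
      have h6 : Q t ≤ Q s + ε / 2 := (hgal t ht1 _).2 ht2.2.le
      have h7 : Q s - ε / 2 < Q t := by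
        by_contra hcon
        have := (hgal t ht1 _).1 (not_lt.1 hcon)
        exact absurd ht2.1 (not_lt.2 this)
      rw [Real.dist_eq, abs_lt]
      constructor <;> linarith
    have h4 := HasDerivAt.of_local_left_inverse hQc h1 hd.ne'
      (by filter_upwards [Ioo_mem_nhds hs.1 hs.2] with t ht using hFQ t ht)
    rwa [← one_div] at h4

end Pool.Agent.Half
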