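import Pool.Agent.Lib_MP_33fb9b_half.PartA
import Pool.Agent.Lib_MP_33fb9b_half.PartC
import Pool.Agent.Lib_MP_33fb9b_ks.GoalB
import Pool.Agent.Lib_MP_33fb9b_ks.Inst

set_option autoImplicit false

/-!
# H19: posets with balance constant below 1/2 are thin
-/

namespace Pool.Agent.Half

open Pool.Agent.BFT Pool.Agent.Thin

/-- posets all of whose pairs are `d`-unbalanced, `d < 1/2`, are thin -/
theorem thin (d : ℝ) (hd : d < 1 / 2) : ∃ M : ℕ, ∀ (P : Type) [Fintype P] [PartialOrder P],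
    Unb P d → ∀ x : P, Nat.card {y : P // ¬ x ≤ y ∧ ¬ y ≤ x} ≤ M := by
  classical
  obtain ⟨C1, hC1, htail⟩ := tail_poset
  obtain ⟨K, hK, hA⟩ := partA
  obtain ⟨S, hS, hC⟩ := partC d hd
  have hKS : 1 ≤ K * S := by nlinarith
  obtain ⟨M, hM⟩ := goalB (K * S) (max 1 (C1 * (K * S) ^ 4))
  refine ⟨2 * M + 1, ?_⟩
  intro P _ _ hb x
  obtain ⟨w, hw, hmean⟩ := hA P S hS (hC P hb)
  have hlt : ∀ v : P, ((w.symm v : Fin (Fintype.card P)) : ℕ) < Fintype.card P :=
    fun v => (w.symm v).2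
  have hL : Loc P (fun v => (w.symm v : ℕ)) (K * S) (max 1 (C1 * (K * S) ^ 4)) := by
    refine ⟨hlt, ?_, ?_, hmean, ?_, hKS, le_max_left _ _⟩
    · intro a b hab
      exact w.symm.injective (Fin.ext hab)
    · intro u v huv
      have h1 := inst_ht_lt huv
      have h2 : w.symm u < w.symm v := by
        by_contra hcon
        rw [not_lt] at hcon
        have h3 := hw hcon
        simp only [Equiv.apply_symm_apply] at h3
        linarith
      exact h2
    · intro u v huv
      have h1 := htail P u v (w.symm u : ℕ) (w.symm v : ℕ) (K * S) hKS huv (hmean u) (hmean v)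
      exact le_trans h1 (le_max_right _ _)
  have hinc : ∀ y : P, ¬ x ≤ y → ¬ y ≤ x →
      (w.symm y : ℕ) ∈ Finset.Icc ((w.symm x : ℕ) - M) ((w.symm x : ℕ) + M) := by
    intro y h1 h2
    rw [Finset.mem_Icc]
    rcases lt_trichotomy (w.symm x : ℕ) (w.symm y : ℕ) with h | h | h
    · have := hM P _ hL x y h1 h2 h
      constructor <;> omega
    · constructor <;> omega
    · have := hM P _ hL y x h2 h1 h
      constructor <;> omega
  rw [Nat.card_eq_fintype_card, Fintype.card_subtype]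
  have h3 : (Finset.univ.filter (fun y : P => ¬ x ≤ y ∧ ¬ y ≤ x)).card ≤
      (Finset.Icc ((w.symm x : ℕ) - M) ((w.symm x : ℕ) + M)).card := by
    apply Finset.card_le_card_of_injOn (fun y => (w.symm y : ℕ))
    · intro y hy
      have hy' : y ∈ Finset.univ.filter (fun y : P => ¬ x ≤ y ∧ ¬ y ≤ x) := hy
      rw [Finset.mem_filter] at hy'
      exact hinc y hy'.2.1 hy'.2.2
    · intro a _ b _ hab
      exact w.symm.injective (Fin.ext hab)
  rw [Nat.card_Icc] at h3
  omega

/-- large antichains give nearly balanced pairs -/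
theorem wide (ε : ℝ) (hε : 0 < ε) : ∃ W : ℕ, ∀ (P : Type) [Fintype P] [PartialOrder P],
    (∃ s : Finset P, IsAntichain (· ≤ ·) (↑s : Set P) ∧ W ≤ s.card) →
      ∃ u v : P, 1 / 2 - ε ≤ BFT.lt u v ∧ 1 / 2 - ε ≤ BFT.lt v u := by
  classical
  obtain ⟨M, hM⟩ := thin (1 / 2 - ε) (by linarith)
  refine ⟨M + 2, ?_⟩
  rintro P _ _ ⟨s, hs, hcard⟩
  by_contra hcon
  push Not at hcon
  have hb : Unb P (1 / 2 - ε) := by
    intro u v _
    by_contra h1
    rw [not_le, lt_min_iff] at h1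
    have h2 := hcon u v h1.1.le
    linarith [h1.2]
  have hne : s.Nonempty := by
    rw [← Finset.card_pos]; omega
  obtain ⟨x, hx⟩ := hne
  have h1 := hM P hb x
  rw [Nat.card_eq_fintype_card, Fintype.card_subtype] at h1
  have h2 : (s.erase x).card ≤ (Finset.univ.filter (fun y : P => ¬ x ≤ y ∧ ¬ y ≤ x)).card := by
    apply Finset.card_le_card
    intro y hy
    rw [Finset.mem_erase] at hy
    rw [Finset.mem_filter]
    refine ⟨Finset.mem_univ _, ?_, ?_⟩
    · exact hs hx hy.2 (Ne.symm hy.1)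
    · exact hs hy.2 hx hy.1
  rw [Finset.card_erase_of_mem hx] at h2
  omega

/-- H19 -/
theorem main_half (d : ℝ) (hd : d < 1 / 2) : ∃ M : ℕ, ∀ (P : Type) [Fintype P]
    [PartialOrder P], Pool.Agent.Gap.balance P ≤ d →
    ∀ x : P, Nat.card {y : P // ¬ x ≤ y ∧ ¬ y ≤ x} ≤ M := by
  obtain ⟨M, hM⟩ := thin d hd
  refine ⟨M, ?_⟩
  intro P _ _ hb x
  exact hM P (fun u v _ => (inst_min_le u v).trans hb) x

end Pool.Agent.Half
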