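import Pool.Agent.Lib_MP_33fb9b_half.Quantile

set_option autoImplicit false

/-!
# K09: one-dimensional multi-marginal transport, dual form (blueprint C4, T_1)
-/

namespace Pool.Agent.Half

open MeasureTheory

/-- weighted AM-GM for the inverses -/
private theorem TrOne_amgm {T : ℕ} (lam : Fin (T + 1) → ℝ) (hl0 : ∀ t, 0 ≤ lam t)
    (hl1 : ∑ t, lam t = 1) (y : Fin (T + 1) → ENNReal) (hy : ∀ t, 0 < y t ∧ y t < ⊤) :
    (∏ t, y t ^ lam t)⁻¹ ≤ ENNReal.ofReal |∑ t, lam t * (1 / (y t).toReal)| := by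
  have hr : ∀ t, 0 < (y t).toReal := fun t => ENNReal.toReal_pos (hy t).1.ne' (hy t).2.ne
  have h1 : ∏ t, y t ^ lam t = ENNReal.ofReal (∏ t, (y t).toReal ^ lam t) := by
    rw [ENNReal.ofReal_prod_of_nonneg fun t _ => Real.rpow_nonneg (hr t).le _]
    refine Finset.prod_congr rfl fun t _ => ?_
    rw [← ENNReal.ofReal_rpow_of_pos (hr t), ENNReal.ofReal_toReal (hy t).2.ne]
  have hpos : 0 < ∏ t, (y t).toReal ^ lam t :=
    Finset.prod_pos fun t _ => Real.rpow_pos_of_pos (hr t) _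
  rw [h1, ← ENNReal.ofReal_inv_of_pos hpos]
  refine ENNReal.ofReal_le_ofReal ?_
  have h2 : (∏ t, (y t).toReal ^ lam t)⁻¹ = ∏ t, (1 / (y t).toReal) ^ lam t := by
    rw [← Finset.prod_inv_distrib]
    refine Finset.prod_congr rfl fun t _ => ?_
    rw [one_div, Real.inv_rpow (hr t).le]
  rw [h2]
  refine le_trans ?_ (le_abs_self _)
  exact Real.geom_mean_le_arith_mean_weighted Finset.univ lam (fun t => 1 / (y t).toReal)
    (fun t _ => hl0 t) hl1 (fun t _ => (one_div_pos.2 (hr t)).le)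

/-- a convex combination of strictly increasing functions is strictly increasing -/
private theorem TrOne_strict {T : ℕ} (lam : Fin (T + 1) → ℝ) (hl0 : ∀ t, 0 ≤ lam t)
    (hl1 : ∑ t, lam t = 1) (Q : Fin (T + 1) → ℝ → ℝ) (S : Set ℝ)
    (hQ : ∀ t, StrictMonoOn (Q t) S) : StrictMonoOn (fun s => ∑ t, lam t * Q t s) S := by
  intro x hx y hy hxy
  obtain ⟨t, ht⟩ : ∃ t, 0 < lam t := by
    by_contra hc
    push Not at hc
    have : ∑ t, lam t ≤ 0 := Finset.sum_nonpos fun t _ => hc t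
    linarith
  exact Finset.sum_lt_sum
    (fun t _ => mul_le_mul_of_nonneg_left (hQ t hx hy hxy).le (hl0 t))
    ⟨t, Finset.mem_univ t, mul_lt_mul_of_pos_left (hQ t hx hy hxy) ht⟩

/-- `T_1`. Proof: `1 = ∫_0^1 1 ≤ ∫_0^1 ∑ b_t(Q_t) + ∑_l ∫_0^1 G_l(z_l)/∏ f_t(Q_t)^lam`, `z_l = ∑ lam_t Q_t`,
`z_l' = ∑ lam_t/f_t(Q_t) ≥ ∏ f_t(Q_t)^(-lam_t)` (weighted AM-GM `Real.inner_le_nnorm_mul_nnorm`,
`Real.geom_mean_le_arith_mean_weighted`), and `∫ G(z(s)) z'(s) ds ≤ ∫ G`
(`lintegral_image_eq_lintegral_abs_deriv_mul` on the set of good `s`, where `z` is injective). -/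
theorem tr_one {T : ℕ} {Λ : Type} [Fintype Λ] (lam : Λ → Fin (T + 1) → ℝ)
    (hl0 : ∀ l t, 0 ≤ lam l t) (hl1 : ∀ l, ∑ t, lam l t = 1)
    (f b : Fin (T + 1) → ℝ → ENNReal) (hf : ∀ t, Measurable (f t)) (hb : ∀ t, Measurable (b t))
    (hf1 : ∀ t, ∫⁻ x, f t x = 1) (G : Λ → ℝ → ENNReal) (hG : ∀ l, Measurable (G l))
    (H : ∀ x : Fin (T + 1) → ℝ, (∀ t, 0 < f t (x t) ∧ f t (x t) < ⊤) →
      1 ≤ ∑ t, b t (x t) + ∑ l, G l (∑ t, lam l t * x t) * (∏ t, (f t (x t)) ^ (lam l t))⁻¹) :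
    1 ≤ (∑ t, ∫⁻ x, b t x * f t x) + ∑ l, ∫⁻ x, G l x := by
  choose Q hQm hQs hQi hQd using fun t => quantile (f t) (hf t) (hf1 t)
  have hae := ae_all_iff.2 hQd
  set N : Set ℝ := toMeasurable volume {s : ℝ | ¬ ∀ t, s ∈ Set.Ioo (0:ℝ) 1 →
    0 < f t (Q t s) ∧ f t (Q t s) < ⊤ ∧ HasDerivAt (Q t) (1 / (f t (Q t s)).toReal) s} with hNdef
  have hN0 : volume N = 0 := by
    rw [hNdef, measure_toMeasurable]
    exact hae
  have hNm : MeasurableSet N := measurableSet_toMeasurable _ _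
  set S : Set ℝ := Set.Ioo (0:ℝ) 1 \ N with hSdef
  have hSm : MeasurableSet S := measurableSet_Ioo.diff hNm
  have hSae : S =ᵐ[volume] Set.Ioo (0:ℝ) 1 := sdiff_null_ae_eq_self hN0
  have hS : ∀ s ∈ S, ∀ t, 0 < f t (Q t s) ∧ f t (Q t s) < ⊤ ∧
      HasDerivAt (Q t) (1 / (f t (Q t s)).toReal) s := by
    intro s hs t
    by_contra hc
    refine hs.2 (subset_toMeasurable _ _ ?_)
    intro h
    exact hc (h t hs.1)
  have hSsub : S ⊆ Set.Ioo (0:ℝ) 1 := Set.sdiff_subset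
  have hzm : ∀ l, Measurable fun s => ∑ t, lam l t * Q t s := fun l =>
    Finset.measurable_sum _ fun t _ => (hQm t).const_mul _
  have hpm : ∀ l, Measurable fun s => (∏ t, (f t (Q t s)) ^ (lam l t))⁻¹ := fun l =>
    (Finset.measurable_prod _ fun t _ => ((hf t).comp (hQm t)).pow_const _).inv
  have hbm : ∀ t, Measurable fun s => b t (Q t s) := fun t => (hb t).comp (hQm t)
  calc (1 : ENNReal) = ∫⁻ s in S, 1 := by
        rw [setLIntegral_congr hSae]
        simp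
    _ ≤ ∫⁻ s in S, (∑ t, b t (Q t s) + ∑ l, G l (∑ t, lam l t * Q t s) *
          (∏ t, (f t (Q t s)) ^ (lam l t))⁻¹) :=
        setLIntegral_mono' hSm fun s hs => H (fun t => Q t s) fun t =>
          ⟨(hS s hs t).1, (hS s hs t).2.1⟩
    _ = (∑ t, ∫⁻ s in S, b t (Q t s)) + ∑ l, ∫⁻ s in S, G l (∑ t, lam l t * Q t s) *
          (∏ t, (f t (Q t s)) ^ (lam l t))⁻¹ := by
        have hm2 : ∀ l ∈ (Finset.univ : Finset Λ), Measurable fun s =>
            G l (∑ t, lam l t * Q t s) * (∏ t, (f t (Q t s)) ^ (lam l t))⁻¹ :=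
          fun l _ => ((hG l).comp (hzm l)).mul (hpm l)
        rw [lintegral_add_left (Finset.measurable_sum _ fun t _ => hbm t),
          lintegral_finsetSum _ fun t _ => hbm t, lintegral_finsetSum _ hm2]
    _ ≤ (∑ t, ∫⁻ x, b t x * f t x) + ∑ l, ∫⁻ x, G l x := by
        refine add_le_add (Finset.sum_le_sum fun t _ => ?_) (Finset.sum_le_sum fun l _ => ?_)
        · rw [← hQi t (b t) (hb t)]
          exact lintegral_mono_set hSsub
        · have hder : ∀ s ∈ S, HasDerivWithinAt (fun s => ∑ t, lam l t * Q t s)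
              (∑ t, lam l t * (1 / (f t (Q t s)).toReal)) S s := by
            intro s hs
            refine HasDerivAt.hasDerivWithinAt ?_
            refine HasDerivAt.fun_sum fun t _ => ?_
            exact (hS s hs t).2.2.const_mul _
          have hinj : Set.InjOn (fun s => ∑ t, lam l t * Q t s) S :=
            (TrOne_strict (lam l) (hl0 l) (hl1 l) Q S fun t => (hQs t).mono hSsub).injOn
          calc ∫⁻ s in S, G l (∑ t, lam l t * Q t s) * (∏ t, (f t (Q t s)) ^ (lam l t))⁻¹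
              ≤ ∫⁻ s in S, ENNReal.ofReal |∑ t, lam l t * (1 / (f t (Q t s)).toReal)| *
                  G l (∑ t, lam l t * Q t s) := by
                refine setLIntegral_mono' hSm fun s hs => ?_
                rw [mul_comm]
                refine mul_le_mul_left ?_ _
                exact TrOne_amgm (lam l) (hl0 l) (hl1 l) (fun t => f t (Q t s)) fun t =>
                  ⟨(hS s hs t).1, (hS s hs t).2.1⟩
            _ = ∫⁻ x in (fun s => ∑ t, lam l t * Q t s) '' S, G l x :=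
                (lintegral_image_eq_lintegral_abs_deriv_mul hSm hder hinj (G l)).symm
            _ ≤ ∫⁻ x, G l x := setLIntegral_le_lintegral _ _

end Pool.Agent.Half
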