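import Pool.Agent.Lib_MP_33fb9b_half.TrOne
import Pool.Agent.Lib_MP_33fb9b_bft.AdPi

set_option autoImplicit false

/-!
# K10: multi-marginal transport in `Fin n → ℝ` and `P → ℝ` (blueprint C4, T_n)
-/

namespace Pool.Agent.Half

open MeasureTheory

private theorem trpi_mul_le (a c : ENNReal) : a / c * c ≤ a := by
  rw [mul_comm]
  exact ENNReal.mul_div_le

/-- `T_n`. Induction on `n` exactly as in `ad_fin` (`adpi_zero`, `adpi_succ`, `adpi_meas`). `n = 0`: one point,
`f t default = 1`. Step: `F t x = ∫⁻ s, f t (Fin.cons s x)` (or integrate the last coordinates; any order), for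
`x t` with all `0 < F t (x t) < ⊤` apply `tr_one` to `s ↦ f t (cons s (x t)) / F t (x t)`,
`b t (cons s (x t))`, `G l (cons s (∑ lam x)) * (∏ F t (x t)^lam)⁻¹`; then the induction hypothesis for `F`,
`B t x = (∫⁻ s, b t (cons s x) * f t (cons s x)) / F t x`, `Γ l z = ∫⁻ s, G l (cons s z)`. -/
theorem tr_fin (n : ℕ) {T : ℕ} {Λ : Type} [Fintype Λ] (lam : Λ → Fin (T + 1) → ℝ)
    (hl0 : ∀ l t, 0 ≤ lam l t) (hl1 : ∀ l, ∑ t, lam l t = 1)
    (f b : Fin (T + 1) → (Fin n → ℝ) → ENNReal) (hf : ∀ t, Measurable (f t))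
    (hb : ∀ t, Measurable (b t)) (hf1 : ∀ t, ∫⁻ x, f t x = 1) (G : Λ → (Fin n → ℝ) → ENNReal)
    (hG : ∀ l, Measurable (G l))
    (H : ∀ x : Fin (T + 1) → (Fin n → ℝ), (∀ t, 0 < f t (x t) ∧ f t (x t) < ⊤) →
      1 ≤ ∑ t, b t (x t) + ∑ l, G l (fun i => ∑ t, lam l t * x t i) *
        (∏ t, (f t (x t)) ^ (lam l t))⁻¹) :
    1 ≤ (∑ t, ∫⁻ x, b t x * f t x) + ∑ l, ∫⁻ x, G l x := by
  induction n with
  | zero =>
    have hf0 : ∀ t, f t default = 1 := fun t => by
      rw [← BFT.adpi_zero (f t)]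
      exact hf1 t
    have h := H (fun _ => (default : Fin 0 → ℝ)) (fun t => by
      simp only [hf0]
      exact ⟨one_pos, ENNReal.one_lt_top⟩)
    simp only [BFT.adpi_zero, hf0, mul_one]
    simp only [hf0, ENNReal.one_rpow, Finset.prod_const_one, inv_one, mul_one] at h
    refine h.trans (le_of_eq ?_)
    congr 1
    refine Finset.sum_congr rfl fun l _ => ?_
    congr 1
    exact Subsingleton.elim _ _
  | succ n ih =>
    have hbf : ∀ t, Measurable (fun x => b t x * f t x) := fun t => (hb t).mul (hf t)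
    have key := ih (fun t x => ∫⁻ s : ℝ, f t (Fin.cons s x))
      (fun t x => (∫⁻ s : ℝ, b t (Fin.cons s x) * f t (Fin.cons s x)) /
        ∫⁻ s : ℝ, f t (Fin.cons s x))
      (fun t => BFT.adpi_meas n (f t) (hf t))
      (fun t => (BFT.adpi_meas n _ (hbf t)).div (BFT.adpi_meas n (f t) (hf t)))
      (fun t => by
        rw [← BFT.adpi_succ n (f t) (hf t)]
        exact hf1 t)
      (fun l z => ∫⁻ s : ℝ, G l (Fin.cons s z))
      (fun l => BFT.adpi_meas n (G l) (hG l))
      ?_
    · refine key.trans (add_le_add (Finset.sum_le_sum fun t _ => ?_)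
        (Finset.sum_le_sum fun l _ => ?_))
      · rw [BFT.adpi_succ n _ (hbf t)]
        exact lintegral_mono fun x => trpi_mul_le _ _
      · rw [BFT.adpi_succ n _ (hG l)]
    · intro x hx
      have hF : ∀ t, (∫⁻ s : ℝ, f t (Fin.cons s (x t))) ≠ 0 ∧
          (∫⁻ s : ℝ, f t (Fin.cons s (x t))) ≠ ⊤ := fun t => ⟨(hx t).1.ne', (hx t).2.ne⟩
      have h1 := tr_one lam hl0 hl1
        (fun t s => f t (Fin.cons s (x t)) / ∫⁻ s : ℝ, f t (Fin.cons s (x t)))
        (fun t s => b t (Fin.cons s (x t)))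
        (fun t => (BFT.adpi_meas' n (f t) (hf t) (x t)).div_const _)
        (fun t => BFT.adpi_meas' n (b t) (hb t) (x t))
        (fun t => by
          simp only [div_eq_mul_inv]
          rw [lintegral_mul_const _ (BFT.adpi_meas' n (f t) (hf t) (x t))]
          exact ENNReal.mul_inv_cancel (hF t).1 (hF t).2)
        (fun l s => G l (Fin.cons s (fun i => ∑ t, lam l t * x t i)) *
          (∏ t, (∫⁻ s : ℝ, f t (Fin.cons s (x t))) ^ (lam l t))⁻¹)
        (fun l => (BFT.adpi_meas' n (G l) (hG l) _).mul_const _)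
        ?_
      · refine h1.trans (add_le_add (Finset.sum_le_sum fun t _ => ?_)
          (Finset.sum_le_sum fun l _ => ?_))
        · refine le_of_eq ?_
          simp only [div_eq_mul_inv, ← mul_assoc]
          rw [lintegral_mul_const _ (BFT.adpi_meas' n _ (hbf t) (x t))]
        · rw [lintegral_mul_const _ (BFT.adpi_meas' n (G l) (hG l) _)]
      · intro y hy
        have hpt : ∀ t, 0 < f t (Fin.cons (y t) (x t)) ∧ f t (Fin.cons (y t) (x t)) < ⊤ := by
          intro t
          obtain ⟨h2, h3⟩ := hy t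
          refine ⟨?_, ?_⟩
          · rw [pos_iff_ne_zero]
            intro h4
            simp only [h4, ENNReal.zero_div] at h2
            exact lt_irrefl _ h2
          · rw [lt_top_iff_ne_top]
            intro h4
            simp only [h4] at h3
            rw [ENNReal.top_div_of_ne_top (hF t).2] at h3
            exact lt_irrefl _ h3
        have h2 := H (fun t => Fin.cons (y t) (x t)) hpt
        refine h2.trans (le_of_eq ?_)
        congr 1
        refine Finset.sum_congr rfl fun l _ => ?_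
        have h3 : (fun i => ∑ t, lam l t * (Fin.cons (y t) (x t) : Fin (n + 1) → ℝ) i) =
            (Fin.cons (∑ t, lam l t * y t) (fun i => ∑ t, lam l t * x t i) :
              Fin (n + 1) → ℝ) := by
          funext i
          refine Fin.cases ?_ (fun i => ?_) i
          · rfl
          · rfl
        rw [h3, mul_assoc]
        congr 1
        have h4 : ∀ t, f t (Fin.cons (y t) (x t)) ^ (lam l t) =
            (∫⁻ s : ℝ, f t (Fin.cons s (x t))) ^ (lam l t) *
            (f t (Fin.cons (y t) (x t)) / ∫⁻ s : ℝ, f t (Fin.cons s (x t))) ^ (lam l t) := by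
          intro t
          rw [← ENNReal.mul_rpow_of_nonneg _ _ (hl0 l t),
            ENNReal.mul_div_cancel (hF t).1 (hF t).2]
        have h5 : ∏ t, f t (Fin.cons (y t) (x t)) ^ (lam l t) =
            (∏ t, (∫⁻ s : ℝ, f t (Fin.cons s (x t))) ^ (lam l t)) *
            ∏ t, (f t (Fin.cons (y t) (x t)) / ∫⁻ s : ℝ, f t (Fin.cons s (x t))) ^
              (lam l t) := by
          rw [← Finset.prod_mul_distrib]
          exact Finset.prod_congr rfl fun t _ => h4 t
        rw [h5, ENNReal.mul_inv]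
        · left
          rw [Finset.prod_ne_zero_iff]
          intro t _
          exact (ENNReal.rpow_pos (hx t).1 (hF t).2).ne'
        · left
          refine ENNReal.prod_ne_top fun t _ => ?_
          exact ENNReal.rpow_ne_top_of_nonneg (hl0 l t) (hF t).2

/-- the same on `P → ℝ` (`volume_measurePreserving_piCongrLeft`, see `ad_pi`) -/
theorem tr_pi (P : Type) [Fintype P] {T : ℕ} {Λ : Type} [Fintype Λ] (lam : Λ → Fin (T + 1) → ℝ)
    (hl0 : ∀ l t, 0 ≤ lam l t) (hl1 : ∀ l, ∑ t, lam l t = 1)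
    (f b : Fin (T + 1) → (P → ℝ) → ENNReal) (hf : ∀ t, Measurable (f t))
    (hb : ∀ t, Measurable (b t)) (hf1 : ∀ t, ∫⁻ x, f t x = 1) (G : Λ → (P → ℝ) → ENNReal)
    (hG : ∀ l, Measurable (G l))
    (H : ∀ x : Fin (T + 1) → (P → ℝ), (∀ t, 0 < f t (x t) ∧ f t (x t) < ⊤) →
      1 ≤ ∑ t, b t (x t) + ∑ l, G l (fun i => ∑ t, lam l t * x t i) *
        (∏ t, (f t (x t)) ^ (lam l t))⁻¹) :
    1 ≤ (∑ t, ∫⁻ x, b t x * f t x) + ∑ l, ∫⁻ x, G l x := by
  let e := Fintype.equivFin P
  have hmp := volume_measurePreserving_piCongrLeft (fun _ : P => ℝ) e.symm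
  have key : ∀ f : (P → ℝ) → ENNReal, Measurable f →
      ∫⁻ x, f x = ∫⁻ y : Fin (Fintype.card P) → ℝ, f (fun i => y (e i)) := by
    intro f hf
    rw [← hmp.lintegral_comp hf]
    refine lintegral_congr fun y => ?_
    congr 1
    funext i
    have h := MeasurableEquiv.piCongrLeft_apply_apply e.symm (β := fun _ : P => ℝ) y (e i)
    rw [Equiv.symm_apply_apply] at h
    exact h
  have hm : Measurable (fun y : Fin (Fintype.card P) → ℝ => fun i => y (e i)) := by
    rw [measurable_pi_iff]
    exact fun i => measurable_pi_apply _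
  have h1 : ∀ t, ∫⁻ x, b t x * f t x =
      ∫⁻ y : Fin (Fintype.card P) → ℝ, b t (fun i => y (e i)) * f t (fun i => y (e i)) :=
    fun t => key (fun x => b t x * f t x) ((hb t).mul (hf t))
  simp only [h1, key _ (hG _)]
  refine tr_fin _ lam hl0 hl1 (fun t y => f t (fun i => y (e i))) (fun t y => b t (fun i => y (e i)))
    (fun t => (hf t).comp hm) (fun t => (hb t).comp hm) (fun t => ?_)
    (fun l y => G l (fun i => y (e i))) (fun l => (hG l).comp hm) fun x hx => ?_
  · rw [← key (f t) (hf t)]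
    exact hf1 t
  · exact H (fun t i => x t (e i)) hx

end Pool.Agent.Half
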